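import Pool.Agent.X96.AR.Js

/-!
Axisymmetric flows (helper96): the averages `∫₀¹ lᵏ h(l x₀, l x₁, x₂) dl`.
-/

set_option autoImplicit false

open MeasureTheory Set Metric Filter Topology
open scoped ContDiff

namespace Pool.Agent.X96.AR

open H459R3.NS W221.NS Pool.Agent.TH305.DR Pool.Agent.TH305.AX
open Pool.Agent.W583.MD (sm_pd)

/-- horizontal scaling -/
def sc (l : ℝ) (x : V) : V := ![l * x 0, l * x 1, x 2]

/-- horizontal Euler operator -/
noncomputable def D (f : V → ℝ) (x : V) : ℝ := x 0 * pd 0 f x + x 1 * pd 1 f x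

/-- the angular derivative -/
noncomputable def R (f : V → ℝ) (x : V) : ℝ := x 0 * pd 1 f x - x 1 * pd 0 f x

/-- averages along the rays orthogonal to the axis -/
noncomputable def Av (k : ℕ) (h : V → ℝ) (x : V) : ℝ := ∫ l in (0 : ℝ)..1, l ^ k * h (sc l x)

lemma sc_one (x : V) : sc 1 x = x := by
  funext i
  fin_cases i <;> simp [sc]

lemma sm_sc : ContDiff ℝ ∞ (fun p : V × ℝ => sc p.2 p.1) := by
  rw [contDiff_pi]
  intro i
  fin_cases i
  · show ContDiff ℝ ∞ (fun p : V × ℝ => p.2 * p.1 0)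
    fun_prop
  · show ContDiff ℝ ∞ (fun p : V × ℝ => p.2 * p.1 1)
    fun_prop
  · show ContDiff ℝ ∞ (fun p : V × ℝ => p.1 2)
    fun_prop

/-- the scaling as a linear map -/
noncomputable def scL (l : ℝ) : V →L[ℝ] V :=
  ContinuousLinearMap.pi fun i => (if i = 2 then (1 : ℝ) else l) •
    ContinuousLinearMap.proj (R := ℝ) (φ := fun _ : Fin 3 => ℝ) i

lemma scL_apply (l : ℝ) (x : V) : scL l x = sc l x := by
  funext i
  fin_cases i <;> simp [scL, sc]

lemma scL_single (l : ℝ) (j : Fin 3) :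
    scL l (Pi.single j 1) = (if j = 2 then (1 : ℝ) else l) • (Pi.single j 1 : V) := by
  rw [scL_apply]
  funext i
  fin_cases i <;> fin_cases j <;> simp [sc]

lemma hd_sc (l : ℝ) (x : V) : HasFDerivAt (sc l) (scL l) x := by
  have h : sc l = scL l := by funext y; exact (scL_apply l y).symm
  rw [h]
  exact (scL l).hasFDerivAt

variable {h w : V → ℝ}

lemma pd_sc (hh : ContDiff ℝ ∞ h) (l : ℝ) (j : Fin 3) (x : V) :
    pd j (fun y => h (sc l y)) x = (if j = 2 then (1 : ℝ) else l) * pd j h (sc l x) := by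
  have h1 : HasFDerivAt h (fderiv ℝ h (sc l x)) (sc l x) :=
    ((hh.differentiable (by norm_cast)) _).hasFDerivAt
  have h2 : HasFDerivAt (fun y => h (sc l y)) _ x := h1.comp x (hd_sc l x)
  unfold pd
  rw [h2.fderiv]
  rw [ContinuousLinearMap.comp_apply, scL_single, map_smul, smul_eq_mul]

lemma sm_F (hh : ContDiff ℝ ∞ h) (k : ℕ) :
    ContDiff ℝ ∞ (fun p : V × ℝ => p.2 ^ k * h (sc p.2 p.1)) :=
  (contDiff_snd.pow k).mul (hh.comp sm_sc)

lemma sm_Av (hh : ContDiff ℝ ∞ h) (k : ℕ) : ContDiff ℝ ∞ (Av k h) :=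
  Pool.Agent.W585.contDiff_param (F := fun x l => l ^ k * h (sc l x)) (sm_F hh k) 0 1

lemma ct_F (hh : ContDiff ℝ ∞ h) (k : ℕ) (x : V) : Continuous fun l : ℝ => l ^ k * h (sc l x) :=
  (sm_F hh k).continuous.comp (continuous_const.prodMk continuous_id)

lemma pd_Av (hh : ContDiff ℝ ∞ h) (k : ℕ) (j : Fin 3) (x : V) :
    pd j (Av k h) x = ∫ l in (0 : ℝ)..1, l ^ k * ((if j = 2 then (1 : ℝ) else l)
      * pd j h (sc l x)) := by
  have hs : ContDiff ℝ 1 (fun p : V × ℝ => (fun x l => l ^ k * h (sc l x)) p.1 p.2) :=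
    (sm_F hh k).of_le (by norm_cast)
  have h1 := Pool.Agent.W585.hasFDerivAt_param (F := fun x l => l ^ k * h (sc l x)) hs 0 1 x
  have h2 := Pool.Agent.W585.continuous_fderiv_param (F := fun x l => l ^ k * h (sc l x)) hs x
  unfold pd
  have e0 : Av k h = fun x => ∫ l in (0 : ℝ)..1, (fun x l => l ^ k * h (sc l x)) x l := rfl
  rw [e0, h1.fderiv, ContinuousLinearMap.intervalIntegral_apply (h2.intervalIntegrable _ _)]
  refine intervalIntegral.integral_congr fun l _ => ?_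
  have h3 := pd_sc hh l j x
  unfold pd at h3
  show (fderiv ℝ (fun y => l ^ k * h (sc l y)) x) (Pi.single j 1) = _
  have h4 : DifferentiableAt ℝ (fun y => h (sc l y)) x := by
    have h5 : HasFDerivAt h (fderiv ℝ h (sc l x)) (sc l x) :=
      ((hh.differentiable (by norm_cast)) _).hasFDerivAt
    exact (h5.comp x (hd_sc l x)).differentiableAt
  rw [fderiv_const_mul h4]
  show l ^ k * (fderiv ℝ (fun y => h (sc l y)) x) (Pi.single j 1) = _
  rw [h3]

lemma pd_Av0 (hh : ContDiff ℝ ∞ h) (k : ℕ) : pd 0 (Av k h) = Av (k + 1) (pd 0 h) := by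
  funext x
  rw [pd_Av hh]
  refine intervalIntegral.integral_congr fun l _ => ?_
  simp
  ring

lemma pd_Av1 (hh : ContDiff ℝ ∞ h) (k : ℕ) : pd 1 (Av k h) = Av (k + 1) (pd 1 h) := by
  funext x
  rw [pd_Av hh]
  refine intervalIntegral.integral_congr fun l _ => ?_
  simp
  ring

lemma pd_Av2 (hh : ContDiff ℝ ∞ h) (k : ℕ) : pd 2 (Av k h) = Av k (pd 2 h) := by
  funext x
  rw [pd_Av hh]
  refine intervalIntegral.integral_congr fun l _ => ?_
  simp

lemma ray_hd (hh : ContDiff ℝ ∞ h) (l : ℝ) (x : V) :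
    HasDerivAt (fun l => h (sc l x)) (x 0 * pd 0 h (sc l x) + x 1 * pd 1 h (sc l x)) l := by
  have h1 : HasDerivAt (fun l : ℝ => sc l x) ![x 0, x 1, 0] l := by
    rw [hasDerivAt_pi]
    intro i
    fin_cases i
    · show HasDerivAt (fun l : ℝ => l * x 0) (x 0) l
      simpa using (hasDerivAt_id l).mul_const (x 0)
    · show HasDerivAt (fun l : ℝ => l * x 1) (x 1) l
      simpa using (hasDerivAt_id l).mul_const (x 1)
    · show HasDerivAt (fun _ : ℝ => x 2) 0 l
      exact hasDerivAt_const _ _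
  have h2 : HasFDerivAt h (fderiv ℝ h (sc l x)) (sc l x) :=
    ((hh.differentiable (by norm_cast)) _).hasFDerivAt
  have h3 := h2.comp_hasDerivAt l h1
  refine h3.congr_deriv ?_
  rw [pd_vec, Fin.sum_univ_three]
  simp

lemma D_sc (x : V) (l : ℝ) : D h (sc l x) = l * (x 0 * pd 0 h (sc l x) + x 1 * pd 1 h (sc l x)) := by
  unfold D
  have e0 : (sc l x) 0 = l * x 0 := rfl
  have e1 : (sc l x) 1 = l * x 1 := rfl
  rw [e0, e1]
  ring

lemma sm_D (hh : ContDiff ℝ ∞ h) : ContDiff ℝ ∞ (D h) :=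
  ((sm_crd 0).mul (sm_pd hh 0)).add ((sm_crd 1).mul (sm_pd hh 1))

lemma sm_R (hh : ContDiff ℝ ∞ h) : ContDiff ℝ ∞ (R h) :=
  ((sm_crd 0).mul (sm_pd hh 1)).sub ((sm_crd 1).mul (sm_pd hh 0))

lemma D_Av (hh : ContDiff ℝ ∞ h) (k : ℕ) : D (Av k h) = Av k (D h) := by
  funext x
  have h0 := (ct_F (sm_pd hh 0) (k + 1) x).intervalIntegrable (μ := volume) 0 1
  have h1 := (ct_F (sm_pd hh 1) (k + 1) x).intervalIntegrable (μ := volume) 0 1
  have e : D (Av k h) x = x 0 * Av (k + 1) (pd 0 h) x + x 1 * Av (k + 1) (pd 1 h) x := by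
    unfold D
    rw [pd_Av0 hh, pd_Av1 hh]
  rw [e]
  unfold Av
  rw [← intervalIntegral.integral_const_mul, ← intervalIntegral.integral_const_mul,
    ← intervalIntegral.integral_add (h0.const_mul _) (h1.const_mul _)]
  refine intervalIntegral.integral_congr fun l _ => ?_
  rw [D_sc]
  ring

lemma R_Av (hh : ContDiff ℝ ∞ h) (k : ℕ) : R (Av k h) = Av k (R h) := by
  funext x
  have h0 := (ct_F (sm_pd hh 0) (k + 1) x).intervalIntegrable (μ := volume) 0 1
  have h1 := (ct_F (sm_pd hh 1) (k + 1) x).intervalIntegrable (μ := volume) 0 1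
  have e : R (Av k h) x = x 0 * Av (k + 1) (pd 1 h) x - x 1 * Av (k + 1) (pd 0 h) x := by
    unfold R
    rw [pd_Av0 hh, pd_Av1 hh]
  rw [e]
  unfold Av
  rw [← intervalIntegral.integral_const_mul, ← intervalIntegral.integral_const_mul,
    ← intervalIntegral.integral_sub (h1.const_mul _) (h0.const_mul _)]
  refine intervalIntegral.integral_congr fun l _ => ?_
  unfold R
  have e0 : (sc l x) 0 = l * x 0 := rfl
  have e1 : (sc l x) 1 = l * x 1 := rfl
  rw [e0, e1]
  ring

/-- the differential equation of the average -/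
lemma Av_ode (hh : ContDiff ℝ ∞ h) (k : ℕ) (x : V) :
    (k + 1 : ℝ) * Av k h x + D (Av k h) x = h x := by
  rw [D_Av hh]
  have h0 := (ct_F hh k x).intervalIntegrable (μ := volume) 0 1
  have h1 := (ct_F (sm_D hh) k x).intervalIntegrable (μ := volume) 0 1
  unfold Av
  rw [← intervalIntegral.integral_const_mul, ← intervalIntegral.integral_add (h0.const_mul _) h1]
  have h2 : ∀ l ∈ uIcc (0 : ℝ) 1, HasDerivAt (fun l => l ^ (k + 1) * h (sc l x))
      ((k + 1 : ℝ) * (l ^ k * h (sc l x)) + l ^ k * D h (sc l x)) l := by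
    intro l _
    have h3 := (hasDerivAt_pow (k + 1) l).mul (ray_hd hh l x)
    refine h3.congr_deriv ?_
    rw [D_sc]
    simp only [Nat.add_sub_cancel]
    push_cast
    ring
  rw [intervalIntegral.integral_eq_sub_of_hasDerivAt h2 ((h0.const_mul _).add h1)]
  simp [sc_one]

/-- uniqueness -/
lemma ray_uniq (hw : ContDiff ℝ ∞ w) {k : ℕ} (hk : 1 ≤ k) (h0 : ∀ x, (k : ℝ) * w x + D w x = 0)
    (x : V) : w x = 0 := by
  obtain ⟨m, rfl⟩ : ∃ m, k = m + 1 := ⟨k - 1, by omega⟩
  have h1 := (ct_F hw m x).intervalIntegrable (μ := volume) 0 1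
  have h2 := (ct_F (sm_D hw) m x).intervalIntegrable (μ := volume) 0 1
  have h3 : ∀ l ∈ uIcc (0 : ℝ) 1, HasDerivAt (fun l => l ^ (m + 1) * w (sc l x))
      ((m + 1 : ℝ) * (l ^ m * w (sc l x)) + l ^ m * D w (sc l x)) l := by
    intro l _
    have h3 := (hasDerivAt_pow (m + 1) l).mul (ray_hd hw l x)
    refine h3.congr_deriv ?_
    rw [D_sc]
    simp only [Nat.add_sub_cancel]
    push_cast
    ring
  have h4 := intervalIntegral.integral_eq_sub_of_hasDerivAt h3 ((h1.const_mul _).add h2)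
  have h5 : ∫ l in (0 : ℝ)..1, ((m + 1 : ℝ) * (l ^ m * w (sc l x)) + l ^ m * D w (sc l x)) = 0 := by
    have : ∀ l : ℝ, (m + 1 : ℝ) * (l ^ m * w (sc l x)) + l ^ m * D w (sc l x) = 0 := by
      intro l
      have := h0 (sc l x)
      push_cast at this
      linear_combination l ^ m * this
    simp only [this, intervalIntegral.integral_zero]
  rw [h5] at h4
  simpa [sc_one] using h4.symm

lemma ray_zero (hw : ContDiff ℝ ∞ w) (h0 : ∀ x, D w x = 0) (x : V) : w x = w (sc 0 x) := by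
  have hc : Continuous fun l : ℝ => x 0 * pd 0 w (sc l x) + x 1 * pd 1 w (sc l x) := by
    have c : Continuous fun l : ℝ => sc l x :=
      sm_sc.continuous.comp (continuous_const.prodMk continuous_id)
    exact (continuous_const.mul ((sm_pd hw 0).continuous.comp c)).add
      (continuous_const.mul ((sm_pd hw 1).continuous.comp c))
  have h4 := intervalIntegral.integral_eq_sub_of_hasDerivAt (a := 0) (b := 1)
    (fun l _ => ray_hd hw l x) (hc.intervalIntegrable _ _)
  have h5 : ∫ l in (0 : ℝ)..1, (x 0 * pd 0 w (sc l x) + x 1 * pd 1 w (sc l x)) = 0 := by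
    rw [intervalIntegral.integral_of_le zero_le_one]
    refine (setIntegral_congr_fun measurableSet_Ioc (g := fun _ => (0 : ℝ)) ?_).trans (by simp)
    intro l hl
    have h6 := h0 (sc l x)
    rw [D_sc] at h6
    rcases mul_eq_zero.1 h6 with h7 | h7
    · exact absurd h7 hl.1.ne'
    · exact h7
  rw [h5] at h4
  rw [sc_one] at h4
  linarith

/-- joint smoothness of the average -/
lemma JT.Av {F : ℝ → V → ℝ} {a b : ℝ} (hF : JT a b F) (k : ℕ) : JT a b (fun t => Av k (F t)) := by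
  rintro ⟨t₀, x₀⟩ ⟨ht₀, -⟩
  apply ContDiffAt.contDiffWithinAt
  obtain ⟨δ, hδ, hball⟩ := Metric.isOpen_iff.1 (isOpen_Ioo (a := a) (b := b)) t₀ ht₀
  -- a cutoff in time
  have hd : 0 < δ / 2 := by positivity
  let χ : ContDiffBump t₀ := ⟨δ / 4, δ / 2, by positivity, by linarith⟩
  have hG : ContDiff ℝ ∞ (fun z : ℝ × V => χ z.1 * F z.1 z.2) := by
    rw [contDiff_iff_contDiffAt]
    rintro ⟨t, x⟩
    by_cases ht : t ∈ Ioo a b
    · have h1 : ContDiffAt ℝ ∞ (fun z : ℝ × V => F z.1 z.2) (t, x) :=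
        ContDiffOn.contDiffAt hF (prod_mem_nhds (Ioo_mem_nhds ht.1 ht.2) univ_mem)
      exact (χ.contDiff.contDiffAt.comp (t, x) contDiffAt_fst).mul h1
    · have h1 : t ∉ closedBall t₀ (δ / 2) := fun hc =>
        ht (hball (closedBall_subset_ball (by linarith) hc))
      have h2 : ∀ᶠ z : ℝ × V in 𝓝 (t, x), χ z.1 * F z.1 z.2 = 0 := by
        have h3 : ∀ᶠ s in 𝓝 t, s ∉ closedBall t₀ (δ / 2) :=
          isClosed_closedBall.isOpen_compl.mem_nhds h1
        have h4 : Tendsto (fun z : ℝ × V => z.1) (𝓝 (t, x)) (𝓝 t) := continuous_fst.tendsto _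
        filter_upwards [h4.eventually h3] with z hz
        have : χ z.1 = 0 := by
          apply χ.zero_of_le_dist
          rw [mem_closedBall, not_le] at hz
          exact hz.le
        rw [this, zero_mul]
      exact (contDiffAt_const (c := (0 : ℝ))).congr_of_eventuallyEq h2
  have hs : ContDiff ℝ ∞ (fun q : (ℝ × V) × ℝ => q.2 ^ k *
      (χ q.1.1 * F q.1.1 (sc q.2 q.1.2))) := by
    have h1 : ContDiff ℝ ∞ (fun q : (ℝ × V) × ℝ => (q.1.1, sc q.2 q.1.2)) :=
      (contDiff_fst.comp contDiff_fst).prodMk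
        (sm_sc.comp ((contDiff_snd.comp contDiff_fst).prodMk contDiff_snd))
    exact (contDiff_snd.pow k).mul (hG.comp h1)
  have h1 := Pool.Agent.W585.contDiff_param
    (F := fun (z : ℝ × V) (l : ℝ) => l ^ k * (χ z.1 * F z.1 (sc l z.2))) hs 0 1
  refine h1.contDiffAt.congr_of_eventuallyEq ?_
  have h2 : ∀ᶠ s in 𝓝 t₀, s ∈ closedBall t₀ (δ / 4) := closedBall_mem_nhds t₀ (by positivity)
  have h4 : Tendsto (fun z : ℝ × V => z.1) (𝓝 (t₀, x₀)) (𝓝 t₀) := continuous_fst.tendsto _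
  filter_upwards [h4.eventually h2] with z hz
  have e : χ z.1 = 1 := χ.one_of_mem_closedBall hz
  show ∫ l in (0 : ℝ)..1, l ^ k * F z.1 (sc l z.2) = _
  simp only [e, one_mul]

end Pool.Agent.X96.AR
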