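import Pool.Agent.X96.AR.En

/-!
Square integrable functions with all their derivatives (helper96); averages.
-/

set_option autoImplicit false

open MeasureTheory Set Metric Filter Topology
open scoped ContDiff ENNReal

namespace Pool.Agent.X96.AR

open H459R3.NS W221.NS Pool.Agent.TH305.DR Pool.Agent.TH305.AX
open Pool.Agent.W583.MD (sm_pd cs_pd pd_mul' Z Z.add Z.sub Z.smul Z.sum int_cs Z_pd)

/-- the scaling of the measure -/
lemma map_sc {l : ℝ} (hl : 0 < l) : Measure.map (sc l) (volume : Measure V)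
    = ENNReal.ofReal (l ^ 2)⁻¹ • (volume : Measure V) := by
  have hM : (Matrix.diagonal ![l, l, 1]).det = l ^ 2 := by
    rw [Matrix.det_diagonal, Fin.prod_univ_three]
    simp
    ring
  have h := Real.map_matrix_volume_pi_eq_smul_volume_pi (M := Matrix.diagonal ![l, l, 1])
    (by rw [hM]; positivity)
  have e : (sc l : V → V) = Matrix.toLin' (Matrix.diagonal ![l, l, 1]) := by
    funext x
    rw [Matrix.toLin'_apply]
    funext i
    rw [Matrix.mulVec_diagonal]
    fin_cases i <;> simp [sc]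
  rw [e, h, hM, abs_of_pos (by positivity)]

lemma ct_sc : Continuous (fun p : V × ℝ => sc p.2 p.1) := sm_sc.continuous

lemma jensen {φ : ℝ → ℝ} (hφ : Continuous φ) :
    (∫ l in (0 : ℝ)..1, φ l) ^ 2 ≤ ∫ l in (0 : ℝ)..1, φ l ^ 2 := by
  set m : ℝ := ∫ l in (0 : ℝ)..1, φ l with hm
  have h0 : 0 ≤ ∫ l in (0 : ℝ)..1, (φ l - m) ^ 2 :=
    intervalIntegral.integral_nonneg zero_le_one fun l _ => sq_nonneg _
  have i1 : IntervalIntegrable (fun l => φ l ^ 2) volume 0 1 := (hφ.pow 2).intervalIntegrable _ _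
  have i2 : IntervalIntegrable (fun l => 2 * m * φ l) volume 0 1 :=
    (hφ.intervalIntegrable _ _).const_mul _
  have e : ∫ l in (0 : ℝ)..1, (φ l - m) ^ 2 = (∫ l in (0 : ℝ)..1, φ l ^ 2) - m ^ 2 := by
    have e1 : ∀ l, (φ l - m) ^ 2 = (φ l ^ 2 - 2 * m * φ l) + m ^ 2 := fun l => by ring
    simp only [e1]
    rw [intervalIntegral.integral_add (i1.sub i2) intervalIntegrable_const,
      intervalIntegral.integral_sub i1 i2, intervalIntegral.integral_const_mul,
      intervalIntegral.integral_const, ← hm]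
    simp
    ring
  rw [e] at h0
  linarith

lemma av_l2 {h : V → ℝ} (hh : Continuous h) {k : ℕ} (hk : 1 ≤ k) :
    ∫⁻ x, ENNReal.ofReal (Av k h x ^ 2) ≤ ∫⁻ x, ENNReal.ofReal (h x ^ 2) := by
  have hct : ∀ x, Continuous fun l : ℝ => l ^ k * h (sc l x) := fun x =>
    (continuous_pow k).mul (hh.comp (ct_sc.comp (continuous_const.prodMk continuous_id)))
  have hm2 : Measurable fun p : V × ℝ => ENNReal.ofReal ((p.2 ^ k * h (sc p.2 p.1)) ^ 2) := by
    have : Continuous fun p : V × ℝ => (p.2 ^ k * h (sc p.2 p.1)) ^ 2 :=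
      ((continuous_snd.pow k).mul (hh.comp ct_sc)).pow 2
    exact this.measurable.ennreal_ofReal
  calc ∫⁻ x, ENNReal.ofReal (Av k h x ^ 2)
      ≤ ∫⁻ x, ∫⁻ l in Ioc (0 : ℝ) 1, ENNReal.ofReal ((l ^ k * h (sc l x)) ^ 2) := by
        refine lintegral_mono fun x => ?_
        rw [← ofReal_integral_eq_lintegral_ofReal]
        · apply ENNReal.ofReal_le_ofReal
          have := jensen (hct x)
          rw [intervalIntegral.integral_of_le zero_le_one (f := fun l => (l ^ k * h (sc l x)) ^ 2)]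
            at this
          exact this
        · exact ((hct x).pow 2).integrableOn_Ioc
        · exact Eventually.of_forall fun l => sq_nonneg _
    _ = ∫⁻ l in Ioc (0 : ℝ) 1, ∫⁻ x, ENNReal.ofReal ((l ^ k * h (sc l x)) ^ 2) := by
        rw [lintegral_lintegral_swap]
        exact hm2.aemeasurable
    _ ≤ ∫⁻ l in Ioc (0 : ℝ) 1, ∫⁻ x, ENNReal.ofReal (h x ^ 2) := by
        refine setLIntegral_mono_ae' measurableSet_Ioc (Eventually.of_forall fun l hl => ?_)
        have hl0 : 0 < l := hl.1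
        have e1 : ∀ x, ENNReal.ofReal ((l ^ k * h (sc l x)) ^ 2)
            = ENNReal.ofReal ((l ^ k) ^ 2) * ENNReal.ofReal (h (sc l x) ^ 2) := by
          intro x
          rw [mul_pow, ENNReal.ofReal_mul (by positivity)]
        simp only [e1]
        have hmh : Measurable fun x => ENNReal.ofReal (h x ^ 2) :=
          (hh.pow 2).measurable.ennreal_ofReal
        have hsc : Continuous (sc l) := ct_sc.comp (continuous_id.prodMk continuous_const)
        have hms : Measurable fun x => ENNReal.ofReal (h (sc l x) ^ 2) :=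
          ((hh.comp hsc).pow 2).measurable.ennreal_ofReal
        rw [lintegral_const_mul _ hms]
        have e2 : ∫⁻ x, ENNReal.ofReal (h (sc l x) ^ 2)
            = ENNReal.ofReal (l ^ 2)⁻¹ * ∫⁻ x, ENNReal.ofReal (h x ^ 2) := by
          rw [← lintegral_map hmh hsc.measurable, map_sc hl0, lintegral_smul_measure, smul_eq_mul]
        rw [e2, ← mul_assoc, ← ENNReal.ofReal_mul (by positivity)]
        have h3 : (l ^ k) ^ 2 * (l ^ 2)⁻¹ ≤ 1 := by
          rw [mul_inv_le_iff₀ (by positivity), one_mul]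
          exact pow_le_pow_left₀ (by positivity) ((pow_le_pow_of_le_one hl0.le hl.2 hk).trans
            (by rw [pow_one])) 2
        calc ENNReal.ofReal ((l ^ k) ^ 2 * (l ^ 2)⁻¹) * ∫⁻ x, ENNReal.ofReal (h x ^ 2)
            ≤ 1 * ∫⁻ x, ENNReal.ofReal (h x ^ 2) := by
              gcongr
              exact ENNReal.ofReal_le_one.2 h3
          _ = _ := one_mul _
    _ = ∫⁻ x, ENNReal.ofReal (h x ^ 2) := by
        rw [lintegral_const]
        simp

lemma M2.Av {h : V → ℝ} (hs : ContDiff ℝ ∞ h) (hh : M2 h) {k : ℕ} (hk : 1 ≤ k) :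
    M2 (Av k h) ∧ ∫ x, Av k h x ^ 2 ≤ ∫ x, h x ^ 2 := by
  have hc := (sm_Av hs k).continuous
  have h1 := av_l2 hh.ct hk
  have h2 : ∫⁻ x, ENNReal.ofReal (h x ^ 2) = ENNReal.ofReal (∫ x, h x ^ 2) :=
    (ofReal_integral_eq_lintegral_ofReal hh.sq (Eventually.of_forall fun x => sq_nonneg _)).symm
  have h3 : Integrable fun x => Pool.Agent.X96.AR.Av k h x ^ 2 := by
    refine ⟨(hc.pow 2).aestronglyMeasurable, ?_⟩
    rw [hasFiniteIntegral_iff_ofReal (Eventually.of_forall fun x => sq_nonneg _)]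
    exact h1.trans_lt (by rw [h2]; exact ENNReal.ofReal_lt_top)
  refine ⟨⟨hc, h3⟩, ?_⟩
  have h4 : ∫⁻ x, ENNReal.ofReal (Pool.Agent.X96.AR.Av k h x ^ 2)
      = ENNReal.ofReal (∫ x, Pool.Agent.X96.AR.Av k h x ^ 2) :=
    (ofReal_integral_eq_lintegral_ofReal h3 (Eventually.of_forall fun x => sq_nonneg _)).symm
  rw [h4, h2] at h1
  exact (ENNReal.ofReal_le_ofReal_iff (integral_nonneg fun x => sq_nonneg _)).1 h1

lemma Av_le {h : V → ℝ} {C : ℝ} (hb : ∀ x, |h x| ≤ C) (k : ℕ) (x : V) : |Av k h x| ≤ C := by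
  unfold Av
  have hC : 0 ≤ C := (abs_nonneg _).trans (hb x)
  have := intervalIntegral.norm_integral_le_of_norm_le_const (a := (0 : ℝ)) (b := 1) (C := C)
    (f := fun l => l ^ k * h (sc l x)) (fun l hl => by
      rw [uIoc_of_le zero_le_one] at hl
      rw [norm_mul, Real.norm_eq_abs, Real.norm_eq_abs, abs_of_nonneg (pow_nonneg hl.1.le k)]
      calc l ^ k * |h (sc l x)| ≤ 1 * C :=
            mul_le_mul (pow_le_one₀ hl.1.le hl.2) (hb _) (abs_nonneg _) zero_le_one
        _ = C := one_mul _)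
  simpa using this

/-! ### the class -/

/-- `F t` and its partial derivatives of order at most `n` are continuous, bounded and square
integrable, uniformly for `t ∈ S`. -/
def HB : ℕ → Set ℝ → (ℝ → V → ℝ) → Prop
  | 0, S, F => Bd S F ∧ B2 S F
  | n + 1, S, F => (Bd S F ∧ B2 S F) ∧ ∀ j, HB n S (fun t => pd j (F t))

variable {S : Set ℝ} {F G : ℝ → V → ℝ}

lemma HB.base : ∀ {n : ℕ} {F : ℝ → V → ℝ}, HB n S F → Bd S F ∧ B2 S F
  | 0, _, h => h
  | _ + 1, _, h => h.1

lemma Bd.congr (hF : Bd S F) (h : ∀ t ∈ S, F t = G t) : Bd S G := by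
  obtain ⟨A, hA, hF⟩ := hF
  exact ⟨A, hA, fun t ht => by rw [← h t ht]; exact hF t ht⟩

lemma HB.congr {n : ℕ} : ∀ {F G : ℝ → V → ℝ}, HB n S F → (∀ t ∈ S, F t = G t) → HB n S G := by
  induction n with
  | zero => exact fun h e => ⟨h.1.congr e, h.2.congr e⟩
  | succ n ih =>
    intro F G h e
    exact ⟨⟨h.1.1.congr e, h.1.2.congr e⟩, fun j => ih (h.2 j) fun t ht => by rw [e t ht]⟩

lemma Bd.add (hF : Bd S F) (hG : Bd S G) : Bd S fun t x => F t x + G t x := by
  obtain ⟨A, hA, hF⟩ := hF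
  obtain ⟨B, hB, hG⟩ := hG
  exact ⟨A + B, by positivity, fun t ht => ⟨(hF t ht).1.add (hG t ht).1, fun x =>
    (abs_add_le _ _).trans (add_le_add ((hF t ht).2 x) ((hG t ht).2 x))⟩⟩

lemma Bd.cmul (hF : Bd S F) (c : ℝ) : Bd S fun t x => c * F t x := by
  obtain ⟨A, hA, hF⟩ := hF
  exact ⟨|c| * A, by positivity, fun t ht => ⟨continuous_const.mul (hF t ht).1, fun x => by
    rw [abs_mul]
    exact mul_le_mul_of_nonneg_left ((hF t ht).2 x) (abs_nonneg _)⟩⟩

/-- smooth, all derivatives bounded and square integrable -/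
structure HI (S : Set ℝ) (F : ℝ → V → ℝ) : Prop where
  sm : ∀ t ∈ S, ContDiff ℝ ∞ (F t)
  hb : ∀ n, HB n S F

namespace HI

lemma bd (h : HI S F) : Bd S F := (h.hb 0).1

lemma b2 (h : HI S F) : B2 S F := (h.hb 0).2

lemma pd (h : HI S F) (j : Fin 3) : HI S fun t => pd j (F t) :=
  ⟨fun t ht => sm_pd (h.sm t ht) j, fun n => (h.hb (n + 1)).2 j⟩

lemma congr (h : HI S F) (e : ∀ t ∈ S, F t = G t) : HI S G :=
  ⟨fun t ht => by rw [← e t ht]; exact h.sm t ht, fun n => (h.hb n).congr e⟩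

lemma add (hF : HI S F) (hG : HI S G) : HI S fun t x => F t x + G t x := by
  refine ⟨fun t ht => (hF.sm t ht).add (hG.sm t ht), fun n => ?_⟩
  induction n generalizing F G with
  | zero => exact ⟨hF.bd.add hG.bd, hF.b2.add hG.b2⟩
  | succ n ih =>
    refine ⟨⟨hF.bd.add hG.bd, hF.b2.add hG.b2⟩, fun j => ?_⟩
    exact (ih (hF.pd j) (hG.pd j)).congr fun t ht => (pd_add' (hF.sm t ht) (hG.sm t ht) j).symm

lemma cmul (hF : HI S F) (c : ℝ) : HI S fun t x => c * F t x := by
  refine ⟨fun t ht => contDiff_const.mul (hF.sm t ht), fun n => ?_⟩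
  induction n generalizing F with
  | zero => exact ⟨hF.bd.cmul c, hF.b2.cmul c⟩
  | succ n ih =>
    refine ⟨⟨hF.bd.cmul c, hF.b2.cmul c⟩, fun j => ?_⟩
    exact (ih (hF.pd j)).congr fun t ht => (pd_cmul _ _ _).symm

lemma sub (hF : HI S F) (hG : HI S G) : HI S fun t x => F t x - G t x :=
  (hF.add (hG.cmul (-1))).congr fun t _ => by funext x; ring

lemma Av (hF : HI S F) {k : ℕ} (hk : 1 ≤ k) : HI S fun t => Av k (F t) := by
  refine ⟨fun t ht => sm_Av (hF.sm t ht) k, fun n => ?_⟩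
  have hbase : ∀ (F : ℝ → V → ℝ) (k : ℕ), 1 ≤ k → HI S F →
      Bd S (fun t => Pool.Agent.X96.AR.Av k (F t)) ∧ B2 S (fun t => Pool.Agent.X96.AR.Av k (F t)) := by
    intro F k hk hF
    obtain ⟨C, hC, h1⟩ := hF.bd
    obtain ⟨A, hA, h2⟩ := hF.b2
    refine ⟨⟨C, hC, fun t ht => ⟨(sm_Av (hF.sm t ht) k).continuous, fun x =>
      Av_le (h1 t ht).2 k x⟩⟩, ⟨A, hA, fun t ht => ?_⟩⟩
    obtain ⟨m1, m2⟩ := M2.Av (hF.sm t ht) (h2 t ht).1 hk
    exact ⟨m1, m2.trans (h2 t ht).2⟩
  induction n generalizing F k with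
  | zero => exact hbase F k hk hF
  | succ n ih =>
    refine ⟨hbase F k hk hF, fun j => ?_⟩
    fin_cases j
    · exact (ih (hF.pd 0) (k := k + 1) (by omega)).congr fun t ht =>
        (pd_Av0 (hF.sm t ht) k).symm
    · exact (ih (hF.pd 1) (k := k + 1) (by omega)).congr fun t ht =>
        (pd_Av1 (hF.sm t ht) k).symm
    · exact (ih (hF.pd 2) (k := k) hk).congr fun t ht => (pd_Av2 (hF.sm t ht) k).symm

lemma dlt (hF : HI S F) : HI S fun t => dlt (F t) :=
  (((hF.pd 0).pd 0).add ((hF.pd 1).pd 1)).Av le_rfl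

lemma lap (hF : HI S F) : HI S fun t => lap (F t) := by
  refine ((((hF.pd 0).pd 0).add ((hF.pd 1).pd 1)).add ((hF.pd 2).pd 2)).congr fun t _ => ?_
  funext x
  unfold H459R3.NS.lap
  rw [Fin.sum_univ_three]

end HI

end Pool.Agent.X96.AR
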