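import Pool.Agent.X96.AR.Cls

/-!
Square integrability of the derived quantities of an axisymmetric field (helper96).
-/

set_option autoImplicit false

open MeasureTheory Set Metric Filter Topology
open scoped ContDiff ENNReal

namespace Pool.Agent.X96.AR

open H459R3.NS W221.NS Pool.Agent.TH305.DR Pool.Agent.TH305.AX
open Pool.Agent.W583.MD (sm_pd cs_pd pd_mul' Z Z.add Z.sub Z.smul Z.sum int_cs Z_pd)

/-- a family of smooth axisymmetric divergence free fields, with all derivatives bounded and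
square integrable -/
structure AF (S : Set ℝ) (u : ℝ → V → V) : Prop where
  sm : ∀ t ∈ S, ContDiff ℝ ∞ (u t)
  ax : ∀ t ∈ S, Axi (u t)
  dv : ∀ t ∈ S, ∀ x, ∑ i, pd i (fun y => u t y i) x = 0
  hi : ∀ i, HI S fun t y => u t y i

variable {S : Set ℝ} {u : ℝ → V → V} {F G : ℝ → V → ℝ}

lemma D_pd2 {f : V → ℝ} (hf : ContDiff ℝ ∞ f) (x : V) : D (pd 2 f) x = pd 2 (D f) x := by
  have e : D f = fun y => (fun y : V => y 0 * pd 0 f y) y + (fun y : V => y 1 * pd 1 f y) y := rfl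
  rw [e, pd_add' ((sm_crd 0).mul (sm_pd hf 0)) ((sm_crd 1).mul (sm_pd hf 1))]
  beta_reduce
  rw [pd_c0 2 (sm_pd hf 0) 0, pd_c0 2 (sm_pd hf 1) 1, pd_sym hf 2 0, pd_sym hf 2 1]
  unfold D
  simp

/-- `G² ≤ C (a² + b²)` -/
lemma B2.of_sq {a b : ℝ → V → ℝ} (ha : B2 S a) (hb : B2 S b) {C : ℝ} (hC : 0 ≤ C)
    (hG : ∀ t ∈ S, Continuous (G t))
    (h : ∀ t ∈ S, ∀ x, G t x ^ 2 ≤ C * (a t x ^ 2 + b t x ^ 2)) : B2 S G := by
  obtain ⟨A, hA, ha⟩ := ha
  obtain ⟨B, hB, hb⟩ := hb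
  refine ⟨C * (A + B), by positivity, fun t ht => ?_⟩
  obtain ⟨a1, a2⟩ := ha t ht
  obtain ⟨b1, b2⟩ := hb t ht
  have hi : Integrable fun x => C * (a t x ^ 2 + b t x ^ 2) := (a1.sq.add b1.sq).const_mul C
  have hm : M2 (G t) := by
    refine ⟨hG t ht, hi.mono' ((hG t ht).pow 2).aestronglyMeasurable
      (Eventually.of_forall fun x => ?_)⟩
    rw [Real.norm_eq_abs, abs_of_nonneg (sq_nonneg _)]
    exact h t ht x
  refine ⟨hm, (integral_mono hm.sq hi (h t ht)).trans ?_⟩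
  rw [integral_const_mul, integral_add a1.sq b1.sq]
  exact mul_le_mul_of_nonneg_left (add_le_add a2 b2) hC

namespace AF

lemma dh (h : AF S u) : HI S fun t => dh (u t) := ((h.hi 0).pd 0).add ((h.hi 1).pd 1)

lemma om (h : AF S u) : HI S fun t => om (u t) := ((h.hi 1).pd 0).sub ((h.hi 0).pd 1)

lemma f (h : AF S u) : HI S fun t => ff (u t) := h.dh.Av le_rfl

lemma g (h : AF S u) : HI S fun t => gg (u t) := h.om.Av le_rfl

lemma k (h : AF S u) : HI S fun t => kk (u t) := h.g.pd 2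

lemma o (h : AF S u) : HI S fun t => oo (u t) := (h.f.pd 2).sub (h.hi 2).dlt

lemma Df (h : AF S u) : HI S fun t => D (ff (u t)) :=
  (h.dh.sub (h.f.cmul 2)).congr fun t ht => by
    funext x
    have := ff_ode (h.sm t ht) x
    show Pool.Agent.X96.AR.dh (u t) x - 2 * ff (u t) x = D (ff (u t)) x
    linarith

lemma Dg (h : AF S u) : HI S fun t => D (gg (u t)) :=
  (h.om.sub (h.g.cmul 2)).congr fun t ht => by
    funext x
    have := gg_ode (h.sm t ht) x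
    show Pool.Agent.X96.AR.om (u t) x - 2 * gg (u t) x = D (gg (u t)) x
    linarith

lemma Dk (h : AF S u) : HI S fun t => D (kk (u t)) :=
  (h.Dg.pd 2).congr fun t ht => by
    funext x
    exact (D_pd2 (sm_gg (h.sm t ht)) x).symm

lemma Dfz (h : AF S u) : HI S fun t => D (pd 2 (ff (u t))) :=
  (h.Df.pd 2).congr fun t ht => by
    funext x
    exact (D_pd2 (sm_ff (h.sm t ht)) x).symm

/-- `D δ h` -/
lemma Ddh (h : AF S u) (i : Fin 3) : HI S fun t => D (dlt fun y => u t y i) :=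
  ((((h.hi i).pd 0).pd 0 |>.add (((h.hi i).pd 1).pd 1)).sub ((h.hi i).dlt.cmul 2)).congr
    fun t ht => by
    funext x
    have := dlt_ode (sm_cmp (h.sm t ht) i) x
    linarith

lemma Do (h : AF S u) : HI S fun t => D (oo (u t)) :=
  (h.Dfz.sub (h.Ddh 2)).congr fun t ht => by
    funext x
    exact (D_sub (sm_pd (sm_ff (h.sm t ht)) 2) (sm_dlt (sm_cmp (h.sm t ht) 2)) x).symm

/-- the horizontal components of `∂_z u` -/
lemma z0 (h : AF S u) {t : ℝ} (ht : t ∈ S) (x : V) : pd 2 (fun y => u t y 0) x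
    = x 0 * pd 2 (ff (u t)) x - x 1 * kk (u t) x := by
  have e : (fun y => u t y 0) = fun y => (fun y : V => y 0 * ff (u t) y) y
      - (fun y : V => y 1 * gg (u t) y) y := funext fun y => cmp0 (h.sm t ht) (h.ax t ht) y
  rw [e, pd_sub' ((sm_crd 0).mul (sm_ff (h.sm t ht))) ((sm_crd 1).mul (sm_gg (h.sm t ht)))]
  beta_reduce
  rw [pd_c0 2 (sm_ff (h.sm t ht)) 0, pd_c0 2 (sm_gg (h.sm t ht)) 1]
  unfold kk
  simp

lemma z1 (h : AF S u) {t : ℝ} (ht : t ∈ S) (x : V) : pd 2 (fun y => u t y 1) x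
    = x 1 * pd 2 (ff (u t)) x + x 0 * kk (u t) x := by
  have e : (fun y => u t y 1) = fun y => (fun y : V => y 1 * ff (u t) y) y
      + (fun y : V => y 0 * gg (u t) y) y := funext fun y => cmp1 (h.sm t ht) (h.ax t ht) y
  rw [e, pd_add' ((sm_crd 1).mul (sm_ff (h.sm t ht))) ((sm_crd 0).mul (sm_gg (h.sm t ht)))]
  beta_reduce
  rw [pd_c0 2 (sm_ff (h.sm t ht)) 1, pd_c0 2 (sm_gg (h.sm t ht)) 0]
  unfold kk
  simp

lemma fn0 (h : AF S u) {t : ℝ} (ht : t ∈ S) : pd 2 (fun y => u t y 0)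
    = fun y => (fun y : V => y 0 * pd 2 (ff (u t)) y) y - (fun y : V => y 1 * kk (u t) y) y :=
  funext fun y => h.z0 ht y

lemma fn1 (h : AF S u) {t : ℝ} (ht : t ∈ S) : pd 2 (fun y => u t y 1)
    = fun y => (fun y : V => y 1 * pd 2 (ff (u t)) y) y + (fun y : V => y 0 * kk (u t) y) y :=
  funext fun y => h.z1 ht y

lemma smf (h : AF S u) {t : ℝ} (ht : t ∈ S) : ContDiff ℝ ∞ (ff (u t)) := sm_ff (h.sm t ht)
lemma smg (h : AF S u) {t : ℝ} (ht : t ∈ S) : ContDiff ℝ ∞ (gg (u t)) := sm_gg (h.sm t ht)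
lemma iff (h : AF S u) {t : ℝ} (ht : t ∈ S) : Inv (ff (u t)) := inv_ff (h.sm t ht) (h.ax t ht)
lemma igg (h : AF S u) {t : ℝ} (ht : t ∈ S) : Inv (gg (u t)) := inv_gg (h.sm t ht) (h.ax t ht)
lemma ikk (h : AF S u) {t : ℝ} (ht : t ∈ S) : Inv (kk (u t)) := inv_kk (h.sm t ht) (h.ax t ht)
lemma ioo (h : AF S u) {t : ℝ} (ht : t ∈ S) : Inv (oo (u t)) := inv_oo (h.sm t ht) (h.ax t ht)
lemma ihh (h : AF S u) {t : ℝ} (ht : t ∈ S) : Inv (fun y => u t y 2) :=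
  inv_h (h.sm t ht) (h.ax t ht)

lemma xi_le {a b c d : ℝ} {x : V} (h1 : a = x 0 * c - x 1 * d) (h2 : b = x 1 * c + x 0 * d)
    {i : Fin 3} (hi : i ≠ 2) : (x i * d) ^ 2 ≤ 1 * (a ^ 2 + b ^ 2) ∧
    (x i * c) ^ 2 ≤ 1 * (a ^ 2 + b ^ 2) := by
  have e : a ^ 2 + b ^ 2 = x 0 ^ 2 * c ^ 2 + x 1 ^ 2 * c ^ 2 + (x 0 ^ 2 * d ^ 2 + x 1 ^ 2 * d ^ 2) := by
    rw [h1, h2]
    ring
  rw [e, mul_pow, mul_pow, one_mul]
  have p1 : 0 ≤ x 0 ^ 2 * c ^ 2 := by positivity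
  have p2 : 0 ≤ x 1 ^ 2 * c ^ 2 := by positivity
  have p3 : 0 ≤ x 0 ^ 2 * d ^ 2 := by positivity
  have p4 : 0 ≤ x 1 ^ 2 * d ^ 2 := by positivity
  fin_cases i
  · exact ⟨by show x 0 ^ 2 * d ^ 2 ≤ _; linarith, by show x 0 ^ 2 * c ^ 2 ≤ _; linarith⟩
  · exact ⟨by show x 1 ^ 2 * d ^ 2 ≤ _; linarith, by show x 1 ^ 2 * c ^ 2 ≤ _; linarith⟩
  · exact absurd rfl hi

/-- `x_i K` and `x_i ∂_z f` -/
lemma xk (h : AF S u) {i : Fin 3} (hi : i ≠ 2) : B2 S (fun t x => x i * kk (u t) x) ∧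
    B2 S (fun t x => x i * pd 2 (ff (u t)) x) := by
  have h0 := ((h.hi 0).pd 2).b2
  have h1 := ((h.hi 1).pd 2).b2
  exact ⟨h0.of_sq h1 zero_le_one (fun t ht => (continuous_apply i).mul (h.ikk ht).sm.continuous)
      fun t ht x => (xi_le (h.z0 ht x) (h.z1 ht x) hi).1,
    h0.of_sq h1 zero_le_one (fun t ht => (continuous_apply i).mul
      (sm_pd (h.smf ht) 2).continuous) fun t ht x => (xi_le (h.z0 ht x) (h.z1 ht x) hi).2⟩

/-- `x_i ∂_z K` and `x_i ∂_z ∂_z f` -/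
lemma xkz (h : AF S u) {i : Fin 3} (hi : i ≠ 2) : B2 S (fun t x => x i * pd 2 (kk (u t)) x) ∧
    B2 S (fun t x => x i * pd 2 (pd 2 (ff (u t))) x) := by
  have h0 := (((h.hi 0).pd 2).pd 2).b2
  have h1 := (((h.hi 1).pd 2).pd 2).b2
  have e0 : ∀ t ∈ S, ∀ x, pd 2 (pd 2 (fun y => u t y 0)) x
      = x 0 * pd 2 (pd 2 (ff (u t))) x - x 1 * pd 2 (kk (u t)) x := by
    intro t ht x
    rw [h.fn0 ht, pd_sub' ((sm_crd 0).mul (sm_pd (h.smf ht) 2)) ((sm_crd 1).mul (h.ikk ht).sm)]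
    beta_reduce
    rw [pd_c0 2 (sm_pd (h.smf ht) 2) 0, pd_c0 2 (h.ikk ht).sm 1]
    simp
  have e1 : ∀ t ∈ S, ∀ x, pd 2 (pd 2 (fun y => u t y 1)) x
      = x 1 * pd 2 (pd 2 (ff (u t))) x + x 0 * pd 2 (kk (u t)) x := by
    intro t ht x
    rw [h.fn1 ht, pd_add' ((sm_crd 1).mul (sm_pd (h.smf ht) 2)) ((sm_crd 0).mul (h.ikk ht).sm)]
    beta_reduce
    rw [pd_c0 2 (sm_pd (h.smf ht) 2) 1, pd_c0 2 (h.ikk ht).sm 0]
    simp
  exact ⟨h0.of_sq h1 zero_le_one (fun t ht => (continuous_apply i).mul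
      (sm_pd (h.ikk ht).sm 2).continuous)
      fun t ht x => (xi_le (e0 t ht x) (e1 t ht x) hi).1,
    h0.of_sq h1 zero_le_one (fun t ht => (continuous_apply i).mul
      (sm_pd (sm_pd (h.smf ht) 2) 2).continuous) fun t ht x => (xi_le (e0 t ht x) (e1 t ht x) hi).2⟩

/-- `x_i L K` and `x_i L ∂_z f` -/
lemma xkl (h : AF S u) {i : Fin 3} (hi : i ≠ 2) :
    B2 S (fun t => lap (fun y => y i * kk (u t) y)) ∧
    B2 S (fun t => lap (fun y => y i * pd 2 (ff (u t)) y)) := by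
  have h0 := ((h.hi 0).pd 2).lap.b2
  have h1 := ((h.hi 1).pd 2).lap.b2
  have e0 : ∀ t ∈ S, ∀ x, lap (pd 2 (fun y => u t y 0)) x
      = x 0 * L5 (pd 2 (ff (u t))) x - x 1 * L5 (kk (u t)) x := by
    intro t ht x
    rw [h.fn0 ht, lap_sub' ((sm_crd 0).mul (sm_pd (h.smf ht) 2)) ((sm_crd 1).mul (h.ikk ht).sm),
      lap_ci (h.iff ht).pd2 (by decide), lap_ci (h.ikk ht) (by decide)]
  have e1 : ∀ t ∈ S, ∀ x, lap (pd 2 (fun y => u t y 1)) x
      = x 1 * L5 (pd 2 (ff (u t))) x + x 0 * L5 (kk (u t)) x := by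
    intro t ht x
    rw [h.fn1 ht, lap_add' ((sm_crd 1).mul (sm_pd (h.smf ht) 2)) ((sm_crd 0).mul (h.ikk ht).sm),
      lap_ci (h.iff ht).pd2 (by decide), lap_ci (h.ikk ht) (by decide)]
  have sl : ∀ {φ : V → ℝ}, ContDiff ℝ ∞ φ → Continuous (lap fun y : V => y i * φ y) := by
    intro φ hφ
    unfold lap
    exact continuous_finsetSum _ fun j _ =>
      (sm_pd (sm_pd ((sm_crd i).mul hφ) j) j).continuous
  refine ⟨h0.of_sq h1 zero_le_one (fun t ht => sl (h.ikk ht).sm) fun t ht x => ?_,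
    h0.of_sq h1 zero_le_one (fun t ht => sl (sm_pd (h.smf ht) 2)) fun t ht x => ?_⟩
  · rw [lap_ci (h.ikk ht) hi]
    exact (xi_le (e0 t ht x) (e1 t ht x) hi).1
  · rw [lap_ci (h.iff ht).pd2 hi]
    exact (xi_le (e0 t ht x) (e1 t ht x) hi).2

/-- `x_i δ φ = ∂_i φ` -/
lemma _root_.Pool.Agent.X96.AR.Inv.xd {φ : V → ℝ} (hφ : Inv φ) {i : Fin 3} (hi : i ≠ 2) :
    (fun x : V => x i * dlt φ x) = pd i φ := by
  funext x
  fin_cases i
  · exact (hφ.pd0 x).symm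
  · exact (hφ.pd1 x).symm
  · exact absurd rfl hi

/-- products of a horizontal coordinate with a horizontal derivative -/
lemma _root_.Pool.Agent.X96.AR.Inv.xx {φ : V → ℝ} (hφ : Inv φ) {i j : Fin 3} (hi : i ≠ 2)
    (hj : j ≠ 2) (x : V) : |x i * pd j φ x| ≤ 1 * |D φ x| := by
  have e : pd j φ x = x j * dlt φ x := (congrFun (hφ.xd hj) x).symm
  rw [e, hφ.D, one_mul, ← mul_assoc, abs_mul (x i * x j), abs_mul (sg x)]
  apply mul_le_mul_of_nonneg_right _ (abs_nonneg _)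
  rw [abs_of_nonneg (sg_nonneg x), abs_mul]
  obtain ⟨h0, h1⟩ := abs_le_sqrt_sg x
  have hs : √(sg x) * √(sg x) = sg x := Real.mul_self_sqrt (sg_nonneg x)
  have hle : ∀ {i : Fin 3}, i ≠ 2 → |x i| ≤ √(sg x) := by
    intro i hi
    fin_cases i
    · exact h0
    · exact h1
    · exact absurd rfl hi
  calc |x i| * |x j| ≤ √(sg x) * √(sg x) :=
        mul_le_mul (hle hi) (hle hj) (abs_nonneg _) (Real.sqrt_nonneg _)
    _ = sg x := hs

/-- `x_i Ω` -/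
lemma xo (h : AF S u) {i : Fin 3} (hi : i ≠ 2) : B2 S (fun t x => x i * oo (u t) x) := by
  refine ((h.xk hi).2.sub ((h.hi 2).pd i).b2).congr fun t ht => ?_
  funext x
  rw [← congrFun ((h.ihh ht).xd hi) x]
  unfold oo
  ring

lemma xoz (h : AF S u) {i : Fin 3} (hi : i ≠ 2) : B2 S (fun t x => x i * pd 2 (oo (u t)) x) := by
  refine ((h.xkz hi).2.sub (((h.hi 2).pd 2).pd i).b2).congr fun t ht => ?_
  funext x
  have e : pd 2 (oo (u t)) x = pd 2 (pd 2 (ff (u t))) x - pd 2 (dlt fun y => u t y 2) x := by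
    have : oo (u t) = fun x => pd 2 (ff (u t)) x - dlt (fun y => u t y 2) x := rfl
    rw [this, pd_sub' (sm_pd (h.smf ht) 2) (sm_dlt (sm_cmp (h.sm t ht) 2))]
  rw [← congrFun ((h.ihh ht).pd2.xd hi) x, (h.ihh ht).dlt_pd2, e]
  ring

lemma xol (h : AF S u) {i : Fin 3} (hi : i ≠ 2) :
    B2 S (fun t => lap (fun y => y i * oo (u t) y)) := by
  refine ((h.xkl hi).2.sub ((h.hi 2).lap.pd i).b2).congr fun t ht => ?_
  funext x
  have e : lap (fun y => u t y 2) = L3 (fun y => u t y 2) := funext (lap_L3 (h.ihh ht))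
  have e2 := (HP.L3 (h.ihh ht)).d x
  rw [← e] at e2
  have hl : Inv (lap fun y => u t y 2) := by rw [e]; exact (HP.L3 (h.ihh ht)).inv
  have e3 : (fun y : V => y i * oo (u t) y) = fun y => (fun y : V => y i * pd 2 (ff (u t)) y) y
      - (fun y : V => y i * dlt (fun y => u t y 2) y) y := by
    funext y
    unfold oo
    ring
  show lap (fun y => y i * pd 2 (ff (u t)) y) x - pd i (lap fun y => u t y 2) x = _
  rw [← congrFun (hl.xd hi) x, e2, e3,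
    lap_sub' ((sm_crd i).mul (sm_pd (h.smf ht) 2)) ((sm_crd i).mul (sm_dlt (sm_cmp (h.sm t ht) 2))),
    lap_ci (h.ihh ht).dlt hi]

lemma grad_c {φ : ℝ → V → ℝ} (hφ : HI S φ) (hi : ∀ t ∈ S, Inv (φ t))
    (hD : HI S fun t => D (φ t)) {i : Fin 3} (hi2 : i ≠ 2)
    (hz : B2 S (fun t x => x i * pd 2 (φ t) x)) (j : Fin 3) :
    B2 S (fun t => pd j (fun y => y i * φ t y)) := by
  have h1 : B2 S (fun t x => x i * pd j (φ t) x) := by
    by_cases hj : j = 2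
    · rw [hj]; exact hz
    · exact hD.b2.of_le (C := 1) (fun t ht => (continuous_apply i).mul
        (sm_pd (hφ.sm t ht) j).continuous) fun t ht x => (hi t ht).xx hi2 hj x
  refine (h1.add (hφ.b2.cmul (if i = j then 1 else 0))).congr fun t ht => ?_
  rw [pd_cf (hφ.sm t ht)]

lemma gxk (h : AF S u) {i : Fin 3} (hi : i ≠ 2) (j : Fin 3) :
    B2 S (fun t => pd j (fun y => y i * kk (u t) y)) :=
  grad_c h.k (fun _ ht => h.ikk ht) h.Dk hi (h.xkz hi).1 j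

lemma gxo (h : AF S u) {i : Fin 3} (hi : i ≠ 2) (j : Fin 3) :
    B2 S (fun t => pd j (fun y => y i * oo (u t) y)) :=
  grad_c h.o (fun _ ht => h.ioo ht) h.Do hi (h.xoz hi) j

end AF

end Pool.Agent.X96.AR
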