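import Pool.Agent.X96.AR.Eg

/-!
Axisymmetric flows (helper96): the enstrophy remains bounded.
-/

set_option autoImplicit false

open MeasureTheory Set Metric Filter Topology
open scoped ContDiff ENNReal

namespace Pool.Agent.X96.AR

open H459R3.NS W221.NS Pool.Agent.TH305.DR Pool.Agent.TH305.AX
open Pool.Agent.W583.MD (sm_pd cs_pd pd_mul' Z Z.add Z.sub Z.smul Z.sum int_cs Z_pd)

variable {S : Set ℝ} {T : ℝ} {F G : ℝ → V → ℝ} {u : ℝ → V → V} {p : ℝ → V → ℝ} {s t : ℝ}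

lemma B2.bd2 (h : B2 S F) : ∃ C : ℝ, ∀ t ∈ S, ∫ x, F t x ^ 2 ≤ C := by
  obtain ⟨C, -, hC⟩ := h
  exact ⟨C, fun t ht => (hC t ht).2⟩

lemma jt_gsq (h : BSol 1 T u p) : JT 0 T (fun t => gsq (u t)) := by
  have h1 : ∀ i j : Fin 3, JT 0 T (fun t x => pd j (fun y => u t y i) x
      * pd j (fun y => u t y i) x) := fun i j => ((jt_u h i).pd j).mul ((jt_u h i).pd j)
  have h2 := JT.sum (F := fun i t x => ∑ j, pd j (fun y => u t y i) x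
      * pd j (fun y => u t y i) x) fun i => JT.sum fun j => h1 i j
  have e : (fun t => gsq (u t)) = fun t x => ∑ i, ∑ j, pd j (fun y => u t y i) x
      * pd j (fun y => u t y i) x := by
    funext t x
    unfold gsq
    simp only [pow_two]
  rw [e]
  exact h2

lemma AF.b1_gsq (h : AF S u) : B1 S (fun t => gsq (u t)) := by
  have hij : ∀ i j : Fin 3, B2 S (fun t => pd j (fun y => u t y i)) := fun i j =>
    ((h.hi i).pd j).b2
  choose C hC using hij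
  refine ⟨∑ i, ∑ j, C i j, Finset.sum_nonneg fun i _ => Finset.sum_nonneg fun j _ =>
    (hC i j).1, fun t ht => ?_⟩
  have hi : ∀ i j, Integrable fun x => pd j (fun y => u t y i) x ^ 2 := fun i j =>
    ((hC i j).2 t ht).1.sq
  have hI : Integrable (gsq (u t)) :=
    integrable_finsetSum _ fun i _ => integrable_finsetSum _ fun j _ => hi i j
  refine ⟨hI, ?_⟩
  have e : (fun x => |gsq (u t) x|) = gsq (u t) := by
    funext x
    apply abs_of_nonneg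
    unfold gsq
    positivity
  rw [e]
  unfold gsq
  rw [integral_finsetSum _ fun i _ => integrable_finsetSum _ fun j _ => hi i j]
  refine Finset.sum_le_sum fun i _ => ?_
  rw [integral_finsetSum _ fun j _ => hi i j]
  exact Finset.sum_le_sum fun j _ => ((hC i j).2 t ht).2

/-- data of the continuation theorem -/
structure Cr (T t₀ E M : ℝ) (u : ℝ → V → V) (p : ℝ → V → ℝ) : Prop where
  rs : RS T u p
  t0 : 0 < t₀
  tT : t₀ < T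
  M0 : 0 ≤ M
  en : ∀ t ∈ Ioo 0 T, ∫ x, nsq (u t) x ≤ E ^ 2
  dis : ∀ s t, 0 < s → s ≤ t → t < T → ∫ τ in s..t, ∫ x, gsq (u τ) x ≤ E ^ 2
  gam : ∀ t ∈ Ico t₀ T, ∀ x, |sg x * gg (u t) x| ≤ M ∨ sg x * gg (u t) x ^ 2 ≤ M ^ 2
  eta : ∃ r : ℝ, 0 < r ∧ ∀ t ∈ Ico t₀ T, ∀ x, sg x ≤ r ^ 2 → |sg x * gg (u t) x| ≤ 1 / 4
  fs : FSm (Ico t₀ T) fun t => gg (u t)

namespace Cr
variable {t₀ E M : ℝ}

lemma mem (c : Cr T t₀ E M u p) (ht : t ∈ Ico t₀ T) : t ∈ Ioo 0 T :=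
  ⟨c.t0.trans_le ht.1, ht.2⟩

lemma gi (c : Cr T t₀ E M u p) (s t : ℝ) (hs : t₀ ≤ s) (hst : s ≤ t) (ht : t < T) :
    IntervalIntegrable (fun τ => ∫ x, gsq (u τ) x) volume s t ∧
    ∫ τ in s..t, ∫ x, gsq (u τ) x ≤ E ^ 2 := by
  obtain ⟨m, χ, -, hχ⟩ := exists_cuts
  have hs0 := c.t0.trans_le hs
  exact ⟨(cut_lim hχ (jt_gsq c.rs.sol) hs0 hst ht (c.rs.af hs0 ht).b1_gsq).1,
    c.dis s t hs0 hst ht⟩

/-- the first estimate -/
theorem y1 (c : Cr T t₀ E M u p) : ∃ B : ℝ, 0 ≤ B ∧ ∀ t ∈ Ico t₀ T,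
    (∫ x, gg (u t) x ^ 2) + (∫ x, kk (u t) x ^ 2) + ∫ x, oo (u t) x ^ 2 ≤ B := by
  have hM := c.M0
  obtain ⟨r, hr, hη⟩ := c.eta
  obtain ⟨C₁, hC₁, H1⟩ := c.fs (1 / 4) (by norm_num)
  obtain ⟨C₂, hC₂, H2⟩ := c.fs (1 / (8 * (M + 1))) (by positivity)
  obtain ⟨C, hC⟩ : ∃ C : ℝ, C = C₁ + 1 / 4 + 2 * M * C₂
    + (2 * (M ^ 2 / r ^ 2) + 4 * M ^ 2) := ⟨_, rfl⟩
  have hC0 : 0 ≤ C := by rw [hC]; positivity
  refine gron (C := 2 * C) (A := 2 * C * E ^ 2) c.tT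
    (Ψ := fun τ => (2 * ∫ x, gg (u τ) x * td (fun τ => gg (u τ)) τ x)
      + (2 * ∫ x, kk (u τ) x * td (fun τ => kk (u τ)) τ x)
      + (2 * ∫ x, oo (u τ) x * td (fun τ => oo (u τ)) τ x))
    (a := fun τ => 2 * C * ∫ x, gsq (u τ) x) (by positivity)
    (fun t _ => add_nonneg (add_nonneg (integral_nonneg fun x => sq_nonneg _)
      (integral_nonneg fun x => sq_nonneg _)) (integral_nonneg fun x => sq_nonneg _)) ?_ ?_ ?_ ?_
  · intro t ht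
    have A := c.rs.af c.t0 ht.2
    obtain ⟨c1, h1⟩ := A.g.b2.bd2
    obtain ⟨c2, h2⟩ := A.k.b2.bd2
    obtain ⟨c3, h3⟩ := A.o.b2.bd2
    exact ⟨c1 + c2 + c3, fun s hs => add_le_add (add_le_add (h1 s hs) (h2 s hs)) (h3 s hs)⟩
  · intro s t hs hst ht
    have hs0 := c.t0.trans_le hs
    obtain ⟨a1, b1⟩ := c.rs.ig hs0 ht hst
    obtain ⟨a2, b2⟩ := c.rs.ik hs0 ht hst
    obtain ⟨a3, b3⟩ := c.rs.io hs0 ht hst
    refine ⟨(a1.add a2).add a3, ?_⟩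
    rw [intervalIntegral.integral_add (a1.add a2) a3, intervalIntegral.integral_add a1 a2,
      b1, b2, b3]
    ring
  · intro s t hs hst ht
    obtain ⟨a1, b1⟩ := c.gi s t hs hst ht
    refine ⟨a1.const_mul _, ?_⟩
    rw [intervalIntegral.integral_const_mul]
    exact mul_le_mul_of_nonneg_left b1 (by positivity)
  · intro τ hτ
    have hm := c.mem hτ
    have A := c.rs.af1 hm
    have m : τ ∈ Icc τ τ := ⟨le_rfl, le_rfl⟩
    have k := A.n1 m hM hr (c.gam τ hτ) (hη τ hτ) (H1 τ hτ) (fun w hw => (H2 τ hτ w hw).2) hC₁ hC₂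
    rw [← hC] at k
    have b1 := c.rs.bg hm
    have b2 := c.rs.bk hm
    have b3 := c.rs.bo hm
    have b4 := (A.e10 m).2.2
    have e1 : (∫ x, gg (u τ) x * -(2 * (ff (u τ) x * gg (u τ) x)))
        = ∫ x, gg (u τ) x * sG (u τ) x := rfl
    have e2 : (∫ x, kk (u τ) x * (D (ff (u τ)) x * kk (u τ) x
        - pd 2 (ff (u τ)) x * om (u τ) x)) = ∫ x, kk (u τ) x * sK (u τ) x := rfl
    have e3 : (∫ x, oo (u τ) x * (2 * (gg (u τ) x * kk (u τ) x)))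
        = ∫ x, oo (u τ) x * sO (u τ) x := rfl
    rw [e1, e2, e3] at k
    have b5 := mul_le_mul_of_nonneg_left b4 hC0
    show (2 * ∫ x, gg (u τ) x * td (fun τ => gg (u τ)) τ x)
      + (2 * ∫ x, kk (u τ) x * td (fun τ => kk (u τ)) τ x)
      + (2 * ∫ x, oo (u τ) x * td (fun τ => oo (u τ)) τ x)
      ≤ 2 * C * ((∫ x, gg (u τ) x ^ 2) + (∫ x, kk (u τ) x ^ 2) + ∫ x, oo (u τ) x ^ 2)
        + 2 * C * ∫ x, gsq (u τ) x
    linarith

/-- `∫ σ f² ≤ E²` -/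
lemma sf (c : Cr T t₀ E M u p) (ht : t ∈ Ioo 0 T) :
    (∫ x, (x 0 * ff (u t) x) ^ 2) + (∫ x, (x 1 * ff (u t) x) ^ 2) ≤ E ^ 2 := by
  have h0 : (0 : Fin 3) ≠ 2 := by decide
  have h1 : (1 : Fin 3) ≠ 2 := by decide
  have A := c.rs.af1 ht
  have m : t ∈ Icc t t := ⟨le_rfl, le_rfl⟩
  have m0 := (A.xf h0).m m
  have m1 := (A.xf h1).m m
  refine le_trans ?_ (c.en t ht)
  rw [← integral_add m0.sq m1.sq]
  have hi : Integrable (nsq (u t)) := integrable_finsetSum _ fun i _ => ((A.hi i).m m).sq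
  refine integral_mono (m0.sq.add m1.sq) hi fun x => ?_
  show (x 0 * ff (u t) x) ^ 2 + (x 1 * ff (u t) x) ^ 2 ≤ nsq (u t) x
  unfold nsq
  rw [Fin.sum_univ_three, cmp0 (A.sm t m) (A.ax t m), cmp1 (A.sm t m) (A.ax t m)]
  have e : (x 0 * ff (u t) x - x 1 * gg (u t) x) ^ 2 + (x 1 * ff (u t) x + x 0 * gg (u t) x) ^ 2
      = (x 0 * ff (u t) x) ^ 2 + (x 1 * ff (u t) x) ^ 2 + ((x 0 * gg (u t) x) ^ 2
        + (x 1 * gg (u t) x) ^ 2) := by ring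
  rw [e]
  have := sq_nonneg (u t x 2)
  have := sq_nonneg (x 0 * gg (u t) x)
  have := sq_nonneg (x 1 * gg (u t) x)
  linarith

/-- the second estimate -/
theorem y2 (c : Cr T t₀ E M u p) : ∃ B : ℝ, 0 ≤ B ∧ ∀ t ∈ Ico t₀ T,
    (∫ x, (x 0 * oo (u t) x) ^ 2) + (∫ x, (x 1 * oo (u t) x) ^ 2) ≤ B := by
  have h0 : (0 : Fin 3) ≠ 2 := by decide
  have h1 : (1 : Fin 3) ≠ 2 := by decide
  have hM := c.M0
  obtain ⟨K, hK, HK⟩ := tri
  obtain ⟨B₁, hB₁, Y1⟩ := c.y1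
  obtain ⟨L, hL⟩ : ∃ L : ℝ, L = 1 / 2 * E ^ 2 + 1 / 2 * B₁ := ⟨_, rfl⟩
  have hL0 : 0 ≤ L := by rw [hL]; positivity
  refine gron (C := 2 * (K * L ^ 2 + M)) (A := 4 * M * B₁ * (T - t₀)) c.tT
    (Ψ := fun τ => (2 * ∫ x, (x 0 * oo (u τ) x) * td (fun τ x => x 0 * oo (u τ) x) τ x)
      + (2 * ∫ x, (x 1 * oo (u τ) x) * td (fun τ x => x 1 * oo (u τ) x) τ x))
    (a := fun τ => 4 * M * B₁) (by positivity)
    (fun t _ => add_nonneg (integral_nonneg fun x => sq_nonneg _)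
      (integral_nonneg fun x => sq_nonneg _)) ?_ ?_ ?_ ?_
  · intro t ht
    have A := c.rs.af c.t0 ht.2
    obtain ⟨c1, k1⟩ := (A.xo h0).bd2
    obtain ⟨c2, k2⟩ := (A.xo h1).bd2
    exact ⟨c1 + c2, fun s hs => add_le_add (k1 s hs) (k2 s hs)⟩
  · intro s t hs hst ht
    have hs0 := c.t0.trans_le hs
    obtain ⟨a1, b1⟩ := c.rs.ioi hs0 ht hst h0
    obtain ⟨a2, b2⟩ := c.rs.ioi hs0 ht hst h1
    refine ⟨a1.add a2, ?_⟩
    rw [intervalIntegral.integral_add a1 a2, b1, b2]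
    ring
  · intro s t hs hst ht
    refine ⟨intervalIntegrable_const, ?_⟩
    rw [intervalIntegral.integral_const, smul_eq_mul, mul_comm]
    apply mul_le_mul_of_nonneg_left _ (by positivity)
    linarith
  · intro τ hτ
    have hm := c.mem hτ
    have A := c.rs.af1 hm
    have m : τ ∈ Icc τ τ := ⟨le_rfl, le_rfl⟩
    have k := A.n2 m hM (c.gam τ hτ) HK
    have b1 := c.rs.boi hm h0
    have b2 := c.rs.boi hm h1
    have e1 : (∫ x, (x 0 * oo (u τ) x) * (2 * (gg (u τ) x * (x 0 * kk (u τ) x))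
        + u τ x 0 * oo (u τ) x)) = ∫ x, (x 0 * oo (u τ) x) * sOi 0 (u τ) x := rfl
    have e2 : (∫ x, (x 1 * oo (u τ) x) * (2 * (gg (u τ) x * (x 1 * kk (u τ) x))
        + u τ x 1 * oo (u τ) x)) = ∫ x, (x 1 * oo (u τ) x) * sOi 1 (u τ) x := rfl
    rw [e1, e2] at k
    have Y := Y1 τ hτ
    have n1 : 0 ≤ ∫ x, gg (u τ) x ^ 2 := integral_nonneg fun x => sq_nonneg _
    have n2 : 0 ≤ ∫ x, kk (u τ) x ^ 2 := integral_nonneg fun x => sq_nonneg _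
    have hf : ∫ x, ff (u τ) x ^ 2 ≤ L := by
      have q1 := A.e9 m
      have q2 := c.sf hm
      rw [hL]
      linarith
    have n3 : 0 ≤ ∫ x, ff (u τ) x ^ 2 := integral_nonneg fun x => sq_nonneg _
    have n4 : 0 ≤ (∫ x, (x 0 * oo (u τ) x) ^ 2) + ∫ x, (x 1 * oo (u τ) x) ^ 2 :=
      add_nonneg (integral_nonneg fun x => sq_nonneg _) (integral_nonneg fun x => sq_nonneg _)
    have q3 : K * (∫ x, ff (u τ) x ^ 2) ^ 2 * ((∫ x, (x 0 * oo (u τ) x) ^ 2)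
        + ∫ x, (x 1 * oo (u τ) x) ^ 2) ≤ K * L ^ 2 * ((∫ x, (x 0 * oo (u τ) x) ^ 2)
        + ∫ x, (x 1 * oo (u τ) x) ^ 2) := by
      apply mul_le_mul_of_nonneg_right _ n4
      exact mul_le_mul_of_nonneg_left (pow_le_pow_left₀ n3 hf 2) hK
    have n5 : 0 ≤ ∫ x, oo (u τ) x ^ 2 := integral_nonneg fun x => sq_nonneg _
    have q4 : M * (2 * (∫ x, kk (u τ) x ^ 2) + ∫ x, oo (u τ) x ^ 2) ≤ M * (2 * B₁) :=
      mul_le_mul_of_nonneg_left (by linarith) hM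
    show (2 * ∫ x, (x 0 * oo (u τ) x) * td (fun τ x => x 0 * oo (u τ) x) τ x)
      + (2 * ∫ x, (x 1 * oo (u τ) x) * td (fun τ x => x 1 * oo (u τ) x) τ x)
      ≤ 2 * (K * L ^ 2 + M) * ((∫ x, (x 0 * oo (u τ) x) ^ 2) + ∫ x, (x 1 * oo (u τ) x) ^ 2)
        + 4 * M * B₁
    linarith

/-- the third estimate -/
theorem y3 (c : Cr T t₀ E M u p) : ∃ B : ℝ, 0 ≤ B ∧ ∀ t ∈ Ico t₀ T,
    (∫ x, (x 0 * kk (u t) x) ^ 2) + (∫ x, (x 1 * kk (u t) x) ^ 2) + (∫ x, om (u t) x ^ 2)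
      ≤ B := by
  have h0 : (0 : Fin 3) ≠ 2 := by decide
  have h1 : (1 : Fin 3) ≠ 2 := by decide
  obtain ⟨K, hK, HK⟩ := tri
  obtain ⟨B₂, hB₂, Y2⟩ := c.y2
  refine gron (C := 2 * K * (15 * B₂) ^ 2) (A := 0) c.tT
    (Ψ := fun τ => (2 * ∫ x, (x 0 * kk (u τ) x) * td (fun τ x => x 0 * kk (u τ) x) τ x)
      + (2 * ∫ x, (x 1 * kk (u τ) x) * td (fun τ x => x 1 * kk (u τ) x) τ x)
      + (2 * ∫ x, om (u τ) x * td (fun τ => om (u τ)) τ x))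
    (a := fun τ => 0) (by positivity)
    (fun t _ => add_nonneg (add_nonneg (integral_nonneg fun x => sq_nonneg _)
      (integral_nonneg fun x => sq_nonneg _)) (integral_nonneg fun x => sq_nonneg _)) ?_ ?_ ?_ ?_
  · intro t ht
    have A := c.rs.af c.t0 ht.2
    obtain ⟨c1, k1⟩ := (A.xk h0).1.bd2
    obtain ⟨c2, k2⟩ := (A.xk h1).1.bd2
    obtain ⟨c3, k3⟩ := A.om.b2.bd2
    exact ⟨c1 + c2 + c3, fun s hs => add_le_add (add_le_add (k1 s hs) (k2 s hs)) (k3 s hs)⟩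
  · intro s t hs hst ht
    have hs0 := c.t0.trans_le hs
    obtain ⟨a1, b1⟩ := c.rs.iki hs0 ht hst h0
    obtain ⟨a2, b2⟩ := c.rs.iki hs0 ht hst h1
    obtain ⟨a3, b3⟩ := c.rs.iw hs0 ht hst
    refine ⟨(a1.add a2).add a3, ?_⟩
    rw [intervalIntegral.integral_add (a1.add a2) a3, intervalIntegral.integral_add a1 a2,
      b1, b2, b3]
    ring
  · intro s t hs hst ht
    exact ⟨intervalIntegrable_const, by simp⟩
  · intro τ hτ
    have hm := c.mem hτ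
    have A := c.rs.af1 hm
    have m : τ ∈ Icc τ τ := ⟨le_rfl, le_rfl⟩
    have k := A.n3 m HK
    have b1 := c.rs.bki hm h0
    have b2 := c.rs.bki hm h1
    have b3 := c.rs.bw hm
    have e1 : (∫ x, (x 0 * kk (u τ) x) * (D (ff (u τ)) x * (x 0 * kk (u τ) x)
        - (x 0 * pd 2 (ff (u τ)) x) * om (u τ) x + u τ x 0 * kk (u τ) x))
        = ∫ x, (x 0 * kk (u τ) x) * sKi 0 (u τ) x := rfl
    have e2 : (∫ x, (x 1 * kk (u τ) x) * (D (ff (u τ)) x * (x 1 * kk (u τ) x)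
        - (x 1 * pd 2 (ff (u τ)) x) * om (u τ) x + u τ x 1 * kk (u τ) x))
        = ∫ x, (x 1 * kk (u τ) x) * sKi 1 (u τ) x := rfl
    have e3 : (∫ x, om (u τ) x * (pd 2 (fun y => u τ y 2) x * om (u τ) x
        - D (fun y => u τ y 2) x * kk (u τ) x)) = ∫ x, om (u τ) x * sW (u τ) x := rfl
    rw [e1, e2, e3] at k
    have hb : ∫ x, bt (u τ) x ^ 2 ≤ 15 * B₂ :=
      (A.bt_le m).trans (mul_le_mul_of_nonneg_left (Y2 τ hτ) (by norm_num))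
    have n3 : 0 ≤ ∫ x, bt (u τ) x ^ 2 := integral_nonneg fun x => sq_nonneg _
    have n4 : 0 ≤ (∫ x, (x 0 * kk (u τ) x) ^ 2) + (∫ x, (x 1 * kk (u τ) x) ^ 2)
        + ∫ x, om (u τ) x ^ 2 :=
      add_nonneg (add_nonneg (integral_nonneg fun x => sq_nonneg _)
        (integral_nonneg fun x => sq_nonneg _)) (integral_nonneg fun x => sq_nonneg _)
    have q3 : K * (∫ x, bt (u τ) x ^ 2) ^ 2 * ((∫ x, (x 0 * kk (u τ) x) ^ 2)
        + (∫ x, (x 1 * kk (u τ) x) ^ 2) + ∫ x, om (u τ) x ^ 2)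
        ≤ K * (15 * B₂) ^ 2 * ((∫ x, (x 0 * kk (u τ) x) ^ 2)
        + (∫ x, (x 1 * kk (u τ) x) ^ 2) + ∫ x, om (u τ) x ^ 2) := by
      apply mul_le_mul_of_nonneg_right _ n4
      exact mul_le_mul_of_nonneg_left (pow_le_pow_left₀ n3 hb 2) hK
    show (2 * ∫ x, (x 0 * kk (u τ) x) * td (fun τ x => x 0 * kk (u τ) x) τ x)
      + (2 * ∫ x, (x 1 * kk (u τ) x) * td (fun τ x => x 1 * kk (u τ) x) τ x)
      + (2 * ∫ x, om (u τ) x * td (fun τ => om (u τ)) τ x)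
      ≤ 2 * K * (15 * B₂) ^ 2 * ((∫ x, (x 0 * kk (u τ) x) ^ 2)
        + (∫ x, (x 1 * kk (u τ) x) ^ 2) + ∫ x, om (u τ) x ^ 2) + 0
    linarith

/-- the enstrophy is bounded -/
theorem y4 (c : Cr T t₀ E M u p) : ∃ B : ℝ, 0 ≤ B ∧ ∀ t ∈ Ico t₀ T,
    Integrable (gsq (u t)) ∧ ∫ x, gsq (u t) x ≤ B := by
  obtain ⟨B₁, hB₁, Y1⟩ := c.y1
  obtain ⟨B₂, hB₂, Y2⟩ := c.y2
  obtain ⟨B₃, hB₃, Y3⟩ := c.y3
  refine ⟨B₂ + 3 * B₁ + 2 * B₃ + B₃, by positivity, fun t ht => ?_⟩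
  have A := c.rs.af1 (c.mem ht)
  have m : t ∈ Icc t t := ⟨le_rfl, le_rfl⟩
  obtain ⟨a1, a2, -⟩ := A.e10 m
  refine ⟨a1, a2.trans ?_⟩
  have k1 := Y1 t ht
  have k2 := Y2 t ht
  have k3 := Y3 t ht
  have n1 : 0 ≤ ∫ x, gg (u t) x ^ 2 := integral_nonneg fun x => sq_nonneg _
  have n2 : 0 ≤ ∫ x, kk (u t) x ^ 2 := integral_nonneg fun x => sq_nonneg _
  have n3 : 0 ≤ ∫ x, oo (u t) x ^ 2 := integral_nonneg fun x => sq_nonneg _
  have n4 : 0 ≤ ∫ x, (x 0 * kk (u t) x) ^ 2 := integral_nonneg fun x => sq_nonneg _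
  have n5 : 0 ≤ ∫ x, (x 1 * kk (u t) x) ^ 2 := integral_nonneg fun x => sq_nonneg _
  have n6 : 0 ≤ ∫ x, om (u t) x ^ 2 := integral_nonneg fun x => sq_nonneg _
  linarith

end Cr

end Pool.Agent.X96.AR
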