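import Pool.Agent.X96.AR.Tim

/-!
Time derivatives and energy identities of the unknowns (helper96).
-/

set_option autoImplicit false

open MeasureTheory Set Metric Filter Topology
open scoped ContDiff ENNReal

namespace Pool.Agent.X96.AR

open H459R3.NS W221.NS Pool.Agent.TH305.DR Pool.Agent.TH305.AX
open Pool.Agent.W583.MD (sm_pd cs_pd pd_mul' Z Z.add Z.sub Z.smul Z.sum int_cs Z_pd)

variable {S : Set ℝ} {T : ℝ} {F G : ℝ → V → ℝ} {u : ℝ → V → V} {p : ℝ → V → ℝ} {s t : ℝ}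

/-- sources -/
noncomputable def sG (v : V → V) (x : V) : ℝ := -(2 * (ff v x * gg v x))
noncomputable def sK (v : V → V) (x : V) : ℝ := D (ff v) x * kk v x - pd 2 (ff v) x * om v x
noncomputable def sO (v : V → V) (x : V) : ℝ := 2 * (gg v x * kk v x)
noncomputable def sW (v : V → V) (x : V) : ℝ := pd 2 (fun y => v y 2) x * om v x
  - D (fun y => v y 2) x * kk v x
noncomputable def sOi (i : Fin 3) (v : V → V) (x : V) : ℝ := 2 * (gg v x * (x i * kk v x))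
  + v x i * oo v x
noncomputable def sKi (i : Fin 3) (v : V → V) (x : V) : ℝ := D (ff v) x * (x i * kk v x)
  - (x i * pd 2 (ff v) x) * om v x + v x i * kk v x

namespace AF
variable {i : Fin 3}

lemma b_sG (h : AF S u) : B2 S fun t => sG (u t) :=
  ((h.g.b2.bmul h.f.bd).cmul (-2)).congr fun t _ => by funext x; unfold sG; ring

lemma b_sK (h : AF S u) : B2 S fun t => sK (u t) :=
  (h.k.b2.bmul h.Df.bd).sub (h.om.b2.bmul (h.f.pd 2).bd)

lemma b_sO (h : AF S u) : B2 S fun t => sO (u t) := (h.k.b2.bmul h.g.bd).cmul 2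

lemma b_sW (h : AF S u) : B2 S fun t => sW (u t) := by
  have h0 : (0 : Fin 3) ≠ 2 := by decide
  have h1 : (1 : Fin 3) ≠ 2 := by decide
  refine ((h.om.b2.bmul ((h.hi 2).pd 2).bd).sub (((h.xk h0).1.bmul ((h.hi 2).pd 0).bd).add
    ((h.xk h1).1.bmul ((h.hi 2).pd 1).bd))).congr fun t _ => ?_
  funext x
  unfold sW D
  ring

lemma b_sOi (h : AF S u) (hi : i ≠ 2) : B2 S fun t => sOi i (u t) :=
  (((h.xk hi).1.bmul h.g.bd).cmul 2).add (h.o.b2.bmul (h.hi i).bd)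

lemma b_sKi (h : AF S u) (hi : i ≠ 2) : B2 S fun t => sKi i (u t) := by
  refine ((((h.xk hi).1.bmul h.Df.bd).sub ((h.xk hi).2.bmul h.om.bd)).add
    (h.k.b2.bmul (h.hi i).bd)).congr fun t _ => ?_
  funext x
  unfold sKi
  ring

end AF

namespace RS

lemma ud (h : RS T u p) (ht : t ∈ Ioo 0 T) : ∀ x, ∑ i, pd i (fun y => u t y i) x = 0 :=
  h.sol.divfree t (Ioo_subset_Ico_self ht)

lemma ub (h : RS T u p) (ht : t ∈ Ioo 0 T) : ∃ C : ℝ, ∀ x i, |u t x i| ≤ C := by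
  obtain ⟨U, hU⟩ := h.sol.bdd t ht.2
  exact ⟨U, fun x i => (norm_le_pi_norm (u t x) i).trans (hU t ⟨ht.1.le, le_rfl⟩ x)⟩

section
variable (h : RS T u p) (hs : 0 < s) (ht : t < T)
include h hs ht

lemma mem {τ : ℝ} (hτ : τ ∈ Icc s t) : τ ∈ Ioo 0 T := ⟨hs.trans_le hτ.1, hτ.2.trans_lt ht⟩

lemma ct {F : ℝ → V → ℝ} (hF : JT 0 T F) : ∀ τ ∈ Icc s t, Continuous (td F τ) := fun _ hτ =>
  (hF.dt.slice (h.mem hs ht hτ)).continuous

lemma tg : B2 (Icc s t) (td fun τ => gg (u τ)) := by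
  have A := h.af hs ht
  refine td_b2 (fun j => (A.hi j).bd) (h.ct hs ht (jt_g h.sol)) (fun j => (A.g.pd j).b2) A.g.lap.b2
    ((A.g.dlt.b2.cmul 2).add A.b_sG) fun τ hτ x => ?_
  rw [eqg h.sol (h.mem hs ht hτ)]
  unfold sG
  ring

lemma tk : B2 (Icc s t) (td fun τ => kk (u τ)) := by
  have A := h.af hs ht
  refine td_b2 (fun j => (A.hi j).bd) (h.ct hs ht (jt_k h.sol)) (fun j => (A.k.pd j).b2) A.k.lap.b2
    ((A.k.dlt.b2.cmul 2).add A.b_sK) fun τ hτ x => ?_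
  rw [eqk h.sol (h.mem hs ht hτ)]
  unfold sK
  ring

lemma too : B2 (Icc s t) (td fun τ => oo (u τ)) := by
  have A := h.af hs ht
  refine td_b2 (fun j => (A.hi j).bd) (h.ct hs ht (jt_o h.sol)) (fun j => (A.o.pd j).b2) A.o.lap.b2
    ((A.o.dlt.b2.cmul 2).add A.b_sO) fun τ hτ x => ?_
  rw [eqo h.sol (h.mem hs ht hτ)]
  unfold sO
  ring

lemma tw : B2 (Icc s t) (td fun τ => om (u τ)) := by
  have A := h.af hs ht
  refine td_b2 (fun j => (A.hi j).bd) (h.ct hs ht (jt_om h.sol)) (fun j => (A.om.pd j).b2)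
    A.om.lap.b2 A.b_sW fun τ hτ x => ?_
  rw [eqG h.sol (h.mem hs ht hτ)]
  rfl

lemma toi {i : Fin 3} (hi : i ≠ 2) : B2 (Icc s t) (td fun τ x => x i * oo (u τ) x) := by
  have A := h.af hs ht
  refine td_b2 (fun j => (A.hi j).bd) (h.ct hs ht ((jt_o h.sol).c i)) (fun j => A.gxo hi j)
    (A.xol hi) (A.b_sOi hi) fun τ hτ x => ?_
  rw [eqoi h.sol (h.mem hs ht hτ) hi]
  rfl

lemma tki {i : Fin 3} (hi : i ≠ 2) : B2 (Icc s t) (td fun τ x => x i * kk (u τ) x) := by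
  have A := h.af hs ht
  refine td_b2 (fun j => (A.hi j).bd) (h.ct hs ht ((jt_k h.sol).c i)) (fun j => A.gxk hi j)
    (A.xkl hi).1 (A.b_sKi hi) fun τ hτ x => ?_
  rw [eqki h.sol (h.mem hs ht hτ) hi]
  rfl

/-- the energy identities -/
lemma ig (hst : s ≤ t) :
    IntervalIntegrable (fun τ => 2 * ∫ x, gg (u τ) x * td (fun τ => gg (u τ)) τ x) volume s t ∧
    ∫ x, gg (u t) x ^ 2 = (∫ x, gg (u s) x ^ 2)
      + ∫ τ in s..t, 2 * ∫ x, gg (u τ) x * td (fun τ => gg (u τ)) τ x :=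
  en_id (jt_g h.sol) hs hst ht (h.af hs ht).g.b2 (h.tg hs ht)

lemma ik (hst : s ≤ t) :
    IntervalIntegrable (fun τ => 2 * ∫ x, kk (u τ) x * td (fun τ => kk (u τ)) τ x) volume s t ∧
    ∫ x, kk (u t) x ^ 2 = (∫ x, kk (u s) x ^ 2)
      + ∫ τ in s..t, 2 * ∫ x, kk (u τ) x * td (fun τ => kk (u τ)) τ x :=
  en_id (jt_k h.sol) hs hst ht (h.af hs ht).k.b2 (h.tk hs ht)

lemma io (hst : s ≤ t) :
    IntervalIntegrable (fun τ => 2 * ∫ x, oo (u τ) x * td (fun τ => oo (u τ)) τ x) volume s t ∧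
    ∫ x, oo (u t) x ^ 2 = (∫ x, oo (u s) x ^ 2)
      + ∫ τ in s..t, 2 * ∫ x, oo (u τ) x * td (fun τ => oo (u τ)) τ x :=
  en_id (jt_o h.sol) hs hst ht (h.af hs ht).o.b2 (h.too hs ht)

lemma iw (hst : s ≤ t) :
    IntervalIntegrable (fun τ => 2 * ∫ x, om (u τ) x * td (fun τ => om (u τ)) τ x) volume s t ∧
    ∫ x, om (u t) x ^ 2 = (∫ x, om (u s) x ^ 2)
      + ∫ τ in s..t, 2 * ∫ x, om (u τ) x * td (fun τ => om (u τ)) τ x :=
  en_id (jt_om h.sol) hs hst ht (h.af hs ht).om.b2 (h.tw hs ht)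

lemma ioi (hst : s ≤ t) {i : Fin 3} (hi : i ≠ 2) :
    IntervalIntegrable (fun τ => 2 * ∫ x, (x i * oo (u τ) x)
      * td (fun τ x => x i * oo (u τ) x) τ x) volume s t ∧
    ∫ x, (x i * oo (u t) x) ^ 2 = (∫ x, (x i * oo (u s) x) ^ 2)
      + ∫ τ in s..t, 2 * ∫ x, (x i * oo (u τ) x) * td (fun τ x => x i * oo (u τ) x) τ x :=
  en_id ((jt_o h.sol).c i) hs hst ht ((h.af hs ht).xo hi) (h.toi hs ht hi)

lemma iki (hst : s ≤ t) {i : Fin 3} (hi : i ≠ 2) :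
    IntervalIntegrable (fun τ => 2 * ∫ x, (x i * kk (u τ) x)
      * td (fun τ x => x i * kk (u τ) x) τ x) volume s t ∧
    ∫ x, (x i * kk (u t) x) ^ 2 = (∫ x, (x i * kk (u s) x) ^ 2)
      + ∫ τ in s..t, 2 * ∫ x, (x i * kk (u τ) x) * td (fun τ x => x i * kk (u τ) x) τ x :=
  en_id ((jt_k h.sol).c i) hs hst ht ((h.af hs ht).xk hi).1 (h.tki hs ht hi)

end

/-! ### the balances at a fixed time -/

section
variable (h : RS T u p) (ht : t ∈ Ioo 0 T)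
include h ht

lemma bg : ∫ x, gg (u t) x * td (fun τ => gg (u τ)) t x
    ≤ -(∫ x, gq (gg (u t)) x) + ∫ x, gg (u t) x * sG (u t) x := by
  have A := h.af1 ht
  have m : t ∈ Icc t t := ⟨le_rfl, le_rfl⟩
  obtain ⟨C, hC⟩ := h.ub ht
  exact bal5 (A.sm t m) (h.ud ht) hC (A.igg m) (A.g.m2g m) (A.g.lap.m m) (A.Dg.m m) (A.g.dlt.m m)
    (A.b_sG.m m) (fun x => eqg h.sol ht x)

lemma bk : ∫ x, kk (u t) x * td (fun τ => kk (u τ)) t x
    ≤ -(∫ x, gq (kk (u t)) x) + ∫ x, kk (u t) x * sK (u t) x := by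
  have A := h.af1 ht
  have m : t ∈ Icc t t := ⟨le_rfl, le_rfl⟩
  obtain ⟨C, hC⟩ := h.ub ht
  exact bal5 (A.sm t m) (h.ud ht) hC (A.ikk m) (A.k.m2g m) (A.k.lap.m m) (A.Dk.m m) (A.k.dlt.m m)
    (A.b_sK.m m) (fun x => eqk h.sol ht x)

lemma bo : ∫ x, oo (u t) x * td (fun τ => oo (u τ)) t x
    ≤ -(∫ x, gq (oo (u t)) x) + ∫ x, oo (u t) x * sO (u t) x := by
  have A := h.af1 ht
  have m : t ∈ Icc t t := ⟨le_rfl, le_rfl⟩
  obtain ⟨C, hC⟩ := h.ub ht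
  exact bal5 (A.sm t m) (h.ud ht) hC (A.ioo m) (A.o.m2g m) (A.o.lap.m m) (A.Do.m m) (A.o.dlt.m m)
    (A.b_sO.m m) (fun x => eqo h.sol ht x)

lemma bw : ∫ x, om (u t) x * td (fun τ => om (u τ)) t x
    = -(∫ x, gq (om (u t)) x) + ∫ x, om (u t) x * sW (u t) x := by
  have A := h.af1 ht
  have m : t ∈ Icc t t := ⟨le_rfl, le_rfl⟩
  obtain ⟨C, hC⟩ := h.ub ht
  exact bal (A.sm t m) (h.ud ht) hC (A.om.m2g m) (A.om.lap.m m) (A.b_sW.m m)
    (fun x => eqG h.sol ht x)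

lemma boi {i : Fin 3} (hi : i ≠ 2) :
    ∫ x, (x i * oo (u t) x) * td (fun τ x => x i * oo (u τ) x) t x
    = -(∫ x, gq (fun x => x i * oo (u t) x) x) + ∫ x, (x i * oo (u t) x) * sOi i (u t) x := by
  have A := h.af1 ht
  have m : t ∈ Icc t t := ⟨le_rfl, le_rfl⟩
  obtain ⟨C, hC⟩ := h.ub ht
  exact bal (A.sm t m) (h.ud ht) hC (A.mxo m hi) ((A.xol hi).m m) ((A.b_sOi hi).m m)
    (fun x => eqoi h.sol ht hi x)

lemma bki {i : Fin 3} (hi : i ≠ 2) :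
    ∫ x, (x i * kk (u t) x) * td (fun τ x => x i * kk (u τ) x) t x
    = -(∫ x, gq (fun x => x i * kk (u t) x) x) + ∫ x, (x i * kk (u t) x) * sKi i (u t) x := by
  have A := h.af1 ht
  have m : t ∈ Icc t t := ⟨le_rfl, le_rfl⟩
  obtain ⟨C, hC⟩ := h.ub ht
  exact bal (A.sm t m) (h.ud ht) hC (A.mxk m hi) ((A.xkl hi).1.m m) ((A.b_sKi hi).m m)
    (fun x => eqki h.sol ht hi x)

end

end RS

end Pool.Agent.X96.AR
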