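import Pool.Agent.X96.AR.Gl

/-!
Energy identities in time (helper96).
-/

set_option autoImplicit false

open MeasureTheory Set Metric Filter Topology
open scoped ContDiff

namespace Pool.Agent.X96.AR

open H459R3.NS W221.NS Pool.Agent.TH305.DR Pool.Agent.TH305.AX
open Pool.Agent.W583.MD (sm_pd cs_pd pd_mul' Z Z.add Z.sub Z.smul Z.sum int_cs Z_pd)

variable {T : ℝ} {F G : ℝ → V → ℝ}

lemma hdc (hF : JT 0 T F) {K : Set V} (hK : IsCompact K) (hs : ∀ t x, x ∉ K → F t x = 0) {t : ℝ}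
    (ht : t ∈ Ioo 0 T) : HasDerivAt (fun s => ∫ x, F s x) (∫ x, td F t x) t := by
  obtain ⟨a, ha1, ha2⟩ := exists_between ht.1
  obtain ⟨b, hb1, hb2⟩ := exists_between ht.2
  have hKc : IsCompact (Icc a b ×ˢ K) := isCompact_Icc.prod hK
  have hsub' : ∀ s ∈ Icc a b, s ∈ Ioo 0 T := fun s hs => ⟨ha1.trans_le hs.1, hs.2.trans_lt hb2⟩
  have hsub : Icc a b ×ˢ K ⊆ Ioo 0 T ×ˢ (univ : Set V) := prod_mono hsub' (subset_univ _)
  obtain ⟨C, hC⟩ := hKc.exists_bound_of_continuousOn (hF.dt.cont.mono hsub)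
  have hnh : Icc a b ∈ 𝓝 t := Icc_mem_nhds ha2 hb1
  have hcs : ∀ s, HasCompactSupport (F s) := fun s =>
    HasCompactSupport.of_support_subset_isCompact hK fun x hx => by
      by_contra h
      exact hx (hs s x h)
  have key := (hasDerivAt_integral_of_dominated_loc_of_deriv_le (s := Icc a b)
    (F := fun s x => F s x) (F' := fun s x => td F s x)
    (bound := K.indicator fun _ => C) (μ := volume) hnh ?_ ?_ ?_ ?_ ?_ ?_).2
  · exact key
  · filter_upwards [Ioo_mem_nhds ht.1 ht.2] with s hs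
    exact (hF.slice hs).continuous.aestronglyMeasurable
  · exact int_cs (hF.slice ht).continuous (hcs t)
  · exact (hF.dt.slice ht).continuous.aestronglyMeasurable
  · refine Filter.Eventually.of_forall fun x s hs' => ?_
    by_cases hx : x ∈ K
    · rw [indicator_of_mem hx]
      exact hC (s, x) ⟨hs', hx⟩
    · rw [indicator_of_notMem hx]
      have : td F s x = 0 := by
        unfold td
        have e : (fun s => F s x) = fun _ => 0 := funext fun s => hs s x hx
        rw [e]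
        exact deriv_const _ _
      rw [this, norm_zero]
  · exact (integrable_indicator_iff hK.measurableSet).2 (integrableOn_const hK.measure_lt_top.ne)
  · exact Filter.Eventually.of_forall fun x s hs' => hF.hd (hsub' s hs') x

lemma hd_cut {χ : V → ℝ} (hχ : ContDiff ℝ ∞ χ) (hc : HasCompactSupport χ) (hG : JT 0 T G) {t : ℝ}
    (ht : t ∈ Ioo 0 T) :
    HasDerivAt (fun s => ∫ x, χ x * G s x) (∫ x, χ x * td G t x) t := by
  have h := hdc (F := fun s x => χ x * G s x) ((JT.of_space hχ).mul hG) hc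
    (fun s x hx => by rw [image_eq_zero_of_notMem_tsupport hx, zero_mul]) ht
  refine h.congr_deriv ?_
  refine integral_congr_ae (Eventually.of_forall fun x => ?_)
  exact ((hG.hd ht x).const_mul (χ x)).deriv

/-- square integrable continuous functions -/
structure M2 (f : V → ℝ) : Prop where
  ct : Continuous f
  sq : Integrable fun x => f x ^ 2

namespace M2
variable {f g : V → ℝ}

lemma mul (hf : M2 f) (hg : M2 g) : Integrable fun x => f x * g x := by
  refine (hf.sq.add hg.sq).mono' (hf.ct.mul hg.ct).aestronglyMeasurable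
    (Eventually.of_forall fun x => ?_)
  rw [Real.norm_eq_abs]
  show |f x * g x| ≤ f x ^ 2 + g x ^ 2
  rw [abs_le]
  constructor
  · linarith only [sq_nonneg (f x + g x), sq_nonneg (f x), sq_nonneg (g x)]
  · linarith only [sq_nonneg (f x - g x), sq_nonneg (f x), sq_nonneg (g x)]

lemma of_le (hf : M2 f) (hg : Continuous g) {C : ℝ} (h : ∀ x, |g x| ≤ C * |f x|) : M2 g := by
  refine ⟨hg, (hf.sq.const_mul (C ^ 2)).mono' (hg.pow 2).aestronglyMeasurable
    (Eventually.of_forall fun x => ?_)⟩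
  rw [Real.norm_eq_abs, abs_of_nonneg (sq_nonneg _), ← sq_abs (g x), ← sq_abs (f x), ← mul_pow]
  exact pow_le_pow_left₀ (abs_nonneg _) (h x) 2

lemma add (hf : M2 f) (hg : M2 g) : M2 fun x => f x + g x := by
  refine ⟨hf.ct.add hg.ct, ?_⟩
  have h := (hf.sq.add ((hf.mul hg).const_mul 2)).add hg.sq
  refine h.congr (Eventually.of_forall fun x => ?_)
  show f x ^ 2 + 2 * (f x * g x) + g x ^ 2 = (f x + g x) ^ 2
  ring

lemma cmul (hf : M2 f) (c : ℝ) : M2 fun x => c * f x :=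
  hf.of_le (continuous_const.mul hf.ct) (C := |c|) fun x => by rw [abs_mul]

lemma sub (hf : M2 f) (hg : M2 g) : M2 fun x => f x - g x := by
  have h := hf.add (hg.cmul (-1))
  have e : (fun x => f x + -1 * g x) = fun x => f x - g x := by funext x; ring
  rwa [e] at h

lemma bmul (hf : M2 f) (hg : Continuous g) {C : ℝ} (h : ∀ x, |g x| ≤ C) :
    M2 fun x => g x * f x :=
  hf.of_le (hg.mul hf.ct) (C := C) fun x => by
    rw [abs_mul]
    exact mul_le_mul_of_nonneg_right (h x) (abs_nonneg _)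

end M2

/-- uniformly square integrable -/
def B2 (S : Set ℝ) (F : ℝ → V → ℝ) : Prop := ∃ C : ℝ, 0 ≤ C ∧ ∀ t ∈ S, M2 (F t) ∧ ∫ x, F t x ^ 2 ≤ C

/-- uniformly bounded -/
def Bd (S : Set ℝ) (F : ℝ → V → ℝ) : Prop := ∃ C : ℝ, 0 ≤ C ∧ ∀ t ∈ S, Continuous (F t) ∧
  ∀ x, |F t x| ≤ C

/-- uniformly integrable -/
def B1 (S : Set ℝ) (F : ℝ → V → ℝ) : Prop := ∃ C : ℝ, 0 ≤ C ∧ ∀ t ∈ S, Integrable (F t) ∧
  ∫ x, |F t x| ≤ C

section
variable {S : Set ℝ}

lemma B2.of_le (hF : B2 S F) {C : ℝ} (hG : ∀ t ∈ S, Continuous (G t))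
    (h : ∀ t ∈ S, ∀ x, |G t x| ≤ C * |F t x|) : B2 S G := by
  obtain ⟨A, hA, hF⟩ := hF
  refine ⟨C ^ 2 * A, by positivity, fun t ht => ?_⟩
  obtain ⟨h1, h2⟩ := hF t ht
  have h3 := h1.of_le (hG t ht) (h t ht)
  refine ⟨h3, ?_⟩
  calc ∫ x, G t x ^ 2 ≤ ∫ x, C ^ 2 * F t x ^ 2 := by
        refine integral_mono h3.sq (h1.sq.const_mul _) fun x => ?_
        show G t x ^ 2 ≤ C ^ 2 * F t x ^ 2
        rw [← sq_abs (G t x), ← sq_abs (F t x), ← mul_pow]
        exact pow_le_pow_left₀ (abs_nonneg _) (h t ht x) 2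
    _ = C ^ 2 * ∫ x, F t x ^ 2 := integral_const_mul _ _
    _ ≤ _ := mul_le_mul_of_nonneg_left h2 (sq_nonneg _)

lemma B2.add (hF : B2 S F) (hG : B2 S G) : B2 S fun t x => F t x + G t x := by
  obtain ⟨A, hA, hF⟩ := hF
  obtain ⟨B, hB, hG⟩ := hG
  refine ⟨2 * A + 2 * B, by positivity, fun t ht => ?_⟩
  obtain ⟨f1, f2⟩ := hF t ht
  obtain ⟨g1, g2⟩ := hG t ht
  refine ⟨f1.add g1, ?_⟩
  calc ∫ x, (F t x + G t x) ^ 2 ≤ ∫ x, (2 * F t x ^ 2 + 2 * G t x ^ 2) := by
        refine integral_mono (f1.add g1).sq ((f1.sq.const_mul 2).add (g1.sq.const_mul 2))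
          fun x => ?_
        show (F t x + G t x) ^ 2 ≤ 2 * F t x ^ 2 + 2 * G t x ^ 2
        linarith only [sq_nonneg (F t x - G t x)]
    _ = 2 * (∫ x, F t x ^ 2) + 2 * ∫ x, G t x ^ 2 := by
        rw [integral_add (f1.sq.const_mul 2) (g1.sq.const_mul 2), integral_const_mul,
          integral_const_mul]
    _ ≤ _ := by linarith

lemma B2.cmul (hF : B2 S F) (c : ℝ) : B2 S fun t x => c * F t x := by
  have hF0 := hF
  obtain ⟨A, hA, hF'⟩ := hF
  exact hF0.of_le (C := |c|) (fun t ht => continuous_const.mul (hF' t ht).1.ct)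
    fun t _ x => by rw [abs_mul]

lemma B2.ct (hF : B2 S F) {t : ℝ} (ht : t ∈ S) : Continuous (F t) := by
  obtain ⟨A, hA, hF'⟩ := hF
  exact (hF' t ht).1.ct

lemma B2.m (hF : B2 S F) {t : ℝ} (ht : t ∈ S) : M2 (F t) := by
  obtain ⟨A, hA, hF'⟩ := hF
  exact (hF' t ht).1

lemma B2.sub (hF : B2 S F) (hG : B2 S G) : B2 S fun t x => F t x - G t x := by
  have h := hF.add (hG.cmul (-1))
  have e : (fun t x => F t x + -1 * G t x) = fun t x => F t x - G t x := by
    funext t x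
    ring
  rwa [e] at h

lemma Bd.ct (hF : Bd S F) {t : ℝ} (ht : t ∈ S) : Continuous (F t) := by
  obtain ⟨A, hA, hF'⟩ := hF
  exact (hF' t ht).1

lemma B2.bmul (hF : B2 S F) (hG : Bd S G) : B2 S fun t x => G t x * F t x := by
  obtain ⟨C, hC, hG'⟩ := hG
  refine hF.of_le (C := C) (fun t ht => (hG' t ht).1.mul (hF.ct ht)) fun t ht x => ?_
  rw [abs_mul]
  exact mul_le_mul_of_nonneg_right ((hG' t ht).2 x) (abs_nonneg _)

lemma B2.mul (hF : B2 S F) (hG : B2 S G) : B1 S fun t x => F t x * G t x := by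
  obtain ⟨A, hA, hF⟩ := hF
  obtain ⟨B, hB, hG⟩ := hG
  refine ⟨A + B, by positivity, fun t ht => ?_⟩
  obtain ⟨f1, f2⟩ := hF t ht
  obtain ⟨g1, g2⟩ := hG t ht
  refine ⟨f1.mul g1, ?_⟩
  calc ∫ x, |F t x * G t x| ≤ ∫ x, (F t x ^ 2 + G t x ^ 2) := by
        refine integral_mono (f1.mul g1).abs (f1.sq.add g1.sq) fun x => ?_
        show |F t x * G t x| ≤ F t x ^ 2 + G t x ^ 2
        rw [abs_le]
        constructor
        · linarith only [sq_nonneg (F t x + G t x), sq_nonneg (F t x), sq_nonneg (G t x)]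
        · linarith only [sq_nonneg (F t x - G t x), sq_nonneg (F t x), sq_nonneg (G t x)]
    _ = (∫ x, F t x ^ 2) + ∫ x, G t x ^ 2 := integral_add f1.sq g1.sq
    _ ≤ _ := by linarith

lemma B2.congr (hF : B2 S F) (h : ∀ t ∈ S, F t = G t) : B2 S G := by
  obtain ⟨A, hA, hF⟩ := hF
  exact ⟨A, hA, fun t ht => by rw [← h t ht]; exact hF t ht⟩

lemma B1.congr (hF : B1 S F) (h : ∀ t ∈ S, F t = G t) : B1 S G := by
  obtain ⟨A, hA, hF⟩ := hF
  exact ⟨A, hA, fun t ht => by rw [← h t ht]; exact hF t ht⟩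

lemma B1.cmul (hF : B1 S F) (c : ℝ) : B1 S fun t x => c * F t x := by
  obtain ⟨A, hA, hF⟩ := hF
  refine ⟨|c| * A, by positivity, fun t ht => ⟨(hF t ht).1.const_mul c, ?_⟩⟩
  simp only [abs_mul]
  rw [integral_const_mul]
  exact mul_le_mul_of_nonneg_left (hF t ht).2 (abs_nonneg _)

end

/-- convergence of the cutoff integrals in time -/
lemma cut_lim {m : ℝ} {χ : ℕ → V → ℝ} (hχ : Cuts m χ) (hG : JT 0 T G) {s t : ℝ} (hs : 0 < s)
    (hst : s ≤ t) (ht : t < T) (h1 : B1 (Icc s t) G) :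
    IntervalIntegrable (fun τ => ∫ x, G τ x) volume s t ∧
    Tendsto (fun n => ∫ τ in s..t, ∫ x, χ n x * G τ x) atTop (𝓝 (∫ τ in s..t, ∫ x, G τ x)) := by
  obtain ⟨C, hC, h1⟩ := h1
  have hI : ∀ τ ∈ Icc s t, τ ∈ Ioo 0 T := fun τ hτ => ⟨hs.trans_le hτ.1, hτ.2.trans_lt ht⟩
  have hcont : ∀ n, ContinuousOn (fun τ => ∫ x, χ n x * G τ x) (Icc s t) := fun n τ hτ =>
    (hd_cut (hχ.sm n) (hχ.cs n) hG (hI τ hτ)).continuousAt.continuousWithinAt
  have hii : ∀ n, IntervalIntegrable (fun τ => ∫ x, χ n x * G τ x) volume s t := fun n => by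
    apply ContinuousOn.intervalIntegrable
    rw [uIcc_of_le hst]
    exact hcont n
  have hbd : ∀ n, ∀ τ ∈ Icc s t, ‖∫ x, χ n x * G τ x‖ ≤ C := by
    intro n τ hτ
    refine (norm_integral_le_integral_norm _).trans (le_trans ?_ (h1 τ hτ).2)
    refine integral_mono_of_nonneg (Eventually.of_forall fun x => norm_nonneg _) (h1 τ hτ).1.abs
      (Eventually.of_forall fun x => ?_)
    show ‖χ n x * G τ x‖ ≤ |G τ x|
    rw [norm_mul, Real.norm_eq_abs, Real.norm_eq_abs]
    exact mul_le_of_le_one_left (abs_nonneg _) (hχ.bd n x)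
  have hlim : ∀ τ ∈ Icc s t, Tendsto (fun n => ∫ x, χ n x * G τ x) atTop (𝓝 (∫ x, G τ x)) :=
    fun τ hτ => hχ.lim (h1 τ hτ).1
  have hae : ∀ᵐ τ ∂(volume.restrict (uIoc s t)), τ ∈ Icc s t := by
    rw [uIoc_of_le hst]
    exact (ae_restrict_mem measurableSet_Ioc).mono fun τ hτ => Ioc_subset_Icc_self hτ
  have hmeas : AEStronglyMeasurable (fun τ => ∫ x, G τ x) (volume.restrict (uIoc s t)) := by
    refine aestronglyMeasurable_of_tendsto_ae atTop (fun n => ?_)
      (hae.mono fun τ hτ => hlim τ hτ)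
    exact (hii n).def'.aestronglyMeasurable
  refine ⟨?_, ?_⟩
  · rw [intervalIntegrable_iff]
    rw [uIoc_of_le hst] at hmeas hae ⊢
    refine Integrable.of_bound hmeas C ?_
    refine hae.mono fun τ hτ => ?_
    refine (norm_integral_le_integral_norm _).trans ?_
    exact (h1 τ hτ).2
  · refine intervalIntegral.tendsto_integral_filter_of_dominated_convergence (fun _ => C)
      (Eventually.of_forall fun n => (hii n).def'.aestronglyMeasurable)
      (Eventually.of_forall fun n => ?_) intervalIntegrable_const ?_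
    · refine Eventually.of_forall fun τ hτ => hbd n τ ?_
      rw [uIoc_of_le hst] at hτ
      exact Ioc_subset_Icc_self hτ
    · refine Eventually.of_forall fun τ hτ => hlim τ ?_
      rw [uIoc_of_le hst] at hτ
      exact Ioc_subset_Icc_self hτ

/-- the energy identity -/
theorem en_id (hF : JT 0 T F) {s t : ℝ} (hs : 0 < s) (hst : s ≤ t) (ht : t < T)
    (h2 : B2 (Icc s t) F) (h1 : B2 (Icc s t) (td F)) :
    IntervalIntegrable (fun τ => 2 * ∫ x, F τ x * td F τ x) volume s t ∧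
    ∫ x, F t x ^ 2 = (∫ x, F s x ^ 2) + ∫ τ in s..t, 2 * ∫ x, F τ x * td F τ x := by
  obtain ⟨m, χ, hm, hχ⟩ := exists_cuts
  have hI : ∀ τ ∈ Icc s t, τ ∈ Ioo 0 T := fun τ hτ => ⟨hs.trans_le hτ.1, hτ.2.trans_lt ht⟩
  have hJ : JT 0 T (fun τ x => F τ x * td F τ x) := hF.mul hF.dt
  obtain ⟨c1, c2⟩ := cut_lim hχ hJ hs hst ht (h2.mul h1)
  have hF2 : JT 0 T (fun τ x => F τ x * F τ x) := hF.mul hF
  have hderiv : ∀ n, ∀ τ ∈ uIcc s t, HasDerivAt (fun τ => ∫ x, χ n x * (F τ x * F τ x))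
      (2 * ∫ x, χ n x * (F τ x * td F τ x)) τ := by
    intro n τ hτ
    rw [uIcc_of_le hst] at hτ
    refine (hd_cut (hχ.sm n) (hχ.cs n) hF2 (hI τ hτ)).congr_deriv ?_
    rw [← integral_const_mul]
    refine integral_congr_ae (Eventually.of_forall fun x => ?_)
    show χ n x * td (fun τ x => F τ x * F τ x) τ x = 2 * (χ n x * (F τ x * td F τ x))
    have : td (fun τ x => F τ x * F τ x) τ x = td F τ x * F τ x + F τ x * td F τ x :=
      ((hF.hd (hI τ hτ) x).mul (hF.hd (hI τ hτ) x)).deriv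
    rw [this]
    ring
  have hii : ∀ n, IntervalIntegrable (fun τ => 2 * ∫ x, χ n x * (F τ x * td F τ x))
      volume s t := by
    intro n
    apply ContinuousOn.intervalIntegrable
    rw [uIcc_of_le hst]
    intro τ hτ
    exact ((hd_cut (hχ.sm n) (hχ.cs n) hJ (hI τ hτ)).continuousAt.const_mul 2).continuousWithinAt
  have e1 : ∀ n, ∫ x, χ n x * (F t x * F t x) = (∫ x, χ n x * (F s x * F s x))
      + 2 * ∫ τ in s..t, ∫ x, χ n x * (F τ x * td F τ x) := by
    intro n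
    have := intervalIntegral.integral_eq_sub_of_hasDerivAt (hderiv n) (hii n)
    rw [intervalIntegral.integral_const_mul] at this
    linarith
  have ls : Tendsto (fun n => ∫ x, χ n x * (F s x * F s x)) atTop (𝓝 (∫ x, F s x * F s x)) :=
    hχ.lim ((h2.m (left_mem_Icc.2 hst)).mul (h2.m (left_mem_Icc.2 hst)))
  have lt : Tendsto (fun n => ∫ x, χ n x * (F t x * F t x)) atTop (𝓝 (∫ x, F t x * F t x)) :=
    hχ.lim ((h2.m (right_mem_Icc.2 hst)).mul (h2.m (right_mem_Icc.2 hst)))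
  have l3 := ls.add (c2.const_mul 2)
  have l4 := tendsto_nhds_unique (lt.congr e1) l3
  refine ⟨c1.const_mul 2, ?_⟩
  rw [intervalIntegral.integral_const_mul]
  simp only [pow_two]
  exact l4

end Pool.Agent.X96.AR
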