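import Pool.Agent.X96.AR.Tm

/-!
Axisymmetric flows (helper96): the evolution equations.
-/

set_option autoImplicit false

open MeasureTheory Set Metric Filter Topology
open scoped ContDiff

namespace Pool.Agent.X96.AR

open H459R3.NS W221.NS Pool.Agent.TH305.DR Pool.Agent.TH305.AX
open Pool.Agent.W583.MD (sm_pd)

/-- `∂_z u_θ / ρ` -/
noncomputable def kk (v : V → V) : V → ℝ := pd 2 (gg v)

/-- `ω_θ / ρ` -/
noncomputable def oo (v : V → V) (x : V) : ℝ := pd 2 (ff v) x - dlt (fun y => v y 2) x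

section
variable {v : V → V}

lemma inv_kk (hv : ContDiff ℝ ∞ v) (ha : Axi v) : Inv (kk v) := (inv_gg hv ha).pd2

lemma inv_oo (hv : ContDiff ℝ ∞ v) (ha : Axi v) : Inv (oo v) :=
  (inv_ff hv ha).pd2.sub (inv_h hv ha).dlt

lemma om_eq (hv : ContDiff ℝ ∞ v) (ha : Axi v) :
    om v = fun x => 2 * gg v x + sg x * dlt (gg v) x := by
  funext x
  rw [← gg_ode hv x, (inv_gg hv ha).D]

end

section sol
variable {T : ℝ} {u : ℝ → V → V} {p : ℝ → V → ℝ}

lemma jt_k (h : BSol 1 T u p) : JT 0 T (fun t => kk (u t)) := (jt_g h).pd 2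

lemma jt_o (h : BSol 1 T u p) : JT 0 T (fun t => oo (u t)) := ((jt_f h).pd 2).sub (jt_u h 2).dlt

lemma jt_om (h : BSol 1 T u p) : JT 0 T (fun t => om (u t)) :=
  ((jt_u h 1).pd 0).sub ((jt_u h 0).pd 1)

lemma JT.c {F : ℝ → V → ℝ} (hF : JT 0 T F) (i : Fin 3) : JT 0 T (fun t x => x i * F t x) :=
  (JT.of_space (sm_crd i)).mul hF

lemma td_c {F : ℝ → V → ℝ} (hF : JT 0 T F) (i : Fin 3) {t : ℝ} (ht : t ∈ Ioo 0 T) (x : V) :
    td (fun s y => y i * F s y) t x = x i * td F t x :=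
  ((hF.hd ht x).const_mul (x i)).deriv

variable {t : ℝ}

lemma sl (h : BSol 1 T u p) (ht : t ∈ Ioo 0 T) : ContDiff ℝ ∞ (u t) ∧ Axi (u t) :=
  ⟨h.slice0 (Ioo_subset_Ico_self ht), h.axi t (Ioo_subset_Ico_self ht)⟩

lemma eqg (h : BSol 1 T u p) (ht : t ∈ Ioo 0 T) (x : V) :
    td (fun s => gg (u s)) t x + av (u t) (gg (u t)) x
      = lap (gg (u t)) x + 2 * dlt (gg (u t)) x + -(2 * (ff (u t) x * gg (u t) x)) := by
  obtain ⟨hv, ha⟩ := sl h ht
  have H := (ft h ht).pg x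
  rw [av_inv hv ha (inv_gg hv ha), lap_L3 (inv_gg hv ha)]
  rw [L5_eq] at H
  linear_combination H

lemma eqk (h : BSol 1 T u p) (ht : t ∈ Ioo 0 T) (x : V) :
    td (fun s => kk (u s)) t x + av (u t) (kk (u t)) x
      = lap (kk (u t)) x + 2 * dlt (kk (u t)) x
        + (D (ff (u t)) x * kk (u t) x - pd 2 (ff (u t)) x * om (u t) x) := by
  obtain ⟨hv, ha⟩ := sl h ht
  have H := (ft h ht).k_eq x
  have e : td (fun s => kk (u s)) t x = pd 2 (td (fun s => gg (u s)) t) x :=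
    (pd_td (jt_g h) ht 2 x).symm
  rw [av_inv hv ha (inv_kk hv ha), lap_L3 (inv_kk hv ha), e, om_eq hv ha, (inv_ff hv ha).D]
  rw [L5_eq] at H
  unfold kk
  linear_combination H

lemma eqo (h : BSol 1 T u p) (ht : t ∈ Ioo 0 T) (x : V) :
    td (fun s => oo (u s)) t x + av (u t) (oo (u t)) x
      = lap (oo (u t)) x + 2 * dlt (oo (u t)) x + 2 * (gg (u t) x * kk (u t) x) := by
  obtain ⟨hv, ha⟩ := sl h ht
  have H := (ft h ht).om_eq x
  have e : td (fun s => oo (u s)) t x = pd 2 (td (fun s => ff (u s)) t) x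
      - dlt (td (fun s y => u s y 2) t) x := by
    rw [pd_td (jt_f h) ht, dlt_td (jt_u h 2) (fun s hs' => inv_h (sl h hs').1 (sl h hs').2) ht]
    exact (((jt_f h).pd 2).hd ht x |>.sub ((jt_u h 2).dlt.hd ht x)).deriv
  rw [av_inv hv ha (inv_oo hv ha), lap_L3 (inv_oo hv ha), e]
  rw [L5_eq] at H
  unfold kk oo
  linear_combination H

lemma eqG (h : BSol 1 T u p) (ht : t ∈ Ioo 0 T) (x : V) :
    td (fun s => om (u s)) t x + av (u t) (om (u t)) x
      = lap (om (u t)) x + (pd 2 (fun y => u t y 2) x * om (u t) x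
        - D (fun y => u t y 2) x * kk (u t) x) := by
  obtain ⟨hv, ha⟩ := sl h ht
  have H := (ft h ht).g_eq x
  have e : td (fun s => om (u s)) t x = 2 * td (fun s => gg (u s)) t x
      + sg x * dlt (td (fun s => gg (u s)) t) x := by
    rw [dlt_td (jt_g h) (fun s hs' => inv_gg (sl h hs').1 (sl h hs').2) ht]
    rw [td_congr ht (G := fun s x => 2 * gg (u s) x + sg x * dlt (gg (u s)) x)
      (fun s hs => congrFun (om_eq (sl h hs).1 (sl h hs).2) x)]
    exact (((jt_g h).hd ht x).const_mul 2 |>.add (((jt_g h).dlt.hd ht x).const_mul (sg x))).deriv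
  rw [av_inv hv ha (inv_om hv ha), lap_L3 (inv_om hv ha), e, (inv_h hv ha).D, om_eq hv ha]
  unfold kk
  linear_combination H

lemma eqoi (h : BSol 1 T u p) (ht : t ∈ Ioo 0 T) {i : Fin 3} (hi : i ≠ 2) (x : V) :
    td (fun s y => y i * oo (u s) y) t x + av (u t) (fun y => y i * oo (u t) y) x
      = lap (fun y => y i * oo (u t) y) x + (2 * (gg (u t) x * (x i * kk (u t) x))
        + u t x i * oo (u t) x) := by
  obtain ⟨hv, ha⟩ := sl h ht
  have H := eqo h ht x
  rw [lap_L3 (inv_oo hv ha)] at H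
  rw [lap_ci (inv_oo hv ha) hi, L5_eq, av_c (inv_oo hv ha).sm, td_c (jt_o h) i ht]
  linear_combination x i * H

lemma eqki (h : BSol 1 T u p) (ht : t ∈ Ioo 0 T) {i : Fin 3} (hi : i ≠ 2) (x : V) :
    td (fun s y => y i * kk (u s) y) t x + av (u t) (fun y => y i * kk (u t) y) x
      = lap (fun y => y i * kk (u t) y) x + (D (ff (u t)) x * (x i * kk (u t) x)
        - (x i * pd 2 (ff (u t)) x) * om (u t) x + u t x i * kk (u t) x) := by
  obtain ⟨hv, ha⟩ := sl h ht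
  have H := eqk h ht x
  rw [lap_L3 (inv_kk hv ha)] at H
  rw [lap_ci (inv_kk hv ha) hi, L5_eq, av_c (inv_kk hv ha).sm, td_c (jt_k h) i ht]
  linear_combination x i * H

end sol

end Pool.Agent.X96.AR
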