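import Pool.Agent.X96.AR.Fs2

/-!
Estimates at a fixed time (helper96).
-/

set_option autoImplicit false

open MeasureTheory Set Metric Filter Topology
open scoped ContDiff ENNReal

namespace Pool.Agent.X96.AR

open H459R3.NS W221.NS Pool.Agent.TH305.DR Pool.Agent.TH305.AX
open Pool.Agent.W583.MD (sm_pd cs_pd pd_mul' Z Z.add Z.sub Z.smul Z.sum int_cs Z_pd)

variable {a b : V → ℝ} {S : Set ℝ} {F G : ℝ → V → ℝ} {u : ℝ → V → V} {t : ℝ}

lemma HI.m (h : HI S F) (ht : t ∈ S) : M2 (F t) := h.b2.m ht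

lemma HI.m2g (h : HI S F) (ht : t ∈ S) : M2g (F t) :=
  ⟨h.sm t ht, h.m ht, fun j => (h.pd j).m ht⟩

/-- integration by parts in `z` -/
lemma int_parts (ha : M2g a) (hb : M2g b) : ∫ x, a x * pd 2 b x = -∫ x, pd 2 a x * b x := by
  have e : pd 2 (fun x => a x * b x) = fun x => a x * pd 2 b x + pd 2 a x * b x := by
    funext x
    exact pd_mul' ha.sm hb.sm 2 x
  have i1 := ha.m.mul (hb.g 2)
  have i2 := (ha.g 2).mul hb.m
  have h := int_pd (ha.sm.mul hb.sm) (ha.m.mul hb.m) 2 (by rw [e]; exact i1.add i2)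
  rw [e, integral_add i1 i2] at h
  linarith

/-- the elliptic estimate -/
lemma ell (ia : Inv a) (ha : M2g a) (hl : M2 (lap a)) (hD : M2 (D a)) (hd : M2 (dlt a))
    (hb : M2g b) (heq : ∀ x, L5 a x = pd 2 b x) : ∫ x, gq a x ≤ ∫ x, b x ^ 2 := by
  have h1 := int_lap ha hl
  have h2 := int_wd ia ha.m hD hd
  have h3 := int_parts ha hb
  have e : ∀ x, a x * pd 2 b x = a x * lap a x + 2 * (a x * dlt a x) := by
    intro x
    rw [← heq, L5_eq, ← lap_L3 ia]
    ring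
  have i1 := ha.m.mul hl
  have i2 := ha.m.mul hd
  simp only [e] at h3
  rw [integral_add i1 (i2.const_mul 2), integral_const_mul] at h3
  have h4 : ∫ x, pd 2 a x * b x ≤ ∫ x, (1 / 2 * gq a x + 1 / 2 * b x ^ 2) := by
    refine integral_mono ((ha.g 2).mul hb.m) ((ha.int.const_mul _).add (hb.m.sq.const_mul _))
      fun x => ?_
    show pd 2 a x * b x ≤ 1 / 2 * gq a x + 1 / 2 * b x ^ 2
    linarith only [le_gq a x 2, sq_nonneg (pd 2 a x - b x)]
  rw [integral_add (ha.int.const_mul _) (hb.m.sq.const_mul _), integral_const_mul,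
    integral_const_mul] at h4
  linarith

/-- the first order estimate -/
lemma dl3 (ha : ContDiff ℝ ∞ a) (h1 : M2 a) (h2 : M2 (D a)) :
    9 * (∫ x, a x ^ 2) ≤ ∫ x, (4 * a x + D a x) ^ 2 := by
  have h3 := int_aD ha h1 h2
  have hq : M2 fun x => 4 * a x + D a x := (h1.cmul 4).add h2
  have i1 : Integrable fun x => a x * D a x := h1.mul h2
  have e : ∫ x, a x * (4 * a x + D a x) = 3 * ∫ x, a x ^ 2 := by
    have e1 : ∀ x, a x * (4 * a x + D a x) = 4 * a x ^ 2 + a x * D a x := fun x => by ring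
    simp only [e1]
    rw [integral_add (h1.sq.const_mul 4) i1, integral_const_mul, h3]
    ring
  have h4 : ∫ x, a x * (4 * a x + D a x)
      ≤ ∫ x, (3 / 2 * a x ^ 2 + 1 / 6 * (4 * a x + D a x) ^ 2) := by
    refine integral_mono (h1.mul hq) ((h1.sq.const_mul _).add (hq.sq.const_mul _)) fun x => ?_
    show a x * (4 * a x + D a x) ≤ 3 / 2 * a x ^ 2 + 1 / 6 * (4 * a x + D a x) ^ 2
    linarith only [sq_nonneg (3 * a x - (4 * a x + D a x))]
  rw [integral_add (h1.sq.const_mul _) (hq.sq.const_mul _), integral_const_mul,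
    integral_const_mul, e] at h4
  linarith

/-- `∫ a D b = -∫ b (D a + 2 a)` -/
lemma int_Dparts (ha : ContDiff ℝ ∞ a) (hb : ContDiff ℝ ∞ b) (h0 : Integrable fun x => a x * b x)
    (h1 : Integrable fun x => a x * D b x) (h2 : Integrable fun x => D a x * b x) :
    ∫ x, a x * D b x = -((∫ x, D a x * b x) + 2 * ∫ x, a x * b x) := by
  have e : D (fun x => a x * b x) = fun x => a x * D b x + D a x * b x := by
    funext x
    exact D_mul ha hb x
  have h := int_D (ha.mul hb) h0 (by rw [e]; exact h1.add h2)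
  rw [e, integral_add h1 h2] at h
  linarith

namespace AF

lemma dvf (h : AF S u) (ht : t ∈ S) (x : V) :
    2 * ff (u t) x + D (ff (u t)) x + pd 2 (fun y => u t y 2) x = 0 := by
  have h1 := ff_ode (h.sm t ht) x
  have h2 := h.dv t ht x
  rw [Fin.sum_univ_three] at h2
  unfold Pool.Agent.X96.AR.dh at h1
  linarith

/-- `L f = ∂_z Ω` -/
lemma lf (h : AF S u) (ht : t ∈ S) (x : V) : L5 (ff (u t)) x = pd 2 (oo (u t)) x := by
  have iF := h.iff ht
  have iH := h.ihh ht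
  have e1 : pd 2 (fun y => u t y 2) = fun x => -(2 * ff (u t) x + sg x * dlt (ff (u t)) x) := by
    funext x
    have := h.dvf ht x
    rw [iF.D] at this
    linarith
  have e2 : pd 2 (oo (u t)) x = pd 2 (pd 2 (ff (u t))) x - pd 2 (dlt fun y => u t y 2) x := by
    have : oo (u t) = fun x => pd 2 (ff (u t)) x - dlt (fun y => u t y 2) x := rfl
    rw [this, pd_sub' (sm_pd (h.smf ht) 2) (sm_dlt (sm_cmp (h.sm t ht) 2))]
  rw [e2, ← iH.dlt_pd2, e1]
  have H := (HP.cst (-1)).mul (((HP.cst 2).mul (HP.base iF)).add (HP.sg.mul (HP.base iF.dlt)))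
  have e3 : (fun x => -(2 * ff (u t) x + sg x * dlt (ff (u t)) x))
      = fun x => -1 * (2 * ff (u t) x + sg x * dlt (ff (u t)) x) := by
    funext x
    ring
  rw [e3, H.d]
  unfold L5
  ring

lemma e1 (h : AF S u) (ht : t ∈ S) : ∫ x, gq (ff (u t)) x ≤ ∫ x, oo (u t) x ^ 2 :=
  ell (h.iff ht) (h.f.m2g ht) (h.f.lap.m ht) (h.Df.m ht) (h.f.dlt.m ht) (h.o.m2g ht)
    (fun x => h.lf ht x)

lemma e2 (h : AF S u) (ht : t ∈ S) : ∫ x, gq (pd 2 (ff (u t))) x ≤ ∫ x, pd 2 (oo (u t)) x ^ 2 :=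
  ell (h.iff ht).pd2 ((h.f.pd 2).m2g ht) ((h.f.pd 2).lap.m ht) (h.Dfz.m ht) ((h.f.pd 2).dlt.m ht)
    ((h.o.pd 2).m2g ht) (fun x => by
      have e : L5 (ff (u t)) = pd 2 (oo (u t)) := funext fun x => h.lf ht x
      rw [← (HP.L5 (h.iff ht)).z x, e])

lemma e2' (h : AF S u) (ht : t ∈ S) : ∫ x, pd 2 (oo (u t)) x ^ 2 ≤ ∫ x, gq (oo (u t)) x :=
  integral_mono ((h.o.pd 2).m ht).sq (h.o.m2g ht).int fun x => le_gq _ x 2

/-- `D δ f` is square integrable -/
lemma Ddf (h : AF S u) : HI S fun t => D (dlt (ff (u t))) :=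
  ((((h.f.pd 0).pd 0).add ((h.f.pd 1).pd 1)).sub (h.f.dlt.cmul 2)).congr
    fun t ht => by
    funext x
    have := dlt_ode (h.smf ht) x
    linarith

lemma e3 (h : AF S u) (ht : t ∈ S) :
    9 * (∫ x, dlt (ff (u t)) x ^ 2) ≤ 4 * ∫ x, gq (oo (u t)) x := by
  have h1 := dl3 (sm_dlt (h.smf ht)) (h.f.dlt.m ht) (h.Ddf.m ht)
  have e : ∀ x, 4 * dlt (ff (u t)) x + D (dlt (ff (u t))) x
      = pd 2 (oo (u t)) x - pd 2 (pd 2 (ff (u t))) x := by
    intro x
    rw [← h.lf ht x, (h.iff ht).dlt.D]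
    unfold L5
    ring
  simp only [e] at h1
  have m1 := ((h.o.pd 2).m ht)
  have m2 := ((h.f.pd 2).pd 2).m ht
  have h2 : ∫ x, (pd 2 (oo (u t)) x - pd 2 (pd 2 (ff (u t))) x) ^ 2
      ≤ ∫ x, (2 * pd 2 (oo (u t)) x ^ 2 + 2 * gq (pd 2 (ff (u t))) x) := by
    refine integral_mono (m1.sub m2).sq ((m1.sq.const_mul 2).add
      (((h.f.pd 2).m2g ht).int.const_mul 2)) fun x => ?_
    show (pd 2 (oo (u t)) x - pd 2 (pd 2 (ff (u t))) x) ^ 2
      ≤ 2 * pd 2 (oo (u t)) x ^ 2 + 2 * gq (pd 2 (ff (u t))) x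
    linarith only [le_gq (pd 2 (ff (u t))) x 2,
      sq_nonneg (pd 2 (oo (u t)) x + pd 2 (pd 2 (ff (u t))) x)]
  rw [integral_add (m1.sq.const_mul 2) (((h.f.pd 2).m2g ht).int.const_mul 2),
    integral_const_mul, integral_const_mul] at h2
  have h3 := h.e2 ht
  have h4 := h.e2' ht
  linarith

/-- the vortex stretching in the equation of `K` -/
lemma e4 (h : AF S u) (ht : t ∈ S) :
    ∫ x, kk (u t) x * (D (ff (u t)) x * kk (u t) x - pd 2 (ff (u t)) x * Pool.Agent.X96.AR.om (u t) x)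
      = ∫ x, (gg (u t) x * (pd 2 (ff (u t)) x * D (kk (u t)) x)
        - gg (u t) x * (D (ff (u t)) x * pd 2 (kk (u t)) x)) := by
  obtain ⟨f, hf⟩ : ∃ f, f = ff (u t) := ⟨_, rfl⟩
  obtain ⟨g, hg⟩ : ∃ g, g = gg (u t) := ⟨_, rfl⟩
  have hk : kk (u t) = pd 2 g := by rw [hg]; rfl
  have hom : ∀ x, Pool.Agent.X96.AR.om (u t) x = 2 * g x + D g x := by
    intro x
    rw [hg]
    exact (gg_ode (h.sm t ht) x).symm
  have sf : ContDiff ℝ ∞ f := by rw [hf]; exact h.smf ht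
  have sg' : ContDiff ℝ ∞ g := by rw [hg]; exact h.smg ht
  have sk : ContDiff ℝ ∞ (pd 2 g) := sm_pd sg' 2
  have sfz : ContDiff ℝ ∞ (pd 2 f) := sm_pd sf 2
  have sDf : ContDiff ℝ ∞ (D f) := sm_D sf
  -- square integrable and bounded functions
  have mg : M2 g := by rw [hg]; exact h.g.m ht
  have mk : M2 (pd 2 g) := by rw [hg]; exact (h.g.pd 2).m ht
  have mkz : M2 (pd 2 (pd 2 g)) := by rw [hg]; exact ((h.g.pd 2).pd 2).m ht
  have mDk : M2 (D (pd 2 g)) := by rw [hg]; exact h.Dk.m ht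
  have mDg : M2 (D g) := by rw [hg]; exact h.Dg.m ht
  obtain ⟨C1, -, B1⟩ := h.Df.bd
  obtain ⟨C2, -, B2'⟩ := (h.f.pd 2).bd
  obtain ⟨C3, -, B3⟩ := h.Dfz.bd
  have b1 := (B1 t ht).2
  have b2 := (B2' t ht).2
  have b3 := (B3 t ht).2
  beta_reduce at b1 b2 b3
  rw [← hf] at b1 b2 b3
  have m1 : M2 fun x => D f x * pd 2 g x := mk.bmul sDf.continuous b1
  have m2 : M2 fun x => D f x * pd 2 (pd 2 g) x := mkz.bmul sDf.continuous b1
  have m3 : M2 fun x => D (pd 2 f) x * pd 2 g x := mk.bmul (sm_D sfz).continuous b3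
  have m4 : M2 fun x => pd 2 f x * pd 2 g x := mk.bmul sfz.continuous b2
  have m5 : M2 fun x => pd 2 f x * D (pd 2 g) x := mDk.bmul sfz.continuous b2
  -- first identity
  have z1 : ∫ x, pd 2 g x * (D f x * pd 2 g x)
      = -∫ x, (g x * (D (pd 2 f) x * pd 2 g x) + g x * (D f x * pd 2 (pd 2 g) x)) := by
    have e : pd 2 (fun x => g x * (D f x * pd 2 g x)) = fun x =>
        (g x * (D (pd 2 f) x * pd 2 g x) + g x * (D f x * pd 2 (pd 2 g) x))
          + pd 2 g x * (D f x * pd 2 g x) := by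
      funext x
      rw [pd_mul' sg' (sDf.mul sk), pd_mul' sDf sk, ← D_pd2 sf]
      ring
    have i0 : Integrable fun x => g x * (D (pd 2 f) x * pd 2 g x)
        + g x * (D f x * pd 2 (pd 2 g) x) := (mg.mul m3).add (mg.mul m2)
    have h1 := int_pd (sg'.mul (sDf.mul sk)) (mg.mul m1) 2 (by rw [e]; exact i0.add (mk.mul m1))
    rw [e, integral_add i0 (mk.mul m1)] at h1
    linarith
  -- second identity
  have z2 : ∫ x, (pd 2 f x * pd 2 g x) * D g x
      = -((∫ x, (D (pd 2 f) x * pd 2 g x + pd 2 f x * D (pd 2 g) x) * g x)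
        + 2 * ∫ x, (pd 2 f x * pd 2 g x) * g x) := by
    have e : D (fun x => pd 2 f x * pd 2 g x)
        = fun x => D (pd 2 f) x * pd 2 g x + pd 2 f x * D (pd 2 g) x := by
      funext x
      rw [D_mul sfz sk]
      ring
    have h1 := int_Dparts (sfz.mul sk) sg' (m4.mul mg) (m4.mul mDg)
      (by rw [e]; exact (m3.add m5).mul mg)
    rw [e] at h1
    exact h1
  rw [hk, ← hf, ← hg]
  have e0 : ∀ x, pd 2 g x * (D f x * pd 2 g x - pd 2 f x * Pool.Agent.X96.AR.om (u t) x)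
      = (pd 2 g x * (D f x * pd 2 g x) - (pd 2 f x * pd 2 g x) * D g x)
        - 2 * ((pd 2 f x * pd 2 g x) * g x) := by
    intro x
    rw [hom]
    ring
  simp only [e0]
  have j1 := mk.mul m1
  have j2 := m4.mul mDg
  have j3 := m4.mul mg
  have j12 : Integrable fun x => pd 2 g x * (D f x * pd 2 g x) - (pd 2 f x * pd 2 g x) * D g x :=
    j1.sub j2
  rw [integral_sub j12 (j3.const_mul 2), integral_sub j1 j2, integral_const_mul, z1, z2]
  have k1 : Integrable fun x => g x * (D (pd 2 f) x * pd 2 g x)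
      + g x * (D f x * pd 2 (pd 2 g) x) := (mg.mul m3).add (mg.mul m2)
  have k2 : Integrable fun x => (D (pd 2 f) x * pd 2 g x + pd 2 f x * D (pd 2 g) x) * g x :=
    (m3.add m5).mul mg
  have e5 : ∫ x, (g x * (pd 2 f x * D (pd 2 g) x) - g x * (D f x * pd 2 (pd 2 g) x))
      = (∫ x, (D (pd 2 f) x * pd 2 g x + pd 2 f x * D (pd 2 g) x) * g x)
        - ∫ x, (g x * (D (pd 2 f) x * pd 2 g x) + g x * (D f x * pd 2 (pd 2 g) x)) := by
    rw [← integral_sub k2 k1]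
    congr 1
    funext x
    ring
  rw [e5]
  ring

end AF

end Pool.Agent.X96.AR
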