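import Pool.Agent.X96.AR.Est

/-!
Estimates at a fixed time (helper96): the nonlinear terms.
-/

set_option autoImplicit false

open MeasureTheory Set Metric Filter Topology
open scoped ContDiff ENNReal

namespace Pool.Agent.X96.AR

open H459R3.NS W221.NS Pool.Agent.TH305.DR Pool.Agent.TH305.AX
open Pool.Agent.W583.MD (sm_pd cs_pd pd_mul' Z Z.add Z.sub Z.smul Z.sum int_cs Z_pd)

variable {a b : V → ℝ} {S : Set ℝ} {F G : ℝ → V → ℝ} {u : ℝ → V → V} {t : ℝ}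

lemma D_sq_le (w : V → ℝ) (x : V) : D w x ^ 2 ≤ sg x * gq w x := by
  unfold D gq sg
  rw [Fin.sum_univ_three]
  have h1 : 0 ≤ (x 0 * pd 1 w x - x 1 * pd 0 w x) ^ 2 := sq_nonneg _
  have h2 : 0 ≤ (x 0 ^ 2 + x 1 ^ 2) * pd 2 w x ^ 2 := by positivity
  nlinarith

lemma dlt_sq_le {w : V → ℝ} (hw : Inv w) (x : V) : sg x * dlt w x ^ 2 ≤ gq w x := by
  unfold gq
  rw [Fin.sum_univ_three, hw.pd0, hw.pd1]
  unfold sg
  have : 0 ≤ pd 2 w x ^ 2 := sq_nonneg _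
  nlinarith

lemma young_D (c q w : ℝ) {σ D' Q : ℝ} (hσ : 0 ≤ σ) (hQ : 0 ≤ Q) (h : D' ^ 2 ≤ σ * Q) :
    c * (q * D') ≤ 1 / 8 * Q + 2 * (σ * c ^ 2 * q ^ 2) := by
  rcases eq_or_lt_of_le hσ with h0 | h0
  · have hD : D' = 0 := by
      rw [← h0, zero_mul] at h
      exact pow_eq_zero_iff two_ne_zero |>.1 (le_antisymm h (sq_nonneg _))
    rw [hD, ← h0]
    simp
    exact hQ
  · have h1 : D' ^ 2 / σ ≤ Q := by
      rw [div_le_iff₀ h0, mul_comm]
      exact h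
    have h2 : 0 ≤ 2 * σ * (c * q - D' / (4 * σ)) ^ 2 := by positivity
    have h3 : 2 * σ * (c * q - D' / (4 * σ)) ^ 2
        = 2 * (σ * c ^ 2 * q ^ 2) - c * (q * D') + 1 / 8 * (D' ^ 2 / σ) := by
      field_simp
      ring
    rw [h3] at h2
    linarith

namespace AF

/-- the nonlinear terms of the first energy estimate -/
theorem n1 (h : AF S u) (ht : t ∈ S) {M r C₁ C₂ : ℝ} (hM : 0 ≤ M) (hr : 0 < r)
    (hΓ : ∀ x, |sg x * gg (u t) x| ≤ M ∨ sg x * gg (u t) x ^ 2 ≤ M ^ 2)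
    (hη : ∀ x, sg x ≤ r ^ 2 → |sg x * gg (u t) x| ≤ 1 / 4)
    (h1 : ∀ w : V → ℝ, M2g w → Integrable (fun x => |gg (u t) x| * w x ^ 2) ∧
      ∫ x, |gg (u t) x| * w x ^ 2 ≤ 1 / 4 * (∫ x, gq w x) + C₁ * ∫ x, w x ^ 2)
    (h2 : ∀ w : V → ℝ, M2g w → ∫ x, |gg (u t) x| * w x ^ 2
      ≤ 1 / (8 * (M + 1)) * (∫ x, gq w x) + C₂ * ∫ x, w x ^ 2) (hC₁ : 0 ≤ C₁) (hC₂ : 0 ≤ C₂) :
    (∫ x, gg (u t) x * -(2 * (ff (u t) x * gg (u t) x)))
      + (∫ x, kk (u t) x * (D (ff (u t)) x * kk (u t) x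
        - pd 2 (ff (u t)) x * Pool.Agent.X96.AR.om (u t) x))
      + (∫ x, oo (u t) x * (2 * (gg (u t) x * kk (u t) x)))
    ≤ (∫ x, gq (gg (u t)) x) + (∫ x, gq (kk (u t)) x) + (∫ x, gq (oo (u t)) x)
      + (C₁ + 1 / 4 + 2 * M * C₂ + (2 * (M ^ 2 / r ^ 2) + 4 * M ^ 2)) * ((∫ x, gg (u t) x ^ 2)
        + (∫ x, kk (u t) x ^ 2) + (∫ x, oo (u t) x ^ 2) + ∫ x, ff (u t) x ^ 2) := by
  obtain ⟨f, hf⟩ : ∃ f, f = ff (u t) := ⟨_, rfl⟩
  obtain ⟨g, hg⟩ : ∃ g, g = gg (u t) := ⟨_, rfl⟩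
  obtain ⟨k, hk⟩ : ∃ k, k = kk (u t) := ⟨_, rfl⟩
  obtain ⟨o, ho⟩ : ∃ o, o = oo (u t) := ⟨_, rfl⟩
  have iF : Inv f := by rw [hf]; exact h.iff ht
  have iK : Inv k := by rw [hk]; exact h.ikk ht
  have mf : M2g f := by rw [hf]; exact h.f.m2g ht
  have mg : M2g g := by rw [hg]; exact h.g.m2g ht
  have mk : M2g k := by rw [hk]; exact h.k.m2g ht
  have mo : M2g o := by rw [ho]; exact h.o.m2g ht
  have mfz : M2g (pd 2 f) := by rw [hf]; exact (h.f.pd 2).m2g ht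
  have mdf : M2 (dlt f) := by rw [hf]; exact h.f.dlt.m ht
  have mDk : M2 (D k) := by rw [hk]; exact h.Dk.m ht
  obtain ⟨Cf, -, Bf⟩ := h.f.bd
  obtain ⟨Cd, -, BD⟩ := h.Df.bd
  obtain ⟨Cz, -, Bz⟩ := (h.f.pd 2).bd
  have bf := (Bf t ht).2
  have bD := (BD t ht).2
  have bz := (Bz t ht).2
  beta_reduce at bf bD bz
  have E1 := h.e1 ht
  have E2 := h.e2 ht
  have E2' := h.e2' ht
  have E3 := h.e3 ht
  have E4 := h.e4 ht
  rw [← hf] at bf bD bz E1 E2 E3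
  rw [← ho] at E1 E2 E2' E3
  rw [← hf, ← hg, ← hk] at E4
  rw [← hg] at hΓ hη h1 h2
  rw [← hf, ← hg, ← hk, ← ho, E4]
  -- first term
  have mfg : M2 fun x => f x * g x := mg.m.bmul mf.sm.continuous bf
  have t1 : ∫ x, g x * -(2 * (f x * g x))
      ≤ (∫ x, |g x| * f x ^ 2) + ∫ x, |g x| * g x ^ 2 := by
    rw [← integral_add (h1 f mf).1 (h1 g mg).1]
    have i1 : Integrable fun x => g x * -(2 * (f x * g x)) := by
      have := (mg.m.mul mfg).const_mul (-2)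
      exact this.congr (Eventually.of_forall fun x => by ring)
    refine integral_mono i1 ((h1 f mf).1.add (h1 g mg).1) fun x => ?_
    show g x * -(2 * (f x * g x)) ≤ |g x| * f x ^ 2 + |g x| * g x ^ 2
    have a1 : 0 ≤ |g x| * (|f x| - |g x|) ^ 2 := by positivity
    have a2 : g x * -(2 * (f x * g x)) ≤ |g x| * (2 * (|f x| * |g x|)) := by
      calc g x * -(2 * (f x * g x)) ≤ |g x * -(2 * (f x * g x))| := le_abs_self _
        _ = _ := by rw [abs_mul, abs_neg, abs_mul, abs_mul, abs_two]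
    have a3 : |g x| * (|f x| - |g x|) ^ 2 = |g x| * f x ^ 2 + |g x| * g x ^ 2
        - |g x| * (2 * (|f x| * |g x|)) := by
      have b1 := sq_abs (f x)
      have b2 := sq_abs (g x)
      rw [← b1, ← b2]
      ring
    rw [a3] at a1
    linarith
  -- third term
  have mgk : M2 fun x => g x * k x := by
    obtain ⟨Cg, -, Bg⟩ := h.g.bd
    have bg := (Bg t ht).2
    beta_reduce at bg
    rw [← hg] at bg
    exact mk.m.bmul mg.sm.continuous bg
  have t3 : ∫ x, o x * (2 * (g x * k x))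
      ≤ (∫ x, |g x| * k x ^ 2) + ∫ x, |g x| * o x ^ 2 := by
    rw [← integral_add (h1 k mk).1 (h1 o mo).1]
    have i1 : Integrable fun x => o x * (2 * (g x * k x)) := by
      have := (mo.m.mul mgk).const_mul 2
      exact this.congr (Eventually.of_forall fun x => by ring)
    refine integral_mono i1 ((h1 k mk).1.add (h1 o mo).1) fun x => ?_
    show o x * (2 * (g x * k x)) ≤ |g x| * k x ^ 2 + |g x| * o x ^ 2
    have a1 : 0 ≤ |g x| * (|k x| - |o x|) ^ 2 := by positivity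
    have a2 : o x * (2 * (g x * k x)) ≤ |g x| * (2 * (|k x| * |o x|)) := by
      calc o x * (2 * (g x * k x)) ≤ |o x * (2 * (g x * k x))| := le_abs_self _
        _ = _ := by rw [abs_mul, abs_mul, abs_mul, abs_two]; ring
    have a3 : |g x| * (|k x| - |o x|) ^ 2 = |g x| * k x ^ 2 + |g x| * o x ^ 2
        - |g x| * (2 * (|k x| * |o x|)) := by
      have b1 := sq_abs (k x)
      have b2 := sq_abs (o x)
      rw [← b1, ← b2]
      ring
    rw [a3] at a1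
    linarith
  -- second term
  have t2 : ∫ x, (g x * (pd 2 f x * D k x) - g x * (D f x * pd 2 k x))
      ≤ 1 / 4 * (∫ x, gq k x) + 2 * M * (∫ x, |g x| * pd 2 f x ^ 2)
        + 1 / 8 * (∫ x, dlt f x ^ 2) + (2 * (M ^ 2 / r ^ 2) + 4 * M ^ 2) * ∫ x, gq f x := by
    have i1 : Integrable fun x => g x * (pd 2 f x * D k x) := mg.m.mul (mDk.bmul
      mfz.sm.continuous bz)
    have i2 : Integrable fun x => g x * (D f x * pd 2 k x) := mg.m.mul ((mk.g 2).bmul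
      (sm_D mf.sm).continuous bD)
    have j1 : Integrable fun x => 1 / 4 * gq k x := mk.int.const_mul _
    have j2 : Integrable fun x => 2 * M * (|g x| * pd 2 f x ^ 2) := (h1 _ mfz).1.const_mul _
    have j3 : Integrable fun x => 1 / 8 * dlt f x ^ 2 := mdf.sq.const_mul _
    have j4 : Integrable fun x => (2 * (M ^ 2 / r ^ 2) + 4 * M ^ 2) * gq f x := mf.int.const_mul _
    have j12 : Integrable fun x => 1 / 4 * gq k x + 2 * M * (|g x| * pd 2 f x ^ 2) := j1.add j2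
    have j123 : Integrable fun x => 1 / 4 * gq k x + 2 * M * (|g x| * pd 2 f x ^ 2)
      + 1 / 8 * dlt f x ^ 2 := j12.add j3
    rw [← integral_const_mul, ← integral_const_mul, ← integral_const_mul, ← integral_const_mul,
      ← integral_add j1 j2, ← integral_add j12 j3, ← integral_add j123 j4]
    refine integral_mono (i1.sub i2) (j123.add j4) fun x => ?_
    show g x * (pd 2 f x * D k x) - g x * (D f x * pd 2 k x)
      ≤ 1 / 4 * gq k x + 2 * M * (|g x| * pd 2 f x ^ 2) + 1 / 8 * dlt f x ^ 2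
        + (2 * (M ^ 2 / r ^ 2) + 4 * M ^ 2) * gq f x
    have hσ := sg_nonneg x
    have y1 := young_D (g x) (pd 2 f x) 0 hσ (gq_nonneg k x) (D_sq_le k x)
    have y2 : sg x * g x ^ 2 * pd 2 f x ^ 2 ≤ M * (|g x| * pd 2 f x ^ 2) + M ^ 2 * gq f x := by
      have hq2 : pd 2 f x ^ 2 ≤ gq f x := le_gq f x 2
      have hq3 : 0 ≤ M ^ 2 * gq f x := mul_nonneg (sq_nonneg _) (gq_nonneg f x)
      have hq4 : 0 ≤ M * (|g x| * pd 2 f x ^ 2) := by positivity
      rcases hΓ x with hΓ1 | hΓ2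
      · have : sg x * g x ^ 2 = |sg x * g x| * |g x| := by
          rw [abs_mul, abs_of_nonneg hσ, mul_assoc, ← pow_two, sq_abs]
        rw [this]
        have := mul_le_mul_of_nonneg_right hΓ1 (abs_nonneg (g x))
        calc |sg x * g x| * |g x| * pd 2 f x ^ 2 ≤ M * |g x| * pd 2 f x ^ 2 :=
              mul_le_mul_of_nonneg_right this (sq_nonneg _)
          _ = M * (|g x| * pd 2 f x ^ 2) := by ring
          _ ≤ _ := by linarith
      · calc sg x * g x ^ 2 * pd 2 f x ^ 2 ≤ M ^ 2 * gq f x :=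
              mul_le_mul hΓ2 hq2 (sq_nonneg _) (sq_nonneg _)
          _ ≤ _ := by linarith
    have y3 : -(g x * (D f x * pd 2 k x)) ≤ 1 / 8 * gq k x
        + 2 * ((sg x * g x) ^ 2 * dlt f x ^ 2) := by
      rw [iF.D]
      have := le_gq k x 2
      linarith only [this, sq_nonneg (pd 2 k x + 4 * (sg x * g x * dlt f x))]
    have y4 : (sg x * g x) ^ 2 * dlt f x ^ 2 ≤ 1 / 16 * dlt f x ^ 2
        + (M ^ 2 / r ^ 2 + M ^ 2) * gq f x := by
      have hq := gq_nonneg f x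
      have hq5 : 0 ≤ M ^ 2 * gq f x := mul_nonneg (sq_nonneg _) hq
      have hq6 : 0 ≤ M ^ 2 / r ^ 2 * gq f x := by positivity
      rw [add_mul]
      rcases le_total (sg x) (r ^ 2) with hle | hle
      · have : (sg x * g x) ^ 2 ≤ 1 / 16 := by
          rw [← sq_abs]
          calc |sg x * g x| ^ 2 ≤ (1 / 4) ^ 2 := pow_le_pow_left₀ (abs_nonneg _) (hη x hle) 2
            _ = 1 / 16 := by norm_num
        have h5 := mul_le_mul_of_nonneg_right this (sq_nonneg (dlt f x))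
        linarith
      · have h6 := dlt_sq_le iF x
        rcases hΓ x with hΓ1 | hΓ2
        swap
        · have h8 : 0 ≤ 1 / 16 * dlt f x ^ 2 := by positivity
          calc (sg x * g x) ^ 2 * dlt f x ^ 2 = (sg x * g x ^ 2) * (sg x * dlt f x ^ 2) := by ring
            _ ≤ M ^ 2 * gq f x := mul_le_mul hΓ2 h6 (by positivity) (sq_nonneg _)
            _ ≤ _ := by linarith
        have h5 : (sg x * g x) ^ 2 ≤ M ^ 2 := by
          rw [← sq_abs]
          exact pow_le_pow_left₀ (abs_nonneg _) hΓ1 2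
        have h7 : dlt f x ^ 2 ≤ 1 / r ^ 2 * gq f x := by
          rw [one_div, inv_mul_eq_div, le_div_iff₀ (by positivity)]
          calc dlt f x ^ 2 * r ^ 2 ≤ dlt f x ^ 2 * sg x :=
                mul_le_mul_of_nonneg_left hle (sq_nonneg _)
            _ = sg x * dlt f x ^ 2 := by ring
            _ ≤ _ := h6
        have h8 : 0 ≤ 1 / 16 * dlt f x ^ 2 := by positivity
        calc (sg x * g x) ^ 2 * dlt f x ^ 2 ≤ M ^ 2 * (1 / r ^ 2 * gq f x) :=
              mul_le_mul h5 h7 (sq_nonneg _) (sq_nonneg _)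
          _ = M ^ 2 / r ^ 2 * gq f x := by ring
          _ ≤ _ := by linarith
    linarith
  -- the form bounds
  have g1 := (h1 f mf).2
  have g2 := (h1 g mg).2
  have g3 := (h1 k mk).2
  have g4 := (h1 o mo).2
  have g5 := h2 _ mfz
  have g6 : ∫ x, pd 2 f x ^ 2 ≤ ∫ x, gq f x :=
    integral_mono (mf.g 2).sq mf.int fun x => le_gq f x 2
  have hMq : 2 * M * (1 / (8 * (M + 1))) ≤ 1 / 4 := by
    rw [mul_one_div, div_le_iff₀ (by positivity)]
    linarith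
  have nf : 0 ≤ ∫ x, gq f x := integral_nonneg (gq_nonneg f)
  have nfz : 0 ≤ ∫ x, gq (pd 2 f) x := integral_nonneg (gq_nonneg _)
  have ng : 0 ≤ ∫ x, gq g x := integral_nonneg (gq_nonneg g)
  have nk : 0 ≤ ∫ x, gq k x := integral_nonneg (gq_nonneg k)
  have no : 0 ≤ ∫ x, gq o x := integral_nonneg (gq_nonneg o)
  have p1 : 0 ≤ ∫ x, f x ^ 2 := integral_nonneg fun x => sq_nonneg _
  have p2 : 0 ≤ ∫ x, g x ^ 2 := integral_nonneg fun x => sq_nonneg _
  have p3 : 0 ≤ ∫ x, k x ^ 2 := integral_nonneg fun x => sq_nonneg _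
  have p4 : 0 ≤ ∫ x, o x ^ 2 := integral_nonneg fun x => sq_nonneg _
  have s1 : 2 * M * (∫ x, |g x| * pd 2 f x ^ 2)
      ≤ 1 / 4 * (∫ x, gq o x) + 2 * M * C₂ * ∫ x, o x ^ 2 := by
    calc 2 * M * (∫ x, |g x| * pd 2 f x ^ 2)
        ≤ 2 * M * (1 / (8 * (M + 1)) * (∫ x, gq (pd 2 f) x) + C₂ * ∫ x, pd 2 f x ^ 2) := by
          gcongr
      _ = 2 * M * (1 / (8 * (M + 1))) * (∫ x, gq (pd 2 f) x)
          + 2 * M * C₂ * ∫ x, pd 2 f x ^ 2 := by ring
      _ ≤ 1 / 4 * (∫ x, gq (pd 2 f) x) + 2 * M * C₂ * ∫ x, pd 2 f x ^ 2 := by gcongr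
      _ ≤ 1 / 4 * (∫ x, gq o x) + 2 * M * C₂ * ∫ x, o x ^ 2 := by
          have a1 := mul_le_mul_of_nonneg_left (E2.trans E2') (by norm_num : (0 : ℝ) ≤ 1 / 4)
          have a2 := mul_le_mul_of_nonneg_left (g6.trans E1)
            (by positivity : (0 : ℝ) ≤ 2 * M * C₂)
          linarith
  obtain ⟨c3, hc3⟩ : ∃ c : ℝ, c = 2 * (M ^ 2 / r ^ 2) + 4 * M ^ 2 := ⟨_, rfl⟩
  obtain ⟨c2, hc2⟩ : ∃ c : ℝ, c = 2 * M * C₂ := ⟨_, rfl⟩
  have hc3p : 0 ≤ c3 := by rw [hc3]; positivity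
  have hc2p : 0 ≤ c2 := by rw [hc2]; positivity
  rw [← hc2] at s1
  rw [← hc3] at t2
  rw [← hc2, ← hc3]
  have s2 : c3 * (∫ x, gq f x) ≤ c3 * ∫ x, o x ^ 2 := mul_le_mul_of_nonneg_left E1 hc3p
  have q1 : 0 ≤ c2 * ∫ x, f x ^ 2 := by positivity
  have q2 : 0 ≤ c2 * ∫ x, g x ^ 2 := by positivity
  have q3 : 0 ≤ c2 * ∫ x, k x ^ 2 := by positivity
  have q4 : 0 ≤ c3 * ∫ x, f x ^ 2 := by positivity
  have q5 : 0 ≤ c3 * ∫ x, g x ^ 2 := by positivity
  have q6 : 0 ≤ c3 * ∫ x, k x ^ 2 := by positivity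
  linarith

end AF

end Pool.Agent.X96.AR
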