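import Pool.Agent.X96.AR.Est2

/-!
Estimates at a fixed time (helper96): weighted quantities.
-/

set_option autoImplicit false

open MeasureTheory Set Metric Filter Topology
open scoped ContDiff ENNReal

namespace Pool.Agent.X96.AR

open H459R3.NS W221.NS Pool.Agent.TH305.DR Pool.Agent.TH305.AX
open Pool.Agent.W583.MD (sm_pd cs_pd pd_mul' Z Z.add Z.sub Z.smul Z.sum int_cs Z_pd)

variable {a b : V → ℝ} {S : Set ℝ} {F G : ℝ → V → ℝ} {u : ℝ → V → V} {t : ℝ}

namespace AF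

/-- `x_i f` -/
lemma xf (h : AF S u) {i : Fin 3} (hi : i ≠ 2) : B2 S (fun t x => x i * ff (u t) x) :=
  (h.hi 0).b2.of_sq (h.hi 1).b2 zero_le_one (fun t ht => (continuous_apply i).mul
      (h.smf ht).continuous) fun t ht x =>
      (xi_le (cmp0 (h.sm t ht) (h.ax t ht) x) (cmp1 (h.sm t ht) (h.ax t ht) x) hi).2

lemma mxk (h : AF S u) (ht : t ∈ S) {i : Fin 3} (hi : i ≠ 2) : M2g (fun x => x i * kk (u t) x) :=
  ⟨(sm_crd i).mul (h.ikk ht).sm, (h.xk hi).1.m ht, fun j => (h.gxk hi j).m ht⟩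

lemma mxo (h : AF S u) (ht : t ∈ S) {i : Fin 3} (hi : i ≠ 2) : M2g (fun x => x i * oo (u t) x) :=
  ⟨(sm_crd i).mul (h.ioo ht).sm, (h.xo hi).m ht, fun j => (h.gxo hi j).m ht⟩

/-- the nonlinear terms of the second estimate -/
theorem n2 (h : AF S u) (ht : t ∈ S) {M K : ℝ} (hM : 0 ≤ M)
    (hΓ : ∀ x, |sg x * gg (u t) x| ≤ M ∨ sg x * gg (u t) x ^ 2 ≤ M ^ 2)
    (hK : ∀ w β : V → ℝ, M2g w → M2 β → ∀ δ : ℝ, 0 < δ →
      Integrable (fun x => |β x| * w x ^ 2) ∧
      ∫ x, |β x| * w x ^ 2 ≤ δ * (∫ x, gq w x)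
        + K / δ ^ 3 * ((∫ x, β x ^ 2) ^ 2 * ∫ x, w x ^ 2)) :
    (∫ x, (x 0 * oo (u t) x) * (2 * (gg (u t) x * (x 0 * kk (u t) x)) + u t x 0 * oo (u t) x))
      + (∫ x, (x 1 * oo (u t) x) * (2 * (gg (u t) x * (x 1 * kk (u t) x))
        + u t x 1 * oo (u t) x))
    ≤ (∫ x, gq (fun x => x 0 * oo (u t) x) x) + (∫ x, gq (fun x => x 1 * oo (u t) x) x)
      + M * (2 * (∫ x, kk (u t) x ^ 2) + ∫ x, oo (u t) x ^ 2)
      + M * ((∫ x, (x 0 * oo (u t) x) ^ 2) + ∫ x, (x 1 * oo (u t) x) ^ 2)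
      + K * (∫ x, ff (u t) x ^ 2) ^ 2 * ((∫ x, (x 0 * oo (u t) x) ^ 2)
        + ∫ x, (x 1 * oo (u t) x) ^ 2) := by
  have h0 : (0 : Fin 3) ≠ 2 := by decide
  have h1 : (1 : Fin 3) ≠ 2 := by decide
  have mo := h.o.m ht
  have mk := h.k.m ht
  have mf := h.f.m ht
  obtain ⟨Cg, -, Bg⟩ := h.g.bd
  have bg := (Bg t ht).2
  beta_reduce at bg
  have hsrc : ∀ i : Fin 3, i ≠ 2 → M2 fun x => 2 * (gg (u t) x * (x i * kk (u t) x))
      + u t x i * oo (u t) x := by
    intro i hi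
    obtain ⟨Cu, -, Bu⟩ := (h.hi i).bd
    exact (((h.mxk ht hi).m.bmul (h.smg ht).continuous bg).cmul 2).add
      (mo.bmul (sm_cmp (h.sm t ht) i).continuous (Bu t ht).2)
  have i0 := (h.mxo ht h0).m.mul (hsrc 0 h0)
  have i1 := (h.mxo ht h1).m.mul (hsrc 1 h1)
  obtain ⟨k0, l0⟩ := hK _ _ (h.mxo ht h0) mf 1 one_pos
  obtain ⟨k1, l1⟩ := hK _ _ (h.mxo ht h1) mf 1 one_pos
  have m0o := (h.mxo ht h0).m
  have m1o := (h.mxo ht h1).m
  have hj1 : Integrable fun x => M * (2 * kk (u t) x ^ 2 + oo (u t) x ^ 2) :=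
    ((mk.sq.const_mul 2).add mo.sq).const_mul M
  have hj2 : Integrable fun x => M * ((x 0 * oo (u t) x) ^ 2 + (x 1 * oo (u t) x) ^ 2) :=
    (m0o.sq.add m1o.sq).const_mul M
  have hj : Integrable fun x => M * (2 * kk (u t) x ^ 2 + oo (u t) x ^ 2)
      + M * ((x 0 * oo (u t) x) ^ 2 + (x 1 * oo (u t) x) ^ 2) := hj1.add hj2
  have hk01 : Integrable fun x => |ff (u t) x| * (x 0 * oo (u t) x) ^ 2
      + |ff (u t) x| * (x 1 * oo (u t) x) ^ 2 := k0.add k1
  rw [← integral_add i0 i1]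
  have hle : ∫ x, ((x 0 * oo (u t) x) * (2 * (gg (u t) x * (x 0 * kk (u t) x))
        + u t x 0 * oo (u t) x)
      + (x 1 * oo (u t) x) * (2 * (gg (u t) x * (x 1 * kk (u t) x)) + u t x 1 * oo (u t) x))
      ≤ ∫ x, ((M * (2 * kk (u t) x ^ 2 + oo (u t) x ^ 2)
        + M * ((x 0 * oo (u t) x) ^ 2 + (x 1 * oo (u t) x) ^ 2))
        + (|ff (u t) x| * (x 0 * oo (u t) x) ^ 2
        + |ff (u t) x| * (x 1 * oo (u t) x) ^ 2)) := by
    refine integral_mono (i0.add i1) (hj.add hk01) fun x => ?_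
    show (x 0 * oo (u t) x) * (2 * (gg (u t) x * (x 0 * kk (u t) x)) + u t x 0 * oo (u t) x)
      + (x 1 * oo (u t) x) * (2 * (gg (u t) x * (x 1 * kk (u t) x)) + u t x 1 * oo (u t) x)
      ≤ (M * (2 * kk (u t) x ^ 2 + oo (u t) x ^ 2)
        + M * ((x 0 * oo (u t) x) ^ 2 + (x 1 * oo (u t) x) ^ 2))
        + (|ff (u t) x| * (x 0 * oo (u t) x) ^ 2
        + |ff (u t) x| * (x 1 * oo (u t) x) ^ 2)
    have hr := rd_eq (h.sm t ht) (h.ax t ht) x
    unfold rd at hr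
    obtain ⟨k, hk⟩ : ∃ k, k = kk (u t) x := ⟨_, rfl⟩
    obtain ⟨o, ho⟩ : ∃ k, k = oo (u t) x := ⟨_, rfl⟩
    obtain ⟨g, hg⟩ : ∃ k, k = gg (u t) x := ⟨_, rfl⟩
    obtain ⟨f, hf⟩ : ∃ k, k = ff (u t) x := ⟨_, rfl⟩
    have hG := hΓ x
    rw [← hg] at hG
    rw [← hf] at hr
    rw [← hk, ← ho, ← hg, ← hf]
    have e : x 0 * o * (2 * (g * (x 0 * k)) + u t x 0 * o)
        + x 1 * o * (2 * (g * (x 1 * k)) + u t x 1 * o)
        = 2 * ((sg x * g) * (k * o)) + (x 0 * u t x 0 + x 1 * u t x 1) * o ^ 2 := by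
      unfold sg
      ring
    rw [e, hr]
    have a1 : 2 * ((sg x * g) * (k * o)) ≤ M * (2 * k ^ 2 + o ^ 2)
        + M * ((x 0 * o) ^ 2 + (x 1 * o) ^ 2) := by
      have eσ : (x 0 * o) ^ 2 + (x 1 * o) ^ 2 = sg x * o ^ 2 := by unfold sg; ring
      have hσ := sg_nonneg x
      rw [eσ]
      rcases hG with hG | hG
      · have a3 : 2 * ((sg x * g) * (k * o)) ≤ M * (k ^ 2 + o ^ 2) := by
          calc 2 * ((sg x * g) * (k * o)) ≤ |2 * ((sg x * g) * (k * o))| := le_abs_self _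
            _ = |sg x * g| * (2 * (|k| * |o|)) := by
                rw [abs_mul, abs_mul, abs_mul k o, abs_two]; ring
            _ ≤ M * (2 * (|k| * |o|)) := mul_le_mul_of_nonneg_right hG (by positivity)
            _ ≤ M * (k ^ 2 + o ^ 2) := by
                apply mul_le_mul_of_nonneg_left _ hM
                have := sq_nonneg (|k| - |o|)
                rw [← sq_abs k, ← sq_abs o]
                linarith
        have a4 : 0 ≤ M * k ^ 2 := by positivity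
        have a5 : 0 ≤ M * (sg x * o ^ 2) := by positivity
        linarith
      · have a3 : 2 * ((sg x * g) * (k * o)) ≤ M * (k ^ 2 + sg x * o ^ 2) := by
          have b1 : |√(sg x) * g| ≤ M := by
            apply abs_le_of_sq_le_sq _ hM
            rw [mul_pow, Real.sq_sqrt hσ]
            exact hG
          have b2 : (sg x * g) * (k * o) = (√(sg x) * g) * (k * (√(sg x) * o)) := by
            have := Real.mul_self_sqrt hσ
            linear_combination (-(g * k * o)) * this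
          have b3 : (√(sg x) * o) ^ 2 = sg x * o ^ 2 := by rw [mul_pow, Real.sq_sqrt hσ]
          rw [b2, ← b3]
          calc 2 * ((√(sg x) * g) * (k * (√(sg x) * o)))
              ≤ |2 * ((√(sg x) * g) * (k * (√(sg x) * o)))| := le_abs_self _
            _ = |√(sg x) * g| * (2 * (|k| * |√(sg x) * o|)) := by
                rw [abs_mul, abs_mul (√(sg x) * g), abs_mul k, abs_two]; ring
            _ ≤ M * (2 * (|k| * |√(sg x) * o|)) := mul_le_mul_of_nonneg_right b1 (by positivity)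
            _ ≤ M * (k ^ 2 + (√(sg x) * o) ^ 2) := by
                apply mul_le_mul_of_nonneg_left _ hM
                have := sq_nonneg (|k| - |√(sg x) * o|)
                rw [← sq_abs k, ← sq_abs (√(sg x) * o)]
                linarith
        have a4 : 0 ≤ M * k ^ 2 := by positivity
        have a5 : 0 ≤ M * o ^ 2 := by positivity
        linarith
    have a2 : sg x * f * o ^ 2 ≤ |f| * (x 0 * o) ^ 2 + |f| * (x 1 * o) ^ 2 := by
      have e2 : |f| * (x 0 * o) ^ 2 + |f| * (x 1 * o) ^ 2 = |f| * (sg x * o ^ 2) := by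
        unfold sg
        ring
      rw [e2]
      have := mul_le_mul_of_nonneg_right (le_abs_self f)
        (mul_nonneg (sg_nonneg x) (sq_nonneg o))
      linarith
    linarith
  refine hle.trans ?_
  have mk2 : Integrable fun x => 2 * kk (u t) x ^ 2 := mk.sq.const_mul 2
  rw [integral_add hj hk01, integral_add k0 k1, integral_add hj1 hj2, integral_const_mul,
    integral_const_mul, integral_add mk2 mo.sq, integral_add m0o.sq m1o.sq, integral_const_mul]
  norm_num at l0 l1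
  linarith

/-- `∫ |∇b|² = ∫ ω_θ²` -/
theorem s7 (h : AF S u) (ht : t ∈ S) :
    (∫ x, ff (u t) x ^ 2) + (∫ x, (ff (u t) x + D (ff (u t)) x) ^ 2)
      + (∫ x, pd 2 (fun y => u t y 2) x ^ 2)
      + ((∫ x, (x 0 * pd 2 (ff (u t)) x) ^ 2) + ∫ x, (x 1 * pd 2 (ff (u t)) x) ^ 2)
      + ((∫ x, pd 0 (fun y => u t y 2) x ^ 2) + ∫ x, pd 1 (fun y => u t y 2) x ^ 2)
      = (∫ x, (x 0 * oo (u t) x) ^ 2) + ∫ x, (x 1 * oo (u t) x) ^ 2 := by
  have h0 : (0 : Fin 3) ≠ 2 := by decide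
  have h1 : (1 : Fin 3) ≠ 2 := by decide
  obtain ⟨f, hf⟩ : ∃ f, f = ff (u t) := ⟨_, rfl⟩
  obtain ⟨H, hH⟩ : ∃ H, H = fun y => u t y 2 := ⟨_, rfl⟩
  have sf : ContDiff ℝ ∞ f := by rw [hf]; exact h.smf ht
  have sH : ContDiff ℝ ∞ H := by rw [hH]; exact sm_cmp (h.sm t ht) 2
  have mf : M2 f := by rw [hf]; exact h.f.m ht
  have mDf : M2 (D f) := by rw [hf]; exact h.Df.m ht
  have mHz : M2 (pd 2 H) := by rw [hH]; exact ((h.hi 2).pd 2).m ht
  have mH : ∀ i, M2 (pd i H) := fun i => by rw [hH]; exact ((h.hi 2).pd i).m ht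
  have mHzi : ∀ i, M2 (pd i (pd 2 H)) := fun i => by rw [hH]; exact (((h.hi 2).pd 2).pd i).m ht
  have mxf : ∀ i : Fin 3, i ≠ 2 → M2 fun x => x i * f x := fun i hi => by
    rw [hf]; exact (h.xf hi).m ht
  have mxfz : ∀ i : Fin 3, i ≠ 2 → M2 fun x => x i * pd 2 f x := fun i hi => by
    rw [hf]; exact (h.xk hi).2.m ht
  have hdv : ∀ x, pd 2 H x = -(2 * f x + D f x) := by
    intro x
    rw [hf, hH]
    have := h.dvf ht x
    linarith
  have hxo : ∀ i : Fin 3, i ≠ 2 → ∀ x, x i * oo (u t) x = x i * pd 2 f x - pd i H x := by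
    intro i hi x
    have := congrFun ((h.ihh ht).xd hi) x
    rw [hf, hH, ← this]
    unfold oo
    ring
  rw [← hf, ← hH]
  -- first
  have z1 : (∫ x, (x 0 * pd 2 f x) * pd 0 H x) + (∫ x, (x 1 * pd 2 f x) * pd 1 H x)
      = -((∫ x, (x 0 * f x) * pd 0 (pd 2 H) x) + ∫ x, (x 1 * f x) * pd 1 (pd 2 H) x) := by
    have zi : ∀ i : Fin 3, i ≠ 2 → (∫ x, (x i * pd 2 f x) * pd i H x)
        = -∫ x, (x i * f x) * pd i (pd 2 H) x := by
      intro i hi
      have e : pd 2 (fun x => (x i * f x) * pd i H x)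
          = fun x => (x i * f x) * pd i (pd 2 H) x + (x i * pd 2 f x) * pd i H x := by
        funext x
        rw [pd_mul' ((sm_crd i).mul sf) (sm_pd sH i), pd_c0 2 sf i, if_neg hi, pd_sym sH 2 i]
        ring
      have i1 := (mxf i hi).mul (mHzi i)
      have i2 := (mxfz i hi).mul (mH i)
      have hz := int_pd (((sm_crd i).mul sf).mul (sm_pd sH i)) ((mxf i hi).mul (mH i)) 2
        (by rw [e]; exact i1.add i2)
      rw [e, integral_add i1 i2] at hz
      linarith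
    rw [zi 0 h0, zi 1 h1]
    ring
  -- second
  have z2 : (∫ x, (x 0 * f x) * pd 0 (pd 2 H) x) + (∫ x, (x 1 * f x) * pd 1 (pd 2 H) x)
      = ∫ x, pd 2 H x ^ 2 := by
    have j0 := (mxf 0 h0).mul (mHzi 0)
    have j1 := (mxf 1 h1).mul (mHzi 1)
    have eA : (∫ x, (x 0 * f x) * pd 0 (pd 2 H) x) + (∫ x, (x 1 * f x) * pd 1 (pd 2 H) x)
        = ∫ x, f x * D (pd 2 H) x := by
      rw [← integral_add j0 j1]
      congr 1
      funext x
      unfold D
      ring
    have i1 : Integrable fun x => f x * D (pd 2 H) x := by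
      refine (j0.add j1).congr (Eventually.of_forall fun x => ?_)
      show (x 0 * f x) * pd 0 (pd 2 H) x + (x 1 * f x) * pd 1 (pd 2 H) x = f x * D (pd 2 H) x
      unfold D
      ring
    have hp := int_Dparts sf (sm_pd sH 2) (mf.mul mHz) i1 (mDf.mul mHz)
    rw [eA, hp]
    have i2 := mDf.mul mHz
    have i3 : Integrable fun x => 2 * (f x * pd 2 H x) := (mf.mul mHz).const_mul 2
    rw [← integral_const_mul, ← integral_add i2 i3, ← integral_neg]
    congr 1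
    funext x
    rw [hdv]
    ring
  have z3 : ∫ x, f x * D f x = -∫ x, f x ^ 2 := int_aD sf mf mDf
  -- assembling
  have mfD : M2 fun x => f x + D f x := mf.add mDf
  have y1 : ∫ x, (f x + D f x) ^ 2 = (∫ x, D f x ^ 2) - ∫ x, f x ^ 2 := by
    have e : ∀ x, (f x + D f x) ^ 2 = (f x ^ 2 + 2 * (f x * D f x)) + D f x ^ 2 := fun x => by ring
    simp only [e]
    have i1 : Integrable fun x => 2 * (f x * D f x) := (mf.mul mDf).const_mul 2
    have i2 : Integrable fun x => f x ^ 2 + 2 * (f x * D f x) := mf.sq.add i1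
    rw [integral_add i2 mDf.sq, integral_add mf.sq i1, integral_const_mul, z3]
    ring
  have y2 : ∫ x, pd 2 H x ^ 2 = ∫ x, D f x ^ 2 := by
    have e : ∀ x, pd 2 H x ^ 2 = (4 * f x ^ 2 + 4 * (f x * D f x)) + D f x ^ 2 := fun x => by
      rw [hdv]; ring
    simp only [e]
    have i0 : Integrable fun x => 4 * f x ^ 2 := mf.sq.const_mul 4
    have i1 : Integrable fun x => 4 * (f x * D f x) := (mf.mul mDf).const_mul 4
    have i2 : Integrable fun x => 4 * f x ^ 2 + 4 * (f x * D f x) := i0.add i1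
    rw [integral_add i2 mDf.sq, integral_add i0 i1, integral_const_mul, integral_const_mul, z3]
    ring
  have y3 : ∀ i : Fin 3, i ≠ 2 → ∫ x, (x i * oo (u t) x) ^ 2 = (∫ x, (x i * pd 2 f x) ^ 2)
      + (∫ x, pd i H x ^ 2) - 2 * ∫ x, (x i * pd 2 f x) * pd i H x := by
    intro i hi
    have e : ∀ x, (x i * oo (u t) x) ^ 2 = ((x i * pd 2 f x) ^ 2 + pd i H x ^ 2)
        - 2 * ((x i * pd 2 f x) * pd i H x) := fun x => by rw [hxo i hi]; ring
    simp only [e]
    have i0 := (mxfz i hi).sq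
    have i1 : Integrable fun x => 2 * ((x i * pd 2 f x) * pd i H x) :=
      ((mxfz i hi).mul (mH i)).const_mul 2
    have i2 : Integrable fun x => (x i * pd 2 f x) ^ 2 + pd i H x ^ 2 := i0.add (mH i).sq
    rw [integral_sub i2 i1, integral_add i0 (mH i).sq, integral_const_mul]
  rw [y3 0 h0, y3 1 h1, y1]
  rw [z2] at z1
  linarith

/-- bound of `∫ f²` -/
lemma e9 (h : AF S u) (ht : t ∈ S) : ∫ x, ff (u t) x ^ 2
    ≤ 1 / 2 * ((∫ x, (x 0 * ff (u t) x) ^ 2) + ∫ x, (x 1 * ff (u t) x) ^ 2)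
      + 1 / 2 * ∫ x, oo (u t) x ^ 2 := by
  have h0 : (0 : Fin 3) ≠ 2 := by decide
  have h1 : (1 : Fin 3) ≠ 2 := by decide
  have E1 := h.e1 ht
  obtain ⟨f, hf⟩ : ∃ f, f = ff (u t) := ⟨_, rfl⟩
  have mf : M2g f := by rw [hf]; exact h.f.m2g ht
  have mDf : M2 (D f) := by rw [hf]; exact h.Df.m ht
  have mxf : ∀ i : Fin 3, i ≠ 2 → M2 fun x => x i * f x := fun i hi => by
    rw [hf]; exact (h.xf hi).m ht
  rw [← hf] at E1 ⊢
  have z3 : ∫ x, f x * D f x = -∫ x, f x ^ 2 := int_aD mf.sm mf.m mDf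
  have j0 : Integrable fun x => 1 / 2 * (x 0 * f x) ^ 2 := (mxf 0 h0).sq.const_mul _
  have j1 : Integrable fun x => 1 / 2 * (x 1 * f x) ^ 2 := (mxf 1 h1).sq.const_mul _
  have j2 : Integrable fun x => 1 / 2 * gq f x := mf.int.const_mul _
  have j01 : Integrable fun x => 1 / 2 * (x 0 * f x) ^ 2 + 1 / 2 * (x 1 * f x) ^ 2 := j0.add j1
  have z4 : ∫ x, -(f x * D f x) ≤ ∫ x, (1 / 2 * (x 0 * f x) ^ 2 + 1 / 2 * (x 1 * f x) ^ 2
      + 1 / 2 * gq f x) := by
    refine integral_mono (mf.m.mul mDf).neg (j01.add j2) fun x => ?_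
    show -(f x * D f x) ≤ 1 / 2 * (x 0 * f x) ^ 2 + 1 / 2 * (x 1 * f x) ^ 2 + 1 / 2 * gq f x
    unfold D gq
    rw [Fin.sum_univ_three]
    linarith only [sq_nonneg (x 0 * f x + pd 0 f x), sq_nonneg (x 1 * f x + pd 1 f x),
      sq_nonneg (pd 2 f x)]
  rw [integral_neg, integral_add j01 j2, integral_add j0 j1, integral_const_mul,
    integral_const_mul, integral_const_mul, z3] at z4
  linarith

end AF

end Pool.Agent.X96.AR
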