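import Pool.Agent.X96.AR.Est3

/-!
Estimates at a fixed time (helper96): the third energy estimate, the gradient.
-/

set_option autoImplicit false

open MeasureTheory Set Metric Filter Topology
open scoped ContDiff ENNReal

namespace Pool.Agent.X96.AR

open H459R3.NS W221.NS Pool.Agent.TH305.DR Pool.Agent.TH305.AX
open Pool.Agent.W583.MD (sm_pd cs_pd pd_mul' Z Z.add Z.sub Z.smul Z.sum int_cs Z_pd)

variable {a b : V → ℝ} {S : Set ℝ} {F G : ℝ → V → ℝ} {u : ℝ → V → V} {t : ℝ}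

/-- the gradient of the poloidal part -/
noncomputable def bt (v : V → V) (x : V) : ℝ := |D (ff v) x| + |ff v x| + |pd 2 (fun y => v y 2) x|
  + √(sg x) * |pd 2 (ff v) x| + √(sg x) * |dlt (fun y => v y 2) x|

lemma bt_nonneg (v : V → V) (x : V) : 0 ≤ bt v x := by
  unfold bt
  positivity

lemma abs_m2 (ha : M2 a) : M2 fun x => |a x| :=
  ⟨ha.ct.abs, ha.sq.congr (Eventually.of_forall fun x => (sq_abs _).symm)⟩

/-- `√σ |a|` -/
lemma sq_m2 (hc : Continuous a) (h0 : M2 fun x => x 0 * a x) (h1 : M2 fun x => x 1 * a x) :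
    M2 fun x => √(sg x) * |a x| := by
  refine ⟨(Real.continuous_sqrt.comp sm_sg.continuous).mul hc.abs, (h0.sq.add h1.sq).congr
    (Eventually.of_forall fun x => ?_)⟩
  show (x 0 * a x) ^ 2 + (x 1 * a x) ^ 2 = (√(sg x) * |a x|) ^ 2
  rw [mul_pow (√(sg x)), Real.sq_sqrt (sg_nonneg x), sq_abs]
  unfold sg
  ring

namespace AF

lemma bt_m (h : AF S u) (ht : t ∈ S) : M2 (bt (u t)) := by
  have h0 : (0 : Fin 3) ≠ 2 := by decide
  have h1 : (1 : Fin 3) ≠ 2 := by decide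
  have q1 : M2 fun x => √(sg x) * |pd 2 (ff (u t)) x| :=
    sq_m2 (sm_pd (h.smf ht) 2).continuous ((h.xk h0).2.m ht) ((h.xk h1).2.m ht)
  have q2 : M2 fun x => √(sg x) * |dlt (fun y => u t y 2) x| :=
    sq_m2 (sm_dlt (sm_cmp (h.sm t ht) 2)).continuous
      (by rw [(h.ihh ht).xd h0]; exact ((h.hi 2).pd 0).m ht)
      (by rw [(h.ihh ht).xd h1]; exact ((h.hi 2).pd 1).m ht)
  exact ((((abs_m2 (h.Df.m ht)).add (abs_m2 (h.f.m ht))).add
    (abs_m2 (((h.hi 2).pd 2).m ht))).add q1).add q2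

/-- the size of the gradient of the poloidal part -/
theorem bt_le (h : AF S u) (ht : t ∈ S) : ∫ x, bt (u t) x ^ 2
    ≤ 15 * ((∫ x, (x 0 * oo (u t) x) ^ 2) + ∫ x, (x 1 * oo (u t) x) ^ 2) := by
  have h0 : (0 : Fin 3) ≠ 2 := by decide
  have h1 : (1 : Fin 3) ≠ 2 := by decide
  have S7 := h.s7 ht
  have mf := h.f.m ht
  have mfD : M2 fun x => ff (u t) x + D (ff (u t)) x := mf.add (h.Df.m ht)
  have mz := ((h.hi 2).pd 2).m ht
  have m0 := ((h.hi 2).pd 0).m ht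
  have m1 := ((h.hi 2).pd 1).m ht
  have mx0 := (h.xk h0).2.m ht
  have mx1 := (h.xk h1).2.m ht
  have i1 : Integrable fun x => ff (u t) x ^ 2 + (ff (u t) x + D (ff (u t)) x) ^ 2 :=
    mf.sq.add mfD.sq
  have i2 : Integrable fun x => ff (u t) x ^ 2 + (ff (u t) x + D (ff (u t)) x) ^ 2
      + pd 2 (fun y => u t y 2) x ^ 2 := i1.add mz.sq
  have i3 : Integrable fun x : V => (x 0 * pd 2 (ff (u t)) x) ^ 2 + (x 1 * pd 2 (ff (u t)) x) ^ 2 :=
    mx0.sq.add mx1.sq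
  have i4 : Integrable fun x => pd 0 (fun y => u t y 2) x ^ 2 + pd 1 (fun y => u t y 2) x ^ 2 :=
    m0.sq.add m1.sq
  have i23 : Integrable fun x => (ff (u t) x ^ 2 + (ff (u t) x + D (ff (u t)) x) ^ 2
      + pd 2 (fun y => u t y 2) x ^ 2) + ((x 0 * pd 2 (ff (u t)) x) ^ 2
      + (x 1 * pd 2 (ff (u t)) x) ^ 2) := i2.add i3
  have i234 : Integrable fun x => ((ff (u t) x ^ 2 + (ff (u t) x + D (ff (u t)) x) ^ 2
      + pd 2 (fun y => u t y 2) x ^ 2) + ((x 0 * pd 2 (ff (u t)) x) ^ 2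
      + (x 1 * pd 2 (ff (u t)) x) ^ 2))
      + (pd 0 (fun y => u t y 2) x ^ 2 + pd 1 (fun y => u t y 2) x ^ 2) := i23.add i4
  have key : ∫ x, bt (u t) x ^ 2 ≤ ∫ x, 15 * (((ff (u t) x ^ 2 + (ff (u t) x + D (ff (u t)) x) ^ 2
      + pd 2 (fun y => u t y 2) x ^ 2) + ((x 0 * pd 2 (ff (u t)) x) ^ 2
      + (x 1 * pd 2 (ff (u t)) x) ^ 2))
      + (pd 0 (fun y => u t y 2) x ^ 2 + pd 1 (fun y => u t y 2) x ^ 2)) := by
    refine integral_mono (h.bt_m ht).sq (i234.const_mul 15) fun x => ?_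
    show bt (u t) x ^ 2 ≤ 15 * (((ff (u t) x ^ 2 + (ff (u t) x + D (ff (u t)) x) ^ 2
      + pd 2 (fun y => u t y 2) x ^ 2) + ((x 0 * pd 2 (ff (u t)) x) ^ 2
      + (x 1 * pd 2 (ff (u t)) x) ^ 2))
      + (pd 0 (fun y => u t y 2) x ^ 2 + pd 1 (fun y => u t y 2) x ^ 2))
    rw [(h.ihh ht).pd0, (h.ihh ht).pd1]
    unfold bt
    obtain ⟨A, hA⟩ : ∃ A, A = D (ff (u t)) x := ⟨_, rfl⟩
    obtain ⟨B, hB⟩ : ∃ A, A = ff (u t) x := ⟨_, rfl⟩
    obtain ⟨C, hC⟩ : ∃ A, A = pd 2 (fun y => u t y 2) x := ⟨_, rfl⟩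
    obtain ⟨P, hP⟩ : ∃ A, A = pd 2 (ff (u t)) x := ⟨_, rfl⟩
    obtain ⟨Q, hQ⟩ : ∃ A, A = dlt (fun y => u t y 2) x := ⟨_, rfl⟩
    rw [← hA, ← hB, ← hC, ← hP, ← hQ]
    obtain ⟨r, hr⟩ : ∃ r, r = √(sg x) := ⟨_, rfl⟩
    have hr2 : r ^ 2 = x 0 ^ 2 + x 1 ^ 2 := by
      rw [hr, Real.sq_sqrt (sg_nonneg x)]
      rfl
    rw [← hr]
    have e1 : (x 0 * P) ^ 2 + (x 1 * P) ^ 2 = (r * |P|) ^ 2 := by
      rw [mul_pow r, sq_abs, hr2]; ring
    have e2 : (x 0 * Q) ^ 2 + (x 1 * Q) ^ 2 = (r * |Q|) ^ 2 := by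
      rw [mul_pow r, sq_abs, hr2]; ring
    rw [e1, e2]
    have five : ∀ a b c d e : ℝ, (a + b + c + d + e) ^ 2
        ≤ 5 * (a ^ 2 + b ^ 2 + c ^ 2 + d ^ 2 + e ^ 2) := by
      intro a b c d e
      linarith only [sq_nonneg (a - b), sq_nonneg (a - c), sq_nonneg (a - d), sq_nonneg (a - e),
        sq_nonneg (b - c), sq_nonneg (b - d), sq_nonneg (b - e), sq_nonneg (c - d),
        sq_nonneg (c - e), sq_nonneg (d - e)]
    refine (five _ _ _ _ _).trans ?_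
    have a1 := sq_abs A
    have a2 := sq_abs B
    have a3 := sq_abs C
    rw [a1, a2, a3]
    have a4 : A ^ 2 ≤ 2 * (B + A) ^ 2 + 2 * B ^ 2 := by linarith only [sq_nonneg (A + 2 * B)]
    have p1 := sq_nonneg B
    have p2 := sq_nonneg C
    have p3 := sq_nonneg (r * |P|)
    have p4 := sq_nonneg (r * |Q|)
    have p5 := sq_nonneg (B + A)
    linarith
  refine key.trans ?_
  rw [integral_const_mul, integral_add i23 i4, integral_add i2 i3, integral_add i1 mz.sq,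
    integral_add mf.sq mfD.sq, integral_add mx0.sq mx1.sq, integral_add m0.sq m1.sq, ← S7]

/-- the nonlinear terms of the third estimate -/
theorem n3 (h : AF S u) (ht : t ∈ S) {K : ℝ}
    (hK : ∀ w β : V → ℝ, M2g w → M2 β → ∀ δ : ℝ, 0 < δ →
      Integrable (fun x => |β x| * w x ^ 2) ∧
      ∫ x, |β x| * w x ^ 2 ≤ δ * (∫ x, gq w x)
        + K / δ ^ 3 * ((∫ x, β x ^ 2) ^ 2 * ∫ x, w x ^ 2)) :
    (∫ x, (x 0 * kk (u t) x) * (D (ff (u t)) x * (x 0 * kk (u t) x)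
        - (x 0 * pd 2 (ff (u t)) x) * Pool.Agent.X96.AR.om (u t) x + u t x 0 * kk (u t) x))
      + (∫ x, (x 1 * kk (u t) x) * (D (ff (u t)) x * (x 1 * kk (u t) x)
        - (x 1 * pd 2 (ff (u t)) x) * Pool.Agent.X96.AR.om (u t) x + u t x 1 * kk (u t) x))
      + (∫ x, Pool.Agent.X96.AR.om (u t) x * (pd 2 (fun y => u t y 2) x
        * Pool.Agent.X96.AR.om (u t) x - D (fun y => u t y 2) x * kk (u t) x))
    ≤ (∫ x, gq (fun x => x 0 * kk (u t) x) x) + (∫ x, gq (fun x => x 1 * kk (u t) x) x)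
      + (∫ x, gq (Pool.Agent.X96.AR.om (u t)) x)
      + K * (∫ x, bt (u t) x ^ 2) ^ 2 * ((∫ x, (x 0 * kk (u t) x) ^ 2)
        + (∫ x, (x 1 * kk (u t) x) ^ 2) + ∫ x, Pool.Agent.X96.AR.om (u t) x ^ 2) := by
  have h0 : (0 : Fin 3) ≠ 2 := by decide
  have h1 : (1 : Fin 3) ≠ 2 := by decide
  have mk := h.k.m ht
  have mom := h.om.m2g ht
  have mb := h.bt_m ht
  obtain ⟨CD, -, BD⟩ := h.Df.bd
  have bD := (BD t ht).2
  obtain ⟨Co, -, Bo⟩ := h.om.bd
  have bo := (Bo t ht).2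
  obtain ⟨Ch, -, Bh⟩ := ((h.hi 2).pd 2).bd
  have bh := (Bh t ht).2
  beta_reduce at bD bo bh
  have hsrc : ∀ i : Fin 3, i ≠ 2 → M2 fun x => D (ff (u t)) x * (x i * kk (u t) x)
        - (x i * pd 2 (ff (u t)) x) * Pool.Agent.X96.AR.om (u t) x + u t x i * kk (u t) x := by
    intro i hi
    obtain ⟨Cu, -, Bu⟩ := (h.hi i).bd
    have q1 := (h.mxk ht hi).m.bmul (sm_D (h.smf ht)).continuous bD
    have q2 := ((h.xk hi).2.m ht).bmul (sm_om (h.sm t ht)).continuous bo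
    have q3 := mk.bmul (sm_cmp (h.sm t ht) i).continuous (Bu t ht).2
    have q4 := (q1.sub q2).add q3
    have e : (fun x => D (ff (u t)) x * (x i * kk (u t) x)
        - Pool.Agent.X96.AR.om (u t) x * (x i * pd 2 (ff (u t)) x) + u t x i * kk (u t) x)
        = fun x => D (ff (u t)) x * (x i * kk (u t) x)
        - (x i * pd 2 (ff (u t)) x) * Pool.Agent.X96.AR.om (u t) x + u t x i * kk (u t) x := by
      funext x
      ring
    rw [← e]
    exact q4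
  have hsrc2 : M2 fun x => pd 2 (fun y => u t y 2) x
        * Pool.Agent.X96.AR.om (u t) x - D (fun y => u t y 2) x * kk (u t) x := by
    have q1 := mom.m.bmul (sm_pd (sm_cmp (h.sm t ht) 2) 2).continuous bh
    have q2 : ∀ i : Fin 3, i ≠ 2 → M2 fun x => pd i (fun y => u t y 2) x * (x i * kk (u t) x) := by
      intro i hi
      obtain ⟨Cu, -, Bu⟩ := ((h.hi 2).pd i).bd
      exact (h.mxk ht hi).m.bmul (sm_pd (sm_cmp (h.sm t ht) 2) i).continuous (Bu t ht).2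
    have q3 := q1.sub ((q2 0 h0).add (q2 1 h1))
    have e : (fun x => pd 2 (fun y => u t y 2) x * Pool.Agent.X96.AR.om (u t) x
        - (pd 0 (fun y => u t y 2) x * (x 0 * kk (u t) x)
          + pd 1 (fun y => u t y 2) x * (x 1 * kk (u t) x)))
        = fun x => pd 2 (fun y => u t y 2) x
        * Pool.Agent.X96.AR.om (u t) x - D (fun y => u t y 2) x * kk (u t) x := by
      funext x
      unfold D
      ring
    rw [← e]
    exact q3
  have i0 := (h.mxk ht h0).m.mul (hsrc 0 h0)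
  have i1 := (h.mxk ht h1).m.mul (hsrc 1 h1)
  have i2 := mom.m.mul hsrc2
  obtain ⟨k0, l0⟩ := hK _ _ (h.mxk ht h0) mb 1 one_pos
  obtain ⟨k1, l1⟩ := hK _ _ (h.mxk ht h1) mb 1 one_pos
  obtain ⟨k2, l2⟩ := hK _ _ mom mb 1 one_pos
  have i01 : Integrable fun x => (x 0 * kk (u t) x) * (D (ff (u t)) x * (x 0 * kk (u t) x)
        - (x 0 * pd 2 (ff (u t)) x) * Pool.Agent.X96.AR.om (u t) x + u t x 0 * kk (u t) x)
      + (x 1 * kk (u t) x) * (D (ff (u t)) x * (x 1 * kk (u t) x)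
        - (x 1 * pd 2 (ff (u t)) x) * Pool.Agent.X96.AR.om (u t) x + u t x 1 * kk (u t) x) :=
    i0.add i1
  have k01 : Integrable fun x => |bt (u t) x| * (x 0 * kk (u t) x) ^ 2
      + |bt (u t) x| * (x 1 * kk (u t) x) ^ 2 := k0.add k1
  rw [← integral_add i0 i1, ← integral_add i01 i2]
  have hle : ∫ x, ((x 0 * kk (u t) x) * (D (ff (u t)) x * (x 0 * kk (u t) x)
        - (x 0 * pd 2 (ff (u t)) x) * Pool.Agent.X96.AR.om (u t) x + u t x 0 * kk (u t) x)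
      + (x 1 * kk (u t) x) * (D (ff (u t)) x * (x 1 * kk (u t) x)
        - (x 1 * pd 2 (ff (u t)) x) * Pool.Agent.X96.AR.om (u t) x + u t x 1 * kk (u t) x)
      + Pool.Agent.X96.AR.om (u t) x * (pd 2 (fun y => u t y 2) x
        * Pool.Agent.X96.AR.om (u t) x - D (fun y => u t y 2) x * kk (u t) x))
      ≤ ∫ x, (|bt (u t) x| * (x 0 * kk (u t) x) ^ 2 + |bt (u t) x| * (x 1 * kk (u t) x) ^ 2
        + |bt (u t) x| * Pool.Agent.X96.AR.om (u t) x ^ 2) := by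
    refine integral_mono (i01.add i2) (k01.add k2) fun x => ?_
    show (x 0 * kk (u t) x) * (D (ff (u t)) x * (x 0 * kk (u t) x)
        - (x 0 * pd 2 (ff (u t)) x) * Pool.Agent.X96.AR.om (u t) x + u t x 0 * kk (u t) x)
      + (x 1 * kk (u t) x) * (D (ff (u t)) x * (x 1 * kk (u t) x)
        - (x 1 * pd 2 (ff (u t)) x) * Pool.Agent.X96.AR.om (u t) x + u t x 1 * kk (u t) x)
      + Pool.Agent.X96.AR.om (u t) x * (pd 2 (fun y => u t y 2) x
        * Pool.Agent.X96.AR.om (u t) x - D (fun y => u t y 2) x * kk (u t) x)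
      ≤ |bt (u t) x| * (x 0 * kk (u t) x) ^ 2 + |bt (u t) x| * (x 1 * kk (u t) x) ^ 2
        + |bt (u t) x| * Pool.Agent.X96.AR.om (u t) x ^ 2
    have hr := rd_eq (h.sm t ht) (h.ax t ht) x
    unfold rd at hr
    rw [abs_of_nonneg (bt_nonneg (u t) x), (h.ihh ht).D]
    unfold bt
    obtain ⟨A, hA⟩ : ∃ A, A = D (ff (u t)) x := ⟨_, rfl⟩
    obtain ⟨B, hB⟩ : ∃ A, A = ff (u t) x := ⟨_, rfl⟩
    obtain ⟨C, hC⟩ : ∃ A, A = pd 2 (fun y => u t y 2) x := ⟨_, rfl⟩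
    obtain ⟨P, hP⟩ : ∃ A, A = pd 2 (ff (u t)) x := ⟨_, rfl⟩
    obtain ⟨Q, hQ⟩ : ∃ A, A = dlt (fun y => u t y 2) x := ⟨_, rfl⟩
    obtain ⟨k, hk⟩ : ∃ A, A = kk (u t) x := ⟨_, rfl⟩
    obtain ⟨o, ho⟩ : ∃ A, A = Pool.Agent.X96.AR.om (u t) x := ⟨_, rfl⟩
    rw [← hB] at hr
    rw [← hA, ← hB, ← hC, ← hP, ← hQ, ← hk, ← ho]
    obtain ⟨r, hrr⟩ : ∃ r, r = √(sg x) := ⟨_, rfl⟩
    have hr0 : 0 ≤ r := by rw [hrr]; exact Real.sqrt_nonneg _
    have hr2 : r ^ 2 = sg x := by rw [hrr, Real.sq_sqrt (sg_nonneg x)]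
    rw [← hrr]
    have e : x 0 * k * (A * (x 0 * k) - x 0 * P * o + u t x 0 * k)
        + x 1 * k * (A * (x 1 * k) - x 1 * P * o + u t x 1 * k)
        + o * (C * o - sg x * Q * k)
        = A * (sg x * k ^ 2) - sg x * P * k * o + (x 0 * u t x 0 + x 1 * u t x 1) * k ^ 2
          + C * o ^ 2 - sg x * Q * k * o := by
      unfold sg
      ring
    have e2 : (|A| + |B| + |C| + r * |P| + r * |Q|) * (x 0 * k) ^ 2
        + (|A| + |B| + |C| + r * |P| + r * |Q|) * (x 1 * k) ^ 2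
        + (|A| + |B| + |C| + r * |P| + r * |Q|) * o ^ 2
        = (|A| + |B| + |C| + r * |P| + r * |Q|) * (sg x * k ^ 2 + o ^ 2) := by
      unfold sg
      ring
    rw [e, e2, hr]
    have hW : 0 ≤ sg x * k ^ 2 := mul_nonneg (sg_nonneg x) (sq_nonneg k)
    have ho2 : 0 ≤ o ^ 2 := sq_nonneg o
    have a1 : A * (sg x * k ^ 2) ≤ |A| * (sg x * k ^ 2) :=
      mul_le_mul_of_nonneg_right (le_abs_self A) hW
    have a2 : B * (sg x * k ^ 2) ≤ |B| * (sg x * k ^ 2) :=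
      mul_le_mul_of_nonneg_right (le_abs_self B) hW
    have a3 : C * o ^ 2 ≤ |C| * o ^ 2 := mul_le_mul_of_nonneg_right (le_abs_self C) ho2
    have a4 : ∀ P : ℝ, -(sg x * P * k * o) ≤ 1 / 2 * (r * |P| * (sg x * k ^ 2 + o ^ 2)) := by
      intro P
      have b1 : -(sg x * P * k * o) ≤ r * |P| * (|r * k| * |o|) := by
        calc -(sg x * P * k * o) ≤ |-(sg x * P * k * o)| := le_abs_self _
          _ = r * |P| * (|r * k| * |o|) := by
              rw [abs_neg, abs_mul, abs_mul, abs_mul, abs_mul r k, ← hr2, abs_of_nonneg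
                (sq_nonneg r), abs_of_nonneg hr0]
              ring
      have b2 : |r * k| * |o| ≤ 1 / 2 * (sg x * k ^ 2 + o ^ 2) := by
        have b3 := sq_nonneg (|r * k| - |o|)
        have b4 := sq_abs (r * k)
        have b5 := sq_abs o
        have b6 : (r * k) ^ 2 = sg x * k ^ 2 := by rw [mul_pow, hr2]
        rw [b6] at b4
        rw [← b4, ← b5]
        linarith
      calc -(sg x * P * k * o) ≤ r * |P| * (|r * k| * |o|) := b1
        _ ≤ r * |P| * (1 / 2 * (sg x * k ^ 2 + o ^ 2)) :=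
            mul_le_mul_of_nonneg_left b2 (by positivity)
        _ = _ := by ring
    have a5 := a4 P
    have a6 := a4 Q
    have p1 : 0 ≤ r * |P| * (sg x * k ^ 2 + o ^ 2) := by positivity
    have p2 : 0 ≤ r * |Q| * (sg x * k ^ 2 + o ^ 2) := by positivity
    have p3 : 0 ≤ |A| * o ^ 2 := by positivity
    have p4 : 0 ≤ |B| * o ^ 2 := by positivity
    have p5 : 0 ≤ |C| * (sg x * k ^ 2) := by positivity
    have e3 : (|A| + |B| + |C| + r * |P| + r * |Q|) * (sg x * k ^ 2 + o ^ 2)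
        = |A| * (sg x * k ^ 2) + |A| * o ^ 2 + (|B| * (sg x * k ^ 2) + |B| * o ^ 2)
          + (|C| * (sg x * k ^ 2) + |C| * o ^ 2) + r * |P| * (sg x * k ^ 2 + o ^ 2)
          + r * |Q| * (sg x * k ^ 2 + o ^ 2) := by ring
    rw [e3]
    have e4 : sg x * B * k ^ 2 = B * (sg x * k ^ 2) := by ring
    rw [e4]
    linarith
  refine hle.trans ?_
  rw [integral_add k01 k2, integral_add k0 k1]
  norm_num at l0 l1 l2
  linarith

/-- the gradient of the velocity -/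
lemma gsq_eq (h : AF S u) (ht : t ∈ S) (x : V) : gsq (u t) x
    = ff (u t) x ^ 2 + (ff (u t) x + D (ff (u t)) x) ^ 2 + pd 2 (fun y => u t y 2) x ^ 2
      + ((x 0 * pd 2 (ff (u t)) x) ^ 2 + (x 1 * pd 2 (ff (u t)) x) ^ 2)
      + (pd 0 (fun y => u t y 2) x ^ 2 + pd 1 (fun y => u t y 2) x ^ 2)
      + (gg (u t) x ^ 2 + (Pool.Agent.X96.AR.om (u t) x - gg (u t) x) ^ 2
        + ((x 0 * kk (u t) x) ^ 2 + (x 1 * kk (u t) x) ^ 2)) := by
  have iF := h.iff ht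
  have iG := h.igg ht
  have e0 : (fun y => u t y 0) = fun y => (fun y : V => y 0 * ff (u t) y) y
      - (fun y : V => y 1 * gg (u t) y) y := funext fun y => cmp0 (h.sm t ht) (h.ax t ht) y
  have e1 : (fun y => u t y 1) = fun y => (fun y : V => y 1 * ff (u t) y) y
      + (fun y : V => y 0 * gg (u t) y) y := funext fun y => cmp1 (h.sm t ht) (h.ax t ht) y
  have p0 : ∀ j, pd j (fun y => u t y 0) x = (x 0 * pd j (ff (u t)) x
      + (if (0 : Fin 3) = j then 1 else 0) * ff (u t) x)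
      - (x 1 * pd j (gg (u t)) x + (if (1 : Fin 3) = j then 1 else 0) * gg (u t) x) := by
    intro j
    rw [e0, pd_sub' ((sm_crd 0).mul iF.sm) ((sm_crd 1).mul iG.sm)]
    beta_reduce
    rw [pd_c0 j iF.sm 0, pd_c0 j iG.sm 1]
  have p1 : ∀ j, pd j (fun y => u t y 1) x = (x 1 * pd j (ff (u t)) x
      + (if (1 : Fin 3) = j then 1 else 0) * ff (u t) x)
      + (x 0 * pd j (gg (u t)) x + (if (0 : Fin 3) = j then 1 else 0) * gg (u t) x) := by
    intro j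
    rw [e1, pd_add' ((sm_crd 1).mul iF.sm) ((sm_crd 0).mul iG.sm)]
    beta_reduce
    rw [pd_c0 j iF.sm 1, pd_c0 j iG.sm 0]
  have hom := congrFun (om_eq (h.sm t ht) (h.ax t ht)) x
  unfold gsq
  simp only [Fin.sum_univ_three]
  rw [p0, p0, p0, p1, p1, p1, iF.pd0, iF.pd1, iG.pd0, iG.pd1, iF.D, hom]
  have q1 : ((1 : Fin 3) = 0) = False := by simp
  have q2 : ((0 : Fin 3) = 1) = False := by simp
  have q3 : ((0 : Fin 3) = 2) = False := by simp
  have q4 : ((1 : Fin 3) = 2) = False := by simp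
  simp only [q1, q2, q3, q4, if_true, if_false]
  unfold kk sg
  ring

/-- the gradient in terms of the energies -/
theorem e10 (h : AF S u) (ht : t ∈ S) : Integrable (gsq (u t)) ∧ ∫ x, gsq (u t) x
    ≤ ((∫ x, (x 0 * oo (u t) x) ^ 2) + ∫ x, (x 1 * oo (u t) x) ^ 2)
      + 3 * (∫ x, gg (u t) x ^ 2) + 2 * (∫ x, Pool.Agent.X96.AR.om (u t) x ^ 2)
      + ((∫ x, (x 0 * kk (u t) x) ^ 2) + ∫ x, (x 1 * kk (u t) x) ^ 2) ∧
    ∫ x, ff (u t) x ^ 2 ≤ ∫ x, gsq (u t) x := by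
  have h0 : (0 : Fin 3) ≠ 2 := by decide
  have h1 : (1 : Fin 3) ≠ 2 := by decide
  have S7 := h.s7 ht
  have mf := h.f.m ht
  have mfD : M2 fun x => ff (u t) x + D (ff (u t)) x := mf.add (h.Df.m ht)
  have mz := ((h.hi 2).pd 2).m ht
  have m0 := ((h.hi 2).pd 0).m ht
  have m1 := ((h.hi 2).pd 1).m ht
  have mx0 := (h.xk h0).2.m ht
  have mx1 := (h.xk h1).2.m ht
  have mk0 := (h.xk h0).1.m ht
  have mk1 := (h.xk h1).1.m ht
  have mg := h.g.m ht
  have mo := h.om.m ht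
  have mog : M2 fun x => Pool.Agent.X96.AR.om (u t) x - gg (u t) x := mo.sub mg
  have i1 : Integrable fun x => ff (u t) x ^ 2 + (ff (u t) x + D (ff (u t)) x) ^ 2 :=
    mf.sq.add mfD.sq
  have i2 : Integrable fun x => ff (u t) x ^ 2 + (ff (u t) x + D (ff (u t)) x) ^ 2
      + pd 2 (fun y => u t y 2) x ^ 2 := i1.add mz.sq
  have i3 : Integrable fun x : V => (x 0 * pd 2 (ff (u t)) x) ^ 2 + (x 1 * pd 2 (ff (u t)) x) ^ 2 :=
    mx0.sq.add mx1.sq
  have i4 : Integrable fun x => pd 0 (fun y => u t y 2) x ^ 2 + pd 1 (fun y => u t y 2) x ^ 2 :=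
    m0.sq.add m1.sq
  have i23 : Integrable fun x => ff (u t) x ^ 2 + (ff (u t) x + D (ff (u t)) x) ^ 2
      + pd 2 (fun y => u t y 2) x ^ 2 + ((x 0 * pd 2 (ff (u t)) x) ^ 2
      + (x 1 * pd 2 (ff (u t)) x) ^ 2) := i2.add i3
  have i234 : Integrable fun x => ff (u t) x ^ 2 + (ff (u t) x + D (ff (u t)) x) ^ 2
      + pd 2 (fun y => u t y 2) x ^ 2 + ((x 0 * pd 2 (ff (u t)) x) ^ 2
      + (x 1 * pd 2 (ff (u t)) x) ^ 2)
      + (pd 0 (fun y => u t y 2) x ^ 2 + pd 1 (fun y => u t y 2) x ^ 2) := i23.add i4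
  have j1 : Integrable fun x => gg (u t) x ^ 2
      + (Pool.Agent.X96.AR.om (u t) x - gg (u t) x) ^ 2 := mg.sq.add mog.sq
  have j2 : Integrable fun x : V => (x 0 * kk (u t) x) ^ 2 + (x 1 * kk (u t) x) ^ 2 :=
    mk0.sq.add mk1.sq
  have j3 : Integrable fun x => gg (u t) x ^ 2
      + (Pool.Agent.X96.AR.om (u t) x - gg (u t) x) ^ 2
      + ((x 0 * kk (u t) x) ^ 2 + (x 1 * kk (u t) x) ^ 2) := j1.add j2
  have e : gsq (u t) = fun x => ff (u t) x ^ 2 + (ff (u t) x + D (ff (u t)) x) ^ 2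
      + pd 2 (fun y => u t y 2) x ^ 2
      + ((x 0 * pd 2 (ff (u t)) x) ^ 2 + (x 1 * pd 2 (ff (u t)) x) ^ 2)
      + (pd 0 (fun y => u t y 2) x ^ 2 + pd 1 (fun y => u t y 2) x ^ 2)
      + (gg (u t) x ^ 2 + (Pool.Agent.X96.AR.om (u t) x - gg (u t) x) ^ 2
        + ((x 0 * kk (u t) x) ^ 2 + (x 1 * kk (u t) x) ^ 2)) := funext fun x => h.gsq_eq ht x
  have hI : Integrable (gsq (u t)) := by rw [e]; exact i234.add j3
  refine ⟨hI, ?_, ?_⟩
  · rw [e, integral_add i234 j3, integral_add i23 i4, integral_add i2 i3, integral_add i1 mz.sq,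
      integral_add mf.sq mfD.sq, integral_add mx0.sq mx1.sq, integral_add m0.sq m1.sq,
      integral_add j1 j2, integral_add mg.sq mog.sq, integral_add mk0.sq mk1.sq]
    have h5 : ∫ x, (Pool.Agent.X96.AR.om (u t) x - gg (u t) x) ^ 2
        ≤ 2 * (∫ x, Pool.Agent.X96.AR.om (u t) x ^ 2) + 2 * ∫ x, gg (u t) x ^ 2 := by
      rw [← integral_const_mul, ← integral_const_mul, ← integral_add (mo.sq.const_mul 2)
        (mg.sq.const_mul 2)]
      refine integral_mono mog.sq ((mo.sq.const_mul 2).add (mg.sq.const_mul 2)) fun x => ?_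
      show (Pool.Agent.X96.AR.om (u t) x - gg (u t) x) ^ 2
        ≤ 2 * Pool.Agent.X96.AR.om (u t) x ^ 2 + 2 * gg (u t) x ^ 2
      linarith only [sq_nonneg (Pool.Agent.X96.AR.om (u t) x + gg (u t) x)]
    linarith
  · refine integral_mono mf.sq hI fun x => ?_
    show ff (u t) x ^ 2 ≤ gsq (u t) x
    rw [h.gsq_eq ht x]
    have : 0 ≤ (ff (u t) x + D (ff (u t)) x) ^ 2 + pd 2 (fun y => u t y 2) x ^ 2
      + ((x 0 * pd 2 (ff (u t)) x) ^ 2 + (x 1 * pd 2 (ff (u t)) x) ^ 2)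
      + (pd 0 (fun y => u t y 2) x ^ 2 + pd 1 (fun y => u t y 2) x ^ 2)
      + (gg (u t) x ^ 2 + (Pool.Agent.X96.AR.om (u t) x - gg (u t) x) ^ 2
        + ((x 0 * kk (u t) x) ^ 2 + (x 1 * kk (u t) x) ^ 2)) := by positivity
    linarith

end AF

end Pool.Agent.X96.AR
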