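import Pool.Agent.X96.AR.Core

/-!
Axisymmetric flows (helper96): the velocity remains bounded.
-/

set_option autoImplicit false

open MeasureTheory Set Metric Filter Topology
open scoped ContDiff ENNReal

namespace Pool.Agent.X96.AR

open H459R3.NS W221.NS Pool.Agent.TH305.DR Pool.Agent.TH305.AX
open Pool.Agent.W583.MD (sm_pd cs_pd pd_mul' Z Z.add Z.sub Z.smul Z.sum int_cs Z_pd)

variable {S : Set ℝ} {T : ℝ} {F G : ℝ → V → ℝ} {u : ℝ → V → V} {p : ℝ → V → ℝ} {s t : ℝ}

/-- the sup norm from the gradient and the energy -/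
lemma sup_le {f : V → ℝ} (hf : ContDiff ℝ ∞ f) {D E : ℝ} (hD : 0 ≤ D)
    (hg : ∀ j x, |pd j f x| ≤ D) (hi : Integrable fun x => f x ^ 2) (hE : ∫ x, f x ^ 2 ≤ E) (x : V) :
    |f x| ≤ 1 + 864 * (D + 1) ^ 3 * E := by
  by_contra hcon
  push Not at hcon
  have hE0 : 0 ≤ E := (integral_nonneg fun x => sq_nonneg _).trans hE
  obtain ⟨m, hm⟩ : ∃ m : ℝ, m = |f x| := ⟨_, rfl⟩
  rw [← hm] at hcon
  have hp : 0 ≤ 864 * (D + 1) ^ 3 * E := by positivity
  have hm1 : 1 ≤ m := by linarith
  obtain ⟨ρ, hρ⟩ : ∃ ρ : ℝ, ρ = m / (6 * (D + 1)) := ⟨_, rfl⟩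
  have hρ0 : 0 < ρ := by rw [hρ]; positivity
  have hlip : ∀ y ∈ ball x ρ, m / 2 ≤ |f y| := by
    intro y hy
    have h1 : ‖f y - f x‖ ≤ 3 * D * ‖y - x‖ := by
      refine Convex.norm_image_sub_le_of_norm_fderiv_le (𝕜 := ℝ) (s := univ)
        (fun z _ => (hf.differentiable (by norm_cast)) z) (fun z _ => ?_) convex_univ
        (mem_univ _) (mem_univ _)
      refine (Pool.Agent.W440.MD.fderiv_norm_le z).trans ?_
      rw [Fin.sum_univ_three]
      linarith [hg 0 z, hg 1 z, hg 2 z]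
    rw [mem_ball, dist_eq_norm] at hy
    have h2 : 3 * D * ‖y - x‖ ≤ m / 2 := by
      calc 3 * D * ‖y - x‖ ≤ 3 * D * ρ := by gcongr
        _ ≤ 3 * (D + 1) * ρ := by gcongr; linarith
        _ = m / 2 := by rw [hρ]; field_simp; ring
    have h3 : |f x| ≤ |f y| + |f y - f x| := by
      have : f x = f y - (f y - f x) := by ring
      calc |f x| = |f y - (f y - f x)| := by rw [← this]
        _ ≤ _ := abs_sub _ _
    rw [Real.norm_eq_abs] at h1
    linarith
  have h4 : ∫ y in ball x ρ, (m / 2) ^ 2 ≤ E := by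
    refine le_trans ?_ hE
    refine le_trans ?_ (setIntegral_le_integral (s := ball x ρ) hi
      (Eventually.of_forall fun x => sq_nonneg _))
    refine setIntegral_mono_on (integrableOn_const measure_ball_lt_top.ne) hi.integrableOn
      measurableSet_ball fun y hy => ?_
    rw [← sq_abs (f y)]
    exact pow_le_pow_left₀ (by positivity) (hlip y hy) 2
  rw [setIntegral_const, smul_eq_mul, Measure.real, Real.volume_pi_ball x hρ0] at h4
  rw [ENNReal.toReal_ofReal (by positivity)] at h4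
  simp only [Fintype.card_fin] at h4
  have h5 : (2 * ρ) ^ 3 * (m / 2) ^ 2 = m ^ 5 / (108 * (D + 1) ^ 3) := by
    rw [hρ]
    field_simp
    ring
  rw [h5, div_le_iff₀ (by positivity)] at h4
  have h6 : m ≤ m ^ 5 := le_self_pow₀ hm1 (by norm_num)
  nlinarith [mul_nonneg hE0 (pow_nonneg (add_nonneg hD zero_le_one) 3)]

namespace Cr
variable {t₀ E M : ℝ}

lemma lsol (c : Cr T t₀ E M u p) : LSol T 0 E univ u p := by
  have hdv : ∀ t ∈ Ioo 0 T, ∀ x, dv (u t) x = 0 := fun t ht x => c.rs.ud ht x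
  refine ⟨isOpen_univ, c.rs.sol.smooth_u.mono (prod_mono Ioo_subset_Ico_self le_rfl),
    c.rs.sol.smooth_p, fun t ht x _ => hdv t ht x, fun t ht x _ i => ?_, fun t ht => ?_, c.en,
    fun t ht => ?_, fun t ht => ?_⟩
  · have := c.rs.sol.momentum t ht x i
    rw [one_mul] at this
    exact this
  · have A := c.rs.af1 ht
    exact integrable_finsetSum _ fun i _ => ((A.hi i).m ⟨le_rfl, le_rfl⟩).sq
  · have e : (fun x => dv (u t) x ^ 2) = fun _ => 0 := by
      funext x
      rw [hdv t ht x]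
      ring
    rw [e]
    exact integrable_zero _ _ _
  · have e : (fun x => dv (u t) x ^ 2) = fun _ => 0 := by
      funext x
      rw [hdv t ht x]
      ring
    rw [e]
    simp

/-- the velocity is bounded -/
theorem bdd (c : Cr T t₀ E M u p) (hE : 0 ≤ E) : ∃ U : ℝ, ∀ t ∈ Ico 0 T, ∀ x, ‖u t x‖ ≤ U := by
  obtain ⟨C0, hC0, K, hK, H⟩ := fixT
  obtain ⟨B, hB, Y⟩ := c.y4
  have hL := c.lsol
  -- the radius
  obtain ⟨r, hr, hr1, hr2⟩ : ∃ r : ℝ, 0 < r ∧ r ^ 2 ≤ (T - t₀) / 2 ∧ 1024 * C0 * B * r < 1 := by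
    have hT := sub_pos.2 c.tT
    obtain ⟨r, hr⟩ : ∃ r : ℝ, r = min (√((T - t₀) / 2)) (1 / (2 * (1024 * C0 * B + 1))) := ⟨_, rfl⟩
    have h1 : 0 < √((T - t₀) / 2) := Real.sqrt_pos.2 (by linarith)
    have h2 : 0 < 1 / (2 * (1024 * C0 * B + 1)) := by positivity
    have hr0 : 0 < r := by rw [hr]; exact lt_min h1 h2
    refine ⟨r, hr0, ?_, ?_⟩
    · have h3 : r ≤ √((T - t₀) / 2) := by rw [hr]; exact min_le_left _ _
      calc r ^ 2 ≤ (√((T - t₀) / 2)) ^ 2 := pow_le_pow_left₀ hr0.le h3 2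
        _ = _ := Real.sq_sqrt (by linarith)
    · have h3 : r ≤ 1 / (2 * (1024 * C0 * B + 1)) := by rw [hr]; exact min_le_right _ _
      have h4 : 1024 * C0 * B * r ≤ 1024 * C0 * B * (1 / (2 * (1024 * C0 * B + 1))) := by
        gcongr
      refine h4.trans_lt ?_
      rw [mul_one_div, div_lt_one (by positivity)]
      have : 0 ≤ 1024 * C0 * B := by positivity
      linarith
  obtain ⟨G, hG⟩ : ∃ G : ℝ, G = K 0 * (1 + r⁻¹ * E ^ 2) / r ^ 4 := ⟨_, rfl⟩
  have hG0 : 0 ≤ G := by rw [hG]; have := hK 0; positivity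
  -- the gradient
  have hgrad : ∀ s, (t₀ + T) / 2 ≤ s → s < T → ∀ x, gsq (u s) x ≤ G := by
    intro s hs hsT x
    have hst : t₀ ≤ s - r ^ 2 := by linarith
    have hrs : r ^ 2 < s := by linarith [c.t0]
    obtain ⟨D, hDm, hDv, hD⟩ := H T 0 E univ u p le_rfl hE hL r s hr hrs hsT (by simp)
    have h1 : ∫⁻ τ in Ioo (s - r ^ 2) s, ∫⁻ y in univ, ENNReal.ofReal (gsq (u τ) y)
        ≤ ENNReal.ofReal (r ^ 2 * B) := by
      calc ∫⁻ τ in Ioo (s - r ^ 2) s, ∫⁻ y in univ, ENNReal.ofReal (gsq (u τ) y)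
          ≤ ∫⁻ τ in Ioo (s - r ^ 2) s, ENNReal.ofReal B := by
            refine setLIntegral_mono' measurableSet_Ioo fun τ hτ => ?_
            obtain ⟨y1, y2⟩ := Y τ ⟨hst.trans hτ.1.le, hτ.2.trans hsT⟩
            rw [Measure.restrict_univ, ← ofReal_integral_eq_lintegral_ofReal y1
              (Eventually.of_forall fun x => by unfold gsq; positivity)]
            exact ENNReal.ofReal_le_ofReal y2
        _ = ENNReal.ofReal (r ^ 2 * B) := by
            rw [setLIntegral_const, Real.volume_Ioo, ← ENNReal.ofReal_mul hB]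
            congr 1
            ring
    have h2 : volume D < volume (ball x (r / 16)) := by
      calc volume D ≤ ENNReal.ofReal (C0 * r ^ 2) * ENNReal.ofReal (r ^ 2 * B) :=
            hDv.trans (mul_le_mul_right h1 _)
        _ = ENNReal.ofReal (C0 * r ^ 2 * (r ^ 2 * B)) := by
            rw [← ENNReal.ofReal_mul (by positivity)]
        _ < volume (ball x (r / 16)) := by
            rw [Real.volume_pi_ball x (by positivity)]
            simp only [Fintype.card_fin]
            rw [ENNReal.ofReal_lt_ofReal_iff (by positivity)]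
            have e1 : C0 * r ^ 2 * (r ^ 2 * B) = (1024 * C0 * B * r) * (r ^ 3 / 1024) := by ring
            have e2 : (2 * (r / 16)) ^ 3 = r ^ 3 / 512 := by ring
            rw [e1, e2]
            have h3 : 0 < r ^ 3 / 1024 := by positivity
            calc (1024 * C0 * B * r) * (r ^ 3 / 1024) < 1 * (r ^ 3 / 1024) :=
                  mul_lt_mul_of_pos_right hr2 h3
              _ ≤ r ^ 3 / 512 := by
                have : 0 < r ^ 3 := by positivity
                linarith
    obtain ⟨z, hz, hzD⟩ : ∃ z ∈ ball x (r / 16), z ∉ D := by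
      by_contra hcon
      push Not at hcon
      exact absurd (measure_mono (μ := volume) hcon) (not_le.2 h2)
    have hxz : x ∈ ball z (r / 16) := by rwa [mem_ball_comm] at hz
    have h3 := (hD z hzD (subset_univ _) x hxz 0).2
    have h4 : A2 z (5 * r) (u s) ≤ E ^ 2 := by
      refine (setIntegral_le_integral (hL.en_int s ⟨by linarith [c.t0], hsT⟩)
        (Eventually.of_forall fun x => by show (0 : ℝ) ≤ nsq (u s) x; unfold nsq; positivity)).trans
        (c.en s ⟨by linarith [c.t0], hsT⟩)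
    have h5 : SV (0 + 1) (u s) x = gsq (u s) x := rfl
    rw [h5] at h3
    have h6 : r ^ 4 * gsq (u s) x ≤ K 0 * (1 + r⁻¹ * E ^ 2) := by
      refine le_trans (by simpa using h3) ?_
      have := (hK 0).le
      gcongr
    rw [hG, le_div_iff₀ (by positivity), mul_comm]
    exact h6
  -- conclusion
  obtain ⟨U₀, hU₀⟩ := c.rs.sol.bdd ((t₀ + T) / 2) (by linarith [c.tT])
  refine ⟨max U₀ (1 + 864 * (√G + 1) ^ 3 * E ^ 2), fun t ht x => ?_⟩
  rcases le_total t ((t₀ + T) / 2) with h | h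
  · exact (hU₀ t ⟨ht.1, h⟩ x).trans (le_max_left _ _)
  · refine le_max_of_le_right ?_
    have ht0 : t ∈ Ioo 0 T := ⟨by linarith [c.t0, c.tT], ht.2⟩
    have A := c.rs.af1 ht0
    rw [pi_norm_le_iff_of_nonneg (by positivity)]
    intro i
    rw [Real.norm_eq_abs]
    have mi := (A.hi i).m (⟨le_rfl, le_rfl⟩ : t ∈ Icc t t)
    refine sup_le (sm_cmp (A.sm t ⟨le_rfl, le_rfl⟩) i) (Real.sqrt_nonneg _) (fun j y => ?_) mi.sq
      ?_ x
    · apply Real.abs_le_sqrt
      refine le_trans ?_ (hgrad t h ht.2 y)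
      unfold gsq
      exact (Finset.single_le_sum (f := fun j => pd j (fun y => u t y i) y ^ 2)
        (fun j _ => sq_nonneg _) (Finset.mem_univ j)).trans
        (Finset.single_le_sum (f := fun i => ∑ j, pd j (fun y => u t y i) y ^ 2)
        (fun i _ => Finset.sum_nonneg fun j _ => sq_nonneg _) (Finset.mem_univ i))
    · refine le_trans ?_ (c.en t ht0)
      refine integral_mono mi.sq (hL.en_int t ht0) fun y => ?_
      show u t y i ^ 2 ≤ nsq (u t) y
      unfold nsq
      exact Finset.single_le_sum (f := fun i => u t y i ^ 2) (fun i _ => sq_nonneg _)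
        (Finset.mem_univ i)

end Cr

end Pool.Agent.X96.AR
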