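import Pool.Agent.X96.AR.Sob

/-!
Form bounds of singular weights at the axis (helper96).
-/

set_option autoImplicit false

open MeasureTheory Set Metric Filter Topology
open scoped ContDiff ENNReal

namespace Pool.Agent.X96.AR

open H459R3.NS W221.NS Pool.Agent.TH305.DR Pool.Agent.TH305.AX
open Pool.Agent.W583.MD (sm_pd cs_pd pd_mul' Z Z.add Z.sub Z.smul Z.sum int_cs Z_pd)

/-- `1 + log (1 + 1/τ)` -/
noncomputable def lg (τ : ℝ) : ℝ := 1 + Real.log (1 + τ⁻¹)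

lemma lg_ge {τ : ℝ} (h : 0 < τ) : 1 ≤ lg τ := by
  unfold lg
  have : 0 ≤ Real.log (1 + τ⁻¹) := Real.log_nonneg (by have := inv_pos.2 h; linarith)
  linarith

lemma lg_hd {τ : ℝ} (h : 0 < τ) : HasDerivAt lg (-(1 / (τ * (τ + 1)))) τ := by
  have hi := inv_pos.2 h
  have h1 : HasDerivAt (fun τ : ℝ => 1 + τ⁻¹) (-(τ ^ 2)⁻¹) τ := (hasDerivAt_inv h.ne').const_add 1
  have h2 := (h1.log (by positivity : (1 : ℝ) + τ⁻¹ ≠ 0)).const_add 1
  refine h2.congr_deriv ?_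
  field_simp

lemma lg_cd {τ : ℝ} (h : 0 < τ) : ContDiffAt ℝ ∞ lg τ := by
  have hi := inv_pos.2 h
  have h1 : ContDiffAt ℝ ∞ (fun τ : ℝ => 1 + τ⁻¹) τ := contDiffAt_const.add (contDiffAt_inv ℝ h.ne')
  exact contDiffAt_const.add (h1.log (by positivity))

lemma lg_anti {a b : ℝ} (ha : 0 < a) (hab : a ≤ b) : lg b ≤ lg a := by
  unfold lg
  have hb := ha.trans_le hab
  have h1 : b⁻¹ ≤ a⁻¹ := inv_anti₀ ha hab
  have h2 := inv_pos.2 hb
  have := Real.log_le_log (by positivity : (0 : ℝ) < 1 + b⁻¹) (by linarith : 1 + b⁻¹ ≤ 1 + a⁻¹)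
  linarith

/-- `lg^(-s)` -/
noncomputable def Ph (s τ : ℝ) : ℝ := lg τ ^ (-s)

/-- the derivative of `Ph` -/
noncomputable def Pd (s τ : ℝ) : ℝ := s * lg τ ^ (-s - 1) / (τ * (τ + 1))

variable {s τ : ℝ}

lemma Ph_hd (h : 0 < τ) : HasDerivAt (Ph s) (Pd s τ) τ := by
  have h0 : 0 < lg τ := zero_lt_one.trans_le (lg_ge h)
  have h1 := (lg_hd h).rpow_const (p := -s) (Or.inl h0.ne')
  refine h1.congr_deriv ?_
  unfold Pd
  ring

lemma Ph_cd (h : 0 < τ) : ContDiffAt ℝ ∞ (Ph s) τ := by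
  have h0 : 0 < lg τ := zero_lt_one.trans_le (lg_ge h)
  exact (lg_cd h).rpow_const_of_ne h0.ne'

lemma Ph_nn (h : 0 < τ) : 0 ≤ Ph s τ := Real.rpow_nonneg (zero_le_one.trans (lg_ge h)) _

lemma Ph_le (hs : 0 ≤ s) (h : 0 < τ) : Ph s τ ≤ 1 :=
  Real.rpow_le_one_of_one_le_of_nonpos (lg_ge h) (by linarith)

lemma Pd_nn (hs : 0 ≤ s) (h : 0 < τ) : 0 ≤ Pd s τ := by
  have := Real.rpow_nonneg (zero_le_one.trans (lg_ge h)) (-s - 1)
  unfold Pd
  positivity

lemma Pd_le (hs : 0 ≤ s) (h : 0 < τ) : Pd s τ ≤ s / (τ * (τ + 1)) := by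
  unfold Pd
  have h1 : lg τ ^ (-s - 1) ≤ 1 := Real.rpow_le_one_of_one_le_of_nonpos (lg_ge h) (by linarith)
  have h2 : 0 < τ * (τ + 1) := by positivity
  gcongr
  exact mul_le_of_le_one_right hs h1

/-- `Φ²/τ ≤ η Φ' + C` -/
lemma Ph_small (hs : 1 < s) {η : ℝ} (hη : 0 < η) : ∃ C : ℝ, 0 ≤ C ∧ ∀ τ : ℝ, 0 < τ →
    Ph s τ ^ 2 / τ ≤ η * Pd s τ + C := by
  -- `lg τ → ∞`
  obtain ⟨M, hM1, hM⟩ : ∃ M : ℝ, 1 ≤ M ∧ 2 / s * M ^ (1 - s) ≤ η := by
    have h1 : Tendsto (fun M : ℝ => M ^ (1 - s)) atTop (𝓝 0) := by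
      have := tendsto_rpow_neg_atTop (y := s - 1) (by linarith)
      refine this.congr fun x => ?_
      congr 1
      ring
    have h2 := (h1.const_mul (2 / s))
    rw [mul_zero] at h2
    have h3 := (h2.eventually (gt_mem_nhds hη)).and (eventually_ge_atTop 1)
    obtain ⟨M, hMa, hMb⟩ := h3.exists
    exact ⟨M, hMb, hMa.le⟩
  obtain ⟨τ₀, hτ₀, hτ₁, hlg⟩ : ∃ τ₀ : ℝ, 0 < τ₀ ∧ τ₀ ≤ 1 ∧ M ≤ lg τ₀ := by
    refine ⟨(Real.exp M)⁻¹, inv_pos.2 (Real.exp_pos _), ?_, ?_⟩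
    · apply inv_le_one_of_one_le₀
      exact Real.one_le_exp (by linarith)
    · unfold lg
      rw [inv_inv]
      have h1 : Real.log (Real.exp M) ≤ Real.log (1 + Real.exp M) :=
        Real.log_le_log (Real.exp_pos _) (by linarith)
      rw [Real.log_exp] at h1
      linarith
  refine ⟨1 / τ₀, by positivity, fun τ hτ => ?_⟩
  have hl := lg_ge hτ
  have hl0 : 0 < lg τ := by linarith
  rcases le_total τ₀ τ with h | h
  · have h1 : Ph s τ ^ 2 ≤ 1 := pow_le_one₀ (Ph_nn hτ) (Ph_le (by linarith) hτ)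
    have h2 : Ph s τ ^ 2 / τ ≤ 1 / τ₀ := by gcongr
    have h3 : 0 ≤ η * Pd s τ := mul_nonneg hη.le (Pd_nn (by linarith) hτ)
    linarith
  · have h1 : M ≤ lg τ := hlg.trans (lg_anti hτ h)
    have e1 : Ph s τ ^ 2 = lg τ ^ (1 - s) * lg τ ^ (-s - 1) := by
      unfold Ph
      rw [← Real.rpow_natCast, ← Real.rpow_mul hl0.le, ← Real.rpow_add hl0]
      congr 1
      push_cast
      ring
    have h2 : lg τ ^ (1 - s) ≤ M ^ (1 - s) :=
      Real.rpow_le_rpow_of_nonpos (by linarith) h1 (by linarith)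
    have h3 : 0 ≤ lg τ ^ (-s - 1) := Real.rpow_nonneg hl0.le _
    have h4 : Ph s τ ^ 2 / τ ≤ η * Pd s τ := by
      unfold Pd
      rw [e1, mul_div_assoc', div_le_div_iff₀ hτ (by positivity)]
      have h5 : τ + 1 ≤ 2 := by linarith
      have hs0 : 0 < s := by linarith
      have h6 : lg τ ^ (1 - s) * (τ + 1) ≤ η * s := by
        calc lg τ ^ (1 - s) * (τ + 1) ≤ M ^ (1 - s) * 2 := by
              apply mul_le_mul h2 h5 (by linarith) (Real.rpow_nonneg (by linarith) _)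
          _ = (2 / s * M ^ (1 - s)) * s := by field_simp
          _ ≤ η * s := by gcongr
      calc lg τ ^ (1 - s) * lg τ ^ (-s - 1) * (τ * (τ + 1))
          = (lg τ ^ (1 - s) * (τ + 1)) * (lg τ ^ (-s - 1) * τ) := by ring
        _ ≤ (η * s) * (lg τ ^ (-s - 1) * τ) := by
            apply mul_le_mul_of_nonneg_right h6 (by positivity)
        _ = _ := by ring
    have : 0 ≤ 1 / τ₀ := by positivity
    linarith

lemma sm_cmp_sg {Ψ : ℝ → ℝ} (hΨ : ∀ τ, 0 < τ → ContDiffAt ℝ ∞ Ψ τ) {ε : ℝ} (hε : 0 < ε) :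
    ContDiff ℝ ∞ fun x : V => Ψ (sg x + ε) := by
  rw [contDiff_iff_contDiffAt]
  intro x
  exact (hΨ _ (add_pos_of_nonneg_of_pos (sg_nonneg x) hε)).comp x
    (sm_sg.contDiffAt.add contDiffAt_const)

lemma D_cmp_sg {Ψ Ψ' : ℝ → ℝ} (hΨ : ∀ τ, 0 < τ → HasDerivAt Ψ (Ψ' τ) τ) {ε : ℝ} (hε : 0 < ε)
    (x : V) : D (fun x : V => Ψ (sg x + ε)) x = 2 * sg x * Ψ' (sg x + ε) := by
  have hp := add_pos_of_nonneg_of_pos (sg_nonneg x) hε
  have hpd : ∀ j, pd j (fun x : V => Ψ (sg x + ε)) x = Ψ' (sg x + ε) * pd j sg x := by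
    intro j
    have a1 : HasFDerivAt sg (fderiv ℝ sg x) x :=
      ((sm_sg.differentiable (by norm_cast)) x).hasFDerivAt
    have a2 := (hΨ _ hp).comp_hasFDerivAt x (a1.add_const ε)
    have a3 : HasFDerivAt (fun x => Ψ (sg x + ε)) _ x := a2
    unfold pd
    rw [a3.fderiv]
    simp only [_root_.smul_apply, smul_eq_mul]
  have := D_sg x
  unfold D at this ⊢
  rw [hpd, hpd]
  linear_combination (Ψ' (sg x + ε)) * this

/-- the regularised form bound -/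
lemma form_reg (hs : 1 < s) {δ C : ℝ} (hδ : 0 < δ)
    (hC : ∀ τ : ℝ, 0 < τ → Ph s τ ^ 2 / τ ≤ δ * Pd s τ + C) {w : V → ℝ} (hw : M2g w) {ε : ℝ}
    (hε : 0 < ε) :
    Integrable (fun x => sg x / (sg x + ε) * Pd s (sg x + ε) * w x ^ 2) ∧
    ∫ x, sg x / (sg x + ε) * Pd s (sg x + ε) * w x ^ 2
      ≤ δ * (∫ x, gq w x) + |C| / δ * ∫ x, w x ^ 2 := by
  have hs0 : 0 ≤ s := by linarith
  have hp : ∀ x, 0 < sg x + ε := fun x => add_pos_of_nonneg_of_pos (sg_nonneg x) hε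
  obtain ⟨Ψ, hΨ⟩ : ∃ Ψ : ℝ → ℝ, Ψ = fun τ => Ph s τ * τ⁻¹ := ⟨_, rfl⟩
  have hΨc : ∀ τ, 0 < τ → ContDiffAt ℝ ∞ Ψ τ := fun τ hτ => by
    rw [hΨ]
    exact (Ph_cd hτ).mul (contDiffAt_inv ℝ hτ.ne')
  have hΨd : ∀ τ, 0 < τ → HasDerivAt Ψ (Pd s τ * τ⁻¹ + Ph s τ * -(τ ^ 2)⁻¹) τ := fun τ hτ => by
    rw [hΨ]
    exact (Ph_hd hτ).mul (hasDerivAt_inv hτ.ne')
  have hsm := sm_cmp_sg hΨc hε
  have hDp : D (fun x : V => Ψ (sg x + ε)) = fun x => 2 * sg x * (Pd s (sg x + ε) * (sg x + ε)⁻¹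
      + Ph s (sg x + ε) * -((sg x + ε) ^ 2)⁻¹) := funext fun x => D_cmp_sg hΨd hε x
  have hq : ∀ x, sg x / (sg x + ε) ≤ 1 := fun x => by
    rw [div_le_one (hp x)]
    linarith
  have hq0 : ∀ x, 0 ≤ sg x / (sg x + ε) := fun x => div_nonneg (sg_nonneg x) (hp x).le
  have hPdε : ∀ x, Pd s (sg x + ε) ≤ s / (ε * (ε + 1)) := fun x => by
    refine (Pd_le hs0 (hp x)).trans ?_
    have := sg_nonneg x
    gcongr <;> linarith
  have hPn : ∀ x, 0 ≤ Pd s (sg x + ε) := fun x => Pd_nn hs0 (hp x)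
  have hcPd : Continuous fun x : V => Pd s (sg x + ε) := by
    have h1 : Continuous fun x : V => lg (sg x + ε) :=
      (sm_cmp_sg (fun τ hτ => lg_cd hτ) hε).continuous
    have h2 : Continuous fun x : V => lg (sg x + ε) ^ (-s - 1) :=
      h1.rpow_const fun x => Or.inl (zero_lt_one.trans_le (lg_ge (hp x))).ne'
    have h3 : Continuous fun x : V => sg x + ε := sm_sg.continuous.add continuous_const
    unfold Pd
    refine (continuous_const.mul h2).div (h3.mul (h3.add continuous_const)) fun x => ?_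
    have := hp x
    positivity
  have hcq : Continuous fun x : V => sg x / (sg x + ε) :=
    sm_sg.continuous.div (sm_sg.continuous.add continuous_const) fun x => (hp x).ne'
  have iA : Integrable (fun x => sg x / (sg x + ε) * Pd s (sg x + ε) * w x ^ 2) := by
    refine hw.m.sq.bdd_mul (c := s / (ε * (ε + 1))) (hcq.mul hcPd).aestronglyMeasurable
      (Eventually.of_forall fun x => ?_)
    rw [Real.norm_eq_abs, abs_of_nonneg (mul_nonneg (hq0 x) (hPn x))]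
    calc sg x / (sg x + ε) * Pd s (sg x + ε) ≤ 1 * (s / (ε * (ε + 1))) :=
          mul_le_mul (hq x) (hPdε x) (hPn x) zero_le_one
      _ = _ := one_mul _
  refine ⟨iA, ?_⟩
  -- the function
  have hΨb : ∀ x, |Ψ (sg x + ε)| ≤ ε⁻¹ := fun x => by
    rw [hΨ]
    show |Ph s (sg x + ε) * (sg x + ε)⁻¹| ≤ ε⁻¹
    rw [abs_of_nonneg (mul_nonneg (Ph_nn (hp x)) (inv_pos.2 (hp x)).le)]
    calc Ph s (sg x + ε) * (sg x + ε)⁻¹ ≤ 1 * ε⁻¹ := by
          apply mul_le_mul (Ph_le hs0 (hp x)) _ (inv_pos.2 (hp x)).le zero_le_one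
          exact inv_anti₀ hε (by linarith [sg_nonneg x])
      _ = _ := one_mul _
  have iF : Integrable fun x => Ψ (sg x + ε) * (w x * w x) :=
    (hw.m.mul hw.m).bdd_mul (c := ε⁻¹) hsm.continuous.aestronglyMeasurable
      (Eventually.of_forall hΨb)
  have eD : D (fun x => Ψ (sg x + ε) * (w x * w x)) = fun x =>
      2 * (Ψ (sg x + ε) * D w x * w x) + D (fun x : V => Ψ (sg x + ε)) x * (w x * w x) := by
    funext x
    rw [D_mul hsm (hw.sm.mul hw.sm), D_mul hw.sm hw.sm]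
    ring
  have hDw : ∀ x, D w x ^ 2 ≤ sg x * gq w x := by
    intro x
    unfold D gq sg
    rw [Fin.sum_univ_three]
    have h1 : 0 ≤ (x 0 * pd 1 w x - x 1 * pd 0 w x) ^ 2 := sq_nonneg _
    have h2 : 0 ≤ (x 0 ^ 2 + x 1 ^ 2) * pd 2 w x ^ 2 := by positivity
    nlinarith
  have mP : M2 fun x => Ψ (sg x + ε) * D w x := by
    refine ⟨hsm.continuous.mul (sm_D hw.sm).continuous,
      (hw.int.const_mul ε⁻¹).mono' ((hsm.continuous.mul (sm_D hw.sm).continuous).pow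
      2).aestronglyMeasurable (Eventually.of_forall fun x => ?_)⟩
    rw [Real.norm_eq_abs, abs_of_nonneg (sq_nonneg _), hΨ]
    show (Ph s (sg x + ε) * (sg x + ε)⁻¹ * D w x) ^ 2 ≤ ε⁻¹ * gq w x
    have h1 : Ph s (sg x + ε) ^ 2 ≤ 1 := pow_le_one₀ (Ph_nn (hp x)) (Ph_le hs0 (hp x))
    have h2 : ((sg x + ε)⁻¹) ^ 2 * sg x ≤ ε⁻¹ := by
      calc ((sg x + ε)⁻¹) ^ 2 * sg x = (sg x / (sg x + ε)) * (sg x + ε)⁻¹ := by ring
        _ ≤ 1 * ε⁻¹ := mul_le_mul (hq x) (inv_anti₀ hε (by linarith [sg_nonneg x]))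
            (inv_pos.2 (hp x)).le zero_le_one
        _ = _ := one_mul _
    calc (Ph s (sg x + ε) * (sg x + ε)⁻¹ * D w x) ^ 2
        = Ph s (sg x + ε) ^ 2 * (((sg x + ε)⁻¹) ^ 2 * D w x ^ 2) := by ring
      _ ≤ 1 * (((sg x + ε)⁻¹) ^ 2 * D w x ^ 2) := by
          apply mul_le_mul_of_nonneg_right h1 (by positivity)
      _ ≤ 1 * (((sg x + ε)⁻¹) ^ 2 * (sg x * gq w x)) := by
          have := hDw x
          gcongr
      _ = (((sg x + ε)⁻¹) ^ 2 * sg x) * gq w x := by ring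
      _ ≤ _ := mul_le_mul_of_nonneg_right h2 (gq_nonneg w x)
  have iB : Integrable fun x => Ψ (sg x + ε) * D w x * w x := mP.mul hw.m
  have hDpb : ∀ x, |D (fun x : V => Ψ (sg x + ε)) x| ≤ 2 * (s / (ε * (ε + 1))) + 2 * ε⁻¹ := by
    intro x
    rw [hDp]
    have e : 2 * sg x * (Pd s (sg x + ε) * (sg x + ε)⁻¹ + Ph s (sg x + ε) * -((sg x + ε) ^ 2)⁻¹)
        = 2 * (sg x / (sg x + ε) * Pd s (sg x + ε))
          - 2 * (sg x / (sg x + ε) * Ph s (sg x + ε) * (sg x + ε)⁻¹) := by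
      have := (hp x).ne'
      field_simp
      ring
    show |2 * sg x * (Pd s (sg x + ε) * (sg x + ε)⁻¹ + Ph s (sg x + ε) * -((sg x + ε) ^ 2)⁻¹)| ≤ _
    rw [e]
    have a1 : 0 ≤ sg x / (sg x + ε) * Pd s (sg x + ε) := mul_nonneg (hq0 x) (hPn x)
    have a2 : sg x / (sg x + ε) * Pd s (sg x + ε) ≤ s / (ε * (ε + 1)) := by
      calc sg x / (sg x + ε) * Pd s (sg x + ε) ≤ 1 * (s / (ε * (ε + 1))) :=
            mul_le_mul (hq x) (hPdε x) (hPn x) zero_le_one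
        _ = _ := one_mul _
    have a3 : 0 ≤ sg x / (sg x + ε) * Ph s (sg x + ε) * (sg x + ε)⁻¹ :=
      mul_nonneg (mul_nonneg (hq0 x) (Ph_nn (hp x))) (inv_pos.2 (hp x)).le
    have a4 : sg x / (sg x + ε) * Ph s (sg x + ε) * (sg x + ε)⁻¹ ≤ ε⁻¹ := by
      calc sg x / (sg x + ε) * Ph s (sg x + ε) * (sg x + ε)⁻¹ ≤ 1 * 1 * ε⁻¹ := by
            apply mul_le_mul (mul_le_mul (hq x) (Ph_le hs0 (hp x)) (Ph_nn (hp x)) zero_le_one)
              (inv_anti₀ hε (by linarith [sg_nonneg x])) (inv_pos.2 (hp x)).le (by norm_num)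
        _ = _ := by ring
    have a5 : 0 ≤ s / (ε * (ε + 1)) := by positivity
    rw [abs_le]
    constructor <;> linarith
  have iC : Integrable fun x => D (fun x : V => Ψ (sg x + ε)) x * (w x * w x) :=
    (hw.m.mul hw.m).bdd_mul (sm_D hsm).continuous.aestronglyMeasurable
      (Eventually.of_forall hDpb)
  have iB2 : Integrable fun x => 2 * (Ψ (sg x + ε) * D w x * w x) := iB.const_mul 2
  have h := int_D (hsm.mul (hw.sm.mul hw.sm)) iF (by rw [eD]; exact iB2.add iC)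
  rw [eD, integral_add iB2 iC, integral_const_mul] at h
  -- the sum of the two terms
  have hsum : (∫ x, (D (fun x : V => Ψ (sg x + ε)) x * (w x * w x)
      + 2 * (Ψ (sg x + ε) * (w x * w x)))) = -(2 * ∫ x, Ψ (sg x + ε) * D w x * w x) := by
    rw [integral_add iC (iF.const_mul 2), integral_const_mul]
    linarith
  have hge : 2 * (∫ x, sg x / (sg x + ε) * Pd s (sg x + ε) * w x ^ 2)
      ≤ ∫ x, (D (fun x : V => Ψ (sg x + ε)) x * (w x * w x) + 2 * (Ψ (sg x + ε) * (w x * w x))) := by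
    rw [← integral_const_mul]
    refine integral_mono (iA.const_mul 2) (iC.add (iF.const_mul 2)) fun x => ?_
    show 2 * (sg x / (sg x + ε) * Pd s (sg x + ε) * w x ^ 2)
      ≤ D (fun x : V => Ψ (sg x + ε)) x * (w x * w x) + 2 * (Ψ (sg x + ε) * (w x * w x))
    rw [hDp, hΨ]
    show 2 * (sg x / (sg x + ε) * Pd s (sg x + ε) * w x ^ 2)
      ≤ 2 * sg x * (Pd s (sg x + ε) * (sg x + ε)⁻¹ + Ph s (sg x + ε) * -((sg x + ε) ^ 2)⁻¹)
        * (w x * w x) + 2 * (Ph s (sg x + ε) * (sg x + ε)⁻¹ * (w x * w x))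
    have e : 2 * sg x * (Pd s (sg x + ε) * (sg x + ε)⁻¹ + Ph s (sg x + ε) * -((sg x + ε) ^ 2)⁻¹)
        * (w x * w x) + 2 * (Ph s (sg x + ε) * (sg x + ε)⁻¹ * (w x * w x))
        = 2 * (sg x / (sg x + ε) * Pd s (sg x + ε) * w x ^ 2)
          + 2 * ε * Ph s (sg x + ε) * ((sg x + ε)⁻¹) ^ 2 * w x ^ 2 := by
      have := (hp x).ne'
      field_simp
      ring
    rw [e]
    have := Ph_nn (s := s) (hp x)
    have : 0 ≤ 2 * ε * Ph s (sg x + ε) * ((sg x + ε)⁻¹) ^ 2 * w x ^ 2 := by positivity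
    linarith
  have hup : -(2 * ∫ x, Ψ (sg x + ε) * D w x * w x) ≤ δ * (∫ x, gq w x)
      + (∫ x, sg x / (sg x + ε) * Pd s (sg x + ε) * w x ^ 2) + |C| / δ * ∫ x, w x ^ 2 := by
    have e1 : -(2 * ∫ x, Ψ (sg x + ε) * D w x * w x)
        = ∫ x, -(2 * (Ψ (sg x + ε) * D w x * w x)) := by
      rw [integral_neg, integral_const_mul]
    have i1 : Integrable fun x => δ * gq w x := hw.int.const_mul δ
    have i2 : Integrable fun x => |C| / δ * w x ^ 2 := hw.m.sq.const_mul _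
    have e2 : δ * (∫ x, gq w x)
      + (∫ x, sg x / (sg x + ε) * Pd s (sg x + ε) * w x ^ 2) + |C| / δ * ∫ x, w x ^ 2
      = ∫ x, (δ * gq w x + sg x / (sg x + ε) * Pd s (sg x + ε) * w x ^ 2 + |C| / δ * w x ^ 2) := by
      have i3 : Integrable fun x => δ * gq w x + sg x / (sg x + ε) * Pd s (sg x + ε) * w x ^ 2 :=
        i1.add iA
      rw [integral_add i3 i2, integral_add i1 iA, integral_const_mul, integral_const_mul]
    rw [e1, e2]
    refine integral_mono iB2.neg ((i1.add iA).add i2) fun x => ?_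
    show -(2 * (Ψ (sg x + ε) * D w x * w x))
      ≤ δ * gq w x + sg x / (sg x + ε) * Pd s (sg x + ε) * w x ^ 2 + |C| / δ * w x ^ 2
    -- Young
    have y1 : -(2 * (Ψ (sg x + ε) * D w x * w x)) ≤ δ * gq w x
        + δ⁻¹ * (sg x * Ψ (sg x + ε) ^ 2 * w x ^ 2) := by
      rcases eq_or_lt_of_le (sg_nonneg x) with h0 | h0
      · have hD0 : D w x = 0 := by
          have := hDw x
          rw [← h0, zero_mul] at this
          exact pow_eq_zero_iff two_ne_zero |>.1 (le_antisymm this (sq_nonneg _))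
        rw [hD0, ← h0]
        have := gq_nonneg w x
        simp
        positivity
      · have h2 : D w x ^ 2 / sg x ≤ gq w x := by
          rw [div_le_iff₀ h0, mul_comm]
          exact hDw x
        have h3 : 0 ≤ δ⁻¹ * sg x * (Ψ (sg x + ε) * w x + δ * D w x / sg x) ^ 2 := by positivity
        have h4 : δ⁻¹ * sg x * (Ψ (sg x + ε) * w x + δ * D w x / sg x) ^ 2
            = δ⁻¹ * (sg x * Ψ (sg x + ε) ^ 2 * w x ^ 2) + 2 * (Ψ (sg x + ε) * D w x * w x)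
              + δ * (D w x ^ 2 / sg x) := by
          have := h0.ne'
          field_simp
          ring
        rw [h4] at h3
        have h5 : δ * (D w x ^ 2 / sg x) ≤ δ * gq w x := mul_le_mul_of_nonneg_left h2 hδ.le
        linarith
    have y2 : δ⁻¹ * (sg x * Ψ (sg x + ε) ^ 2 * w x ^ 2)
        ≤ sg x / (sg x + ε) * Pd s (sg x + ε) * w x ^ 2 + |C| / δ * w x ^ 2 := by
      have h6 : sg x * Ψ (sg x + ε) ^ 2 = sg x / (sg x + ε) * (Ph s (sg x + ε) ^ 2 / (sg x + ε)) := by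
        rw [hΨ]
        show sg x * (Ph s (sg x + ε) * (sg x + ε)⁻¹) ^ 2 = _
        have := (hp x).ne'
        field_simp
      have h7 := hC _ (hp x)
      have h8 : sg x * Ψ (sg x + ε) ^ 2 ≤ δ * (sg x / (sg x + ε) * Pd s (sg x + ε)) + |C| := by
        rw [h6]
        calc sg x / (sg x + ε) * (Ph s (sg x + ε) ^ 2 / (sg x + ε))
            ≤ sg x / (sg x + ε) * (δ * Pd s (sg x + ε) + C) :=
              mul_le_mul_of_nonneg_left h7 (hq0 x)
          _ = δ * (sg x / (sg x + ε) * Pd s (sg x + ε)) + sg x / (sg x + ε) * C := by ring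
          _ ≤ _ := by
              have h9 : sg x / (sg x + ε) * C ≤ 1 * |C| :=
                (mul_le_mul_of_nonneg_left (le_abs_self C) (hq0 x)).trans
                  (mul_le_mul_of_nonneg_right (hq x) (abs_nonneg C))
              linarith
      have h10 : 0 ≤ w x ^ 2 := sq_nonneg _
      have hδi : 0 < δ⁻¹ := inv_pos.2 hδ
      calc δ⁻¹ * (sg x * Ψ (sg x + ε) ^ 2 * w x ^ 2)
          ≤ δ⁻¹ * ((δ * (sg x / (sg x + ε) * Pd s (sg x + ε)) + |C|) * w x ^ 2) := by gcongr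
        _ = _ := by field_simp
    linarith
  linarith

end Pool.Agent.X96.AR
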