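import Pool.Agent.X96.AR.Fs

/-!
Form bounds (helper96): the limit, and logarithmic smallness of the circulation.
-/

set_option autoImplicit false

open MeasureTheory Set Metric Filter Topology
open scoped ContDiff ENNReal

namespace Pool.Agent.X96.AR

open H459R3.NS W221.NS Pool.Agent.TH305.DR Pool.Agent.TH305.AX
open Pool.Agent.W583.MD (sm_pd cs_pd pd_mul' Z Z.add Z.sub Z.smul Z.sum int_cs Z_pd)

variable {s : ℝ}

lemma Pd_ct {τ : ℝ} (h : 0 < τ) : ContinuousAt (Pd s) τ := by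
  have h0 : 0 < lg τ := zero_lt_one.trans_le (lg_ge h)
  have h1 : ContinuousAt (fun τ => lg τ ^ (-s - 1)) τ :=
    (lg_cd h).continuousAt.rpow_const (Or.inl h0.ne')
  have h2 : τ * (τ + 1) ≠ 0 := by positivity
  exact (continuousAt_const.mul h1).div (continuousAt_id.mul (continuousAt_id.add
    continuousAt_const)) h2

/-- the form bound -/
theorem form (hs : 1 < s) {δ : ℝ} (hδ : 0 < δ) : ∃ C : ℝ, 0 ≤ C ∧ ∀ w : V → ℝ, M2g w →
    Integrable (fun x => Pd s (sg x) * w x ^ 2) ∧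
    ∫ x, Pd s (sg x) * w x ^ 2 ≤ δ * (∫ x, gq w x) + C * ∫ x, w x ^ 2 := by
  obtain ⟨C, hC0, hC⟩ := Ph_small hs hδ
  refine ⟨|C| / δ, by positivity, fun w hw => ?_⟩
  have hs0 : 0 ≤ s := by linarith
  have hε : ∀ n : ℕ, 0 < 1 / ((n : ℝ) + 1) := fun n => by positivity
  set B : ℝ := δ * (∫ x, gq w x) + |C| / δ * ∫ x, w x ^ 2 with hB
  have hB0 : 0 ≤ B := by
    have h1 : 0 ≤ ∫ x, gq w x := integral_nonneg (gq_nonneg w)
    have h2 : 0 ≤ ∫ x, w x ^ 2 := integral_nonneg fun x => sq_nonneg _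
    positivity
  have hp : ∀ (n : ℕ) (x : V), 0 < sg x + 1 / ((n : ℝ) + 1) := fun n x =>
    add_pos_of_nonneg_of_pos (sg_nonneg x) (hε n)
  have hn : ∀ n : ℕ, ∫⁻ x, ENNReal.ofReal (sg x / (sg x + 1 / ((n : ℝ) + 1))
      * Pd s (sg x + 1 / ((n : ℝ) + 1)) * w x ^ 2) ≤ ENNReal.ofReal B := by
    intro n
    obtain ⟨a1, a2⟩ := form_reg hs hδ hC hw (hε n)
    rw [← ofReal_integral_eq_lintegral_ofReal a1 (Eventually.of_forall fun x => mul_nonneg
      (mul_nonneg (div_nonneg (sg_nonneg x) (hp n x).le) (Pd_nn hs0 (hp n x))) (sq_nonneg _))]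
    exact ENNReal.ofReal_le_ofReal a2
  have hnn : 0 ≤ᵐ[volume] fun x : V => Pd s (sg x) * w x ^ 2 := by
    filter_upwards [axis_null] with x hx
    exact mul_nonneg (Pd_nn hs0 (lt_of_le_of_ne (sg_nonneg x) hx.symm)) (sq_nonneg _)
  have hmeas : AEStronglyMeasurable (fun x => Pd s (sg x) * w x ^ 2) volume := by
    have h1 : Measurable (fun x : V => Pd s (sg x)) := by
      have hsg : Measurable (sg : V → ℝ) := sm_sg.continuous.measurable
      unfold Pd lg
      fun_prop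
    exact (h1.mul (hw.sm.continuous.pow 2).measurable).aestronglyMeasurable
  have hlim : ∀ᵐ x : V, ENNReal.ofReal (Pd s (sg x) * w x ^ 2)
      = liminf (fun n : ℕ => ENNReal.ofReal (sg x / (sg x + 1 / ((n : ℝ) + 1))
      * Pd s (sg x + 1 / ((n : ℝ) + 1)) * w x ^ 2)) atTop := by
    filter_upwards [axis_null] with x hx
    have hx0 : 0 < sg x := lt_of_le_of_ne (sg_nonneg x) hx.symm
    symm
    apply Tendsto.liminf_eq
    apply (ENNReal.continuous_ofReal.tendsto _).comp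
    have h5 : Tendsto (fun n : ℕ => 1 / ((n : ℝ) + 1)) atTop (𝓝 0) :=
      tendsto_one_div_add_atTop_nhds_zero_nat
    have h6 := (h5.const_add (sg x))
    rw [add_zero] at h6
    have h7 := (tendsto_const_nhds (x := sg x)).div h6 hx
    rw [div_self hx] at h7
    have h8 := (Pd_ct (s := s) hx0).tendsto.comp h6
    have h9 := (h7.mul h8).mul_const (w x ^ 2)
    rw [one_mul] at h9
    exact h9
  have hF : ∫⁻ x, ENNReal.ofReal (Pd s (sg x) * w x ^ 2) ≤ ENNReal.ofReal B := by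
    rw [lintegral_congr_ae hlim]
    refine (lintegral_liminf_le' fun n => ?_).trans ?_
    · exact (form_reg hs hδ hC hw (hε n)).1.aestronglyMeasurable.aemeasurable.ennreal_ofReal
    · refine liminf_le_of_frequently_le' (Eventually.frequently (Eventually.of_forall hn))
  have hi : Integrable fun x => Pd s (sg x) * w x ^ 2 := by
    refine ⟨hmeas, ?_⟩
    rw [hasFiniteIntegral_iff_ofReal hnn]
    exact hF.trans_lt ENNReal.ofReal_lt_top
  refine ⟨hi, ?_⟩
  rw [← ofReal_integral_eq_lintegral_ofReal hi hnn] at hF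
  exact (ENNReal.ofReal_le_ofReal_iff hB0).1 hF

/-- `g` is infinitesimally form bounded -/
def FSm (I : Set ℝ) (g : ℝ → V → ℝ) : Prop := ∀ δ : ℝ, 0 < δ → ∃ C : ℝ, 0 ≤ C ∧ ∀ t ∈ I,
  ∀ w : V → ℝ, M2g w → Integrable (fun x => |g t x| * w x ^ 2) ∧
    ∫ x, |g t x| * w x ^ 2 ≤ δ * (∫ x, gq w x) + C * ∫ x, w x ^ 2

lemma FSm_of {I : Set ℝ} {g : ℝ → V → ℝ} (hc : ∀ t ∈ I, Continuous (g t)) {A B : ℝ}
    (hs : 1 < s) (hA : 0 ≤ A) (hB : 0 ≤ B)
    (h : ∀ t ∈ I, ∀ x, sg x ≠ 0 → |g t x| ≤ A * Pd s (sg x) + B) : FSm I g := by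
  intro δ hδ
  obtain ⟨C, hC, H⟩ := form hs (show 0 < δ / (A + 1) by positivity)
  refine ⟨A * C + B, by positivity, fun t ht w hw => ?_⟩
  obtain ⟨h1, h2⟩ := H w hw
  have hi : Integrable fun x => A * (Pd s (sg x) * w x ^ 2) + B * w x ^ 2 :=
    (h1.const_mul A).add (hw.m.sq.const_mul B)
  have hle : ∀ᵐ x : V, |g t x| * w x ^ 2 ≤ A * (Pd s (sg x) * w x ^ 2) + B * w x ^ 2 := by
    filter_upwards [axis_null] with x hx
    have := mul_le_mul_of_nonneg_right (h t ht x hx) (sq_nonneg (w x))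
    linarith
  have hI : Integrable fun x => |g t x| * w x ^ 2 := by
    refine hi.mono' ((hc t ht).abs.mul (hw.sm.continuous.pow 2)).aestronglyMeasurable ?_
    filter_upwards [hle] with x hx
    rw [Real.norm_eq_abs, abs_of_nonneg (by positivity)]
    exact hx
  refine ⟨hI, (integral_mono_ae hI hi hle).trans ?_⟩
  rw [integral_add (h1.const_mul A) (hw.m.sq.const_mul B), integral_const_mul, integral_const_mul]
  have h3 : 0 ≤ ∫ x, gq w x := integral_nonneg (gq_nonneg w)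
  have h4 : 0 ≤ ∫ x, w x ^ 2 := integral_nonneg fun x => sq_nonneg _
  have h5 : A * (δ / (A + 1)) ≤ δ := by
    rw [mul_div_assoc', div_le_iff₀ (by positivity)]
    nlinarith
  calc A * (∫ x, Pd s (sg x) * w x ^ 2) + B * ∫ x, w x ^ 2
      ≤ A * (δ / (A + 1) * (∫ x, gq w x) + C * ∫ x, w x ^ 2) + B * ∫ x, w x ^ 2 := by gcongr
    _ = (A * (δ / (A + 1))) * (∫ x, gq w x) + (A * C + B) * ∫ x, w x ^ 2 := by ring
    _ ≤ δ * (∫ x, gq w x) + (A * C + B) * ∫ x, w x ^ 2 := by gcongr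

/-- logarithmic smallness -/
lemma log_pd {α L R N M : ℝ} (hα : 2 < α) (hR : 0 < R) (hRL : R < L) (hN : 0 ≤ N) (hM : 0 ≤ M) :
    ∃ A B : ℝ, 0 ≤ A ∧ 0 ≤ B ∧ ∀ (x : V) (G : ℝ), sg x ≠ 0 → |G| ≤ M →
      (√(sg x) ≤ R → |G| ≤ N * Real.log (L / √(sg x)) ^ (-α)) →
      |G| / sg x ≤ A * Pd (α - 1) (sg x) + B := by
  have hL : 0 < L := hR.trans hRL
  obtain ⟨q, hq⟩ : ∃ q : ℝ, q = Real.log (L / R) := ⟨_, rfl⟩
  have hq0 : 0 < q := by
    rw [hq]
    exact Real.log_pos ((one_lt_div hR).2 hRL)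
  obtain ⟨c, hc⟩ : ∃ c : ℝ, c = (1 + |Real.log ((R ^ 2 + 1) / L ^ 2)|) / q + 2 := ⟨_, rfl⟩
  have hc0 : 0 < c := by rw [hc]; positivity
  refine ⟨N * c ^ α * (R ^ 2 + 1) / (α - 1), M / R ^ 2, ?_, by positivity, fun x G hx hGM hG => ?_⟩
  · have : 0 < α - 1 := by linarith
    have := Real.rpow_nonneg hc0.le α
    positivity
  have hσ : 0 < sg x := lt_of_le_of_ne (sg_nonneg x) hx.symm
  have hα1 : 0 < α - 1 := by linarith
  have hcα := Real.rpow_nonneg hc0.le α
  have hPd := Pd_nn (s := α - 1) hα1.le hσ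
  rcases le_total (√(sg x)) R with h | h
  · have hρ : 0 < √(sg x) := Real.sqrt_pos.2 hσ
    have hσ2 : √(sg x) ^ 2 = sg x := Real.sq_sqrt hσ.le
    have hσR : sg x ≤ R ^ 2 := by
      rw [← hσ2]
      exact pow_le_pow_left₀ hρ.le h 2
    obtain ⟨l, hl⟩ : ∃ l : ℝ, l = Real.log (L / √(sg x)) := ⟨_, rfl⟩
    have hlq : q ≤ l := by
      rw [hq, hl]
      apply Real.log_le_log (by positivity)
      exact div_le_div_of_nonneg_left hL.le hρ h
    have hl0 : 0 < l := hq0.trans_le hlq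
    have hl1 := lg_ge hσ
    have hlg : lg (sg x) ≤ c * l := by
      unfold lg
      have e1 : 1 + (sg x)⁻¹ ≤ ((R ^ 2 + 1) / L ^ 2) * (L / √(sg x)) ^ 2 := by
        rw [div_pow, hσ2]
        have e2 : (R ^ 2 + 1) / L ^ 2 * (L ^ 2 / sg x) = (R ^ 2 + 1) / sg x := by field_simp
        rw [e2, le_div_iff₀ hσ]
        have e3 : (1 + (sg x)⁻¹) * sg x = sg x + 1 := by field_simp
        rw [e3]
        linarith
      have e4 := Real.log_le_log (by positivity) e1
      rw [Real.log_mul (by positivity) (by positivity), Real.log_pow, ← hl] at e4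
      have e5 := le_abs_self (Real.log ((R ^ 2 + 1) / L ^ 2))
      have e6 : 1 + |Real.log ((R ^ 2 + 1) / L ^ 2)|
          ≤ (1 + |Real.log ((R ^ 2 + 1) / L ^ 2)|) / q * l := by
        rw [div_mul_eq_mul_div, le_div_iff₀ hq0]
        exact mul_le_mul_of_nonneg_left hlq (by positivity)
      push_cast at e4
      rw [hc, add_mul]
      linarith
    have h1 : l ^ (-α) ≤ c ^ α * lg (sg x) ^ (-α) := by
      have e1 : (c * l) ^ (-α) ≤ lg (sg x) ^ (-α) :=
        Real.rpow_le_rpow_of_nonpos (by linarith) hlg (by linarith)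
      rw [Real.mul_rpow hc0.le hl0.le] at e1
      calc l ^ (-α) = c ^ α * (c ^ (-α) * l ^ (-α)) := by
            rw [← mul_assoc, ← Real.rpow_add hc0]
            simp
        _ ≤ _ := mul_le_mul_of_nonneg_left e1 hcα
    have h2 := hG h
    rw [← hl] at h2
    have e7 : -(α - 1) - 1 = -α := by ring
    have h3 : N * c ^ α * (R ^ 2 + 1) / (α - 1) * Pd (α - 1) (sg x)
        = N * c ^ α * (R ^ 2 + 1) * lg (sg x) ^ (-α) / (sg x * (sg x + 1)) := by
      unfold Pd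
      rw [e7]
      field_simp
    have h4 : 0 ≤ lg (sg x) ^ (-α) := Real.rpow_nonneg (by linarith) _
    have h5 : |G| / sg x ≤ N * c ^ α * (R ^ 2 + 1) * lg (sg x) ^ (-α) / (sg x * (sg x + 1)) := by
      rw [div_le_div_iff₀ hσ (by positivity)]
      calc |G| * (sg x * (sg x + 1)) ≤ (N * (c ^ α * lg (sg x) ^ (-α))) * (sg x * (R ^ 2 + 1)) := by
            apply mul_le_mul (h2.trans (mul_le_mul_of_nonneg_left h1 hN)) _ (by positivity)
              (by positivity)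
            apply mul_le_mul_of_nonneg_left _ hσ.le
            linarith
        _ = _ := by ring
    rw [h3]
    have : 0 ≤ M / R ^ 2 := by positivity
    linarith
  · have h1 : R ^ 2 ≤ sg x := by
      rw [← Real.sq_sqrt hσ.le]
      exact pow_le_pow_left₀ hR.le h 2
    have h2 : |G| / sg x ≤ M / R ^ 2 := by gcongr
    have h3 : 0 ≤ N * c ^ α * (R ^ 2 + 1) / (α - 1) * Pd (α - 1) (sg x) := by positivity
    linarith

end Pool.Agent.X96.AR
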