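import Pool.Agent.X96.AR.Eqs

/-!
Integrals over the whole space (helper96): divergence theorem for integrable fields.
-/

set_option autoImplicit false

open MeasureTheory Set Metric Filter Topology
open scoped ContDiff

namespace Pool.Agent.X96.AR

open H459R3.NS W221.NS Pool.Agent.TH305.DR Pool.Agent.TH305.AX
open Pool.Agent.W583.MD (sm_pd cs_pd pd_mul' Z Z.add Z.sub Z.smul Z.sum int_cs Z_pd hd_int hcs)

/-- cutoff functions -/
structure Cuts (m : ℝ) (χ : ℕ → V → ℝ) : Prop where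
  sm : ∀ n, ContDiff ℝ ∞ (χ n)
  cs : ∀ n, HasCompactSupport (χ n)
  nn : ∀ n x, 0 ≤ χ n x
  le : ∀ n x, χ n x ≤ 1
  one : ∀ (n : ℕ) (x : V), ‖x‖ < n + 1 → χ n x = 1
  zero : ∀ (n : ℕ) (x : V) (j : Fin 3), ‖x‖ < n + 1 → pd j (χ n) x = 0
  gr : ∀ (n : ℕ) (x : V) (j : Fin 3), |pd j (χ n) x| * (1 + ‖x‖) ≤ m

lemma exists_cuts : ∃ (m : ℝ) (χ : ℕ → V → ℝ), 0 ≤ m ∧ Cuts m χ := by
  obtain ⟨M, φ, hM, hφ⟩ := exists_cut (ρ' := 1) (ρ := 2) one_pos one_lt_two
  have hpd : ∀ (n : ℕ) (x : V) (j : Fin 3), pd j (fun y => φ (((n : ℝ) + 1)⁻¹ • y)) x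
      = ((n : ℝ) + 1)⁻¹ * pd j φ (((n : ℝ) + 1)⁻¹ • x) := by
    intro n x j
    have h1 : HasFDerivAt (fun y : V => ((n : ℝ) + 1)⁻¹ • y)
        (((n : ℝ) + 1)⁻¹ • ContinuousLinearMap.id ℝ V) x :=
      (((n : ℝ) + 1)⁻¹ • ContinuousLinearMap.id ℝ V).hasFDerivAt
    have h2 : HasFDerivAt (fun y => φ (((n : ℝ) + 1)⁻¹ • y)) _ x :=
      ((hφ.sm.differentiable (by norm_cast)) _).hasFDerivAt.comp x h1
    unfold pd
    rw [h2.fderiv]
    simp
  have hR : ∀ n : ℕ, 0 < (n : ℝ) + 1 := fun n => by positivity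
  have hin : ∀ (n : ℕ) (x : V), ‖x‖ < n + 1 → ((n : ℝ) + 1)⁻¹ • x ∈ ball (0 : V) 1 := by
    intro n x hx
    rw [mem_ball_zero_iff, norm_smul, Real.norm_eq_abs, abs_of_pos (inv_pos.2 (hR n)),
      inv_mul_lt_iff₀ (hR n)]
    linarith
  have hle : ∀ (x : V) (j : Fin 3), |pd j φ x| ≤ √M := by
    intro x j
    apply Real.abs_le_sqrt
    have h1 := hφ.grad x
    rw [SS_one] at h1
    exact (Finset.single_le_sum (f := fun i => pd i φ x ^ 2) (fun i _ => sq_nonneg _)
      (Finset.mem_univ j)).trans h1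
  have hz0 : ∀ (x : V) (j : Fin 3), x ∉ ball (0 : V) 2 → pd j φ x = 0 := by
    intro x j hx
    have h1 := hφ.gout x hx
    rw [SS_one] at h1
    have h2 := (Finset.sum_eq_zero_iff_of_nonneg (fun i _ => sq_nonneg (pd i φ x))).1 h1 j
      (Finset.mem_univ j)
    exact pow_eq_zero_iff (two_ne_zero) |>.1 h2
  refine ⟨3 * √M, fun n y => φ (((n : ℝ) + 1)⁻¹ • y), by positivity, ?_⟩
  refine ⟨fun n => ?_, fun n => ?_, fun n x => hφ.nn _, fun n x => hφ.le _, fun n x hx =>
    hφ.one _ (hin n x hx), fun n x j hx => ?_, fun n x j => ?_⟩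
  · exact hφ.sm.comp (by fun_prop)
  · have : HasCompactSupport fun y : V => φ (((n : ℝ) + 1)⁻¹ • y) :=
      hφ.cs.comp_smul (inv_ne_zero (hR n).ne')
    exact this
  · rw [hpd]
    have h1 : pd j φ (((n : ℝ) + 1)⁻¹ • x) = 0 := by
      have h2 : φ =ᶠ[𝓝 (((n : ℝ) + 1)⁻¹ • x)] fun _ => 1 := by
        filter_upwards [isOpen_ball.mem_nhds (hin n x hx)] with y hy
        exact hφ.one y hy
      unfold pd
      rw [h2.fderiv_eq]
      simp
    rw [h1, mul_zero]
  · rw [hpd]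
    by_cases hx : ‖x‖ < 2 * ((n : ℝ) + 1)
    · rw [abs_mul, abs_of_pos (inv_pos.2 (hR n))]
      have h1 := hle (((n : ℝ) + 1)⁻¹ • x) j
      have h2 : ((n : ℝ) + 1)⁻¹ * (1 + ‖x‖) ≤ 3 := by
        rw [inv_mul_le_iff₀ (hR n)]
        have : (0 : ℝ) ≤ n := Nat.cast_nonneg n
        linarith
      calc ((n : ℝ) + 1)⁻¹ * |pd j φ (((n : ℝ) + 1)⁻¹ • x)| * (1 + ‖x‖)
          = (((n : ℝ) + 1)⁻¹ * (1 + ‖x‖)) * |pd j φ (((n : ℝ) + 1)⁻¹ • x)| := by ring
        _ ≤ 3 * √M := by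
          apply mul_le_mul h2 h1 (abs_nonneg _) (by norm_num)
    · have h1 : pd j φ (((n : ℝ) + 1)⁻¹ • x) = 0 := by
        apply hz0
        rw [mem_ball_zero_iff, norm_smul, Real.norm_eq_abs, abs_of_pos (inv_pos.2 (hR n)),
          inv_mul_lt_iff₀ (hR n)]
        linarith
      rw [h1, mul_zero, abs_zero, zero_mul]
      positivity

variable {m : ℝ} {χ : ℕ → V → ℝ}

/-- the cutoffs converge -/
lemma Cuts.lim (hχ : Cuts m χ) {F : V → ℝ} (hF : Integrable F) :
    Tendsto (fun n => ∫ x, χ n x * F x) atTop (𝓝 (∫ x, F x)) := by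
  refine tendsto_integral_of_dominated_convergence (fun x => |F x|) (fun n => ?_) hF.abs
    (fun n => ?_) ?_
  · exact (hχ.sm n).continuous.aestronglyMeasurable.mul hF.aestronglyMeasurable
  · refine Eventually.of_forall fun x => ?_
    rw [norm_mul, Real.norm_eq_abs, Real.norm_eq_abs, abs_of_nonneg (hχ.nn n x)]
    exact mul_le_of_le_one_left (abs_nonneg _) (hχ.le n x)
  · refine Eventually.of_forall fun x => ?_
    refine tendsto_const_nhds.congr' ?_
    filter_upwards [eventually_gt_atTop ⌈‖x‖⌉₊] with n hn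
    have h1 : ‖x‖ < n + 1 := by
      have h2 := Nat.le_ceil ‖x‖
      have h3 : (⌈‖x‖⌉₊ : ℝ) < n := by exact_mod_cast hn
      linarith
    rw [hχ.one n x h1, one_mul]

lemma Cuts.bd (hχ : Cuts m χ) (n : ℕ) (x : V) : |χ n x| ≤ 1 := by
  rw [abs_of_nonneg (hχ.nn n x)]
  exact hχ.le n x

lemma Cuts.limg (hχ : Cuts m χ) {F : V → ℝ} {H : V → ℝ} (hF : Continuous F) (hH : Integrable H)
    (hb : ∀ x, |F x| ≤ (1 + ‖x‖) * H x) (j : Fin 3) :
    Tendsto (fun n => ∫ x, pd j (χ n) x * F x) atTop (𝓝 0) := by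
  have h0 : ∫ x : V, (0 : ℝ) = 0 := integral_zero _ _
  rw [← h0]
  refine tendsto_integral_of_dominated_convergence (fun x => m * H x) (fun n => ?_)
    (hH.const_mul m) (fun n => ?_) ?_
  · exact ((sm_pd (hχ.sm n) j).continuous.mul hF).aestronglyMeasurable
  · refine Eventually.of_forall fun x => ?_
    have hx : 0 ≤ 1 + ‖x‖ := by positivity
    have hH0 : 0 ≤ H x := by
      have := (abs_nonneg _).trans (hb x)
      have hx' : 0 < 1 + ‖x‖ := by positivity
      exact (mul_nonneg_iff_of_pos_left hx').1 this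
    rw [norm_mul, Real.norm_eq_abs, Real.norm_eq_abs]
    calc |pd j (χ n) x| * |F x| ≤ |pd j (χ n) x| * ((1 + ‖x‖) * H x) :=
          mul_le_mul_of_nonneg_left (hb x) (abs_nonneg _)
      _ = |pd j (χ n) x| * (1 + ‖x‖) * H x := by ring
      _ ≤ m * H x := mul_le_mul_of_nonneg_right (hχ.gr n x j) hH0
  · refine Eventually.of_forall fun x => ?_
    refine tendsto_const_nhds.congr' ?_
    filter_upwards [eventually_gt_atTop ⌈‖x‖⌉₊] with n hn
    have h1 : ‖x‖ < n + 1 := by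
      have h2 := Nat.le_ceil ‖x‖
      have h3 : (⌈‖x‖⌉₊ : ℝ) < n := by exact_mod_cast hn
      linarith
    rw [hχ.zero n x j h1, zero_mul]

/-- divergence theorem -/
theorem int_div {F : Fin 3 → V → ℝ} (hF : ∀ j, ContDiff ℝ ∞ (F j)) {H : V → ℝ}
    (hH : Integrable H) (hb : ∀ j x, |F j x| ≤ (1 + ‖x‖) * H x)
    (hd : Integrable fun x => ∑ j, pd j (F j) x) : ∫ x, ∑ j, pd j (F j) x = 0 := by
  obtain ⟨m, χ, hm, hχ⟩ := exists_cuts
  have h1 := hχ.lim hd
  have h2 : Tendsto (fun n => ∑ j, ∫ x, pd j (χ n) x * F j x) atTop (𝓝 (∑ j : Fin 3, (0 : ℝ))) :=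
    tendsto_finsetSum _ fun j _ => hχ.limg (hF j).continuous hH (hb j) j
  have h3 : ∀ n, ∫ x, χ n x * ∑ j, pd j (F j) x = -∑ j, ∫ x, pd j (χ n) x * F j x := by
    intro n
    have z : ∀ j, Z (pd j fun y => χ n y * F j y) := fun j =>
      Z_pd ((hχ.sm n).mul (hF j)) (hχ.cs n).mul_right j
    have e : (fun x => χ n x * ∑ j, pd j (F j) x) = fun x => ∑ j, (pd j (fun y => χ n y * F j y) x
        - pd j (χ n) x * F j x) := by
      funext x
      rw [Finset.mul_sum]
      refine Finset.sum_congr rfl fun j _ => ?_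
      rw [pd_mul' (hχ.sm n) (hF j)]
      ring
    have i2 : ∀ j, Integrable fun x => pd j (χ n) x * F j x := fun j =>
      int_cs ((sm_pd (hχ.sm n) j).continuous.mul (hF j).continuous) (cs_pd (hχ.cs n) j).mul_right
    have i3 : ∀ j, Integrable fun x => pd j (fun y => χ n y * F j y) x - pd j (χ n) x * F j x :=
      fun j => (z j).1.sub (i2 j)
    rw [e, integral_finsetSum _ fun j _ => i3 j]
    rw [← Finset.sum_neg_distrib]
    refine Finset.sum_congr rfl fun j _ => ?_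
    rw [integral_sub (z j).1 (i2 j), (z j).2]
    ring
  simp only [h3] at h1
  have h4 := tendsto_nhds_unique h1 h2.neg
  simpa using h4

lemma crd_le (i : Fin 3) (x : V) : |x i| ≤ ‖x‖ := norm_le_pi_norm x i

/-- `∫ D F = -2 ∫ F` -/
theorem int_D {F : V → ℝ} (hF : ContDiff ℝ ∞ F) (h1 : Integrable F) (h2 : Integrable (D F)) :
    ∫ x, D F x = -(2 * ∫ x, F x) := by
  obtain ⟨G, hG⟩ : ∃ G : Fin 3 → V → ℝ, G = fun j => if j = 2 then (fun _ => 0) else
    (fun x => x j * F x) := ⟨_, rfl⟩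
  have hGs : ∀ j, ContDiff ℝ ∞ (G j) := by
    intro j
    rw [hG]
    by_cases hj : j = 2
    · simp only [hj, if_true]; exact contDiff_const
    · simp only [hj, if_false]; exact (sm_crd j).mul hF
  have e : (fun x => ∑ j, pd j (G j) x) = fun x => D F x + 2 * F x := by
    funext x
    rw [Fin.sum_univ_three, hG]
    have e0 : (0 : Fin 3) ≠ 2 := by decide
    have e1 : (1 : Fin 3) ≠ 2 := by decide
    simp only [e0, e1, if_false, if_true]
    rw [pd_c0 0 hF 0, pd_c0 1 hF 1]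
    unfold D pd
    simp
    ring
  have h3 := int_div hGs h1.abs (fun j x => by
    rw [hG]
    by_cases hj : j = 2
    · simp only [hj, if_true, abs_zero]; positivity
    · simp only [hj, if_false, abs_mul]
      have := crd_le j x
      gcongr
      linarith) (by rw [e]; exact h2.add (h1.const_mul 2))
  rw [e, integral_add h2 (h1.const_mul 2), integral_const_mul] at h3
  linarith

/-- `∫ ∂_j F = 0` -/
theorem int_pd {F : V → ℝ} (hF : ContDiff ℝ ∞ F) (h1 : Integrable F) (i : Fin 3)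
    (h2 : Integrable (pd i F)) : ∫ x, pd i F x = 0 := by
  obtain ⟨G, hG⟩ : ∃ G : Fin 3 → V → ℝ, G = fun j => if j = i then F else (fun _ => 0) := ⟨_, rfl⟩
  have hGs : ∀ j, ContDiff ℝ ∞ (G j) := by
    intro j
    rw [hG]
    by_cases hj : j = i
    · simp only [hj, if_true]; exact hF
    · simp only [hj, if_false]; exact contDiff_const
  have e : (fun x => ∑ j, pd j (G j) x) = fun x => pd i F x := by
    funext x
    rw [Finset.sum_eq_single i]
    · rw [hG]; simp
    · intro j _ hj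
      rw [hG]
      simp only [hj, if_false]
      unfold pd
      simp
    · simp
  have h3 := int_div hGs h1.abs (fun j x => by
    rw [hG]
    by_cases hj : j = i
    · simp only [hj, if_true]
      have : 0 ≤ ‖x‖ * |F x| := by positivity
      linarith
    · simp only [hj, if_false, abs_zero]; positivity) (by rw [e]; exact h2)
  rw [e] at h3
  exact h3

end Pool.Agent.X96.AR
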