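import Pool.Agent.X96.AR.Av

/-!
Axisymmetric flows (helper96): rotation invariant functions and the derivation `δ = (1/ρ) ∂_ρ`.
-/

set_option autoImplicit false

open MeasureTheory Set Metric Filter Topology
open scoped ContDiff

namespace Pool.Agent.X96.AR

open H459R3.NS W221.NS Pool.Agent.TH305.DR Pool.Agent.TH305.AX
open Pool.Agent.W583.MD (sm_pd)

variable {f g a b : V → ℝ}

/-- mixed partial derivatives -/
lemma pd_sym (hf : ContDiff ℝ ∞ f) (i j : Fin 3) (x : V) : pd i (pd j f) x = pd j (pd i f) x := by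
  have hd : DifferentiableAt ℝ (fderiv ℝ f) x :=
    ((hf.fderiv_right (m := ∞) (by norm_cast)).differentiable (by norm_cast)) x
  have e : ∀ i j : Fin 3, pd i (pd j f) x
      = fderiv ℝ (fderiv ℝ f) x (Pi.single i 1) (Pi.single j 1) := by
    intro i j
    show fderiv ℝ (fun y => fderiv ℝ f y (Pi.single j 1)) x (Pi.single i 1) = _
    rw [fderiv_clm_apply hd (differentiableAt_const _)]
    simp
  have hs : IsSymmSndFDerivAt ℝ f x := by
    have hc2 : ContDiffAt ℝ 2 f x := hf.contDiffAt.of_le (by norm_cast)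
    apply hc2.isSymmSndFDerivAt
    simp [minSmoothness_of_isRCLikeNormedField]
  rw [e, e]
  exact hs _ _

lemma pd_c0 (j : Fin 3) (hf : ContDiff ℝ ∞ f) (i : Fin 3) (x : V) :
    pd j (fun y => y i * f y) x = x i * pd j f x + (if i = j then 1 else 0) * f x := by
  rw [pd_mulf (sm_crd i) hf, pd_crd]

lemma sm_sg : ContDiff ℝ ∞ sg := by
  have : sg = fun x : V => x 0 ^ 2 + x 1 ^ 2 := rfl
  rw [this]
  fun_prop

lemma pd_sg (j : Fin 3) (x : V) : pd j sg x = (if j = 2 then 0 else 2 * x j) := by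
  have e : sg = fun y : V => (fun y : V => y 0 * y 0) y + (fun y : V => y 1 * y 1) y := by
    funext y
    unfold sg
    ring
  rw [e, pd_add' ((sm_crd 0).mul (sm_crd 0)) ((sm_crd 1).mul (sm_crd 1)),
    pd_mulf (sm_crd 0) (sm_crd 0), pd_mulf (sm_crd 1) (sm_crd 1), pd_crd, pd_crd]
  fin_cases j
  · simp; ring
  · simp; ring
  · simp

/-- equality off the axis suffices -/
lemma eq_of_sg (ha : Continuous a) (hb : Continuous b) (h : ∀ x, sg x ≠ 0 → a x = b x) : a = b := by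
  funext x
  by_cases hx : sg x = 0
  · have h0 : x 0 = 0 := by
      unfold sg at hx
      nlinarith [sq_nonneg (x 0), sq_nonneg (x 1)]
    have h1 : x 1 = 0 := by
      unfold sg at hx
      nlinarith [sq_nonneg (x 0), sq_nonneg (x 1)]
    have hc : Continuous fun s : ℝ => x + s • (Pi.single 0 1 : V) := by fun_prop
    have t0 : x + (0 : ℝ) • (Pi.single 0 1 : V) = x := by simp
    have ta : Tendsto (fun s : ℝ => a (x + s • (Pi.single 0 1 : V))) (𝓝[≠] 0) (𝓝 (a x)) := by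
      have := (ha.comp hc).tendsto 0
      simp only [Function.comp, t0] at this
      exact this.mono_left nhdsWithin_le_nhds
    have tb : Tendsto (fun s : ℝ => b (x + s • (Pi.single 0 1 : V))) (𝓝[≠] 0) (𝓝 (b x)) := by
      have := (hb.comp hc).tendsto 0
      simp only [Function.comp, t0] at this
      exact this.mono_left nhdsWithin_le_nhds
    refine tendsto_nhds_unique ta (tb.congr' ?_)
    filter_upwards [self_mem_nhdsWithin] with s hs
    refine (h _ ?_).symm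
    have : sg (x + s • (Pi.single 0 1 : V)) = s ^ 2 := by
      unfold sg
      simp [h0, h1]
    rw [this]
    exact pow_ne_zero 2 hs
  · exact h x hx

/-! ### The operators `D`, `R` -/

lemma D_mul (hf : ContDiff ℝ ∞ f) (hg : ContDiff ℝ ∞ g) (x : V) :
    D (fun y => f y * g y) x = f x * D g x + D f x * g x := by
  unfold D
  rw [pd_mulf hf hg, pd_mulf hf hg]
  ring

lemma D_sub (hf : ContDiff ℝ ∞ f) (hg : ContDiff ℝ ∞ g) (x : V) :
    D (fun y => f y - g y) x = D f x - D g x := by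
  unfold D
  rw [pd_sub' hf hg, pd_sub' hf hg]
  ring

lemma D_sg (x : V) : D sg x = 2 * sg x := by
  unfold D
  rw [pd_sg, pd_sg]
  simp
  unfold sg
  ring

lemma R_sg (x : V) : R sg x = 0 := by
  unfold R
  rw [pd_sg, pd_sg]
  simp
  ring

lemma DD_RR (hf : ContDiff ℝ ∞ f) (x : V) :
    D (D f) x + R (R f) x = sg x * (pd 0 (pd 0 f) x + pd 1 (pd 1 f) x) := by
  have h0 := sm_pd hf 0
  have h1 := sm_pd hf 1
  have eD : ∀ j, pd j (D f) x = (x 0 * pd j (pd 0 f) x + (if (0 : Fin 3) = j then 1 else 0) * pd 0 f x)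
      + (x 1 * pd j (pd 1 f) x + (if (1 : Fin 3) = j then 1 else 0) * pd 1 f x) := by
    intro j
    have : D f = fun y => (fun y => y 0 * pd 0 f y) y + (fun y => y 1 * pd 1 f y) y := rfl
    rw [this, pd_add' ((sm_crd 0).mul h0) ((sm_crd 1).mul h1)]
    beta_reduce
    rw [pd_c0 j h0, pd_c0 j h1]
  have eR : ∀ j, pd j (R f) x = (x 0 * pd j (pd 1 f) x + (if (0 : Fin 3) = j then 1 else 0) * pd 1 f x)
      - (x 1 * pd j (pd 0 f) x + (if (1 : Fin 3) = j then 1 else 0) * pd 0 f x) := by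
    intro j
    have : R f = fun y => (fun y => y 0 * pd 1 f y) y - (fun y => y 1 * pd 0 f y) y := rfl
    rw [this, pd_sub' ((sm_crd 0).mul h1) ((sm_crd 1).mul h0)]
    beta_reduce
    rw [pd_c0 j h1, pd_c0 j h0]
  have u1 : D (D f) x = x 0 * pd 0 (D f) x + x 1 * pd 1 (D f) x := rfl
  have u2 : R (R f) x = x 0 * pd 1 (R f) x - x 1 * pd 0 (R f) x := rfl
  rw [u1, u2, eD, eD, eR, eR]
  have e1 : ((1 : Fin 3) = 0) = False := by simp
  have e2 : ((0 : Fin 3) = 1) = False := by simp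
  simp only [e1, e2, if_true, if_false]
  unfold sg
  ring

/-! ### Invariant functions -/

/-- smooth and invariant under rotations about the axis -/
structure Inv (f : V → ℝ) : Prop where
  sm : ContDiff ℝ ∞ f
  inv : ∀ x, R f x = 0

/-- `(1/ρ) ∂_ρ f` -/
noncomputable def dlt (f : V → ℝ) : V → ℝ := Av 1 fun x => pd 0 (pd 0 f) x + pd 1 (pd 1 f) x

lemma sm_dlt (hf : ContDiff ℝ ∞ f) : ContDiff ℝ ∞ (dlt f) :=
  sm_Av ((sm_pd (sm_pd hf 0) 0).add (sm_pd (sm_pd hf 1) 1)) 1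

lemma dlt_ode (hf : ContDiff ℝ ∞ f) (x : V) :
    2 * dlt f x + D (dlt f) x = pd 0 (pd 0 f) x + pd 1 (pd 1 f) x := by
  have h := Av_ode ((sm_pd (sm_pd hf 0) 0).add (sm_pd (sm_pd hf 1) 1)) 1 x
  have e : (((1 : ℕ) : ℝ) + 1) = 2 := by norm_num
  rw [e] at h
  exact h

lemma R_of_zero {w : V → ℝ} (h : ∀ x, w x = 0) (x : V) : R w x = 0 := by
  have : w = fun _ => 0 := funext h
  rw [this]
  unfold R pd
  simp

namespace Inv

lemma sgd (hf : Inv f) (x : V) : sg x * dlt f x = D f x := by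
  have hs1 : ContDiff ℝ ∞ (fun y => sg y * dlt f y) := sm_sg.mul (sm_dlt hf.sm)
  have hs2 := sm_D hf.sm
  have key := ray_zero (w := fun y => sg y * dlt f y - D f y) (hs1.sub hs2) (fun y => by
    rw [D_sub hs1 hs2, D_mul sm_sg (sm_dlt hf.sm), D_sg]
    have h1 := DD_RR hf.sm y
    rw [R_of_zero hf.inv, add_zero] at h1
    have h2 := dlt_ode hf.sm y
    rw [h1, ← h2]
    ring) x
  have e1 : sg (sc 0 x) = 0 := by
    unfold sg sc
    simp
  have e2 : D f (sc 0 x) = 0 := by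
    rw [D_sc]
    ring
  rw [e1, e2] at key
  linarith

lemma pd0 (hf : Inv f) : ∀ x, pd 0 f x = x 0 * dlt f x := by
  have h := eq_of_sg (a := H459R3.NS.pd 0 f) (b := fun x => x 0 * dlt f x)
    (sm_pd hf.sm 0).continuous ((sm_crd 0).mul (sm_dlt hf.sm)).continuous (fun x hx => by
      have h1 := hf.sgd x
      have h2 := hf.inv x
      unfold D at h1
      unfold R at h2
      have h3 : sg x * (H459R3.NS.pd 0 f x - x 0 * dlt f x) = 0 := by
        have e : sg x = x 0 ^ 2 + x 1 ^ 2 := rfl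
        calc sg x * (H459R3.NS.pd 0 f x - x 0 * dlt f x)
            = sg x * H459R3.NS.pd 0 f x - x 0 * (sg x * dlt f x) := by ring
          _ = 0 := by
            rw [h1, e]
            linear_combination (-(x 1)) * h2
      have := (mul_eq_zero.1 h3).resolve_left hx
      linarith)
  exact fun x => congrFun h x

lemma pd1 (hf : Inv f) : ∀ x, pd 1 f x = x 1 * dlt f x := by
  have h := eq_of_sg (a := H459R3.NS.pd 1 f) (b := fun x => x 1 * dlt f x)
    (sm_pd hf.sm 1).continuous ((sm_crd 1).mul (sm_dlt hf.sm)).continuous (fun x hx => by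
      have h1 := hf.sgd x
      have h2 := hf.inv x
      unfold D at h1
      unfold R at h2
      have h3 : sg x * (H459R3.NS.pd 1 f x - x 1 * dlt f x) = 0 := by
        have e : sg x = x 0 ^ 2 + x 1 ^ 2 := rfl
        calc sg x * (H459R3.NS.pd 1 f x - x 1 * dlt f x)
            = sg x * H459R3.NS.pd 1 f x - x 1 * (sg x * dlt f x) := by ring
          _ = 0 := by
            rw [h1, e]
            linear_combination (x 0) * h2
      have := (mul_eq_zero.1 h3).resolve_left hx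
      linarith)
  exact fun x => congrFun h x

end Inv

/-- characterisation of `δ f` -/
lemma dlt_uniq (hf : ContDiff ℝ ∞ f) (hi : Inv f) (ha : Continuous a)
    (h0 : ∀ x, pd 0 f x = x 0 * a x) (h1 : ∀ x, pd 1 f x = x 1 * a x) : dlt f = a := by
  refine eq_of_sg (sm_dlt hf).continuous ha fun x hx => ?_
  have e0 := hi.pd0 x
  have e1 := hi.pd1 x
  rw [h0] at e0
  rw [h1] at e1
  have h3 : sg x * (dlt f x - a x) = 0 := by
    unfold sg
    linear_combination (-(x 0)) * e0 + (-(x 1)) * e1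
  have := (mul_eq_zero.1 h3).resolve_left hx
  linarith

/-- a function with `∂₀ f = x₀ a`, `∂₁ f = x₁ a` is invariant -/
lemma inv_of (hf : ContDiff ℝ ∞ f) (h0 : ∀ x, pd 0 f x = x 0 * a x)
    (h1 : ∀ x, pd 1 f x = x 1 * a x) : Inv f :=
  ⟨hf, fun x => by unfold R; rw [h0, h1]; ring⟩

namespace Inv

lemma dlt (hf : Inv f) : Inv (dlt f) := by
  refine ⟨sm_dlt hf.sm, fun x => ?_⟩
  have hs := pd_sym hf.sm 0 1 x
  have e0 : H459R3.NS.pd 0 f = fun x => x 0 * Pool.Agent.X96.AR.dlt f x := funext hf.pd0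
  have e1 : H459R3.NS.pd 1 f = fun x => x 1 * Pool.Agent.X96.AR.dlt f x := funext hf.pd1
  rw [e0, e1, pd_c0 0 (sm_dlt hf.sm) 1, pd_c0 1 (sm_dlt hf.sm) 0] at hs
  simp at hs
  unfold R
  linarith

lemma D (hf : Inv f) (x : V) : D f x = sg x * Pool.Agent.X96.AR.dlt f x := (hf.sgd x).symm

lemma add (hf : Inv f) (hg : Inv g) : Inv (fun x => f x + g x) :=
  ⟨hf.sm.add hg.sm, fun x => by
    unfold R
    rw [pd_add' hf.sm hg.sm, pd_add' hf.sm hg.sm]
    have h1 := hf.inv x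
    have h2 := hg.inv x
    unfold R at h1 h2
    linarith⟩

lemma sub (hf : Inv f) (hg : Inv g) : Inv (fun x => f x - g x) :=
  ⟨hf.sm.sub hg.sm, fun x => by
    unfold R
    rw [pd_sub' hf.sm hg.sm, pd_sub' hf.sm hg.sm]
    have h1 := hf.inv x
    have h2 := hg.inv x
    unfold R at h1 h2
    linarith⟩

lemma mul (hf : Inv f) (hg : Inv g) : Inv (fun x => f x * g x) :=
  ⟨hf.sm.mul hg.sm, fun x => by
    unfold R
    rw [pd_mulf hf.sm hg.sm, pd_mulf hf.sm hg.sm]
    have h1 := hf.inv x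
    have h2 := hg.inv x
    unfold R at h1 h2
    linear_combination f x * h2 + g x * h1⟩

lemma const (c : ℝ) : Inv (fun _ => c) :=
  ⟨contDiff_const, fun x => by unfold R H459R3.NS.pd; simp⟩

lemma cmul (hf : Inv f) (c : ℝ) : Inv (fun x => c * f x) := (const c).mul hf

lemma sg : Inv sg := ⟨sm_sg, R_sg⟩

lemma pd2 (hf : Inv f) : Inv (pd 2 f) := by
  have e0 : ∀ x, H459R3.NS.pd 0 (H459R3.NS.pd 2 f) x = x 0 * H459R3.NS.pd 2 (Pool.Agent.X96.AR.dlt f) x := by
    intro x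
    rw [pd_sym hf.sm, show H459R3.NS.pd 0 f = fun x => x 0 * Pool.Agent.X96.AR.dlt f x from funext hf.pd0,
      pd_c0 2 (sm_dlt hf.sm)]
    simp
  have e1 : ∀ x, H459R3.NS.pd 1 (H459R3.NS.pd 2 f) x = x 1 * H459R3.NS.pd 2 (Pool.Agent.X96.AR.dlt f) x := by
    intro x
    rw [pd_sym hf.sm, show H459R3.NS.pd 1 f = fun x => x 1 * Pool.Agent.X96.AR.dlt f x from funext hf.pd1,
      pd_c0 2 (sm_dlt hf.sm)]
    simp
  exact inv_of (sm_pd hf.sm 2) e0 e1

lemma dlt_pd2 (hf : Inv f) : Pool.Agent.X96.AR.dlt (pd 2 f) = pd 2 (Pool.Agent.X96.AR.dlt f) := by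
  refine dlt_uniq (sm_pd hf.sm 2) hf.pd2 (sm_pd (sm_dlt hf.sm) 2).continuous (fun x => ?_)
    fun x => ?_
  · rw [pd_sym hf.sm, show H459R3.NS.pd 0 f = fun x => x 0 * Pool.Agent.X96.AR.dlt f x from funext hf.pd0,
      pd_c0 2 (sm_dlt hf.sm)]
    simp
  · rw [pd_sym hf.sm, show H459R3.NS.pd 1 f = fun x => x 1 * Pool.Agent.X96.AR.dlt f x from funext hf.pd1,
      pd_c0 2 (sm_dlt hf.sm)]
    simp

lemma dlt_add (hf : Inv f) (hg : Inv g) :
    Pool.Agent.X96.AR.dlt (fun x => f x + g x) = fun x => Pool.Agent.X96.AR.dlt f x + Pool.Agent.X96.AR.dlt g x := by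
  refine dlt_uniq (hf.sm.add hg.sm) (hf.add hg)
    ((sm_dlt hf.sm).add (sm_dlt hg.sm)).continuous (fun x => ?_) fun x => ?_
  · rw [pd_add' hf.sm hg.sm]; beta_reduce; rw [hf.pd0, hg.pd0]; ring
  · rw [pd_add' hf.sm hg.sm]; beta_reduce; rw [hf.pd1, hg.pd1]; ring

lemma dlt_sub (hf : Inv f) (hg : Inv g) :
    Pool.Agent.X96.AR.dlt (fun x => f x - g x) = fun x => Pool.Agent.X96.AR.dlt f x - Pool.Agent.X96.AR.dlt g x := by
  refine dlt_uniq (hf.sm.sub hg.sm) (hf.sub hg)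
    ((sm_dlt hf.sm).sub (sm_dlt hg.sm)).continuous (fun x => ?_) fun x => ?_
  · rw [pd_sub' hf.sm hg.sm]; beta_reduce; rw [hf.pd0, hg.pd0]; ring
  · rw [pd_sub' hf.sm hg.sm]; beta_reduce; rw [hf.pd1, hg.pd1]; ring

lemma dlt_mul (hf : Inv f) (hg : Inv g) :
    Pool.Agent.X96.AR.dlt (fun x => f x * g x) = fun x => f x * Pool.Agent.X96.AR.dlt g x + Pool.Agent.X96.AR.dlt f x * g x := by
  refine dlt_uniq (hf.sm.mul hg.sm) (hf.mul hg)
    ((hf.sm.mul (sm_dlt hg.sm)).add ((sm_dlt hf.sm).mul hg.sm)).continuous (fun x => ?_) fun x => ?_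
  · rw [pd_mulf hf.sm hg.sm]; beta_reduce; rw [hf.pd0, hg.pd0]; ring
  · rw [pd_mulf hf.sm hg.sm]; beta_reduce; rw [hf.pd1, hg.pd1]; ring

lemma dlt_const (c : ℝ) : Pool.Agent.X96.AR.dlt (fun _ => c) = fun _ => 0 := by
  refine dlt_uniq contDiff_const (const c) continuous_const (fun x => ?_) fun x => ?_ <;>
  · unfold H459R3.NS.pd; simp

lemma dlt_cmul (hf : Inv f) (c : ℝ) :
    Pool.Agent.X96.AR.dlt (fun x => c * f x) = fun x => c * Pool.Agent.X96.AR.dlt f x := by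
  rw [dlt_mul (const c) hf, dlt_const]
  simp

lemma dlt_sg : Pool.Agent.X96.AR.dlt Pool.Agent.TH305.AX.sg = fun _ => 2 := by
  refine dlt_uniq sm_sg sg continuous_const (fun x => ?_) fun x => ?_
  · rw [pd_sg]; simp; ring
  · rw [pd_sg]; simp; ring

lemma pd00 (hf : Inv f) (x : V) : H459R3.NS.pd 0 (H459R3.NS.pd 0 f) x
    = Pool.Agent.X96.AR.dlt f x + x 0 ^ 2 * Pool.Agent.X96.AR.dlt (Pool.Agent.X96.AR.dlt f) x := by
  rw [show H459R3.NS.pd 0 f = fun x => x 0 * Pool.Agent.X96.AR.dlt f x from funext hf.pd0,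
    pd_c0 0 (sm_dlt hf.sm), hf.dlt.pd0]
  simp
  ring

lemma pd11 (hf : Inv f) (x : V) : H459R3.NS.pd 1 (H459R3.NS.pd 1 f) x
    = Pool.Agent.X96.AR.dlt f x + x 1 ^ 2 * Pool.Agent.X96.AR.dlt (Pool.Agent.X96.AR.dlt f) x := by
  rw [show H459R3.NS.pd 1 f = fun x => x 1 * Pool.Agent.X96.AR.dlt f x from funext hf.pd1,
    pd_c0 1 (sm_dlt hf.sm), hf.dlt.pd1]
  simp
  ring

/-- the Laplacian -/
lemma lap (hf : Inv f) (x : V) : lap f x = Pool.Agent.TH305.AX.sg x * Pool.Agent.X96.AR.dlt (Pool.Agent.X96.AR.dlt f) x + 2 * Pool.Agent.X96.AR.dlt f x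
    + H459R3.NS.pd 2 (H459R3.NS.pd 2 f) x := by
  unfold H459R3.NS.lap
  rw [Fin.sum_univ_three, hf.pd00, hf.pd11]
  unfold Pool.Agent.TH305.AX.sg
  ring

end Inv

end Pool.Agent.X96.AR
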