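import Pool.Agent.TH305.AX.BVdef
import Pool.Agent.W585.Param

/-!
Functions which are smooth in space and time on `(a, b) × ℝ³` (helper96), after `W505.ME.TSM`.
-/

set_option autoImplicit false

open MeasureTheory Set Metric Filter Topology
open scoped ContDiff

namespace Pool.Agent.X96.AR

open H459R3.NS W221.NS

/-- jointly smooth -/
def JT (a b : ℝ) (F : ℝ → V → ℝ) : Prop :=
  ContDiffOn ℝ ∞ (fun z : ℝ × V => F z.1 z.2) (Ioo a b ×ˢ univ)

theorem opn (a b : ℝ) : IsOpen (Ioo a b ×ˢ (univ : Set V)) := isOpen_Ioo.prod isOpen_univ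

variable {F : ℝ → V → ℝ} {a b : ℝ}

theorem JT.slice (hF : JT a b F) {t : ℝ} (ht : t ∈ Ioo a b) : ContDiff ℝ ∞ (F t) := by
  rw [← contDiffOn_univ]
  unfold JT at hF
  exact hF.comp (contDiff_const.prodMk contDiff_id).contDiffOn (fun x _ => ⟨ht, mem_univ _⟩)

theorem JT.diffAt (hF : JT a b F) {t : ℝ} (ht : t ∈ Ioo a b) (x : V) :
    DifferentiableAt ℝ (fun z : ℝ × V => F z.1 z.2) (t, x) := by
  have hmem : Ioo a b ×ˢ (univ : Set V) ∈ 𝓝 (t, x) :=
    prod_mem_nhds (Ioo_mem_nhds ht.1 ht.2) Filter.univ_mem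
  exact (ContDiffOn.contDiffAt hF hmem).differentiableAt (by norm_cast)

theorem JT.hd_t (hF : JT a b F) {t : ℝ} (ht : t ∈ Ioo a b) (x : V) :
    HasDerivAt (fun s => F s x) (fderiv ℝ (fun z : ℝ × V => F z.1 z.2) (t, x) (1, 0)) t := by
  have h2 : HasDerivAt (fun s : ℝ => ((s, x) : ℝ × V)) (1, 0) t :=
    (hasDerivAt_id t).prodMk (hasDerivAt_const t x)
  exact (hF.diffAt ht x).hasFDerivAt.comp_hasDerivAt t h2

theorem JT.dt_eq (hF : JT a b F) {t : ℝ} (ht : t ∈ Ioo a b) (x : V) :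
    deriv (fun s => F s x) t = fderiv ℝ (fun z : ℝ × V => F z.1 z.2) (t, x) (1, 0) :=
  (hF.hd_t ht x).deriv

theorem JT.pd_eq (hF : JT a b F) {t : ℝ} (ht : t ∈ Ioo a b) (x : V) (j : Fin 3) :
    pd j (F t) x = fderiv ℝ (fun z : ℝ × V => F z.1 z.2) (t, x) (0, Pi.single j 1) := by
  have h2 : HasFDerivAt (fun y : V => ((t, y) : ℝ × V))
      (ContinuousLinearMap.inr ℝ ℝ V) x := by
    have := (hasFDerivAt_const t x).prodMk (hasFDerivAt_id (𝕜 := ℝ) x)
    exact this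
  have h3 : HasFDerivAt (F t) _ x := (hF.diffAt ht x).hasFDerivAt.comp x h2
  unfold pd
  rw [h3.fderiv]
  rfl

theorem smooth_dir (hF : JT a b F) (w : ℝ × V) :
    ContDiffOn ℝ ∞ (fun z : ℝ × V => fderiv ℝ (fun z : ℝ × V => F z.1 z.2) z w)
      (Ioo a b ×ˢ univ) :=
  (ContDiffOn.fderiv_of_isOpen hF (opn a b) (by norm_cast)).clm_apply contDiffOn_const

theorem JT.pd (hF : JT a b F) (j : Fin 3) : JT a b (fun t => pd j (F t)) := by
  refine (smooth_dir hF (0, Pi.single j 1)).congr ?_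
  rintro ⟨t, x⟩ ⟨ht, -⟩
  exact hF.pd_eq ht x j

theorem JT.dt (hF : JT a b F) : JT a b (fun t x => deriv (fun s => F s x) t) := by
  refine (smooth_dir hF (1, 0)).congr ?_
  rintro ⟨t, x⟩ ⟨ht, -⟩
  exact hF.dt_eq ht x

theorem JT.comm (hF : JT a b F) {t : ℝ} (ht : t ∈ Ioo a b) (x : V) (j : Fin 3) :
    deriv (fun s => H459R3.NS.pd j (F s) x) t =
      H459R3.NS.pd j (fun y => deriv (fun s => F s y) t) x := by
  set H : ℝ × V → ℝ := fun z => F z.1 z.2 with hH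
  have hmem : Ioo a b ×ˢ (univ : Set V) ∈ 𝓝 (t, x) :=
    prod_mem_nhds (Ioo_mem_nhds ht.1 ht.2) Filter.univ_mem
  have hc : ContDiffAt ℝ ∞ H (t, x) := ContDiffOn.contDiffAt hF hmem
  have hs : IsSymmSndFDerivAt ℝ H (t, x) := by
    have hc2 : ContDiffAt ℝ 2 H (t, x) := hc.of_le (by norm_cast)
    apply hc2.isSymmSndFDerivAt
    simp [minSmoothness_of_isRCLikeNormedField]
  have hd : DifferentiableAt ℝ (fderiv ℝ H) (t, x) :=
    (hc.fderiv_right (m := ∞) (by norm_cast)).differentiableAt (by simp)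
  have e1 : ∀ a b : ℝ × V, fderiv ℝ (fun y => fderiv ℝ H y b) (t, x) a =
      fderiv ℝ (fderiv ℝ H) (t, x) a b := by
    intro a b
    rw [fderiv_clm_apply hd (differentiableAt_const _)]
    simp
  have h1 : deriv (fun s => H459R3.NS.pd j (F s) x) t =
      fderiv ℝ (fun y => fderiv ℝ H y (0, Pi.single j 1)) (t, x) (1, 0) := by
    have h2 := (hF.pd j).dt_eq ht x
    rw [h2]
    have h3 : (fun z : ℝ × V => H459R3.NS.pd j (F z.1) z.2) =ᶠ[𝓝 (t, x)]
        fun y => fderiv ℝ H y (0, Pi.single j 1) := by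
      filter_upwards [hmem] with z hz
      exact hF.pd_eq hz.1 z.2 j
    rw [h3.fderiv_eq]
  have h2 : H459R3.NS.pd j (fun y => deriv (fun s => F s y) t) x =
      fderiv ℝ (fun y => fderiv ℝ H y (1, 0)) (t, x) (0, Pi.single j 1) := by
    have h3 := hF.dt.pd_eq ht x j
    rw [h3]
    have h4 : (fun z : ℝ × V => deriv (fun s => F s z.2) z.1) =ᶠ[𝓝 (t, x)]
        fun y => fderiv ℝ H y (1, 0) := by
      filter_upwards [hmem] with z hz
      exact hF.dt_eq hz.1 z.2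
    rw [h4.fderiv_eq]
  rw [h1, h2, e1, e1]
  exact hs _ _

theorem JT.sub {G : ℝ → V → ℝ} (hF : JT a b F) (hG : JT a b G) : JT a b (fun t x => F t x - G t x) :=
  ContDiffOn.sub hF hG

theorem JT.sum {F : Fin 3 → ℝ → V → ℝ} (hF : ∀ j, JT a b (F j)) : JT a b (fun t x => ∑ j, F j t x) :=
  ContDiffOn.sum fun j _ => hF j


theorem JT.add {G : ℝ → V → ℝ} (hF : JT a b F) (hG : JT a b G) :
    JT a b (fun t x => F t x + G t x) := ContDiffOn.add hF hG

theorem JT.mul {G : ℝ → V → ℝ} (hF : JT a b F) (hG : JT a b G) :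
    JT a b (fun t x => F t x * G t x) := ContDiffOn.mul hF hG

theorem JT.neg (hF : JT a b F) : JT a b (fun t x => -F t x) := ContDiffOn.neg hF

theorem JT.of_space {f : V → ℝ} (hf : ContDiff ℝ ∞ f) : JT a b (fun _ => f) :=
  (hf.comp contDiff_snd).contDiffOn

theorem JT.cmul (hF : JT a b F) (c : ℝ) : JT a b (fun t x => c * F t x) :=
  ContDiffOn.mul contDiffOn_const hF

theorem JT.hd (hF : JT a b F) {t : ℝ} (ht : t ∈ Ioo a b) (x : V) :
    HasDerivAt (fun s => F s x) (deriv (fun s => F s x) t) t :=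
  (hF.hd_t ht x).differentiableAt.hasDerivAt

theorem JT.mono {a' b' : ℝ} (hF : JT a b F) (h : Ioo a' b' ⊆ Ioo a b) : JT a' b' F :=
  ContDiffOn.mono hF (prod_mono h le_rfl)

theorem JT.cont (hF : JT a b F) : ContinuousOn (fun z : ℝ × V => F z.1 z.2) (Ioo a b ×ˢ univ) :=
  ContDiffOn.continuousOn hF

end Pool.Agent.X96.AR
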