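import Pool.Agent.X96.AR.Slice

/-!
Axisymmetric flows (helper96): the equations of `u_ρ/ρ`, `u_θ/ρ`, `∂_z u_θ/ρ`, `ω_θ/ρ`, `ω_z` at a
fixed time.
-/

set_option autoImplicit false

open MeasureTheory Set Metric Filter Topology
open scoped ContDiff

namespace Pool.Agent.X96.AR

open H459R3.NS W221.NS Pool.Agent.TH305.DR Pool.Agent.TH305.AX
open Pool.Agent.W583.MD (sm_pd)

/-- invariant function with its derivatives -/
structure HP (F Fz Fd : V → ℝ) : Prop where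
  inv : Inv F
  z : ∀ x, pd 2 F x = Fz x
  d : ∀ x, dlt F x = Fd x

variable {F Fz Fd G Gz Gd f g h : V → ℝ}

lemma HP.base (hf : Inv f) : HP f (pd 2 f) (dlt f) := ⟨hf, fun _ => rfl, fun _ => rfl⟩

lemma HP.basez (hf : Inv f) : HP (pd 2 f) (pd 2 (pd 2 f)) (pd 2 (dlt f)) :=
  ⟨hf.pd2, fun _ => rfl, fun x => by rw [hf.dlt_pd2]⟩

lemma HP.basezz (hf : Inv f) : HP (pd 2 (pd 2 f)) (pd 2 (pd 2 (pd 2 f))) (pd 2 (pd 2 (dlt f))) :=
  ⟨hf.pd2.pd2, fun _ => rfl, fun x => by rw [hf.pd2.dlt_pd2, hf.dlt_pd2]⟩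

lemma HP.add (hF : HP F Fz Fd) (hG : HP G Gz Gd) : HP (fun x => F x + G x)
    (fun x => Fz x + Gz x) (fun x => Fd x + Gd x) :=
  ⟨hF.inv.add hG.inv, fun x => by rw [pd_add' hF.inv.sm hG.inv.sm]; beta_reduce; rw [hF.z, hG.z],
    fun x => by rw [hF.inv.dlt_add hG.inv]; beta_reduce; rw [hF.d, hG.d]⟩

lemma HP.sub (hF : HP F Fz Fd) (hG : HP G Gz Gd) : HP (fun x => F x - G x)
    (fun x => Fz x - Gz x) (fun x => Fd x - Gd x) :=
  ⟨hF.inv.sub hG.inv, fun x => by rw [pd_sub' hF.inv.sm hG.inv.sm]; beta_reduce; rw [hF.z, hG.z],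
    fun x => by rw [hF.inv.dlt_sub hG.inv]; beta_reduce; rw [hF.d, hG.d]⟩

lemma HP.mul (hF : HP F Fz Fd) (hG : HP G Gz Gd) : HP (fun x => F x * G x)
    (fun x => F x * Gz x + Fz x * G x) (fun x => F x * Gd x + Fd x * G x) :=
  ⟨hF.inv.mul hG.inv, fun x => by rw [pd_mulf hF.inv.sm hG.inv.sm]; beta_reduce; rw [hF.z, hG.z],
    fun x => by rw [hF.inv.dlt_mul hG.inv]; beta_reduce; rw [hF.d, hG.d]⟩

lemma HP.cst (c : ℝ) : HP (fun _ => c) (fun _ => 0) (fun _ => 0) :=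
  ⟨Inv.const c, fun x => by unfold pd; simp, fun x => by rw [Inv.dlt_const]⟩

lemma HP.sg : HP sg (fun _ => 0) (fun _ => 2) :=
  ⟨Inv.sg, fun x => by rw [pd_sg]; simp, fun x => by rw [Inv.dlt_sg]⟩

lemma HP.D (hF : HP F Fz Fd) (x : V) : D F x = Pool.Agent.TH305.AX.sg x * Fd x := by
  rw [hF.inv.D, hF.d]

/-- the transport operator -/
noncomputable def tr (f h w : V → ℝ) (x : V) : ℝ := sg x * f x * dlt w x + h x * pd 2 w x

/-- the Laplacian in five dimensions -/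
noncomputable def L5 (w : V → ℝ) (x : V) : ℝ := sg x * dlt (dlt w) x + 4 * dlt w x
  + pd 2 (pd 2 w) x

/-- the Laplacian in three dimensions -/
noncomputable def L3 (w : V → ℝ) (x : V) : ℝ := sg x * dlt (dlt w) x + 2 * dlt w x
  + pd 2 (pd 2 w) x

lemma lap_L3 (hf : Inv f) (x : V) : lap f x = L3 f x := hf.lap x

lemma L5_eq (w : V → ℝ) (x : V) : L5 w x = L3 w x + 2 * dlt w x := by
  unfold L5 L3
  ring

lemma HP.tr (hf : Inv f) (hh : Inv h) (hg : Inv g) : HP (tr f h g)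
    (fun x => Pool.Agent.TH305.AX.sg x * f x * pd 2 (dlt g) x
      + Pool.Agent.TH305.AX.sg x * pd 2 f x * dlt g x + h x * pd 2 (pd 2 g) x + pd 2 h x * pd 2 g x)
    (fun x => Pool.Agent.TH305.AX.sg x * f x * dlt (dlt g) x
      + (Pool.Agent.TH305.AX.sg x * dlt f x + 2 * f x) * dlt g x
      + h x * pd 2 (dlt g) x + dlt h x * pd 2 g x) := by
  have H := ((HP.sg.mul (HP.base hf)).mul (HP.base hg.dlt)).add ((HP.base hh).mul (HP.basez hg))
  exact ⟨H.inv, fun x => (H.z x).trans (by ring), fun x => (H.d x).trans (by ring)⟩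

lemma HP.L5 (hg : Inv g) : HP (L5 g) (L5 (pd 2 g))
    (fun x => Pool.Agent.TH305.AX.sg x * dlt (dlt (dlt g)) x + 6 * dlt (dlt g) x
      + pd 2 (pd 2 (dlt g)) x) := by
  have H := ((HP.sg.mul (HP.base hg.dlt.dlt)).add ((HP.cst 4).mul (HP.base hg.dlt))).add
    (HP.basezz hg)
  refine ⟨H.inv, fun x => (H.z x).trans ?_, fun x => (H.d x).trans (by ring)⟩
  unfold Pool.Agent.X96.AR.L5
  rw [hg.dlt_pd2, hg.dlt.dlt_pd2]
  ring

lemma HP.L3 (hg : Inv g) : HP (L3 g) (L3 (pd 2 g)) (Pool.Agent.X96.AR.L5 (dlt g)) := by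
  have H := ((HP.sg.mul (HP.base hg.dlt.dlt)).add ((HP.cst 2).mul (HP.base hg.dlt))).add
    (HP.basezz hg)
  refine ⟨H.inv, fun x => (H.z x).trans ?_, fun x => (H.d x).trans ?_⟩
  · unfold Pool.Agent.X96.AR.L3
    rw [hg.dlt_pd2, hg.dlt.dlt_pd2]
    ring
  · unfold Pool.Agent.X96.AR.L5
    ring

/-- the situation at a fixed time -/
structure FT (f g h f' g' h' P : V → ℝ) : Prop where
  iF : Inv f
  iG : Inv g
  iH : Inv h
  iF' : Inv f'
  iG' : Inv g'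
  iH' : Inv h'
  sP : ContDiff ℝ ∞ P
  dv : ∀ x, 2 * f x + sg x * dlt f x + pd 2 h x = 0
  m0 : ∀ x, x 0 * (f' x + tr f h f x + f x ^ 2 - g x ^ 2 - L5 f x)
    - x 1 * (g' x + tr f h g x + 2 * (f x * g x) - L5 g x) = -pd 0 P x
  m1 : ∀ x, x 1 * (f' x + tr f h f x + f x ^ 2 - g x ^ 2 - L5 f x)
    + x 0 * (g' x + tr f h g x + 2 * (f x * g x) - L5 g x) = -pd 1 P x
  m2 : ∀ x, h' x + tr f h h x - L3 h x = -pd 2 P x

namespace FT

variable {f' g' h' P : V → ℝ}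

lemma pg (H : FT f g h f' g' h' P) (x : V) :
    g' x + tr f h g x + 2 * (f x * g x) - L5 g x = 0 := by
  have hPf : HP (fun x => f' x + tr f h f x + f x * f x - g x * g x - L5 f x) _ _ :=
    ((((HP.base H.iF').add (HP.tr H.iF H.iH H.iF)).add ((HP.base H.iF).mul (HP.base H.iF))).sub
      ((HP.base H.iG).mul (HP.base H.iG))).sub (HP.L5 H.iF)
  have hPg : HP (fun x => g' x + tr f h g x + 2 * (f x * g x) - L5 g x) _ _ :=
    (((HP.base H.iG').add (HP.tr H.iF H.iH H.iG)).add ((HP.cst 2).mul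
      ((HP.base H.iF).mul (HP.base H.iG)))).sub (HP.L5 H.iG)
  obtain ⟨Pf, ePf⟩ : ∃ Pf : V → ℝ, Pf = fun x => f' x + tr f h f x + f x * f x - g x * g x - L5 f x :=
    ⟨_, rfl⟩
  obtain ⟨Pg, ePg⟩ : ∃ Pg : V → ℝ, Pg = fun x => g' x + tr f h g x + 2 * (f x * g x) - L5 g x :=
    ⟨_, rfl⟩
  have iF : Inv Pf := by rw [ePf]; exact hPf.inv
  have iG : Inv Pg := by rw [ePg]; exact hPg.inv
  have e0 : (fun x => (fun y : V => y 0 * Pf y) x - (fun y : V => y 1 * Pg y) x)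
      = fun x => -pd 0 P x := by
    funext x
    rw [← H.m0 x, ePf, ePg]
    ring
  have e1 : (fun x => (fun y : V => y 1 * Pf y) x + (fun y : V => y 0 * Pg y) x)
      = fun x => -pd 1 P x := by
    funext x
    rw [← H.m1 x, ePf, ePg]
    ring
  have d0 : ∀ x, pd 1 (fun x => (fun y : V => y 0 * Pf y) x - (fun y : V => y 1 * Pg y) x) x
      = x 0 * (x 1 * dlt Pf x) - (x 1 * (x 1 * dlt Pg x) + Pg x) := by
    intro x
    rw [pd_sub' ((sm_crd 0).mul iF.sm) ((sm_crd 1).mul iG.sm)]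
    beta_reduce
    rw [pd_c0 1 iF.sm 0, pd_c0 1 iG.sm 1, iF.pd1, iG.pd1]
    simp
  have d1 : ∀ x, pd 0 (fun x => (fun y : V => y 1 * Pf y) x + (fun y : V => y 0 * Pg y) x) x
      = x 1 * (x 0 * dlt Pf x) + (x 0 * (x 0 * dlt Pg x) + Pg x) := by
    intro x
    rw [pd_add' ((sm_crd 1).mul iF.sm) ((sm_crd 0).mul iG.sm)]
    beta_reduce
    rw [pd_c0 0 iF.sm 1, pd_c0 0 iG.sm 0, iF.pd0, iG.pd0]
    simp
  have key : ∀ x, ((2 : ℕ) : ℝ) * Pg x + D Pg x = 0 := by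
    intro x
    have k0 := d0 x
    have k1 := d1 x
    rw [e0, pd_neg0] at k0
    rw [e1, pd_neg0] at k1
    have k2 := pd_sym H.sP 0 1 x
    rw [iG.D]
    unfold sg
    push_cast
    linear_combination k0 - k1 - k2
  have := ray_uniq iG.sm (k := 2) (by norm_num) key x
  rw [ePg] at this
  exact this

/-- `∂_z P_f = δ P_h` -/
lemma rot (H : FT f g h f' g' h' P) (x : V) :
    pd 2 (fun x => f' x + tr f h f x + f x * f x - g x * g x - L5 f x) x
      = dlt (fun x => h' x + tr f h h x - L3 h x) x := by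
  have hPf : HP (fun x => f' x + tr f h f x + f x * f x - g x * g x - L5 f x) _ _ :=
    ((((HP.base H.iF').add (HP.tr H.iF H.iH H.iF)).add ((HP.base H.iF).mul (HP.base H.iF))).sub
      ((HP.base H.iG).mul (HP.base H.iG))).sub (HP.L5 H.iF)
  have hPh : HP (fun x => h' x + tr f h h x - L3 h x) _ _ :=
    ((HP.base H.iH').add (HP.tr H.iF H.iH H.iH)).sub (HP.L3 H.iH)
  obtain ⟨Pf, ePf⟩ : ∃ Pf : V → ℝ, Pf = fun x => f' x + tr f h f x + f x * f x - g x * g x - L5 f x :=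
    ⟨_, rfl⟩
  obtain ⟨Ph, ePh⟩ : ∃ Ph : V → ℝ, Ph = fun x => h' x + tr f h h x - L3 h x := ⟨_, rfl⟩
  have iF : Inv Pf := by rw [ePf]; exact hPf.inv
  have iH : Inv Ph := by rw [ePh]; exact hPh.inv
  rw [← ePf, ← ePh]
  have e0 : (fun y : V => y 0 * Pf y) = fun x => -pd 0 P x := by
    funext x
    rw [← H.m0 x, H.pg x, ePf]
    ring
  have e1 : (fun y : V => y 1 * Pf y) = fun x => -pd 1 P x := by
    funext x
    rw [← H.m1 x, H.pg x, ePf]
    ring
  have e2 : Ph = fun x => -pd 2 P x := by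
    funext x
    rw [← H.m2 x, ePh]
  refine congrFun (eq_of_sg (sm_pd iF.sm 2).continuous (sm_dlt iH.sm).continuous
    (fun x hx => ?_)) x
  have a0 : x 0 * pd 2 Pf x = x 0 * dlt Ph x := by
    have k := pd_c0 2 iF.sm 0 x
    rw [e0, pd_neg0, pd_sym H.sP 2 0] at k
    have k2 := iH.pd0 x
    rw [e2, pd_neg0, ← e2] at k2
    simp at k
    linarith
  have a1 : x 1 * pd 2 Pf x = x 1 * dlt Ph x := by
    have k := pd_c0 2 iF.sm 1 x
    rw [e1, pd_neg0, pd_sym H.sP 2 1] at k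
    have k2 := iH.pd1 x
    rw [e2, pd_neg0, ← e2] at k2
    simp at k
    linarith
  have h3 : sg x * (pd 2 Pf x - dlt Ph x) = 0 := by
    unfold sg
    linear_combination x 0 * a0 + x 1 * a1
  have := (mul_eq_zero.1 h3).resolve_left hx
  linarith

/-- the equation of `Ω` -/
lemma om_eq (H : FT f g h f' g' h' P) (x : V) :
    (pd 2 f' x - dlt h' x) + tr f h (fun x => pd 2 f x - dlt h x) x
      = L5 (fun x => pd 2 f x - dlt h x) x + 2 * (g x * pd 2 g x) := by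
  have hPf : HP (fun x => f' x + tr f h f x + f x * f x - g x * g x - L5 f x) _ _ :=
    ((((HP.base H.iF').add (HP.tr H.iF H.iH H.iF)).add ((HP.base H.iF).mul (HP.base H.iF))).sub
      ((HP.base H.iG).mul (HP.base H.iG))).sub (HP.L5 H.iF)
  have hPh : HP (fun x => h' x + tr f h h x - L3 h x) _ _ :=
    ((HP.base H.iH').add (HP.tr H.iF H.iH H.iH)).sub (HP.L3 H.iH)
  have k := H.rot x
  rw [hPf.z, hPh.d] at k
  have hO : HP (fun x => pd 2 f x - dlt h x) _ _ := (HP.basez H.iF).sub (HP.base H.iH.dlt)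
  have hOd : dlt (fun x => pd 2 f x - dlt h x) = fun x => pd 2 (dlt f) x - dlt (dlt h) x :=
    funext hO.d
  have hOz : pd 2 (fun x => pd 2 f x - dlt h x) = fun x => pd 2 (pd 2 f) x - pd 2 (dlt h) x :=
    funext hO.z
  have hOdd : ∀ x, dlt (fun x => pd 2 (dlt f) x - dlt (dlt h) x) x
      = pd 2 (dlt (dlt f)) x - dlt (dlt (dlt h)) x :=
    ((HP.basez H.iF.dlt).sub (HP.base H.iH.dlt.dlt)).d
  have hOzz : ∀ x, pd 2 (fun x => pd 2 (pd 2 f) x - pd 2 (dlt h) x) x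
      = pd 2 (pd 2 (pd 2 f)) x - pd 2 (pd 2 (dlt h)) x :=
    ((HP.basezz H.iF).sub (HP.basez H.iH.dlt)).z
  have dv := H.dv x
  unfold tr L5
  rw [hOd, hOz, hOdd, hOzz]
  unfold L5 at k
  rw [H.iF.dlt_pd2, H.iF.dlt.dlt_pd2] at k
  linear_combination k + (pd 2 f x - dlt h x) * (-dv)

/-- the equation of `K` -/
lemma k_eq (H : FT f g h f' g' h' P) (x : V) :
    pd 2 g' x + tr f h (pd 2 g) x = L5 (pd 2 g) x
      - pd 2 f x * (2 * g x + sg x * dlt g x) + (sg x * dlt f x) * pd 2 g x := by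
  have hPg : HP (fun x => g' x + tr f h g x + 2 * (f x * g x) - L5 g x) _ _ :=
    (((HP.base H.iG').add (HP.tr H.iF H.iH H.iG)).add ((HP.cst 2).mul
      ((HP.base H.iF).mul (HP.base H.iG)))).sub (HP.L5 H.iG)
  have k := hPg.z x
  have e : (fun x => g' x + tr f h g x + 2 * (f x * g x) - L5 g x) = fun _ => 0 := funext H.pg
  rw [e] at k
  have z0 : pd 2 (fun _ : V => (0 : ℝ)) x = 0 := by unfold pd; simp
  rw [z0] at k
  have dv := H.dv x
  unfold tr
  rw [H.iG.dlt_pd2]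
  linear_combination -k + (-(pd 2 g x)) * dv

/-- the equation of `ω_z = 2 g + D g` -/
lemma g_eq (H : FT f g h f' g' h' P) (x : V) :
    (2 * g' x + sg x * dlt g' x) + tr f h (fun x => 2 * g x + sg x * dlt g x) x
      = L3 (fun x => 2 * g x + sg x * dlt g x) x
        - sg x * dlt h x * pd 2 g x + pd 2 h x * (2 * g x + sg x * dlt g x) := by
  have hPg : HP (fun x => g' x + tr f h g x + 2 * (f x * g x) - L5 g x) _ _ :=
    (((HP.base H.iG').add (HP.tr H.iF H.iH H.iG)).add ((HP.cst 2).mul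
      ((HP.base H.iF).mul (HP.base H.iG)))).sub (HP.L5 H.iG)
  have k := hPg.d x
  have e : (fun x => g' x + tr f h g x + 2 * (f x * g x) - L5 g x) = fun _ => 0 := funext H.pg
  rw [e, Inv.dlt_const] at k
  have p := H.pg x
  have hO : HP (fun x => 2 * g x + sg x * dlt g x) _ _ :=
    ((HP.cst 2).mul (HP.base H.iG)).add (HP.sg.mul (HP.base H.iG.dlt))
  have hOd : dlt (fun x => 2 * g x + sg x * dlt g x)
      = fun x => 4 * dlt g x + sg x * dlt (dlt g) x := by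
    funext x
    rw [hO.d]
    ring
  have hOz : pd 2 (fun x => 2 * g x + sg x * dlt g x)
      = fun x => 2 * pd 2 g x + sg x * pd 2 (dlt g) x := by
    funext x
    rw [hO.z]
    ring
  have hOdd : ∀ x, dlt (fun x => 4 * dlt g x + sg x * dlt (dlt g) x) x
      = 6 * dlt (dlt g) x + sg x * dlt (dlt (dlt g)) x := by
    intro x
    rw [(((HP.cst 4).mul (HP.base H.iG.dlt)).add (HP.sg.mul (HP.base H.iG.dlt.dlt))).d]
    ring
  have hOzz : ∀ x, pd 2 (fun x => 2 * pd 2 g x + sg x * pd 2 (dlt g) x) x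
      = 2 * pd 2 (pd 2 g) x + sg x * pd 2 (pd 2 (dlt g)) x := by
    intro x
    rw [(((HP.cst 2).mul (HP.basez H.iG)).add (HP.sg.mul (HP.basez H.iG.dlt))).z]
    ring
  have dv := H.dv x
  unfold tr L3
  rw [hOd, hOz, hOdd, hOzz]
  unfold tr L5 at p
  linear_combination (-(sg x)) * k + 2 * p + (-(2 * g x + sg x * dlt g x)) * dv

end FT

end Pool.Agent.X96.AR
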