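import Pool.Agent.X96.AR.Inv
import Pool.Agent.X96.AX.Rad

/-!
Axisymmetric fields (helper96): the representation `v = (x₀ f - x₁ g, x₁ f + x₀ g, h)`.
-/

set_option autoImplicit false

open MeasureTheory Set Metric Filter Topology
open scoped ContDiff

namespace Pool.Agent.X96.AR

open H459R3.NS W221.NS Pool.Agent.TH305.DR Pool.Agent.TH305.AX
open Pool.Agent.W583.MD (sm_pd)

variable {v : V → V}

/-- the horizontal divergence -/
noncomputable def dh (v : V → V) (x : V) : ℝ := pd 0 (fun y => v y 0) x + pd 1 (fun y => v y 1) x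

/-- the third component of the vorticity -/
noncomputable def om (v : V → V) (x : V) : ℝ := pd 0 (fun y => v y 1) x - pd 1 (fun y => v y 0) x

/-- radial velocity over the distance to the axis -/
noncomputable def ff (v : V → V) : V → ℝ := Av 1 (dh v)

/-- angular velocity over the distance to the axis -/
noncomputable def gg (v : V → V) : V → ℝ := Av 1 (om v)

lemma sm_dh (hv : ContDiff ℝ ∞ v) : ContDiff ℝ ∞ (dh v) :=
  (sm_pd (sm_cmp hv 0) 0).add (sm_pd (sm_cmp hv 1) 1)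

lemma sm_om (hv : ContDiff ℝ ∞ v) : ContDiff ℝ ∞ (om v) :=
  (sm_pd (sm_cmp hv 1) 0).sub (sm_pd (sm_cmp hv 0) 1)

lemma sm_ff (hv : ContDiff ℝ ∞ v) : ContDiff ℝ ∞ (ff v) := sm_Av (sm_dh hv) 1

lemma sm_gg (hv : ContDiff ℝ ∞ v) : ContDiff ℝ ∞ (gg v) := sm_Av (sm_om hv) 1

/-- infinitesimal rotations -/
lemma R_cmp (hv : ContDiff ℝ ∞ v) (ha : Axi v) : (R fun y => v y 0) = (fun x => -v x 1) ∧
    (R fun y => v y 1) = (fun x => v x 0) ∧ ∀ x, R (fun y => v y 2) x = 0 := by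
  refine ⟨funext fun x => (axi_inf hv ha x).1, funext fun x => (axi_inf hv ha x).2, fun x => ?_⟩
  have h1 : DifferentiableAt ℝ (fun y => v y 2) (rot 0 x) :=
    ((sm_cmp hv 2).differentiable (by norm_cast)) _
  have h2 := h1.hasFDerivAt.comp_hasDerivAt (0 : ℝ) (rot_hd x)
  rw [rot_zero, pd_vec] at h2
  have e : ∑ j, (![-x 1, x 0, 0] : V) j * pd j (fun y => v y 2) x
      = x 0 * pd 1 (fun y => v y 2) x - x 1 * pd 0 (fun y => v y 2) x := by
    rw [Fin.sum_univ_three]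
    simp
    ring
  rw [e] at h2
  have h4 : HasDerivAt (fun _ : ℝ => v x 2)
      (x 0 * pd 1 (fun y => v y 2) x - x 1 * pd 0 (fun y => v y 2) x) 0 := by
    refine h2.congr_of_eventuallyEq (Eventually.of_forall fun θ => ?_)
    show v x 2 = v (rot θ x) 2
    rw [ha]
    rfl
  exact h4.unique (hasDerivAt_const _ _)

lemma pd_R0 {f : V → ℝ} (hf : ContDiff ℝ ∞ f) (x : V) : pd 0 (R f) x = R (pd 0 f) x + pd 1 f x := by
  have e : R f = fun y => (fun y => y 0 * pd 1 f y) y - (fun y => y 1 * pd 0 f y) y := rfl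
  rw [e, pd_sub' ((sm_crd 0).mul (sm_pd hf 1)) ((sm_crd 1).mul (sm_pd hf 0))]
  beta_reduce
  rw [pd_c0 0 (sm_pd hf 1) 0, pd_c0 0 (sm_pd hf 0) 1, pd_sym hf 0 1]
  unfold R
  simp
  ring

lemma pd_R1 {f : V → ℝ} (hf : ContDiff ℝ ∞ f) (x : V) : pd 1 (R f) x = R (pd 1 f) x - pd 0 f x := by
  have e : R f = fun y => (fun y => y 0 * pd 1 f y) y - (fun y => y 1 * pd 0 f y) y := rfl
  rw [e, pd_sub' ((sm_crd 0).mul (sm_pd hf 1)) ((sm_crd 1).mul (sm_pd hf 0))]
  beta_reduce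
  rw [pd_c0 1 (sm_pd hf 1) 0, pd_c0 1 (sm_pd hf 0) 1, pd_sym hf 1 0]
  unfold R
  simp
  ring

lemma R_add {f g : V → ℝ} (hf : ContDiff ℝ ∞ f) (hg : ContDiff ℝ ∞ g) (x : V) :
    R (fun y => f y + g y) x = R f x + R g x := by
  unfold R
  rw [pd_add' hf hg, pd_add' hf hg]
  ring

lemma R_sub {f g : V → ℝ} (hf : ContDiff ℝ ∞ f) (hg : ContDiff ℝ ∞ g) (x : V) :
    R (fun y => f y - g y) x = R f x - R g x := by
  unfold R
  rw [pd_sub' hf hg, pd_sub' hf hg]
  ring

lemma pd_neg0 {f : V → ℝ} (j : Fin 3) (x : V) : pd j (fun y => -f y) x = -pd j f x := by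
  unfold pd
  rw [fderiv_fun_neg]
  rfl

lemma inv_dh (hv : ContDiff ℝ ∞ v) (ha : Axi v) : Inv (dh v) := by
  refine ⟨sm_dh hv, fun x => ?_⟩
  obtain ⟨r0, r1, -⟩ := R_cmp hv ha
  have e : dh v = fun y => pd 0 (fun y => v y 0) y + pd 1 (fun y => v y 1) y := rfl
  rw [e, R_add (sm_pd (sm_cmp hv 0) 0) (sm_pd (sm_cmp hv 1) 1)]
  have h0 := pd_R0 (sm_cmp hv 0) x
  have h1 := pd_R1 (sm_cmp hv 1) x
  rw [r0, pd_neg0] at h0
  rw [r1] at h1
  linarith

lemma inv_om (hv : ContDiff ℝ ∞ v) (ha : Axi v) : Inv (om v) := by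
  refine ⟨sm_om hv, fun x => ?_⟩
  obtain ⟨r0, r1, -⟩ := R_cmp hv ha
  have e : om v = fun y => pd 0 (fun y => v y 1) y - pd 1 (fun y => v y 0) y := rfl
  rw [e, R_sub (sm_pd (sm_cmp hv 1) 0) (sm_pd (sm_cmp hv 0) 1)]
  have h0 := pd_R0 (sm_cmp hv 1) x
  have h1 := pd_R1 (sm_cmp hv 0) x
  rw [r1] at h0
  rw [r0, pd_neg0] at h1
  linarith

lemma Inv.Av {f : V → ℝ} (hf : Inv f) (k : ℕ) : Inv (Av k f) := by
  refine ⟨sm_Av hf.sm k, fun x => ?_⟩
  rw [R_Av hf.sm]
  unfold Pool.Agent.X96.AR.Av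
  simp [hf.inv]

lemma inv_h (hv : ContDiff ℝ ∞ v) (ha : Axi v) : Inv (fun y => v y 2) :=
  ⟨sm_cmp hv 2, (R_cmp hv ha).2.2⟩

lemma ff_ode (hv : ContDiff ℝ ∞ v) (x : V) : 2 * ff v x + D (ff v) x = dh v x := by
  have h := Av_ode (sm_dh hv) 1 x
  have e : (((1 : ℕ) : ℝ) + 1) = 2 := by norm_num
  rw [e] at h
  exact h

lemma gg_ode (hv : ContDiff ℝ ∞ v) (x : V) : 2 * gg v x + D (gg v) x = om v x := by
  have h := Av_ode (sm_om hv) 1 x
  have e : (((1 : ℕ) : ℝ) + 1) = 2 := by norm_num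
  rw [e] at h
  exact h

/-- the circulation -/
lemma circ_eq (hv : ContDiff ℝ ∞ v) (ha : Axi v) (x : V) : circ v x = sg x * gg v x := by
  have hs1 : ContDiff ℝ ∞ (fun y => sg y * gg v y) := sm_sg.mul (sm_gg hv)
  have key := ray_zero (w := fun y => sg y * gg v y - circ v y) (hs1.sub (sm_circ hv)) (fun y => by
    rw [D_sub hs1 (sm_circ hv), D_mul sm_sg (sm_gg hv), D_sg]
    have h1 : D (circ v) y = sg y * om v y := (om_circ hv ha y).symm
    have h2 := gg_ode hv y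
    rw [h1, ← h2]
    ring) x
  have e1 : sg (sc 0 x) = 0 := by
    unfold sg sc
    simp
  have e2 : circ v (sc 0 x) = 0 := by
    unfold circ sc
    simp
  rw [e1, e2] at key
  linarith

/-- the radial part -/
noncomputable def rd (v : V → V) (x : V) : ℝ := x 0 * v x 0 + x 1 * v x 1

lemma sm_rd (hv : ContDiff ℝ ∞ v) : ContDiff ℝ ∞ (rd v) :=
  ((sm_crd 0).mul (sm_cmp hv 0)).add ((sm_crd 1).mul (sm_cmp hv 1))

lemma D_rd (hv : ContDiff ℝ ∞ v) (ha : Axi v) (x : V) : D (rd v) x = sg x * dh v x := by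
  obtain ⟨h0, h1⟩ := axi_inf hv ha x
  have e : rd v = fun y => (fun y => y 0 * v y 0) y + (fun y => y 1 * v y 1) y := rfl
  have hpd : ∀ j, pd j (rd v) x = (x 0 * pd j (fun y => v y 0) x + (if (0 : Fin 3) = j then 1 else 0) * v x 0)
      + (x 1 * pd j (fun y => v y 1) x + (if (1 : Fin 3) = j then 1 else 0) * v x 1) := by
    intro j
    rw [e, pd_add' ((sm_crd 0).mul (sm_cmp hv 0)) ((sm_crd 1).mul (sm_cmp hv 1))]
    beta_reduce
    rw [pd_c0 j (sm_cmp hv 0) 0, pd_c0 j (sm_cmp hv 1) 1]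
  unfold D
  rw [hpd, hpd]
  have e1 : ((1 : Fin 3) = 0) = False := by simp
  have e2 : ((0 : Fin 3) = 1) = False := by simp
  simp only [e1, e2, if_true, if_false]
  unfold sg dh
  linear_combination (x 1) * h0 + (-(x 0)) * h1

lemma rd_eq (hv : ContDiff ℝ ∞ v) (ha : Axi v) (x : V) : rd v x = sg x * ff v x := by
  have hs1 : ContDiff ℝ ∞ (fun y => sg y * ff v y) := sm_sg.mul (sm_ff hv)
  have key := ray_zero (w := fun y => sg y * ff v y - rd v y) (hs1.sub (sm_rd hv)) (fun y => by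
    rw [D_sub hs1 (sm_rd hv), D_mul sm_sg (sm_ff hv), D_sg]
    have h2 := ff_ode hv y
    rw [D_rd hv ha, ← h2]
    ring) x
  have e1 : sg (sc 0 x) = 0 := by
    unfold sg sc
    simp
  have e2 : rd v (sc 0 x) = 0 := by
    unfold rd sc
    simp
  rw [e1, e2] at key
  linarith

lemma cmp0 (hv : ContDiff ℝ ∞ v) (ha : Axi v) : ∀ x, v x 0 = x 0 * ff v x - x 1 * gg v x := by
  have h := eq_of_sg (a := fun x => v x 0) (b := fun x => x 0 * ff v x - x 1 * gg v x)
    (sm_cmp hv 0).continuous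
    (((sm_crd 0).mul (sm_ff hv)).sub ((sm_crd 1).mul (sm_gg hv))).continuous (fun x hx => by
      have h1 := rd_eq hv ha x
      have h2 := circ_eq hv ha x
      unfold rd at h1
      unfold circ at h2
      have h3 : sg x * (v x 0 - (x 0 * ff v x - x 1 * gg v x)) = 0 := by
        have e : sg x = x 0 ^ 2 + x 1 ^ 2 := rfl
        calc sg x * (v x 0 - (x 0 * ff v x - x 1 * gg v x))
            = sg x * v x 0 - x 0 * (sg x * ff v x) + x 1 * (sg x * gg v x) := by ring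
          _ = 0 := by
            rw [← h1, ← h2, e]
            ring
      have := (mul_eq_zero.1 h3).resolve_left hx
      linarith)
  exact fun x => congrFun h x

lemma cmp1 (hv : ContDiff ℝ ∞ v) (ha : Axi v) : ∀ x, v x 1 = x 1 * ff v x + x 0 * gg v x := by
  have h := eq_of_sg (a := fun x => v x 1) (b := fun x => x 1 * ff v x + x 0 * gg v x)
    (sm_cmp hv 1).continuous
    (((sm_crd 1).mul (sm_ff hv)).add ((sm_crd 0).mul (sm_gg hv))).continuous (fun x hx => by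
      have h1 := rd_eq hv ha x
      have h2 := circ_eq hv ha x
      unfold rd at h1
      unfold circ at h2
      have h3 : sg x * (v x 1 - (x 1 * ff v x + x 0 * gg v x)) = 0 := by
        have e : sg x = x 0 ^ 2 + x 1 ^ 2 := rfl
        calc sg x * (v x 1 - (x 1 * ff v x + x 0 * gg v x))
            = sg x * v x 1 - x 1 * (sg x * ff v x) - x 0 * (sg x * gg v x) := by ring
          _ = 0 := by
            rw [← h1, ← h2, e]
            ring
      have := (mul_eq_zero.1 h3).resolve_left hx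
      linarith)
  exact fun x => congrFun h x

end Pool.Agent.X96.AR
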