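import Pool.Agent.X96.AR.St
import Pool.Agent.W440.MD.SOB

/-!
Sobolev inequality on the whole space and a trilinear estimate (helper96).
-/

set_option autoImplicit false

open MeasureTheory Set Metric Filter Topology
open scoped ContDiff ENNReal

namespace Pool.Agent.X96.AR

open H459R3.NS W221.NS Pool.Agent.TH305.DR Pool.Agent.TH305.AX
open Pool.Agent.W583.MD (sm_pd cs_pd pd_mul' Z Z.add Z.sub Z.smul Z.sum int_cs Z_pd)

theorem sob : ∃ K : ℝ, 0 ≤ K ∧ ∀ w : V → ℝ, M2g w → Integrable (fun x => w x ^ 6) ∧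
    ∫ x, w x ^ 6 ≤ K * (∫ x, gq w x) ^ 3 := by
  obtain ⟨K, hK, H⟩ := Pool.Agent.W440.MD.scalar
  refine ⟨K, hK, fun w hw => ?_⟩
  set G : ℝ := ∫ x, gq w x with hG
  set A : ℝ := ∫ x, w x ^ 2 with hA
  have hG0 : 0 ≤ G := integral_nonneg (gq_nonneg w)
  have hA0 : 0 ≤ A := integral_nonneg fun x => sq_nonneg _
  have hn : ∀ n : ℕ, (0 : ℝ) < n + 1 := fun n => by positivity
  have hb : ∀ n : ℕ, ∫ x in ball (0 : V) (n + 1), w x ^ 6
      ≤ K * (G + (((n : ℝ) + 1) ^ 2)⁻¹ * A) ^ 3 := by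
    intro n
    have h1 := H w hw.sm 0 ((n : ℝ) + 1) (hn n)
    refine h1.trans ?_
    have hi : Integrable fun x => gq w x + (((n : ℝ) + 1) ^ 2)⁻¹ * w x ^ 2 :=
      hw.int.add (hw.m.sq.const_mul _)
    have hnn : ∀ x, 0 ≤ gq w x + (((n : ℝ) + 1) ^ 2)⁻¹ * w x ^ 2 := fun x =>
      add_nonneg (gq_nonneg w x) (by positivity)
    have h2 : ∫ x in ball (0 : V) (2 * ((n : ℝ) + 1)), (gq w x + (((n : ℝ) + 1) ^ 2)⁻¹ * w x ^ 2)
        ≤ G + (((n : ℝ) + 1) ^ 2)⁻¹ * A := by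
      refine (setIntegral_le_integral hi (Eventually.of_forall hnn)).trans ?_
      rw [integral_add hw.int (hw.m.sq.const_mul _), integral_const_mul]
    have h3 : 0 ≤ ∫ x in ball (0 : V) (2 * ((n : ℝ) + 1)),
        (gq w x + (((n : ℝ) + 1) ^ 2)⁻¹ * w x ^ 2) := integral_nonneg hnn
    have h4 := pow_le_pow_left₀ h3 h2 3
    exact mul_le_mul_of_nonneg_left h4 hK
  have hcov : AECover (volume : Measure V) atTop fun n : ℕ => ball (0 : V) ((n : ℝ) + 1) :=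
    aecover_ball (tendsto_atTop_add_const_right _ _ tendsto_natCast_atTop_atTop)
  have hfi : ∀ n : ℕ, IntegrableOn (fun x => w x ^ 6) (ball (0 : V) ((n : ℝ) + 1)) := fun n =>
    Pool.Agent.W440.MD.int_ball (hw.sm.continuous.pow 6) 0 _
  have hinv : ∀ n : ℕ, (((n : ℝ) + 1) ^ 2)⁻¹ ≤ 1 := by
    intro n
    apply inv_le_one_of_one_le₀
    have : (0 : ℝ) ≤ n := Nat.cast_nonneg n
    nlinarith
  have hI : Integrable fun x => w x ^ 6 := by
    refine hcov.integrable_of_integral_bounded_of_nonneg_ae (K * (G + A) ^ 3) hfi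
      (Eventually.of_forall fun x => by positivity) (Eventually.of_forall fun n => (hb n).trans ?_)
    have h1 : G + (((n : ℝ) + 1) ^ 2)⁻¹ * A ≤ G + A := by
      have := mul_le_of_le_one_left hA0 (hinv n)
      linarith
    have h2 : 0 ≤ G + (((n : ℝ) + 1) ^ 2)⁻¹ * A := by positivity
    exact mul_le_mul_of_nonneg_left (pow_le_pow_left₀ h2 h1 3) hK
  refine ⟨hI, ?_⟩
  have ht1 := hcov.integral_tendsto_of_countably_generated hI
  have h5 : Tendsto (fun n : ℕ => (((n : ℝ) + 1) ^ 2)⁻¹) atTop (𝓝 0) := by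
    have h6 : Tendsto (fun n : ℕ => 1 / ((n : ℝ) + 1)) atTop (𝓝 0) :=
      tendsto_one_div_add_atTop_nhds_zero_nat
    have h7 := h6.pow 2
    simp only [one_div, inv_pow] at h7
    simpa using h7
  have ht2 : Tendsto (fun n : ℕ => K * (G + (((n : ℝ) + 1) ^ 2)⁻¹ * A) ^ 3) atTop
      (𝓝 (K * G ^ 3)) := by
    have h6 := ((h5.mul_const A).const_add G)
    rw [zero_mul, add_zero] at h6
    exact (h6.pow 3).const_mul K
  exact le_of_tendsto_of_tendsto' ht1 ht2 hb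

/-- Cauchy-Schwarz -/
lemma cs_sq {a b : V → ℝ} (ha : M2 a) (hb : M2 b) :
    (∫ x, a x * b x) ^ 2 ≤ (∫ x, a x ^ 2) * ∫ x, b x ^ 2 := by
  have h : ∀ s : ℝ, 0 ≤ (∫ x, b x ^ 2) * (s * s) + (2 * ∫ x, a x * b x) * s + ∫ x, a x ^ 2 := by
    intro s
    have h0 : 0 ≤ ∫ x, (a x + s * b x) ^ 2 := integral_nonneg fun x => sq_nonneg _
    have e : (fun x => (a x + s * b x) ^ 2)
        = fun x => (a x ^ 2 + (2 * s) * (a x * b x)) + (s * s) * b x ^ 2 := by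
      funext x
      ring
    have i1 : Integrable fun x => (2 * s) * (a x * b x) := (ha.mul hb).const_mul _
    have i2 : Integrable fun x => (s * s) * b x ^ 2 := hb.sq.const_mul _
    have i3 : Integrable fun x => a x ^ 2 + (2 * s) * (a x * b x) := ha.sq.add i1
    rw [e, integral_add i3 i2, integral_add ha.sq i1, integral_const_mul,
      integral_const_mul] at h0
    linarith
  have := discrim_le_zero h
  unfold discrim at this
  nlinarith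

/-- the trilinear estimate -/
theorem tri : ∃ K : ℝ, 0 ≤ K ∧ ∀ w β : V → ℝ, M2g w → M2 β → ∀ δ : ℝ, 0 < δ →
    Integrable (fun x => |β x| * w x ^ 2) ∧
    ∫ x, |β x| * w x ^ 2 ≤ δ * (∫ x, gq w x)
      + K / δ ^ 3 * ((∫ x, β x ^ 2) ^ 2 * ∫ x, w x ^ 2) := by
  obtain ⟨K, hK, H⟩ := sob
  refine ⟨K, hK, fun w β hw hβ δ hδ => ?_⟩
  obtain ⟨h6, h6'⟩ := H w hw
  have hw3 : M2 fun x => w x ^ 3 := ⟨hw.sm.continuous.pow 3, h6.congr (Eventually.of_forall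
    fun x => by ring)⟩
  have hw2 : M2 fun x => w x ^ 2 := ⟨hw.sm.continuous.pow 2, (hw.m.mul hw3).congr
    (Eventually.of_forall fun x => by ring)⟩
  have hβa : M2 fun x => |β x| := ⟨hβ.ct.abs, hβ.sq.congr (Eventually.of_forall fun x => by
    show β x ^ 2 = |β x| ^ 2
    rw [sq_abs])⟩
  have c1 := cs_sq hβa hw2
  have c2 := cs_sq hw.m hw3
  have e1 : ∫ x, w x * w x ^ 3 = ∫ x, (w x ^ 2) ^ 2 := by
    congr 1
    funext x
    ring
  have e2 : ∫ x, (w x ^ 3) ^ 2 = ∫ x, w x ^ 6 := by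
    congr 1
    funext x
    ring
  have e3 : ∫ x, |β x| ^ 2 = ∫ x, β x ^ 2 := by
    congr 1
    funext x
    exact sq_abs _
  rw [e3] at c1
  rw [e1, e2] at c2
  refine ⟨hβa.mul hw2, ?_⟩
  obtain ⟨X, hX⟩ : ∃ X : ℝ, X = ∫ x, |β x| * w x ^ 2 := ⟨_, rfl⟩
  obtain ⟨B, hB⟩ : ∃ X : ℝ, X = ∫ x, β x ^ 2 := ⟨_, rfl⟩
  obtain ⟨Q, hQ⟩ : ∃ X : ℝ, X = ∫ x, (w x ^ 2) ^ 2 := ⟨_, rfl⟩
  obtain ⟨A, hA⟩ : ∃ X : ℝ, X = ∫ x, w x ^ 2 := ⟨_, rfl⟩
  obtain ⟨S, hS⟩ : ∃ X : ℝ, X = ∫ x, w x ^ 6 := ⟨_, rfl⟩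
  obtain ⟨G, hG⟩ : ∃ X : ℝ, X = ∫ x, gq w x := ⟨_, rfl⟩
  have hX0 : 0 ≤ X := by rw [hX]; exact integral_nonneg fun x => by positivity
  have hB0 : 0 ≤ B := by rw [hB]; exact integral_nonneg fun x => by positivity
  have hQ0 : 0 ≤ Q := by rw [hQ]; exact integral_nonneg fun x => by positivity
  have hA0 : 0 ≤ A := by rw [hA]; exact integral_nonneg fun x => by positivity
  have hG0 : 0 ≤ G := by rw [hG]; exact integral_nonneg fun x => gq_nonneg w x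
  rw [← hX, ← hB, ← hQ] at c1
  rw [← hQ, ← hA, ← hS] at c2
  rw [← hS, ← hG] at h6'
  rw [← hX, ← hG, ← hB, ← hA]
  by_contra hcon
  push Not at hcon
  have hM0 : 0 ≤ K / δ ^ 3 * (B ^ 2 * A) := by positivity
  have hXp : 0 < X := lt_of_le_of_lt (by positivity) hcon
  have hGX : δ * G < X := by linarith
  have hG3 : (δ * G) ^ 3 ≤ X ^ 3 := pow_le_pow_left₀ (by positivity) hGX.le 3
  have h1 : X ^ 4 ≤ B ^ 2 * Q ^ 2 := by
    calc X ^ 4 = (X ^ 2) ^ 2 := by ring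
      _ ≤ (B * Q) ^ 2 := pow_le_pow_left₀ (sq_nonneg _) c1 2
      _ = _ := by ring
  have h2 : Q ^ 2 ≤ A * (K * G ^ 3) := c2.trans (mul_le_mul_of_nonneg_left h6' hA0)
  have h3 : X ^ 4 * δ ^ 3 ≤ K * (B ^ 2 * A) * X ^ 3 := by
    calc X ^ 4 * δ ^ 3 ≤ B ^ 2 * (A * (K * G ^ 3)) * δ ^ 3 := by
          apply mul_le_mul_of_nonneg_right _ (by positivity)
          exact h1.trans (mul_le_mul_of_nonneg_left h2 (sq_nonneg _))
      _ = K * (B ^ 2 * A) * (δ * G) ^ 3 := by ring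
      _ ≤ _ := mul_le_mul_of_nonneg_left hG3 (by positivity)
  have h4 : X * δ ^ 3 ≤ K * (B ^ 2 * A) := by
    have hX3 : 0 < X ^ 3 := by positivity
    have h5 : X * δ ^ 3 * X ^ 3 ≤ K * (B ^ 2 * A) * X ^ 3 := by
      calc X * δ ^ 3 * X ^ 3 = X ^ 4 * δ ^ 3 := by ring
        _ ≤ _ := h3
    exact le_of_mul_le_mul_right h5 hX3
  have h5 : X ≤ K / δ ^ 3 * (B ^ 2 * A) := by
    rw [div_mul_eq_mul_div, le_div_iff₀ (by positivity)]
    exact h4
  have : 0 ≤ δ * G := by positivity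
  linarith

end Pool.Agent.X96.AR
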