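import Pool.Agent.X96.AR.Cls2

/-!
Integral identities at a fixed time (helper96).
-/

set_option autoImplicit false

open MeasureTheory Set Metric Filter Topology
open scoped ContDiff ENNReal

namespace Pool.Agent.X96.AR

open H459R3.NS W221.NS Pool.Agent.TH305.DR Pool.Agent.TH305.AX
open Pool.Agent.W583.MD (sm_pd cs_pd pd_mul' Z Z.add Z.sub Z.smul Z.sum int_cs Z_pd)

variable {f g h w φ : V → ℝ} {v : V → V}

/-- the square of the gradient -/
noncomputable def gq (w : V → ℝ) (x : V) : ℝ := ∑ j, pd j w x ^ 2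

lemma gq_nonneg (w : V → ℝ) (x : V) : 0 ≤ gq w x := Finset.sum_nonneg fun _ _ => sq_nonneg _

lemma le_gq (w : V → ℝ) (x : V) (j : Fin 3) : pd j w x ^ 2 ≤ gq w x :=
  Finset.single_le_sum (f := fun j => pd j w x ^ 2) (fun j _ => sq_nonneg _) (Finset.mem_univ j)

/-- the gradient is square integrable -/
structure M2g (w : V → ℝ) : Prop where
  sm : ContDiff ℝ ∞ w
  m : M2 w
  g : ∀ j, M2 (pd j w)

lemma M2g.int (hw : M2g w) : Integrable (gq w) := integrable_finsetSum _ fun j _ => (hw.g j).sq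

lemma M2g.ctq (hw : M2g w) : Continuous (gq w) :=
  continuous_finsetSum _ fun j _ => (sm_pd hw.sm j).continuous.pow 2

/-- Green's identity -/
lemma int_lap (hw : M2g w) (hl : M2 (lap w)) : ∫ x, w x * lap w x = -∫ x, gq w x := by
  have hF : ∀ j, ContDiff ℝ ∞ (fun y => w y * pd j w y) := fun j => hw.sm.mul (sm_pd hw.sm j)
  have e : (fun x => ∑ j, pd j (fun y => w y * pd j w y) x) = fun x => w x * lap w x + gq w x := by
    funext x
    have h1 : ∀ j, pd j (fun y => w y * pd j w y) x = w x * pd j (pd j w) x + pd j w x ^ 2 := by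
      intro j
      rw [pd_mul' hw.sm (sm_pd hw.sm j)]
      ring
    simp only [h1]
    rw [Finset.sum_add_distrib, ← Finset.mul_sum]
    rfl
  have i1 := hw.m.mul hl
  have h3 := int_div hF (H := fun x => w x ^ 2 + gq w x) (hw.m.sq.add hw.int) (fun j x => by
    have a1 := le_gq w x j
    have a2 : |w x * pd j w x| ≤ w x ^ 2 + gq w x := by
      rw [abs_le]
      constructor
      · linarith only [sq_nonneg (w x + pd j w x), sq_nonneg (w x), sq_nonneg (pd j w x), a1]
      · linarith only [sq_nonneg (w x - pd j w x), sq_nonneg (w x), sq_nonneg (pd j w x), a1]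
    have a3 : 0 ≤ w x ^ 2 + gq w x := add_nonneg (sq_nonneg _) (gq_nonneg w x)
    have a4 : 0 ≤ ‖x‖ * (w x ^ 2 + gq w x) := mul_nonneg (norm_nonneg _) a3
    linarith) (by rw [e]; exact i1.add hw.int)
  rw [e, integral_add i1 hw.int] at h3
  linarith

/-- the transport term -/
lemma int_av (hv : ContDiff ℝ ∞ v) (hd : ∀ x, ∑ i, pd i (fun y => v y i) x = 0) {C : ℝ}
    (hb : ∀ x i, |v x i| ≤ C) (hw : M2g w) : ∫ x, w x * av v w x = 0 := by
  have hF : ∀ j, ContDiff ℝ ∞ (fun y => v y j * (w y * w y)) := fun j =>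
    (sm_cmp hv j).mul (hw.sm.mul hw.sm)
  have hC : 0 ≤ C := (abs_nonneg _).trans (hb 0 0)
  have e : (fun x => ∑ j, pd j (fun y => v y j * (w y * w y)) x) = fun x => 2 * (w x * av v w x) := by
    funext x
    have h1 : ∀ j, pd j (fun y => v y j * (w y * w y)) x
        = 2 * (w x * (v x j * pd j w x)) + pd j (fun y => v y j) x * (w x * w x) := by
      intro j
      rw [pd_mul' (sm_cmp hv j) (hw.sm.mul hw.sm), pd_mul' hw.sm hw.sm]
      ring
    simp only [h1]
    rw [Finset.sum_add_distrib, ← Finset.sum_mul, hd x, zero_mul, add_zero, ← Finset.mul_sum,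
      ← Finset.mul_sum]
    rfl
  have hm : M2 (av v w) := by
    have : ∀ j, M2 fun x => v x j * pd j w x := fun j =>
      (hw.g j).bmul (sm_cmp hv j).continuous (hb · j)
    have e2 : av v w = fun x => (v x 0 * pd 0 w x + v x 1 * pd 1 w x) + v x 2 * pd 2 w x := by
      funext x
      unfold av
      rw [Fin.sum_univ_three]
    rw [e2]
    exact ((this 0).add (this 1)).add (this 2)
  have h3 := int_div hF (H := fun x => C * w x ^ 2) (hw.m.sq.const_mul C) (fun j x => by
    have a1 : |v x j * (w x * w x)| ≤ C * w x ^ 2 := by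
      rw [abs_mul, ← pow_two, abs_of_nonneg (sq_nonneg (w x))]
      exact mul_le_mul_of_nonneg_right (hb x j) (sq_nonneg _)
    have a4 : 0 ≤ ‖x‖ * (C * w x ^ 2) := by positivity
    linarith) (by rw [e]; exact (hw.m.mul hm).const_mul 2)
  rw [e, integral_const_mul] at h3
  linarith

/-- `∫ a D a = -∫ a²` -/
lemma int_aD {a : V → ℝ} (ha : ContDiff ℝ ∞ a) (h1 : M2 a) (h2 : M2 (D a)) :
    ∫ x, a x * D a x = -∫ x, a x ^ 2 := by
  have e : D (fun x => a x * a x) = fun x => 2 * (a x * D a x) := by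
    funext x
    rw [D_mul ha ha]
    ring
  have h := int_D (ha.mul ha) (h1.mul h1) (by rw [e]; exact (h1.mul h2).const_mul 2)
  rw [e, integral_const_mul] at h
  simp only [← pow_two] at h
  linarith

/-- the axis is a null set -/
lemma axis_null : ∀ᵐ x : V, sg x ≠ 0 := by
  have h : (volume : Measure V) {x | x 0 = 0} = 0 := by
    rw [volume_pi]
    exact Measure.pi_hyperplane _ 0 0
  rw [ae_iff]
  refine measure_mono_null (fun x hx => ?_) h
  simp only [mem_setOf_eq, not_not] at hx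
  unfold sg at hx
  show x 0 = 0
  nlinarith [sq_nonneg (x 0), sq_nonneg (x 1)]

/-- `∫ δ φ ≤ 0` -/
lemma int_dlt_le (hφ : Inv φ) (h0 : ∀ x, 0 ≤ φ x) (h1 : Integrable φ) (h2 : Integrable (D φ))
    (h3 : Integrable (dlt φ)) : ∫ x, dlt φ x ≤ 0 := by
  have hε : ∀ n : ℕ, 0 < 1 / ((n : ℝ) + 1) := fun n => by positivity
  have hs : ∀ (n : ℕ) (x : V), 0 < sg x + 1 / ((n : ℝ) + 1) := fun n x =>
    add_pos_of_nonneg_of_pos (sg_nonneg x) (hε n)
  have key : ∀ n : ℕ, ∫ x, sg x / (sg x + 1 / ((n : ℝ) + 1)) * dlt φ x ≤ 0 := by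
    intro n
    obtain ⟨ε, hεd⟩ : ∃ ε : ℝ, ε = 1 / ((n : ℝ) + 1) := ⟨_, rfl⟩
    have hε0 : 0 < ε := by rw [hεd]; exact hε n
    rw [← hεd]
    have hp : ∀ x, 0 < sg x + ε := fun x => add_pos_of_nonneg_of_pos (sg_nonneg x) hε0
    have hψs : ContDiff ℝ ∞ (fun x => (sg x + ε)⁻¹) :=
      (sm_sg.add contDiff_const).inv fun x => (hp x).ne'
    have hDψ : ∀ x, D (fun x => (sg x + ε)⁻¹) x = -(2 * sg x) * ((sg x + ε)⁻¹) ^ 2 := by
      intro x
      have hpd : ∀ j, pd j (fun x => (sg x + ε)⁻¹) x = -(pd j sg x) * ((sg x + ε)⁻¹) ^ 2 := by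
        intro j
        have a1 : HasFDerivAt sg (fderiv ℝ sg x) x :=
          ((sm_sg.differentiable (by norm_cast)) x).hasFDerivAt
        have a2 := (hasDerivAt_inv (hp x).ne').comp_hasFDerivAt x (a1.add_const ε)
        have a3 : HasFDerivAt (fun x => (sg x + ε)⁻¹) _ x := a2
        unfold pd
        rw [a3.fderiv]
        simp only [_root_.smul_apply, smul_eq_mul, inv_pow]
        ring
      have := D_sg x
      unfold D at this ⊢
      rw [hpd, hpd]
      linear_combination (-((sg x + ε)⁻¹) ^ 2) * this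
    have hFs : ContDiff ℝ ∞ (fun x => (sg x + ε)⁻¹ * φ x) := hψs.mul hφ.sm
    have eD : D (fun x => (sg x + ε)⁻¹ * φ x) = fun x => (sg x + ε)⁻¹ * D φ x
        + -(2 * sg x) * ((sg x + ε)⁻¹) ^ 2 * φ x := by
      funext x
      rw [D_mul hψs hφ.sm, hDψ]
    have hb1 : ∀ x, |(sg x + ε)⁻¹| ≤ ε⁻¹ := fun x => by
      rw [abs_of_pos (inv_pos.2 (hp x))]
      exact inv_anti₀ hε0 (by linarith [sg_nonneg x])
    have hb2 : ∀ x, |-(2 * sg x) * ((sg x + ε)⁻¹) ^ 2| ≤ 2 * ε⁻¹ := by
      intro x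
      have h5 : 0 ≤ sg x * (sg x + ε)⁻¹ := mul_nonneg (sg_nonneg x) (inv_pos.2 (hp x)).le
      have h6 : sg x * (sg x + ε)⁻¹ ≤ 1 := by
        rw [mul_inv_le_iff₀ (hp x)]
        linarith
      have e : -(2 * sg x) * ((sg x + ε)⁻¹) ^ 2 = -(2 * ((sg x * (sg x + ε)⁻¹) * (sg x + ε)⁻¹)) := by
        ring
      rw [e, abs_neg, abs_mul, abs_mul, abs_two, abs_of_nonneg h5]
      have := hb1 x
      calc 2 * (sg x * (sg x + ε)⁻¹ * |(sg x + ε)⁻¹|) ≤ 2 * (1 * ε⁻¹) := by gcongr
        _ = _ := by ring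
    have i1 : Integrable fun x => (sg x + ε)⁻¹ * φ x :=
      h1.bdd_mul (c := ε⁻¹) hψs.continuous.aestronglyMeasurable (Eventually.of_forall hb1)
    have i2 : Integrable fun x => (sg x + ε)⁻¹ * D φ x :=
      h2.bdd_mul (c := ε⁻¹) hψs.continuous.aestronglyMeasurable (Eventually.of_forall hb1)
    have hct : Continuous fun x => -(2 * sg x) * ((sg x + ε)⁻¹) ^ 2 :=
      ((continuous_const.mul sm_sg.continuous).neg).mul (hψs.continuous.pow 2)
    have i3 : Integrable fun x => -(2 * sg x) * ((sg x + ε)⁻¹) ^ 2 * φ x :=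
      h1.bdd_mul (c := 2 * ε⁻¹) hct.aestronglyMeasurable (Eventually.of_forall hb2)
    have h := int_D hFs i1 (by rw [eD]; exact i2.add i3)
    rw [eD, integral_add i2 i3, ← integral_const_mul] at h
    have i4 : Integrable fun x => 2 * ((sg x + ε)⁻¹ * φ x) := i1.const_mul 2
    have e2 : ∫ x, (sg x + ε)⁻¹ * D φ x
        = ∫ x, (-(2 * ((sg x + ε)⁻¹ * φ x)) - -(2 * sg x) * ((sg x + ε)⁻¹) ^ 2 * φ x) := by
      have i5 : Integrable fun x => -(2 * ((sg x + ε)⁻¹ * φ x)) := i4.neg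
      rw [integral_sub i5 i3]
      have : ∫ x, -(2 * ((sg x + ε)⁻¹ * φ x)) = -∫ x, 2 * ((sg x + ε)⁻¹ * φ x) :=
        integral_neg _
      rw [this]
      linarith
    have e3 : ∀ x, sg x / (sg x + ε) * dlt φ x = (sg x + ε)⁻¹ * D φ x := by
      intro x
      rw [hφ.D]
      ring
    simp only [e3]
    rw [e2]
    apply integral_nonpos
    intro x
    show -(2 * ((sg x + ε)⁻¹ * φ x)) - -(2 * sg x) * ((sg x + ε)⁻¹) ^ 2 * φ x ≤ 0
    have e4 : -(2 * ((sg x + ε)⁻¹ * φ x)) - -(2 * sg x) * ((sg x + ε)⁻¹) ^ 2 * φ x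
        = -(2 * ε * ((sg x + ε)⁻¹) ^ 2 * φ x) := by
      have h7 := hp x
      field_simp
      ring
    rw [e4]
    have := h0 x
    have : 0 ≤ 2 * ε * ((sg x + ε)⁻¹) ^ 2 * φ x := by positivity
    linarith
  have hlim : Tendsto (fun n : ℕ => ∫ x, sg x / (sg x + 1 / ((n : ℝ) + 1)) * dlt φ x) atTop
      (𝓝 (∫ x, dlt φ x)) := by
    refine tendsto_integral_of_dominated_convergence (fun x => |dlt φ x|) (fun n => ?_) h3.abs
      (fun n => ?_) ?_
    · exact ((sm_sg.continuous.div (sm_sg.continuous.add continuous_const)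
        fun x => (hs n x).ne').mul (sm_dlt hφ.sm).continuous).aestronglyMeasurable
    · refine Eventually.of_forall fun x => ?_
      rw [norm_mul, Real.norm_eq_abs, Real.norm_eq_abs,
        abs_of_nonneg (div_nonneg (sg_nonneg x) (hs n x).le)]
      apply mul_le_of_le_one_left (abs_nonneg _)
      rw [div_le_one (hs n x)]
      linarith [hε n]
    · filter_upwards [axis_null] with x hx
      have h5 : Tendsto (fun n : ℕ => 1 / ((n : ℝ) + 1)) atTop (𝓝 0) :=
        tendsto_one_div_add_atTop_nhds_zero_nat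
      have h6 := (h5.const_add (sg x))
      rw [add_zero] at h6
      have h7 := (tendsto_const_nhds (x := sg x)).div h6 hx
      rw [div_self hx] at h7
      have h8 := h7.mul_const (dlt φ x)
      rw [one_mul] at h8
      exact h8
  exact le_of_tendsto' hlim key

/-- `∫ w δ w ≤ 0` -/
lemma int_wd (hw : Inv w) (h1 : M2 w) (h2 : M2 (D w)) (h3 : M2 (dlt w)) :
    ∫ x, w x * dlt w x ≤ 0 := by
  have e : dlt (fun x => w x * w x) = fun x => 2 * (w x * dlt w x) := by
    funext x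
    rw [hw.dlt_mul hw]
    ring
  have eD : D (fun x => w x * w x) = fun x => 2 * (w x * D w x) := by
    funext x
    rw [D_mul hw.sm hw.sm]
    ring
  have h := int_dlt_le (hw.mul hw) (fun x => mul_self_nonneg _) (h1.mul h1)
    (by rw [eD]; exact (h1.mul h2).const_mul 2) (by rw [e]; exact (h1.mul h3).const_mul 2)
  rw [e, integral_const_mul] at h
  linarith

end Pool.Agent.X96.AR
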