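import Pool.Agent.X96.AR.Est4

/-!
Energy estimates in time (helper96).
-/

set_option autoImplicit false

open MeasureTheory Set Metric Filter Topology
open scoped ContDiff ENNReal

namespace Pool.Agent.X96.AR

open H459R3.NS W221.NS Pool.Agent.TH305.DR Pool.Agent.TH305.AX
open Pool.Agent.W583.MD (sm_pd cs_pd pd_mul' Z Z.add Z.sub Z.smul Z.sum int_cs Z_pd)

variable {S : Set ℝ} {T : ℝ} {F G : ℝ → V → ℝ} {u : ℝ → V → V} {p : ℝ → V → ℝ} {t : ℝ}

/-- a uniform Gronwall lemma -/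
lemma gron {t₀ T C A : ℝ} (hT : t₀ < T) {y Ψ a : ℝ → ℝ} (hC : 0 ≤ C)
    (hy0 : ∀ t ∈ Ico t₀ T, 0 ≤ y t) (hloc : ∀ t ∈ Ico t₀ T, ∃ B : ℝ, ∀ s ∈ Icc t₀ t, y s ≤ B)
    (hΨ : ∀ s t, t₀ ≤ s → s ≤ t → t < T → IntervalIntegrable Ψ volume s t ∧
      y t = y s + ∫ τ in s..t, Ψ τ)
    (ha : ∀ s t, t₀ ≤ s → s ≤ t → t < T → IntervalIntegrable a volume s t ∧
      ∫ τ in s..t, a τ ≤ A)
    (hle : ∀ τ ∈ Ico t₀ T, Ψ τ ≤ C * y τ + a τ) : ∃ B : ℝ, 0 ≤ B ∧ ∀ t ∈ Ico t₀ T, y t ≤ B := by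
  obtain ⟨s₀, hs₀⟩ : ∃ s₀ : ℝ, s₀ = max t₀ (T - 1 / (2 * (C + 1))) := ⟨_, rfl⟩
  have hC1 : 0 < 1 / (2 * (C + 1)) := by positivity
  have h1 : t₀ ≤ s₀ := by rw [hs₀]; exact le_max_left _ _
  have h2 : s₀ < T := by rw [hs₀]; exact max_lt hT (by linarith)
  have h3 : T - s₀ ≤ 1 / (2 * (C + 1)) := by
    have : T - 1 / (2 * (C + 1)) ≤ s₀ := by rw [hs₀]; exact le_max_right _ _
    linarith
  obtain ⟨B₀, hB₀⟩ := hloc s₀ ⟨h1, h2⟩
  have hA : 0 ≤ A := by
    have := (ha s₀ s₀ h1 le_rfl h2).2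
    simpa using this
  have hys : 0 ≤ y s₀ := hy0 _ ⟨h1, h2⟩
  have hB0 : 0 ≤ B₀ := hys.trans (hB₀ s₀ ⟨h1, le_rfl⟩)
  refine ⟨max B₀ (2 * (y s₀ + A)), le_max_of_le_left hB0, fun t ht => ?_⟩
  rcases le_total t s₀ with hts | hts
  · exact (hB₀ t ⟨ht.1, hts⟩).trans (le_max_left _ _)
  refine le_max_of_le_right ?_
  obtain ⟨B, hB⟩ := hloc t ht
  have hbdd : BddAbove (y '' Icc s₀ t) := by
    refine ⟨B, ?_⟩
    rintro _ ⟨s, hs, rfl⟩
    exact hB s ⟨h1.trans hs.1, hs.2⟩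
  have hne : (y '' Icc s₀ t).Nonempty := ⟨y s₀, s₀, ⟨le_rfl, hts⟩, rfl⟩
  obtain ⟨m, hm⟩ : ∃ m : ℝ, m = sSup (y '' Icc s₀ t) := ⟨_, rfl⟩
  have hle_m : ∀ s ∈ Icc s₀ t, y s ≤ m := fun s hs => by
    rw [hm]
    exact le_csSup hbdd ⟨s, hs, rfl⟩
  have hm0 : 0 ≤ m := hys.trans (hle_m s₀ ⟨le_rfl, hts⟩)
  have hup : ∀ s ∈ Icc s₀ t, y s ≤ y s₀ + m / 2 + A := by
    intro s hs
    have hsT : s < T := hs.2.trans_lt ht.2
    obtain ⟨k1, k2⟩ := hΨ s₀ s h1 hs.1 hsT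
    obtain ⟨k3, k4⟩ := ha s₀ s h1 hs.1 hsT
    have k5 : IntervalIntegrable (fun τ => C * m + a τ) volume s₀ s :=
      intervalIntegrable_const.add k3
    have k6 : ∫ τ in s₀..s, Ψ τ ≤ ∫ τ in s₀..s, (C * m + a τ) := by
      refine intervalIntegral.integral_mono_on hs.1 k1 k5 fun τ hτ => ?_
      have := hle τ ⟨h1.trans hτ.1, hτ.2.trans_lt hsT⟩
      have h7 := mul_le_mul_of_nonneg_left (hle_m τ ⟨hτ.1, hτ.2.trans hs.2⟩) hC
      linarith
    rw [intervalIntegral.integral_add intervalIntegrable_const k3,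
      intervalIntegral.integral_const, smul_eq_mul] at k6
    have h8 : (s - s₀) * (C * m) ≤ m / 2 := by
      have h9 : s - s₀ ≤ 1 / (2 * (C + 1)) := by linarith
      calc (s - s₀) * (C * m) ≤ 1 / (2 * (C + 1)) * (C * m) :=
            mul_le_mul_of_nonneg_right h9 (by positivity)
        _ ≤ m / 2 := by
            rw [one_div, inv_mul_le_iff₀ (by positivity)]
            nlinarith
    rw [k2]
    linarith
  have hmle : m ≤ y s₀ + m / 2 + A := by
    rw [hm]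
    apply csSup_le hne
    rintro _ ⟨s, hs, rfl⟩
    rw [← hm]
    exact hup s hs
  have := hle_m t ⟨hts, le_rfl⟩
  linarith

/-- a solution in the class of smooth functions all of whose derivatives are square integrable -/
structure RS (T : ℝ) (u : ℝ → V → V) (p : ℝ → V → ℝ) : Prop where
  sol : BSol 1 T u p
  hb : ∀ a b, 0 < a → b < T → ∀ i n, HB n (Icc a b) fun t x => u t x i

namespace RS

lemma af (h : RS T u p) {a b : ℝ} (ha : 0 < a) (hb : b < T) : AF (Icc a b) u := by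
  have hI : ∀ t ∈ Icc a b, t ∈ Ico 0 T := fun t ht => ⟨ha.le.trans ht.1, ht.2.trans_lt hb⟩
  exact ⟨fun t ht => h.sol.slice0 (hI t ht), fun t ht => h.sol.axi t (hI t ht),
    fun t ht => h.sol.divfree t (hI t ht), fun i => ⟨fun t ht => sm_cmp (h.sol.slice0 (hI t ht)) i,
    h.hb a b ha hb i⟩⟩

lemma af1 (h : RS T u p) (ht : t ∈ Ioo 0 T) : AF (Icc t t) u := h.af ht.1 ht.2

end RS

/-- the time derivative is square integrable -/
lemma td_b2 (hu : ∀ j, Bd S fun t x => u t x j) {E : ℝ → V → ℝ} (hs : ∀ t ∈ S, Continuous (td F t))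
    (hg : ∀ j, B2 S fun t => pd j (F t)) (hl : B2 S fun t => lap (F t)) (hE : B2 S E)
    (heq : ∀ t ∈ S, ∀ x, td F t x + av (u t) (F t) x = lap (F t) x + E t x) : B2 S (td F) := by
  have h1 := ((hg 0).bmul (hu 0)).add (((hg 1).bmul (hu 1)).add ((hg 2).bmul (hu 2)))
  refine ((hl.add hE).sub h1).congr fun t ht => ?_
  funext x
  have := heq t ht x
  unfold av at this
  rw [Fin.sum_univ_three] at this
  linarith

/-- the energy balance at a fixed time -/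
lemma bal {v : V → V} (hv : ContDiff ℝ ∞ v) (hd : ∀ x, ∑ i, pd i (fun y => v y i) x = 0) {C : ℝ}
    (hb : ∀ x i, |v x i| ≤ C) {w w' E : V → ℝ} (hw : M2g w) (hl : M2 (lap w)) (hE : M2 E)
    (heq : ∀ x, w' x + av v w x = lap w x + E x) :
    ∫ x, w x * w' x = -(∫ x, gq w x) + ∫ x, w x * E x := by
  have h1 := int_av hv hd hb hw
  have h2 := int_lap hw hl
  have hm : M2 (av v w) := by
    have : ∀ j, M2 fun x => v x j * pd j w x := fun j =>
      (hw.g j).bmul (sm_cmp hv j).continuous (hb · j)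
    have e2 : av v w = fun x => (v x 0 * pd 0 w x + v x 1 * pd 1 w x) + v x 2 * pd 2 w x := by
      funext x
      unfold av
      rw [Fin.sum_univ_three]
    rw [e2]
    exact ((this 0).add (this 1)).add (this 2)
  have e : ∀ x, w x * w' x = (w x * lap w x + w x * E x) - w x * av v w x := by
    intro x
    have := heq x
    have h3 : w' x = lap w x + E x - av v w x := by linarith
    rw [h3]
    ring
  simp only [e]
  have i1 := hw.m.mul hl
  have i2 := hw.m.mul hE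
  have i12 : Integrable fun x => w x * lap w x + w x * E x := i1.add i2
  rw [integral_sub i12 (hw.m.mul hm), integral_add i1 i2, h1, h2]
  ring

/-- with the additional term of the five dimensional Laplacian -/
lemma bal5 {v : V → V} (hv : ContDiff ℝ ∞ v) (hd : ∀ x, ∑ i, pd i (fun y => v y i) x = 0) {C : ℝ}
    (hb : ∀ x i, |v x i| ≤ C) {w w' E : V → ℝ} (iw : Inv w) (hw : M2g w) (hl : M2 (lap w))
    (hD : M2 (D w)) (hdl : M2 (dlt w)) (hE : M2 E)
    (heq : ∀ x, w' x + av v w x = lap w x + 2 * dlt w x + E x) :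
    ∫ x, w x * w' x ≤ -(∫ x, gq w x) + ∫ x, w x * E x := by
  have hE2 : M2 fun x => 2 * dlt w x + E x := (hdl.cmul 2).add hE
  have h1 := bal hv hd hb hw hl hE2 (w' := w') (fun x => by rw [heq]; ring)
  have h2 := int_wd iw hw.m hD hdl
  have e : ∀ x, w x * (2 * dlt w x + E x) = 2 * (w x * dlt w x) + w x * E x := fun x => by ring
  simp only [e] at h1
  have i1 : Integrable fun x => 2 * (w x * dlt w x) := (hw.m.mul hdl).const_mul 2
  rw [integral_add i1 (hw.m.mul hE), integral_const_mul] at h1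
  linarith

end Pool.Agent.X96.AR
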