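import Pool.Agent.X96.AR.Pde

/-!
Axisymmetric flows (helper96): the equations in time.
-/

set_option autoImplicit false

open MeasureTheory Set Metric Filter Topology
open scoped ContDiff

namespace Pool.Agent.X96.AR

open H459R3.NS W221.NS Pool.Agent.TH305.DR Pool.Agent.TH305.AX
open Pool.Agent.W583.MD (sm_pd)

/-- the advection term -/
noncomputable def av (v : V → V) (w : V → ℝ) (x : V) : ℝ := ∑ j, v x j * pd j w x

section static
variable {v : V → V} {φ ψ : V → ℝ}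

lemma av_add (hφ : ContDiff ℝ ∞ φ) (hψ : ContDiff ℝ ∞ ψ) (x : V) :
    av v (fun y => φ y + ψ y) x = av v φ x + av v ψ x := by
  unfold av
  simp only [pd_add' hφ hψ, Fin.sum_univ_three]
  ring

lemma av_sub (hφ : ContDiff ℝ ∞ φ) (hψ : ContDiff ℝ ∞ ψ) (x : V) :
    av v (fun y => φ y - ψ y) x = av v φ x - av v ψ x := by
  unfold av
  simp only [pd_sub' hφ hψ, Fin.sum_univ_three]
  ring

lemma av_c (hφ : ContDiff ℝ ∞ φ) (i : Fin 3) (x : V) :
    av v (fun y => y i * φ y) x = x i * av v φ x + v x i * φ x := by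
  unfold av
  simp only [pd_c0 _ hφ i, Fin.sum_univ_three]
  fin_cases i
  · simp; ring
  · simp; ring
  · simp; ring

lemma lap_add' (hφ : ContDiff ℝ ∞ φ) (hψ : ContDiff ℝ ∞ ψ) (x : V) :
    lap (fun y => φ y + ψ y) x = lap φ x + lap ψ x := by
  unfold lap
  simp only [pd_add' hφ hψ, Fin.sum_univ_three]
  simp only [pd_add' (sm_pd hφ _) (sm_pd hψ _)]
  ring

lemma lap_sub' (hφ : ContDiff ℝ ∞ φ) (hψ : ContDiff ℝ ∞ ψ) (x : V) :
    lap (fun y => φ y - ψ y) x = lap φ x - lap ψ x := by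
  unfold lap
  simp only [pd_sub' hφ hψ, Fin.sum_univ_three]
  simp only [pd_sub' (sm_pd hφ _) (sm_pd hψ _)]
  ring

lemma pd_cf (hφ : ContDiff ℝ ∞ φ) (i j : Fin 3) : pd j (fun y => y i * φ y)
    = fun x => x i * pd j φ x + (if i = j then 1 else 0) * φ x :=
  funext fun x => pd_c0 j hφ i x

lemma lap_c (hφ : ContDiff ℝ ∞ φ) (i : Fin 3) (x : V) :
    lap (fun y => y i * φ y) x = x i * lap φ x + 2 * pd i φ x := by
  have h : ∀ j, pd j (pd j fun y => y i * φ y) x = x i * pd j (pd j φ) x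
      + 2 * ((if i = j then 1 else 0) * pd j φ x) := by
    intro j
    rw [pd_cf hφ]
    have := congrFun (pd_add' ((sm_crd i).mul (sm_pd hφ j))
      ((contDiff_const (c := if i = j then (1 : ℝ) else 0)).mul hφ) j) x
    rw [this, pd_cf (sm_pd hφ j), pd_cmul]
    ring
  unfold lap
  simp only [h, Fin.sum_univ_three]
  fin_cases i
  · simp; ring
  · simp; ring
  · simp; ring

lemma av_inv (hv : ContDiff ℝ ∞ v) (ha : Axi v) (hφ : Inv φ) (x : V) :
    av v φ x = tr (ff v) (fun y => v y 2) φ x := by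
  unfold av tr
  rw [Fin.sum_univ_three, hφ.pd0, hφ.pd1]
  have h := rd_eq hv ha x
  unfold rd at h
  linear_combination dlt φ x * h

lemma lap_ci (hφ : Inv φ) {i : Fin 3} (hi : i ≠ 2) (x : V) :
    lap (fun y => y i * φ y) x = x i * L5 φ x := by
  rw [lap_c hφ.sm, lap_L3 hφ, L5_eq]
  fin_cases i
  · show x 0 * L3 φ x + 2 * pd 0 φ x = x 0 * (L3 φ x + 2 * dlt φ x)
    rw [hφ.pd0]
    ring
  · show x 1 * L3 φ x + 2 * pd 1 φ x = x 1 * (L3 φ x + 2 * dlt φ x)
    rw [hφ.pd1]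
    ring
  · exact absurd rfl hi

lemma inv_ff (hv : ContDiff ℝ ∞ v) (ha : Axi v) : Inv (ff v) := (inv_dh hv ha).Av 1

lemma inv_gg (hv : ContDiff ℝ ∞ v) (ha : Axi v) : Inv (gg v) := (inv_om hv ha).Av 1

lemma av0 (hv : ContDiff ℝ ∞ v) (ha : Axi v) (x : V) : av v (fun y => v y 0) x
    = x 0 * (tr (ff v) (fun y => v y 2) (ff v) x + ff v x ^ 2 - gg v x ^ 2)
      - x 1 * (tr (ff v) (fun y => v y 2) (gg v) x + 2 * (ff v x * gg v x)) := by
  have e : (fun y => v y 0) = fun y => (fun y : V => y 0 * ff v y) y - (fun y : V => y 1 * gg v y) y :=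
    funext fun y => cmp0 hv ha y
  rw [e, av_sub ((sm_crd 0).mul (sm_ff hv)) ((sm_crd 1).mul (sm_gg hv)), av_c (sm_ff hv),
    av_c (sm_gg hv), av_inv hv ha (inv_ff hv ha), av_inv hv ha (inv_gg hv ha), cmp0 hv ha,
    cmp1 hv ha]
  ring

lemma av1 (hv : ContDiff ℝ ∞ v) (ha : Axi v) (x : V) : av v (fun y => v y 1) x
    = x 1 * (tr (ff v) (fun y => v y 2) (ff v) x + ff v x ^ 2 - gg v x ^ 2)
      + x 0 * (tr (ff v) (fun y => v y 2) (gg v) x + 2 * (ff v x * gg v x)) := by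
  have e : (fun y => v y 1) = fun y => (fun y : V => y 1 * ff v y) y + (fun y : V => y 0 * gg v y) y :=
    funext fun y => cmp1 hv ha y
  rw [e, av_add ((sm_crd 1).mul (sm_ff hv)) ((sm_crd 0).mul (sm_gg hv)), av_c (sm_ff hv),
    av_c (sm_gg hv), av_inv hv ha (inv_ff hv ha), av_inv hv ha (inv_gg hv ha), cmp0 hv ha,
    cmp1 hv ha]
  ring

lemma lap0 (hv : ContDiff ℝ ∞ v) (ha : Axi v) (x : V) : lap (fun y => v y 0) x
    = x 0 * L5 (ff v) x - x 1 * L5 (gg v) x := by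
  have e : (fun y => v y 0) = fun y => (fun y : V => y 0 * ff v y) y - (fun y : V => y 1 * gg v y) y :=
    funext fun y => cmp0 hv ha y
  rw [e, lap_sub' ((sm_crd 0).mul (sm_ff hv)) ((sm_crd 1).mul (sm_gg hv)),
    lap_ci (inv_ff hv ha) (by decide), lap_ci (inv_gg hv ha) (by decide)]

lemma lap1 (hv : ContDiff ℝ ∞ v) (ha : Axi v) (x : V) : lap (fun y => v y 1) x
    = x 1 * L5 (ff v) x + x 0 * L5 (gg v) x := by
  have e : (fun y => v y 1) = fun y => (fun y : V => y 1 * ff v y) y + (fun y : V => y 0 * gg v y) y :=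
    funext fun y => cmp1 hv ha y
  rw [e, lap_add' ((sm_crd 1).mul (sm_ff hv)) ((sm_crd 0).mul (sm_gg hv)),
    lap_ci (inv_ff hv ha) (by decide), lap_ci (inv_gg hv ha) (by decide)]

end static

/-! ### time derivatives -/

section time
variable {T : ℝ} {F : ℝ → V → ℝ}

/-- the time derivative -/
noncomputable def td (F : ℝ → V → ℝ) (t : ℝ) (x : V) : ℝ := deriv (fun s => F s x) t

lemma pd_td (hF : JT 0 T F) {t : ℝ} (ht : t ∈ Ioo 0 T) (j : Fin 3) (x : V) :
    pd j (td F t) x = td (fun s => pd j (F s)) t x := (hF.comm ht x j).symm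

lemma JT.dlt (hF : JT 0 T F) : JT 0 T (fun t => dlt (F t)) :=
  JT.Av ((hF.pd 0).pd 0 |>.add ((hF.pd 1).pd 1)) 1

lemma td_congr {G : ℝ → V → ℝ} {t : ℝ} (ht : t ∈ Ioo 0 T) {x : V} (h : ∀ s ∈ Ioo 0 T, F s x = G s x) :
    td F t x = td G t x := by
  unfold td
  apply Filter.EventuallyEq.deriv_eq
  filter_upwards [Ioo_mem_nhds ht.1 ht.2] with s hs
  exact h s hs

lemma inv_td (hF : JT 0 T F) (hi : ∀ t ∈ Ioo 0 T, Inv (F t)) {t : ℝ} (ht : t ∈ Ioo 0 T) :
    Inv (td F t) := by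
  refine ⟨hF.dt.slice ht, fun x => ?_⟩
  unfold R
  rw [pd_td hF ht, pd_td hF ht]
  have h1 := ((hF.pd 1).hd ht x).const_mul (x 0)
  have h0 := ((hF.pd 0).hd ht x).const_mul (x 1)
  have h2 := h1.sub h0
  have h3 : HasDerivAt (fun _ : ℝ => (0 : ℝ)) (x 0 * td (fun s => pd 1 (F s)) t x
      - x 1 * td (fun s => pd 0 (F s)) t x) t := by
    refine h2.congr_of_eventuallyEq ?_
    filter_upwards [Ioo_mem_nhds ht.1 ht.2] with s hs
    exact ((hi s hs).inv x).symm
  exact h3.unique (hasDerivAt_const _ _)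

lemma dlt_td (hF : JT 0 T F) (hi : ∀ t ∈ Ioo 0 T, Inv (F t)) {t : ℝ} (ht : t ∈ Ioo 0 T) :
    dlt (td F t) = td (fun s => dlt (F s)) t := by
  refine dlt_uniq (hF.dt.slice ht) (inv_td hF hi ht) (hF.dlt.dt.slice ht).continuous (fun x => ?_)
    fun x => ?_
  · rw [pd_td hF ht, td_congr ht (G := fun s x => x 0 * dlt (F s) x) (fun s hs => (hi s hs).pd0 x)]
    exact ((hF.dlt.hd ht x).const_mul (x 0)).deriv
  · rw [pd_td hF ht, td_congr ht (G := fun s x => x 1 * dlt (F s) x) (fun s hs => (hi s hs).pd1 x)]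
    exact ((hF.dlt.hd ht x).const_mul (x 1)).deriv

end time

section sol
variable {T : ℝ} {u : ℝ → V → V} {p : ℝ → V → ℝ}

lemma jt_u (h : BSol 1 T u p) (i : Fin 3) : JT 0 T (fun t x => u t x i) := by
  have h1 : ContDiffOn ℝ ∞ (fun z : ℝ × V => u z.1 z.2) (Ioo 0 T ×ˢ univ) :=
    h.smooth_u.mono (prod_mono Ioo_subset_Ico_self le_rfl)
  exact contDiffOn_pi.1 h1 i

lemma jt_f (h : BSol 1 T u p) : JT 0 T (fun t => ff (u t)) :=
  JT.Av (((jt_u h 0).pd 0).add ((jt_u h 1).pd 1)) 1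

lemma jt_g (h : BSol 1 T u p) : JT 0 T (fun t => gg (u t)) :=
  JT.Av (((jt_u h 1).pd 0).sub ((jt_u h 0).pd 1)) 1

/-- the fixed time situation -/
theorem ft (h : BSol 1 T u p) {t : ℝ} (ht : t ∈ Ioo 0 T) :
    FT (ff (u t)) (gg (u t)) (fun y => u t y 2) (td (fun s => ff (u s)) t)
      (td (fun s => gg (u s)) t) (td (fun s y => u s y 2) t) (p t) := by
  have hI := Ioo_subset_Ico_self ht
  have hs : ∀ s ∈ Ioo 0 T, ContDiff ℝ ∞ (u s) := fun s hs => h.slice0 (Ioo_subset_Ico_self hs)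
  have ha : ∀ s ∈ Ioo 0 T, Axi (u s) := fun s hs => h.axi s (Ioo_subset_Ico_self hs)
  have hsp : ContDiff ℝ ∞ (p t) := by
    rw [← contDiffOn_univ]
    exact h.smooth_p.comp (f := fun x : V => (t, x)) (by fun_prop) (fun x _ => ⟨ht, mem_univ _⟩)
  have dF : ∀ x, HasDerivAt (fun s => ff (u s) x) (td (fun s => ff (u s)) t x) t :=
    fun x => (jt_f h).hd ht x
  have dG : ∀ x, HasDerivAt (fun s => gg (u s) x) (td (fun s => gg (u s)) t x) t :=
    fun x => (jt_g h).hd ht x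
  have mom : ∀ x i, deriv (fun s => u s x i) t + av (u t) (fun y => u t y i) x
      = lap (fun y => u t y i) x - pd i (p t) x := by
    intro x i
    have := h.momentum t ht x i
    rw [one_mul] at this
    exact this
  have d0 : ∀ x, deriv (fun s => u s x 0) t = x 0 * td (fun s => ff (u s)) t x
      - x 1 * td (fun s => gg (u s)) t x := by
    intro x
    have e := (((dF x).const_mul (x 0)).sub ((dG x).const_mul (x 1))).deriv
    rw [← e]
    apply Filter.EventuallyEq.deriv_eq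
    filter_upwards [Ioo_mem_nhds ht.1 ht.2] with s hs'
    exact cmp0 (hs s hs') (ha s hs') x
  have d1 : ∀ x, deriv (fun s => u s x 1) t = x 1 * td (fun s => ff (u s)) t x
      + x 0 * td (fun s => gg (u s)) t x := by
    intro x
    have e := (((dF x).const_mul (x 1)).add ((dG x).const_mul (x 0))).deriv
    rw [← e]
    apply Filter.EventuallyEq.deriv_eq
    filter_upwards [Ioo_mem_nhds ht.1 ht.2] with s hs'
    exact cmp1 (hs s hs') (ha s hs') x
  refine ⟨inv_ff (hs t ht) (ha t ht), inv_gg (hs t ht) (ha t ht), inv_h (hs t ht) (ha t ht),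
    inv_td (jt_f h) (fun s hs' => inv_ff (hs s hs') (ha s hs')) ht,
    inv_td (jt_g h) (fun s hs' => inv_gg (hs s hs') (ha s hs')) ht,
    inv_td (jt_u h 2) (fun s hs' => inv_h (hs s hs') (ha s hs')) ht, hsp, fun x => ?_, fun x => ?_,
    fun x => ?_, fun x => ?_⟩
  · have h1 := ff_ode (hs t ht) x
    have h2 := h.divfree t hI x
    rw [Fin.sum_univ_three] at h2
    rw [(inv_ff (hs t ht) (ha t ht)).D] at h1
    unfold dh at h1
    linarith
  · have m := mom x 0
    rw [d0, av0 (hs t ht) (ha t ht), lap0 (hs t ht) (ha t ht)] at m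
    linear_combination m
  · have m := mom x 1
    rw [d1, av1 (hs t ht) (ha t ht), lap1 (hs t ht) (ha t ht)] at m
    linear_combination m
  · have m := mom x 2
    rw [av_inv (hs t ht) (ha t ht) (inv_h (hs t ht) (ha t ht)), lap_L3 (inv_h (hs t ht) (ha t ht))] at m
    unfold td
    linear_combination m

end sol

end Pool.Agent.X96.AR
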